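import Mathlib

set_option autoImplicit false
set_option linter.unusedSectionVars false

/-! Hyperplane arrangements, logarithmic derivations and plus-one generated arrangements. -/

namespace Pool.Agent.X273.Arr

open MvPolynomial

variable {K : Type} [Field K] {l n : ℕ}

/-- The hyperplane `{x : ∑ j, a j * x j = 0}` in `K^l`. -/
def hyperplane (a : Fin l → K) : Submodule K (Fin l → K) where
  carrier := {x | ∑ j, a j * x j = 0}
  add_mem' := by
    intro x y hx hy
    simp only [Set.mem_ofPred_eq, Pi.add_apply, mul_add, Finset.sum_add_distrib] at hx hy ⊢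
    rw [hx, hy, add_zero]
  zero_mem' := by simp
  smul_mem' := by
    intro c x hx
    simp only [Set.mem_ofPred_eq, Pi.smul_apply, smul_eq_mul] at hx ⊢
    have : ∑ j, a j * (c * x j) = c * ∑ j, a j * x j := by
      rw [Finset.mul_sum]
      exact Finset.sum_congr rfl fun j _ => by ring
    rw [this, hx, mul_zero]

/-- `A` is the family of coefficient vectors of a central arrangement of `n` distinct
hyperplanes in `K^l`. -/
def IsArrangement (A : Fin n → Fin l → K) : Prop :=
  (∀ i, A i ≠ 0) ∧ Function.Injective fun i => hyperplane (A i)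

/-- The arrangement is essential: the hyperplanes meet only in the origin. -/
def Essential (A : Fin n → Fin l → K) : Prop := (⨅ i, hyperplane (A i)) = ⊥

/-- All intersections of subfamilies of the hyperplanes (the empty one being `K^l`). -/
def intersections (A : Fin n → Fin l → K) : Set (Submodule K (Fin l → K)) :=
  {W | ∃ s : Set (Fin n), W = ⨅ i ∈ s, hyperplane (A i)}

/-- The intersection lattice `L(A)`: all intersections, ordered by reverse inclusion. -/
abbrev Lattice (A : Fin n → Fin l → K) : Type := (intersections A)ᵒᵈ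

/-- The defining linear form `α = ∑ j, a j X_j` of the hyperplane with coefficient vector `a`. -/
noncomputable def form (a : Fin l → K) : MvPolynomial (Fin l) K := ∑ j, C (a j) * X j

/-- The module `D(A)` of logarithmic derivations: all `K`-linear derivations `θ` of the polynomial
ring `S = K[X_1, …, X_l]` such that `α` divides `θ(α)` for every defining form `α`. -/
noncomputable def logDer (A : Fin n → Fin l → K) :
    Submodule (MvPolynomial (Fin l) K)
      (Derivation K (MvPolynomial (Fin l) K) (MvPolynomial (Fin l) K)) where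
  carrier := {θ | ∀ i, form (A i) ∣ θ (form (A i))}
  add_mem' := fun {θ η} hθ hη i => by
    rw [Derivation.add_apply]
    exact dvd_add (hθ i) (hη i)
  zero_mem' := fun i => by rw [Derivation.zero_apply]; exact dvd_zero _
  smul_mem' := fun r θ hθ i => by
    rw [Derivation.smul_apply, smul_eq_mul]
    exact dvd_mul_of_dvd_right (hθ i) r

/-- A derivation `θ = ∑ f_j ∂_j` is homogeneous of degree `d` if every coefficient `f_j = θ(X_j)`
is homogeneous of degree `d`. -/
def IsHomDer (θ : Derivation K (MvPolynomial (Fin l) K) (MvPolynomial (Fin l) K)) (d : ℕ) : Prop :=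
  ∀ j, (θ (X j)).IsHomogeneous d

/-- The derivations `θ_1, …, θ_l, φ` and the map `1 ↦ (α, f_1, …, f_l)` form a minimal graded free
resolution `0 → S[-e-1] → S[-e] ⊕ ⨁ S[-d_i] → D(A) → 0`. -/
structure IsPOGResolution (A : Fin n → Fin l → K) (d : Fin l → ℕ) (e : ℕ)
    (θ : Fin l → Derivation K (MvPolynomial (Fin l) K) (MvPolynomial (Fin l) K))
    (φ : Derivation K (MvPolynomial (Fin l) K) (MvPolynomial (Fin l) K))
    (f : Fin l → MvPolynomial (Fin l) K) (α : MvPolynomial (Fin l) K) : Prop where
  /-- the `θ_i` are homogeneous elements of `D(A)` of degree `d_i` -/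
  mem : ∀ i, θ i ∈ logDer A
  hom : ∀ i, IsHomDer (θ i) (d i)
  /-- `φ` is a homogeneous element of `D(A)` of degree `e` -/
  mem' : φ ∈ logDer A
  hom' : IsHomDer φ e
  /-- `θ_1, …, θ_l, φ` generate `D(A)` -/
  gen : ∀ η ∈ logDer A, ∃ (a : Fin l → MvPolynomial (Fin l) K) (b : MvPolynomial (Fin l) K),
    η = ∑ i, a i • θ i + b • φ
  /-- the relation -/
  rel : ∑ i, f i • θ i + α • φ = 0
  /-- all relations are multiples of it -/
  all_rel : ∀ (a : Fin l → MvPolynomial (Fin l) K) (b : MvPolynomial (Fin l) K),
    ∑ i, a i • θ i + b • φ = 0 → ∃ h : MvPolynomial (Fin l) K, (∀ i, a i = h * f i) ∧ b = h * α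
  /-- the map `S[-e-1] → S[-e] ⊕ ⨁ S[-d_i]` is injective -/
  inj : ¬ ((∀ i, f i = 0) ∧ α = 0)
  /-- the map is graded: `f_i` is homogeneous of degree `e + 1 - d_i`, and `α` is a linear form -/
  deg_f : ∀ i, ∀ m ∈ (f i).support, m.degree + d i = e + 1
  deg_α : α.IsHomogeneous 1
  /-- minimality: the entries of the map lie in the maximal ideal -/
  minimal : ∀ i, constantCoeff (f i) = 0

/-- `A` is plus-one generated with exponents `d` and level `e`. -/
def IsPOG (A : Fin n → Fin l → K) (d : Fin l → ℕ) (e : ℕ) : Prop :=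
  ∃ θ φ f α, IsPOGResolution A d e θ φ f α

/-- `A` is strictly plus-one generated with exponents `d` and level `e`: there is a resolution as
above with `α ≠ 0`. -/
def IsStrictlyPOG (A : Fin n → Fin l → K) (d : Fin l → ℕ) (e : ℕ) : Prop :=
  ∃ θ φ f α, IsPOGResolution A d e θ φ f α ∧ α ≠ 0

end Pool.Agent.X273.Arr
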