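import Mathlib

set_option autoImplicit false
set_option linter.unusedSectionVars false

/-! Linear forms in polynomial rings over a field: they are prime. -/

namespace Pool.Agent.X273

open MvPolynomial

variable {K : Type*} [Field K] {l : ℕ}

/-- the linear form `∑ a_j X_j` -/
noncomputable def lf (a : Fin l → K) : MvPolynomial (Fin l) K := ∑ j, C (a j) * X j

lemma lf_hom (a : Fin l → K) : (lf a).IsHomogeneous 1 := by
  refine IsHomogeneous.sum _ _ _ fun j _ => ?_
  exact isHomogeneous_C_mul_X _ _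

lemma coeff_lf (a : Fin l → K) (j : Fin l) : coeff (Finsupp.single j 1) (lf a) = a j := by
  classical
  simp only [lf, coeff_sum, coeff_C_mul, coeff_X', Finsupp.single_left_inj one_ne_zero]
  simp

lemma lf_injective : Function.Injective (lf : (Fin l → K) → MvPolynomial (Fin l) K) := by
  intro a b h
  ext j
  rw [← coeff_lf a j, ← coeff_lf b j, h]

lemma lf_ne_zero {a : Fin l → K} (ha : a ≠ 0) : lf a ≠ 0 := by
  intro h
  apply ha
  apply lf_injective
  rw [h]
  simp [lf]

lemma lf_smul (c : K) (a : Fin l → K) : lf (c • a) = C c * lf a := by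
  simp only [lf, Finset.mul_sum, Pi.smul_apply, smul_eq_mul, C_mul, mul_assoc]

/-- substitution replacing the variable `j₀` by `p` -/
noncomputable def subst (j₀ : Fin l) (p : MvPolynomial (Fin l) K) :
    MvPolynomial (Fin l) K →ₐ[K] MvPolynomial (Fin l) K :=
  aeval (fun j => if j = j₀ then p else X j)

lemma subst_X (j₀ : Fin l) (p : MvPolynomial (Fin l) K) (j : Fin l) :
    subst j₀ p (X j) = if j = j₀ then p else X j := by
  simp [subst]

lemma subst_C (j₀ : Fin l) (p : MvPolynomial (Fin l) K) (c : K) :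
    subst j₀ p (C c) = C c := by
  simp [subst]

/-- the linear change of coordinates sending `X j₀` to `lf a` -/
noncomputable def chg (a : Fin l → K) (j₀ : Fin l) (h : a j₀ ≠ 0) :
    MvPolynomial (Fin l) K ≃ₐ[K] MvPolynomial (Fin l) K :=
  AlgEquiv.ofAlgHom (subst j₀ (lf a))
    (subst j₀ (C (a j₀)⁻¹ * (X j₀ - ∑ j ∈ Finset.univ.erase j₀, C (a j) * X j)))
    (by
      apply MvPolynomial.algHom_ext
      intro j
      simp only [AlgHom.comp_apply, subst_X, AlgHom.id_apply]
      split_ifs with hj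
      · subst hj
        rw [map_mul, subst_C, map_sub, subst_X, if_pos rfl, map_sum]
        have e : ∑ x ∈ Finset.univ.erase j, subst j (lf a) (C (a x) * X x) =
            ∑ x ∈ Finset.univ.erase j, C (a x) * X x := by
          refine Finset.sum_congr rfl fun x hx => ?_
          rw [map_mul, subst_C, subst_X, if_neg (Finset.ne_of_mem_erase hx)]
        rw [e, lf, ← Finset.add_sum_erase _ _ (Finset.mem_univ j), add_sub_cancel_right,
          ← mul_assoc, ← C_mul, inv_mul_cancel₀ h, C_1, one_mul]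
      · rw [subst_X, if_neg hj])
    (by
      apply MvPolynomial.algHom_ext
      intro j
      simp only [AlgHom.comp_apply, subst_X, AlgHom.id_apply]
      split_ifs with hj
      · subst hj
        rw [lf, map_sum, ← Finset.add_sum_erase _ _ (Finset.mem_univ j), map_mul, subst_C,
          subst_X, if_pos rfl]
        have e : ∑ x ∈ Finset.univ.erase j, subst j (C (a j)⁻¹ * (X j - ∑ j' ∈ Finset.univ.erase j,
            C (a j') * X j')) (C (a x) * X x) = ∑ x ∈ Finset.univ.erase j, C (a x) * X x := by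
          refine Finset.sum_congr rfl fun x hx => ?_
          rw [map_mul, subst_C, subst_X, if_neg (Finset.ne_of_mem_erase hx)]
        rw [e, ← mul_assoc, ← C_mul, mul_inv_cancel₀ h, C_1, one_mul, sub_add_cancel]
      · rw [subst_X, if_neg hj])

lemma chg_X (a : Fin l → K) (j₀ : Fin l) (h : a j₀ ≠ 0) : chg a j₀ h (X j₀) = lf a := by
  show subst j₀ (lf a) (X j₀) = lf a
  rw [subst_X, if_pos rfl]

lemma lf_prime {a : Fin l → K} (ha : a ≠ 0) : Prime (lf a) := by
  obtain ⟨j₀, h⟩ : ∃ j, a j ≠ 0 := by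
    by_contra hc
    push Not at hc
    exact ha (funext hc)
  rw [← chg_X a j₀ h]
  exact (MulEquiv.prime_iff (chg a j₀ h).toMulEquiv).2 (X_prime)

lemma lf_dvd_lf {a b : Fin l → K} (hb : b ≠ 0) (h : lf a ∣ lf b) : ∃ c : K, b = c • a := by
  obtain ⟨q, hq⟩ := h
  have hb' := lf_ne_zero hb
  have ha' : lf a ≠ 0 := by
    rintro h0
    rw [h0, zero_mul] at hq
    exact hb' hq
  have hq0 : q ≠ 0 := by
    rintro rfl
    rw [mul_zero] at hq
    exact hb' hq
  have h1 := (lf_hom b).totalDegree hb'
  rw [hq, totalDegree_mul_of_isDomain ha' hq0, (lf_hom a).totalDegree ha'] at h1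
  have h2 : q.totalDegree = 0 := by omega
  rw [totalDegree_eq_zero_iff_eq_C] at h2
  refine ⟨coeff 0 q, lf_injective ?_⟩
  rw [lf_smul, hq, mul_comm]
  congr 1

/-- three pairwise non-dividing primes -/
lemma three_dvd {R : Type*} [CommRing R] [IsDomain R] {p q r u : R} (hq : Prime q) (hr : Prime r)
    (hqp : ¬ q ∣ p) (hrp : ¬ r ∣ p) (hrq : ¬ r ∣ q) (h1 : p ∣ u) (h2 : q ∣ u) (h3 : r ∣ u) :
    p * q * r ∣ u := by
  obtain ⟨v, rfl⟩ := h1
  obtain ⟨w, rfl⟩ := (hq.dvd_or_dvd h2).resolve_left hqp
  obtain ⟨s, rfl⟩ := (hr.dvd_or_dvd ((hr.dvd_or_dvd h3).resolve_left hrp)).resolve_left hrq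
  exact ⟨s, by ring⟩

end Pool.Agent.X273
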