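import Mathlib
import Pool.Agent.X273.ArrDefs
import Pool.Agent.X273.Lin

set_option autoImplicit false
set_option linter.unusedSectionVars false

/-! Logarithmic derivations of the triangular arrangements of twelve lines
`x y z (x² - y²) (x - t y) (y² - z²) (y - t z) (z - x) (t² z² - x²)`. -/

namespace Pool.Agent.X273.Tri

open MvPolynomial Pool.Agent.X273.Arr

variable {K : Type} [Field K]

/-- the twelve lines -/
def tri (t : K) : Fin 12 → Fin 3 → K :=
  ![![1, 0, 0], ![0, 1, 0], ![0, 0, 1],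
    ![1, -1, 0], ![1, 1, 0], ![1, -t, 0],
    ![0, 1, -1], ![0, 1, 1], ![0, 1, -t],
    ![-1, 0, 1], ![-1, 0, t], ![1, 0, t]]

abbrev S (K : Type) [Field K] := MvPolynomial (Fin 3) K

noncomputable def P1 (t : K) : S K := (X 0 - X 1) * (X 0 + X 1) * (X 0 - C t * X 1)
noncomputable def P2 (t : K) : S K := (X 1 - X 2) * (X 1 + X 2) * (X 1 - C t * X 2)
noncomputable def P3 (t : K) : S K := (X 2 - X 0) * (C t * X 2 - X 0) * (C t * X 2 + X 0)

/-- the derivation attached to `(g, B2, B3)` -/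
noncomputable def der (t : K) (g B2 B3 : S K) : Derivation K (S K) (S K) :=
  mkDerivation K ![X 0 * (g - P3 t * B3), X 1 * (g + P2 t * B2), X 2 * g]

lemma der_X0 (t : K) (g B2 B3 : S K) : der t g B2 B3 (X 0) = X 0 * (g - P3 t * B3) := by
  simp [der, mkDerivation_X]
lemma der_X1 (t : K) (g B2 B3 : S K) : der t g B2 B3 (X 1) = X 1 * (g + P2 t * B2) := by
  simp [der, mkDerivation_X]
lemma der_X2 (t : K) (g B2 B3 : S K) : der t g B2 B3 (X 2) = X 2 * g := by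
  simp [der, mkDerivation_X]

lemma der_form (θ : Derivation K (S K) (S K)) (a : Fin 3 → K) :
    θ (form a) = C (a 0) * θ (X 0) + C (a 1) * θ (X 1) + C (a 2) * θ (X 2) := by
  rw [form, map_sum, Fin.sum_univ_three]
  simp only [Derivation.leibniz, derivation_C, mul_zero, add_zero, smul_eq_mul]

lemma form3 (a b c : K) : (form ![a, b, c] : S K) = C a * X 0 + C b * X 1 + C c * X 2 := by
  rw [form, Fin.sum_univ_three]
  rfl

lemma ne0 {a : Fin 3 → K} (j : Fin 3) (h : a j ≠ 0) : a ≠ 0 := fun h0 => h (by rw [h0]; rfl)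

lemma ndvd {a b : Fin 3 → K} (hb : b ≠ 0) (h : ∀ c : K, b ≠ c • a) : ¬ form a ∣ form b := by
  intro hd
  obtain ⟨c, hc⟩ := lf_dvd_lf hb hd
  exact h c hc

lemma fprime {a : Fin 3 → K} (ha : a ≠ 0) : Prime (form a) := lf_prime ha

section

variable {t : K}

lemma e0 : (form ![1, 0, 0] : S K) = X 0 := by rw [form3]; simp
lemma e1 : (form ![0, 1, 0] : S K) = X 1 := by rw [form3]; simp
lemma e2 : (form ![0, 0, 1] : S K) = X 2 := by rw [form3]; simp
lemma e3 : (form ![1, -1, 0] : S K) = X 0 - X 1 := by rw [form3]; simp; ring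
lemma e4 : (form ![1, 1, 0] : S K) = X 0 + X 1 := by rw [form3]; simp
lemma e5 (t : K) : (form ![1, -t, 0] : S K) = X 0 - C t * X 1 := by rw [form3]; simp; ring
lemma e6 : (form ![0, 1, -1] : S K) = X 1 - X 2 := by rw [form3]; simp; ring
lemma e7 : (form ![0, 1, 1] : S K) = X 1 + X 2 := by rw [form3]; simp
lemma e8 (t : K) : (form ![0, 1, -t] : S K) = X 1 - C t * X 2 := by rw [form3]; simp; ring
lemma e9 : (form ![-1, 0, 1] : S K) = X 2 - X 0 := by rw [form3]; simp; ring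
lemma e10 (t : K) : (form ![-1, 0, t] : S K) = C t * X 2 - X 0 := by rw [form3]; simp; ring
lemma e11 (t : K) : (form ![1, 0, t] : S K) = C t * X 2 + X 0 := by rw [form3]; simp; ring

/-- membership in `D` in terms of the twelve forms -/
lemma mem_iff (θ : Derivation K (S K) (S K)) : θ ∈ logDer (tri t) ↔
    (X 0 ∣ θ (X 0)) ∧ (X 1 ∣ θ (X 1)) ∧ (X 2 ∣ θ (X 2)) ∧
    ((X 0 - X 1) ∣ θ (X 0) - θ (X 1)) ∧ ((X 0 + X 1) ∣ θ (X 0) + θ (X 1)) ∧
    ((X 0 - C t * X 1) ∣ θ (X 0) - C t * θ (X 1)) ∧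
    ((X 1 - X 2) ∣ θ (X 1) - θ (X 2)) ∧ ((X 1 + X 2) ∣ θ (X 1) + θ (X 2)) ∧
    ((X 1 - C t * X 2) ∣ θ (X 1) - C t * θ (X 2)) ∧
    ((X 2 - X 0) ∣ θ (X 2) - θ (X 0)) ∧ ((C t * X 2 - X 0) ∣ C t * θ (X 2) - θ (X 0)) ∧
    ((C t * X 2 + X 0) ∣ C t * θ (X 2) + θ (X 0)) := by
  have h0 : θ ∈ logDer (tri t) ↔ ∀ i, form (tri t i) ∣ θ (form (tri t i)) := Iff.rfl
  rw [h0]
  have hx : ∀ (θ : Derivation K (S K) (S K)) (c : K) (p : S K), θ (C c * p) = C c * θ p := by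
    intro θ c p
    simp only [Derivation.leibniz, derivation_C, mul_zero, add_zero, smul_eq_mul]
  constructor
  · intro h
    have g0 := h 0; have g1 := h 1; have g2 := h 2; have g3 := h 3; have g4 := h 4
    have g5 := h 5; have g6 := h 6; have g7 := h 7; have g8 := h 8; have g9 := h 9
    have g10 := h 10; have g11 := h 11
    simp only [tri, Matrix.cons_val] at g0 g1 g2 g3 g4 g5 g6 g7 g8 g9 g10 g11
    rw [e0] at g0; rw [e1] at g1; rw [e2] at g2; rw [e3, map_sub] at g3; rw [e4, map_add] at g4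
    rw [e5, map_sub, hx] at g5; rw [e6, map_sub] at g6; rw [e7, map_add] at g7
    rw [e8, map_sub, hx] at g8; rw [e9, map_sub] at g9; rw [e10, map_sub, hx] at g10
    rw [e11, map_add, hx] at g11
    exact ⟨g0, g1, g2, g3, g4, g5, g6, g7, g8, g9, g10, g11⟩
  · rintro ⟨g0, g1, g2, g3, g4, g5, g6, g7, g8, g9, g10, g11⟩ i
    fin_cases i
    · show form ![1, 0, 0] ∣ θ (form ![1, 0, 0]); rw [e0]; exact g0
    · show form ![0, 1, 0] ∣ θ (form ![0, 1, 0]); rw [e1]; exact g1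
    · show form ![0, 0, 1] ∣ θ (form ![0, 0, 1]); rw [e2]; exact g2
    · show form ![1, -1, 0] ∣ θ (form ![1, -1, 0]); rw [e3, map_sub]; exact g3
    · show form ![1, 1, 0] ∣ θ (form ![1, 1, 0]); rw [e4, map_add]; exact g4
    · show form ![1, -t, 0] ∣ θ (form ![1, -t, 0]); rw [e5, map_sub, hx]; exact g5
    · show form ![0, 1, -1] ∣ θ (form ![0, 1, -1]); rw [e6, map_sub]; exact g6
    · show form ![0, 1, 1] ∣ θ (form ![0, 1, 1]); rw [e7, map_add]; exact g7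
    · show form ![0, 1, -t] ∣ θ (form ![0, 1, -t]); rw [e8, map_sub, hx]; exact g8
    · show form ![-1, 0, 1] ∣ θ (form ![-1, 0, 1]); rw [e9, map_sub]; exact g9
    · show form ![-1, 0, t] ∣ θ (form ![-1, 0, t]); rw [e10, map_sub, hx]; exact g10
    · show form ![1, 0, t] ∣ θ (form ![1, 0, t]); rw [e11, map_add, hx]; exact g11

lemma smul_ne {a b : Fin 3 → K} (i j : Fin 3) (h : a i * b j ≠ a j * b i) (c : K) : b ≠ c • a := by
  rintro rfl
  apply h
  simp only [Pi.smul_apply, smul_eq_mul]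
  ring

lemma P1_dvd (h2 : (2 : K) ≠ 0) (ht1 : t ≠ 1) (htm : t ≠ -1) {u : S K}
    (ha : (X 0 - X 1) ∣ u) (hb : (X 0 + X 1) ∣ u) (hc : (X 0 - C t * X 1) ∣ u) : P1 t ∣ u := by
  unfold P1
  rw [← e3] at ha ⊢; rw [← e4] at hb ⊢; rw [← e5] at hc ⊢
  refine three_dvd (fprime (ne0 0 one_ne_zero)) (fprime (ne0 0 one_ne_zero)) ?_ ?_ ?_ ha hb hc
  · refine ndvd (ne0 0 one_ne_zero) (smul_ne 0 1 ?_)
    simp only [Matrix.cons_val]
    intro h
    apply h2
    linear_combination -h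
  · refine ndvd (ne0 0 one_ne_zero) (smul_ne 0 1 ?_)
    simp only [Matrix.cons_val]
    intro h
    apply ht1
    linear_combination h
  · refine ndvd (ne0 0 one_ne_zero) (smul_ne 0 1 ?_)
    simp only [Matrix.cons_val]
    intro h
    apply htm
    linear_combination h

lemma P2_dvd (h2 : (2 : K) ≠ 0) (ht1 : t ≠ 1) (htm : t ≠ -1) {u : S K}
    (ha : (X 1 - X 2) ∣ u) (hb : (X 1 + X 2) ∣ u) (hc : (X 1 - C t * X 2) ∣ u) : P2 t ∣ u := by
  unfold P2
  rw [← e6] at ha ⊢; rw [← e7] at hb ⊢; rw [← e8] at hc ⊢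
  refine three_dvd (fprime (ne0 1 one_ne_zero)) (fprime (ne0 1 one_ne_zero)) ?_ ?_ ?_ ha hb hc
  · refine ndvd (ne0 1 one_ne_zero) (smul_ne 1 2 ?_)
    simp only [Matrix.cons_val]
    intro h
    apply h2
    linear_combination -h
  · refine ndvd (ne0 1 one_ne_zero) (smul_ne 1 2 ?_)
    simp only [Matrix.cons_val]
    intro h
    apply ht1
    linear_combination h
  · refine ndvd (ne0 1 one_ne_zero) (smul_ne 1 2 ?_)
    simp only [Matrix.cons_val]
    intro h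
    apply htm
    linear_combination h

lemma P3_dvd (h2 : (2 : K) ≠ 0) (ht0 : t ≠ 0) (ht1 : t ≠ 1) (htm : t ≠ -1) {u : S K}
    (ha : (X 2 - X 0) ∣ u) (hb : (C t * X 2 - X 0) ∣ u) (hc : (C t * X 2 + X 0) ∣ u) :
    P3 t ∣ u := by
  unfold P3
  rw [← e9] at ha ⊢; rw [← e10] at hb ⊢; rw [← e11] at hc ⊢
  refine three_dvd (fprime (ne0 2 ht0)) (fprime (ne0 2 ht0)) ?_ ?_ ?_ ha hb hc
  · refine ndvd (ne0 2 one_ne_zero) (smul_ne 0 2 ?_)
    simp only [Matrix.cons_val]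
    intro h
    apply ht1
    linear_combination h
  · refine ndvd (ne0 2 one_ne_zero) (smul_ne 0 2 ?_)
    simp only [Matrix.cons_val]
    intro h
    apply htm
    linear_combination h
  · refine ndvd (ne0 2 ht0) (smul_ne 0 2 ?_)
    simp only [Matrix.cons_val]
    intro h
    have : (2 : K) * t = 0 := by linear_combination h
    rcases mul_eq_zero.1 this with h | h
    · exact h2 h
    · exact ht0 h

lemma X_ndvd (i : Fin 3) {a : Fin 3 → K} (j k : Fin 3) (hjk : j ≠ k) (hj : a j ≠ 0) (hk : a k ≠ 0) :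
    ¬ form a ∣ (X i : S K) := by
  have e : (X i : S K) = form (Pi.single i 1) := by
    rw [form, Finset.sum_eq_single i]
    · simp
    · intro b _ hb
      simp [hb]
    · simp
  rw [e]
  refine ndvd (ne0 i (by simp)) fun c h => ?_
  have h1 := congrFun h j
  have h2 := congrFun h k
  simp only [Pi.smul_apply, smul_eq_mul, Pi.single_apply] at h1 h2
  have hc : c ≠ 0 := by
    rintro rfl
    have := congrFun h i
    simp at this
  by_cases hji : j = i
  · have hki : k ≠ i := fun h => hjk (hji.trans h.symm)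
    rw [if_neg hki] at h2
    exact mul_ne_zero hc hk h2.symm
  · rw [if_neg hji] at h1
    exact mul_ne_zero hc hj h1.symm

/-- the structure of the logarithmic derivations -/
lemma struct (h2 : (2 : K) ≠ 0) (ht0 : t ≠ 0) (ht1 : t ≠ 1) (htm : t ≠ -1)
    {θ : Derivation K (S K) (S K)} (hθ : θ ∈ logDer (tri t)) :
    ∃ g B1 B2 B3 : S K, B1 * P1 t + B2 * P2 t + B3 * P3 t = 0 ∧ θ = der t g B2 B3 := by
  obtain ⟨⟨f0, h0⟩, ⟨f1, h1⟩, ⟨f2, h2'⟩, h3, h4, h5, h6, h7, h8, h9, h10, h11⟩ :=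
    (mem_iff θ).1 hθ
  rw [h0, h1] at h3 h4 h5
  rw [h1, h2'] at h6 h7 h8
  rw [h2', h0] at h9 h10 h11
  have key : ∀ {a : Fin 3 → K} (ha : a ≠ 0) (i : Fin 3) (c : K) (hc : c ≠ 0)
      (hn : ¬ form a ∣ (X i : S K)) {v w : S K} (hv : form a ∣ v) (hw : v = C c * X i * w),
      form a ∣ w := by
    intro a ha i c hc hn v w hv hw
    have h1 : form a ∣ X i * w := by
      have : X i * w = C c⁻¹ * v := by
        rw [hw, ← mul_assoc, ← mul_assoc, ← C_mul, inv_mul_cancel₀ hc, C_1, one_mul]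
      rw [this]
      exact Dvd.dvd.mul_left hv _
    exact ((fprime ha).dvd_or_dvd h1).resolve_left hn
  have hmt : -t ≠ 0 := neg_ne_zero.2 ht0
  obtain ⟨B1, hB1⟩ : P1 t ∣ f0 - f1 := by
    refine P1_dvd h2 ht1 htm ?_ ?_ ?_
    · rw [← e3] at h3 ⊢
      refine key (ne0 0 one_ne_zero) 1 1 one_ne_zero
        (X_ndvd 1 0 1 (by decide) one_ne_zero (neg_ne_zero.2 one_ne_zero))
        (dvd_sub h3 (Dvd.intro f0 rfl)) ?_
      rw [e3, C_1]
      ring
    · rw [← e4] at h4 ⊢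
      refine key (ne0 0 one_ne_zero) 1 (-1) (neg_ne_zero.2 one_ne_zero)
        (X_ndvd 1 0 1 (by decide) one_ne_zero one_ne_zero)
        (dvd_sub h4 (Dvd.intro f0 rfl)) ?_
      rw [e4, C_neg, C_1]
      ring
    · rw [← e5] at h5 ⊢
      refine key (ne0 0 one_ne_zero) 1 t ht0
        (X_ndvd 1 0 1 (by decide) one_ne_zero hmt)
        (dvd_sub h5 (Dvd.intro f0 rfl)) ?_
      rw [e5]
      ring
  obtain ⟨B2, hB2⟩ : P2 t ∣ f1 - f2 := by
    refine P2_dvd h2 ht1 htm ?_ ?_ ?_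
    · rw [← e6] at h6 ⊢
      refine key (ne0 1 one_ne_zero) 2 1 one_ne_zero
        (X_ndvd 2 1 2 (by decide) one_ne_zero (neg_ne_zero.2 one_ne_zero))
        (dvd_sub h6 (Dvd.intro f1 rfl)) ?_
      rw [e6, C_1]
      ring
    · rw [← e7] at h7 ⊢
      refine key (ne0 1 one_ne_zero) 2 (-1) (neg_ne_zero.2 one_ne_zero)
        (X_ndvd 2 1 2 (by decide) one_ne_zero one_ne_zero)
        (dvd_sub h7 (Dvd.intro f1 rfl)) ?_
      rw [e7, C_neg, C_1]
      ring
    · rw [← e8] at h8 ⊢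
      refine key (ne0 1 one_ne_zero) 2 t ht0
        (X_ndvd 2 1 2 (by decide) one_ne_zero hmt)
        (dvd_sub h8 (Dvd.intro f1 rfl)) ?_
      rw [e8]
      ring
  obtain ⟨B3, hB3⟩ : P3 t ∣ f2 - f0 := by
    refine P3_dvd h2 ht0 ht1 htm ?_ ?_ ?_
    · rw [← e9] at h9 ⊢
      refine key (ne0 2 one_ne_zero) 0 1 one_ne_zero
        (X_ndvd 0 0 2 (by decide) (neg_ne_zero.2 one_ne_zero) one_ne_zero)
        (dvd_sub h9 (Dvd.intro f2 rfl)) ?_
      rw [e9, C_1]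
      ring
    · rw [← e10] at h10 ⊢
      refine key (ne0 2 ht0) 0 1 one_ne_zero
        (X_ndvd 0 0 2 (by decide) (neg_ne_zero.2 one_ne_zero) ht0)
        (dvd_sub h10 (Dvd.intro f2 rfl)) ?_
      rw [e10, C_1]
      ring
    · rw [← e11] at h11 ⊢
      refine key (ne0 2 ht0) 0 (-1) (neg_ne_zero.2 one_ne_zero)
        (X_ndvd 0 0 2 (by decide) one_ne_zero ht0)
        (dvd_sub h11 (Dvd.intro f2 rfl)) ?_
      rw [e11, C_neg, C_1]
      ring
  refine ⟨f2, B1, B2, B3, by linear_combination -hB1 - hB2 - hB3, ?_⟩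
  apply derivation_ext
  intro i
  fin_cases i
  · show θ (X 0) = der t f2 B2 B3 (X 0)
    rw [der_X0, h0]
    linear_combination (-X 0) * hB3
  · show θ (X 1) = der t f2 B2 B3 (X 1)
    rw [der_X1, h1]
    linear_combination (X 1) * hB2
  · show θ (X 2) = der t f2 B2 B3 (X 2)
    rw [der_X2, h2']

lemma der_mem {g B1 B2 B3 : S K} (h : B1 * P1 t + B2 * P2 t + B3 * P3 t = 0) :
    der t g B2 B3 ∈ logDer (tri t) := by
  rw [mem_iff, der_X0, der_X1, der_X2]
  have e1 : -(P3 t * B3) = B1 * P1 t + B2 * P2 t := by linear_combination -h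
  have d1 : (X 0 - X 1) ∣ P1 t := ⟨(X 0 + X 1) * (X 0 - C t * X 1), by unfold P1; ring⟩
  have d2 : (X 0 + X 1) ∣ P1 t := ⟨(X 0 - X 1) * (X 0 - C t * X 1), by unfold P1; ring⟩
  have d3 : (X 0 - C t * X 1) ∣ P1 t := ⟨(X 0 - X 1) * (X 0 + X 1), by unfold P1; ring⟩
  have d4 : (X 1 - X 2) ∣ P2 t := ⟨(X 1 + X 2) * (X 1 - C t * X 2), by unfold P2; ring⟩
  have d5 : (X 1 + X 2) ∣ P2 t := ⟨(X 1 - X 2) * (X 1 - C t * X 2), by unfold P2; ring⟩
  have d6 : (X 1 - C t * X 2) ∣ P2 t := ⟨(X 1 - X 2) * (X 1 + X 2), by unfold P2; ring⟩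
  have d7 : (X 2 - X 0) ∣ P3 t := ⟨(C t * X 2 - X 0) * (C t * X 2 + X 0), by unfold P3; ring⟩
  have d8 : (C t * X 2 - X 0) ∣ P3 t := ⟨(X 2 - X 0) * (C t * X 2 + X 0), by unfold P3; ring⟩
  have d9 : (C t * X 2 + X 0) ∣ P3 t := ⟨(X 2 - X 0) * (C t * X 2 - X 0), by unfold P3; ring⟩
  refine ⟨Dvd.intro _ rfl, Dvd.intro _ rfl, Dvd.intro _ rfl, ?_, ?_, ?_, ?_, ?_, ?_, ?_, ?_, ?_⟩
  · have : X 0 * (g - P3 t * B3) - X 1 * (g + P2 t * B2) =
        (X 0 - X 1) * (g + P2 t * B2) + P1 t * (X 0 * B1) := by linear_combination (X 0) * e1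
    rw [this]
    exact dvd_add (Dvd.intro _ rfl) (Dvd.dvd.mul_right d1 _)
  · have : X 0 * (g - P3 t * B3) + X 1 * (g + P2 t * B2) =
        (X 0 + X 1) * (g + P2 t * B2) + P1 t * (X 0 * B1) := by linear_combination (X 0) * e1
    rw [this]
    exact dvd_add (Dvd.intro _ rfl) (Dvd.dvd.mul_right d2 _)
  · have : X 0 * (g - P3 t * B3) - C t * (X 1 * (g + P2 t * B2)) =
        (X 0 - C t * X 1) * (g + P2 t * B2) + P1 t * (X 0 * B1) := by
      linear_combination (X 0) * e1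
    rw [this]
    exact dvd_add (Dvd.intro _ rfl) (Dvd.dvd.mul_right d3 _)
  · have : X 1 * (g + P2 t * B2) - X 2 * g = (X 1 - X 2) * g + P2 t * (X 1 * B2) := by ring
    rw [this]
    exact dvd_add (Dvd.intro _ rfl) (Dvd.dvd.mul_right d4 _)
  · have : X 1 * (g + P2 t * B2) + X 2 * g = (X 1 + X 2) * g + P2 t * (X 1 * B2) := by ring
    rw [this]
    exact dvd_add (Dvd.intro _ rfl) (Dvd.dvd.mul_right d5 _)
  · have : X 1 * (g + P2 t * B2) - C t * (X 2 * g) =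
        (X 1 - C t * X 2) * g + P2 t * (X 1 * B2) := by ring
    rw [this]
    exact dvd_add (Dvd.intro _ rfl) (Dvd.dvd.mul_right d6 _)
  · have : X 2 * g - X 0 * (g - P3 t * B3) = (X 2 - X 0) * g + P3 t * (X 0 * B3) := by ring
    rw [this]
    exact dvd_add (Dvd.intro _ rfl) (Dvd.dvd.mul_right d7 _)
  · have : C t * (X 2 * g) - X 0 * (g - P3 t * B3) =
        (C t * X 2 - X 0) * g + P3 t * (X 0 * B3) := by ring
    rw [this]
    exact dvd_add (Dvd.intro _ rfl) (Dvd.dvd.mul_right d8 _)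
  · have : C t * (X 2 * g) + X 0 * (g - P3 t * B3) =
        (C t * X 2 + X 0) * g + P3 t * (-(X 0 * B3)) := by ring
    rw [this]
    exact dvd_add (Dvd.intro _ rfl) (Dvd.dvd.mul_right d9 _)

end

end Pool.Agent.X273.Tri
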