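import Mathlib
import Pool.Agent.H158R3.Lat
import Pool.Agent.X273.Tri

set_option autoImplicit false
set_option linter.unusedSectionVars false

/-! The intersection lattices of the triangular arrangements do not depend on the parameter. -/

namespace Pool.Agent.X273.Tri

open Pool.Agent.X273.Arr Pool.Agent.H158R3

variable {K : Type} [Field K]

/-- integer polynomials of degree at most three, as tuples of coefficients -/
abbrev Pl : Type := ℤ × ℤ × ℤ × ℤ

/-- value of a polynomial -/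
def ev (t : K) (p : Pl) : K := p.1 + p.2.1 * t + p.2.2.1 * t ^ 2 + p.2.2.2 * t ^ 3

/-- value of a linear polynomial `(a, b)`, i.e. `a + b t` -/
def ev1 (t : K) (p : ℤ × ℤ) : K := p.1 + p.2 * t

/-- product of three linear polynomials -/
def pr (p q r : ℤ × ℤ) : Pl :=
  (p.1 * q.1 * r.1, p.2 * q.1 * r.1 + p.1 * q.2 * r.1 + p.1 * q.1 * r.2,
    p.2 * q.2 * r.1 + p.2 * q.1 * r.2 + p.1 * q.2 * r.2, p.2 * q.2 * r.2)

lemma ev_pr (t : K) (p q r : ℤ × ℤ) : ev t (pr p q r) = ev1 t p * ev1 t q * ev1 t r := by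
  simp only [ev, pr, ev1]
  push_cast
  ring

lemma ev_sub (t : K) (p q : Pl) : ev t (p - q) = ev t p - ev t q := by
  simp only [ev, Prod.fst_sub, Prod.snd_sub]
  push_cast
  ring

lemma ev_add (t : K) (p q : Pl) : ev t (p + q) = ev t p + ev t q := by
  simp only [ev, Prod.fst_add, Prod.snd_add]
  push_cast
  ring

lemma ev_zero (t : K) : ev t 0 = 0 := by
  simp [ev]

/-- the linear factors which may occur -/
def lfac : List (ℤ × ℤ) := [(1, 0), (-1, 0), (2, 0), (0, 1), (-1, 1), (1, 1)]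

lemma ev_lfac {t : K} (h2 : (2 : K) ≠ 0) (ht0 : t ≠ 0) (ht1 : t ≠ 1) (htm : t ≠ -1) {p : ℤ × ℤ}
    (hp : p ∈ lfac) : ev1 t p ≠ 0 := by
  simp only [lfac, List.mem_cons, List.not_mem_nil, or_false] at hp
  rcases hp with rfl | rfl | rfl | rfl | rfl | rfl
  · simp [ev1]
  · simp [ev1]
  · simpa [ev1] using h2
  · simpa [ev1] using ht0
  · intro h
    simp only [ev1] at h
    push_cast at h
    exact ht1 (by linear_combination h)
  · intro h
    simp only [ev1] at h
    push_cast at h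
    exact htm (by linear_combination h)

/-- the possible nonzero values -/
def nzl : List Pl :=
  (lfac.flatMap fun p => lfac.flatMap fun q => lfac.flatMap fun r => [pr p q r, -pr p q r]).dedup

/-- the polynomial is a product of admissible factors, up to sign -/
def Nz (p : Pl) : Prop := p ∈ nzl

instance (p : Pl) : Decidable (Nz p) := by unfold Nz; infer_instance

lemma ev_neg (t : K) (p : Pl) : ev t (-p) = -ev t p := by
  simp only [ev, Prod.fst_neg, Prod.snd_neg]
  push_cast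
  ring

lemma ev_nz {t : K} (h2 : (2 : K) ≠ 0) (ht0 : t ≠ 0) (ht1 : t ≠ 1) (htm : t ≠ -1) {p : Pl}
    (hp : Nz p) : ev t p ≠ 0 := by
  unfold Nz nzl at hp
  rw [List.mem_dedup] at hp
  simp only [List.mem_flatMap, List.mem_cons, List.not_mem_nil, or_false] at hp
  obtain ⟨a, ha, b, hb, c, hc, h⟩ := hp
  have h0 : ev t (pr a b c) ≠ 0 := by
    rw [ev_pr]
    exact mul_ne_zero (mul_ne_zero (ev_lfac h2 ht0 ht1 htm ha) (ev_lfac h2 ht0 ht1 htm hb))
      (ev_lfac h2 ht0 ht1 htm hc)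
  rcases h with rfl | rfl
  · exact h0
  · rw [ev_neg, neg_ne_zero]
    exact h0

/-- symbolic determinant -/
def det3 (m : Fin 3 → Fin 3 → ℤ × ℤ) : Pl :=
  pr (m 0 0) (m 1 1) (m 2 2) - pr (m 0 0) (m 1 2) (m 2 1) - pr (m 0 1) (m 1 0) (m 2 2) +
    pr (m 0 1) (m 1 2) (m 2 0) + pr (m 0 2) (m 1 0) (m 2 1) - pr (m 0 2) (m 1 1) (m 2 0)

lemma det3_eq (t : K) (m : Fin 3 → Fin 3 → ℤ × ℤ) :
    Matrix.det (Matrix.of (fun i j => ev1 t (m i j))) = ev t (det3 m) := by
  rw [Matrix.det_fin_three]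
  simp only [Matrix.of_apply, det3, ev_sub, ev_add, ev_pr]

/-- the symbolic arrangement -/
def sy : Fin 12 → Fin 3 → ℤ × ℤ :=
  ![![(1, 0), (0, 0), (0, 0)], ![(0, 0), (1, 0), (0, 0)], ![(0, 0), (0, 0), (1, 0)],
    ![(1, 0), (-1, 0), (0, 0)], ![(1, 0), (1, 0), (0, 0)], ![(1, 0), (0, -1), (0, 0)],
    ![(0, 0), (1, 0), (-1, 0)], ![(0, 0), (1, 0), (1, 0)], ![(0, 0), (1, 0), (0, -1)],
    ![(-1, 0), (0, 0), (1, 0)], ![(-1, 0), (0, 0), (0, 1)], ![(1, 0), (0, 0), (0, 1)]]

lemma tri_eq (t : K) (i : Fin 12) (j : Fin 3) : tri t i j = ev1 t (sy i j) := by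
  fin_cases i <;> fin_cases j <;> simp [tri, sy, ev1]

lemma minors : ∀ i j k : Fin 12, i < j → j < k →
    (det3 ![sy i, sy j, sy k] = 0 ∨ Nz (det3 ![sy i, sy j, sy k])) := by
  decide +kernel

lemma det_tri (t : K) (i j k : Fin 12) :
    Matrix.det (Matrix.of ![tri t i, tri t j, tri t k]) = ev t (det3 ![sy i, sy j, sy k]) := by
  rw [← det3_eq]
  congr 1
  ext a b
  fin_cases a
  · exact tri_eq t i b
  · exact tri_eq t j b
  · exact tri_eq t k b

lemma det_iff {t : K} (h2 : (2 : K) ≠ 0) (ht0 : t ≠ 0) (ht1 : t ≠ 1) (htm : t ≠ -1)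
    (e : Fin 3 ↪o Fin 12) : Matrix.det (Matrix.of (fun i => tri t (e i))) = 0 ↔
      det3 ![sy (e 0), sy (e 1), sy (e 2)] = 0 := by
  have h1 : Matrix.det (Matrix.of (fun i => tri t (e i))) =
      ev t (det3 ![sy (e 0), sy (e 1), sy (e 2)]) := by
    rw [← det_tri]
    congr 1
    ext i j
    fin_cases i <;> rfl
  rw [h1]
  constructor
  · intro h
    rcases minors (e 0) (e 1) (e 2) (e.strictMono (by decide)) (e.strictMono (by decide)) with h' | h'
    · exact h'
    · exact absurd h (ev_nz h2 ht0 ht1 htm h')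
  · intro h
    rw [h, ev_zero]

lemma tri_span_top (t : K) : Submodule.span K (Set.range (tri t)) = ⊤ := by
  have h1 : Matrix.det (Matrix.of ![tri t 0, tri t 1, tri t 2]) ≠ 0 := by
    rw [det_tri]
    have : det3 ![sy 0, sy 1, sy 2] = (1, 0, 0, 0) := by decide +kernel
    rw [this]
    simp [ev]
  have h2 : LinearIndependent K ![tri t 0, tri t 1, tri t 2] := by
    have := Matrix.linearIndependent_rows_of_det_ne_zero h1
    exact this
  have h3 := h2.span_eq_top_of_card_eq_finrank' (by simp)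
  rw [eq_top_iff, ← h3]
  apply Submodule.span_mono
  rintro _ ⟨i, rfl⟩
  fin_cases i
  · exact ⟨0, rfl⟩
  · exact ⟨1, rfl⟩
  · exact ⟨2, rfl⟩

lemma intersections_eq {l n : ℕ} (A : Fin n → Fin l → K) : intersections A = LL A := rfl

/-- the lattices are isomorphic -/
theorem lattice_iso' {t t' : K} (h2 : (2 : K) ≠ 0) (ht0 : t ≠ 0) (ht1 : t ≠ 1) (htm : t ≠ -1)
    (ht0' : t' ≠ 0) (ht1' : t' ≠ 1) (htm' : t' ≠ -1) :
    Nonempty (Lattice (tri t) ≃o Lattice (tri t')) := by
  have h : Nonempty (LL (tri t) ≃o LL (tri t')) := by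
    apply lattice_iso_of_indep
    intro s
    constructor
    · exact indep_of_minors (tri_span_top t) (fun e h => by
        rw [Ne, det_iff h2 ht0' ht1' htm' e]
        rwa [Ne, det_iff h2 ht0 ht1 htm e] at h) s
    · exact indep_of_minors (tri_span_top t') (fun e h => by
        rw [Ne, det_iff h2 ht0 ht1 htm e]
        rwa [Ne, det_iff h2 ht0' ht1' htm' e] at h) s
  obtain ⟨e⟩ := h
  exact ⟨e.dual⟩

/-- some `2 × 2` minor is admissible -/
lemma minors2 : ∀ i i' : Fin 12, i ≠ i' → ∃ j k : Fin 3,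
    Nz (pr (sy i j) (sy i' k) (1, 0) - pr (sy i k) (sy i' j) (1, 0)) := by
  decide +kernel

lemma hyperplane_ne {a b : Fin 3 → K} (j k : Fin 3) (h : a j * b k - a k * b j ≠ 0) :
    hyperplane a ≠ hyperplane b := by
  intro heq
  have h1 : (Pi.single j (a k) - Pi.single k (a j) : Fin 3 → K) ∈ hyperplane a := by
    show ∑ i, a i * (Pi.single j (a k) - Pi.single k (a j) : Fin 3 → K) i = 0
    simp only [Pi.sub_apply, mul_sub, Finset.sum_sub_distrib, Pi.single_apply, mul_ite, mul_zero,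
      Finset.sum_ite_eq', Finset.mem_univ, if_true]
    ring
  rw [heq] at h1
  have h2 : ∑ i, b i * (Pi.single j (a k) - Pi.single k (a j) : Fin 3 → K) i = 0 := h1
  simp only [Pi.sub_apply, mul_sub, Finset.sum_sub_distrib, Pi.single_apply, mul_ite, mul_zero,
      Finset.sum_ite_eq', Finset.mem_univ, if_true] at h2
  apply h
  linear_combination -h2

theorem tri_isArrangement {t : K} (h2 : (2 : K) ≠ 0) (ht0 : t ≠ 0) (ht1 : t ≠ 1) (htm : t ≠ -1) :
    IsArrangement (tri t) := by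
  have key : ∀ i i' : Fin 12, i ≠ i' → ∃ j k : Fin 3,
      tri t i j * tri t i' k - tri t i k * tri t i' j ≠ 0 := by
    intro i i' hne
    obtain ⟨j, k, hjk⟩ := minors2 i i' hne
    refine ⟨j, k, ?_⟩
    have := ev_nz h2 ht0 ht1 htm hjk
    rw [ev_sub, ev_pr, ev_pr] at this
    rw [tri_eq, tri_eq, tri_eq, tri_eq]
    simpa [ev1] using this
  constructor
  · intro i h0
    obtain ⟨i', hi'⟩ := exists_ne i
    obtain ⟨j, k, hjk⟩ := key i i' hi'.symm
    apply hjk
    rw [h0]
    simp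
  · intro i i' h
    by_contra hne
    obtain ⟨j, k, hjk⟩ := key i i' hne
    exact hyperplane_ne j k hjk h

theorem tri_essential (t : K) : Essential (tri t) := by
  rw [Essential, eq_bot_iff]
  intro v hv
  rw [Submodule.mem_iInf] at hv
  have h0 : ∑ j, tri t 0 j * v j = 0 := hv 0
  have h1 : ∑ j, tri t 1 j * v j = 0 := hv 1
  have h2 : ∑ j, tri t 2 j * v j = 0 := hv 2
  rw [Fin.sum_univ_three] at h0 h1 h2
  simp only [tri, Matrix.cons_val, one_mul, zero_mul, add_zero, zero_add] at h0 h1 h2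
  rw [Submodule.mem_bot]
  funext j
  fin_cases j
  · exact h0
  · exact h1
  · exact h2

end Pool.Agent.X273.Tri
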