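import Mathlib
import Pool.Agent.X273.Tri

set_option autoImplicit false
set_option linter.unusedSectionVars false

/-! Minimal free resolutions of the logarithmic derivations of the triangular arrangements. -/

namespace Pool.Agent.X273.Tri

open MvPolynomial Pool.Agent.X273.Arr

variable {K : Type} [Field K] {t : K}

/-! ### General facts -/

lemma X_hom (i : Fin 3) : (X i : S K).IsHomogeneous 1 := isHomogeneous_X K i

lemma CX_hom (c : K) (i : Fin 3) : (C c * X i : S K).IsHomogeneous 1 :=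
  isHomogeneous_C_mul_X c i

lemma P1_hom : (P1 t : S K).IsHomogeneous 3 :=
  (((X_hom 0).sub (X_hom 1)).mul ((X_hom 0).add (X_hom 1))).mul ((X_hom 0).sub (CX_hom t 1))

lemma P2_hom : (P2 t : S K).IsHomogeneous 3 :=
  (((X_hom 1).sub (X_hom 2)).mul ((X_hom 1).add (X_hom 2))).mul ((X_hom 1).sub (CX_hom t 2))

lemma P3_hom : (P3 t : S K).IsHomogeneous 3 :=
  (((X_hom 2).sub (X_hom 0)).mul ((CX_hom t 2).sub (X_hom 0))).mul ((CX_hom t 2).add (X_hom 0))

lemma P1_ne : (P1 t : S K) ≠ 0 := by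
  unfold P1
  rw [← e3, ← e4, ← e5]
  exact mul_ne_zero (mul_ne_zero (fprime (ne0 0 one_ne_zero)).ne_zero
    (fprime (ne0 0 one_ne_zero)).ne_zero) (fprime (ne0 0 one_ne_zero)).ne_zero

lemma P2_ne : (P2 t : S K) ≠ 0 := by
  unfold P2
  rw [← e6, ← e7, ← e8]
  exact mul_ne_zero (mul_ne_zero (fprime (ne0 1 one_ne_zero)).ne_zero
    (fprime (ne0 1 one_ne_zero)).ne_zero) (fprime (ne0 1 one_ne_zero)).ne_zero

lemma P3_ne : (P3 t : S K) ≠ 0 := by
  unfold P3
  rw [← e9, ← e10, ← e11]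
  exact mul_ne_zero (mul_ne_zero (fprime (ne0 2 one_ne_zero)).ne_zero
    (fprime (ne0 0 (neg_ne_zero.2 one_ne_zero))).ne_zero) (fprime (ne0 0 one_ne_zero)).ne_zero

/-- `P1` and `P2` are coprime -/
lemma P1_dvd_of_mul (h2 : (2 : K) ≠ 0) (ht1 : t ≠ 1) (htm : t ≠ -1) {u : S K}
    (h : P1 t ∣ u * P2 t) : P1 t ∣ u := by
  have key : ∀ a : Fin 3 → K, a 0 = 1 → form a ∣ u * P2 t → form a ∣ u := by
    intro a ha hd
    have hp : Prime (form a) := fprime (ne0 0 (by rw [ha]; exact one_ne_zero))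
    refine (hp.dvd_or_dvd hd).resolve_right ?_
    unfold P2
    rw [← e6, ← e7, ← e8]
    intro h'
    rcases hp.dvd_or_dvd h' with h'' | h''
    · rcases hp.dvd_or_dvd h'' with h3 | h3
      · exact ndvd (ne0 1 one_ne_zero) (smul_ne 0 1 (by simp [ha])) h3
      · exact ndvd (ne0 1 one_ne_zero) (smul_ne 0 1 (by simp [ha])) h3
    · exact ndvd (ne0 1 one_ne_zero) (smul_ne 0 1 (by simp [ha])) h''
  have d1 : (X 0 - X 1) ∣ P1 t := ⟨(X 0 + X 1) * (X 0 - C t * X 1), by unfold P1; ring⟩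
  have d2 : (X 0 + X 1) ∣ P1 t := ⟨(X 0 - X 1) * (X 0 - C t * X 1), by unfold P1; ring⟩
  have d3 : (X 0 - C t * X 1) ∣ P1 t := ⟨(X 0 - X 1) * (X 0 + X 1), by unfold P1; ring⟩
  refine P1_dvd h2 ht1 htm ?_ ?_ ?_
  · rw [← e3] at d1 ⊢
    exact key _ rfl (d1.trans h)
  · rw [← e4] at d2 ⊢
    exact key _ rfl (d2.trans h)
  · rw [← e5] at d3 ⊢
    exact key _ rfl (d3.trans h)

/-- a vector parallel to `(P1, P2, P3)` is a multiple of it -/
lemma parallel (h2 : (2 : K) ≠ 0) (ht1 : t ≠ 1) (htm : t ≠ -1) {C1 C2 C3 : S K}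
    (h12 : C1 * P2 t = C2 * P1 t) (h13 : C1 * P3 t = C3 * P1 t) :
    ∃ h : S K, C1 = h * P1 t ∧ C2 = h * P2 t ∧ C3 = h * P3 t := by
  obtain ⟨h, hh⟩ := P1_dvd_of_mul h2 ht1 htm (u := C1) ⟨C2, by rw [h12]; ring⟩
  refine ⟨h, by rw [hh]; ring, ?_, ?_⟩
  · apply mul_right_cancel₀ (P1_ne (t := t))
    rw [← h12, hh]
    ring
  · apply mul_right_cancel₀ (P1_ne (t := t))
    rw [← h13, hh]
    ring

/-- `p` and its image under a substitution differ by an element of the ideal generated by the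
differences for the variables -/
lemma sub_mem (ρ : S K →ₐ[K] S K) (I : Ideal (S K)) (h : ∀ i, X i - ρ (X i) ∈ I) (p : S K) :
    p - ρ p ∈ I := by
  have e : (Ideal.Quotient.mkₐ K I) = (Ideal.Quotient.mkₐ K I).comp ρ := by
    apply MvPolynomial.algHom_ext
    intro i
    rw [AlgHom.comp_apply, Ideal.Quotient.mkₐ_eq_mk, Ideal.Quotient.eq]
    exact h i
  rw [← Ideal.Quotient.eq]
  have := congrArg (fun f => f p) e
  simpa using this

/-- linear combinations of the derivations attached to syzygies -/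
lemma der_add (g B2 B3 g' B2' B3' : S K) :
    der t g B2 B3 + der t g' B2' B3' = der t (g + g') (B2 + B2') (B3 + B3') := by
  apply derivation_ext
  intro i
  rw [Derivation.add_apply]
  fin_cases i
  · show der t g B2 B3 (X 0) + der t g' B2' B3' (X 0) = der t (g + g') (B2 + B2') (B3 + B3') (X 0)
    rw [der_X0, der_X0, der_X0]; ring
  · show der t g B2 B3 (X 1) + der t g' B2' B3' (X 1) = der t (g + g') (B2 + B2') (B3 + B3') (X 1)
    rw [der_X1, der_X1, der_X1]; ring
  · show der t g B2 B3 (X 2) + der t g' B2' B3' (X 2) = der t (g + g') (B2 + B2') (B3 + B3') (X 2)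
    rw [der_X2, der_X2, der_X2]; ring

lemma smul_der (a g B2 B3 : S K) :
    a • der t g B2 B3 = der t (a * g) (a * B2) (a * B3) := by
  apply derivation_ext
  intro i
  rw [Derivation.smul_apply, smul_eq_mul]
  fin_cases i
  · show a * der t g B2 B3 (X 0) = der t (a * g) (a * B2) (a * B3) (X 0)
    rw [der_X0, der_X0]; ring
  · show a * der t g B2 B3 (X 1) = der t (a * g) (a * B2) (a * B3) (X 1)
    rw [der_X1, der_X1]; ring
  · show a * der t g B2 B3 (X 2) = der t (a * g) (a * B2) (a * B3) (X 2)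
    rw [der_X2, der_X2]; ring

lemma der_zero : der t (0 : S K) 0 0 = 0 := by
  apply derivation_ext
  intro i
  rw [Derivation.zero_apply]
  fin_cases i
  · show der t (0 : S K) 0 0 (X 0) = 0
    rw [der_X0]; ring
  · show der t (0 : S K) 0 0 (X 1) = 0
    rw [der_X1]; ring
  · show der t (0 : S K) 0 0 (X 2) = 0
    rw [der_X2]; ring

lemma der_eq_zero {g B2 B3 : S K} (h : der t g B2 B3 = 0) : g = 0 ∧ B2 = 0 ∧ B3 = 0 := by
  have h0 : der t g B2 B3 (X 0) = 0 := by rw [h, Derivation.zero_apply]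
  have h1 : der t g B2 B3 (X 1) = 0 := by rw [h, Derivation.zero_apply]
  have h2 : der t g B2 B3 (X 2) = 0 := by rw [h, Derivation.zero_apply]
  rw [der_X0] at h0
  rw [der_X1] at h1
  rw [der_X2] at h2
  have hg : g = 0 := (mul_eq_zero.1 h2).resolve_left (X_ne_zero _)
  subst hg
  have h1' := (mul_eq_zero.1 h1).resolve_left (X_ne_zero _)
  have h0' := (mul_eq_zero.1 h0).resolve_left (X_ne_zero _)
  rw [zero_add] at h1'
  rw [zero_sub, neg_eq_zero] at h0'
  exact ⟨rfl, (mul_eq_zero.1 h1').resolve_left P2_ne, (mul_eq_zero.1 h0').resolve_left P3_ne⟩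

lemma der_hom {g B2 B3 : S K} {e : ℕ} (hg : g.IsHomogeneous (3 + e)) (h2 : B2.IsHomogeneous e)
    (h3 : B3.IsHomogeneous e) : IsHomDer (der t g B2 B3) (1 + (3 + e)) := by
  intro i
  fin_cases i
  · show (der t g B2 B3 (X 0)).IsHomogeneous _
    rw [der_X0]
    exact (X_hom 0).mul (hg.sub (P3_hom.mul h3))
  · show (der t g B2 B3 (X 1)).IsHomogeneous _
    rw [der_X1]
    exact (X_hom 1).mul (hg.add (P2_hom.mul h2))
  · show (der t g B2 B3 (X 2)).IsHomogeneous _
    rw [der_X2]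
    exact (X_hom 2).mul hg

lemma euler_hom : IsHomDer (der t (1 : S K) 0 0) 1 := by
  intro i
  fin_cases i
  · show (der t (1 : S K) 0 0 (X 0)).IsHomogeneous _
    rw [der_X0, mul_zero, sub_zero, mul_one]
    exact X_hom 0
  · show (der t (1 : S K) 0 0 (X 1)).IsHomogeneous _
    rw [der_X1, mul_zero, add_zero, mul_one]
    exact X_hom 1
  · show (der t (1 : S K) 0 0 (X 2)).IsHomogeneous _
    rw [der_X2, mul_one]
    exact X_hom 2

lemma euler_mem : der t (1 : S K) 0 0 ∈ logDer (tri t) :=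
  der_mem (B1 := 0) (by ring)

lemma deg_of_hom {p : S K} {a b c : ℕ} (hp : p.IsHomogeneous a) (h : a + b = c) :
    ∀ m ∈ p.support, m.degree + b = c := by
  intro m hm
  have h2 : m.degree = a := by
    by_contra hne
    exact (mem_support_iff.1 hm) (hp.coeff_eq_zero hne)
  rw [h2, h]

/-! ### The first arrangement: `t² = -1` -/

section A

/-- the syzygies of `P1, P2, P3` when `t² = -1` -/
lemma relA (ht : t ^ 2 = -1) : (X 0 + C t * X 1) * P1 t + (X 1 + C t * X 2) * P2 t +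
    (-(X 0 + X 2)) * P3 t = (0 : S K) := by
  have hC : (C t : S K) ^ 2 = -1 := by rw [← C_pow, ht, C_neg, C_1]
  unfold P1 P2 P3
  linear_combination ((X 0 ^ 2 - X 1 ^ 2) * (-X 1 ^ 2) + (X 1 ^ 2 - X 2 ^ 2) * (-X 2 ^ 2) +
    (X 0 ^ 2 - X 2 ^ 2) * X 2 ^ 2 : S K) * hC

/-- generation of the module of syzygies -/
lemma genA (h2 : (2 : K) ≠ 0) (ht : t ^ 2 = -1) {B1 B2 B3 : S K}
    (hB : B1 * P1 t + B2 * P2 t + B3 * P3 t = 0) :
    ∃ a b c : S K, B2 = a * (X 1 + C t * X 2) + b * P3 t ∧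
      B3 = a * (-(X 0 + X 2)) + b * (-P2 t) + c * P1 t := by
  have hC : (C t : S K) ^ 2 = -1 := by rw [← C_pow, ht, C_neg, C_1]
  have ht1 : t ≠ 1 := by
    rintro rfl
    exact h2 (by linear_combination ht)
  have htm : t ≠ -1 := by
    rintro rfl
    exact h2 (by linear_combination ht)
  obtain ⟨A1, hA1⟩ : ∃ A1 : S K, A1 = X 0 + C t * X 1 := ⟨_, rfl⟩
  obtain ⟨A2, hA2⟩ : ∃ A2 : S K, A2 = X 1 + C t * X 2 := ⟨_, rfl⟩
  obtain ⟨A3, hA3⟩ : ∃ A3 : S K, A3 = -(X 0 + X 2) := ⟨_, rfl⟩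
  have hA : A1 * P1 t + A2 * P2 t + A3 * P3 t = 0 := by
    rw [hA1, hA2, hA3]
    exact relA ht
  obtain ⟨h, hh1, hh2, hh3⟩ := parallel h2 ht1 htm
    (C1 := A2 * B3 - A3 * B2) (C2 := A3 * B1 - A1 * B3) (C3 := A1 * B2 - A2 * B1)
    (by linear_combination B3 * hA - A3 * hB) (by linear_combination (-B2) * hA + A2 * hB)
  -- substitution `x ↦ -z`, `y ↦ -t z`
  obtain ⟨ρ, hρ⟩ : ∃ ρ : S K →ₐ[K] S K, ρ = aeval ![-X 2, -(C t * X 2), X 2] := ⟨_, rfl⟩
  have r0 : ρ (X 0) = -X 2 := by rw [hρ, aeval_X]; rfl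
  have r1 : ρ (X 1) = -(C t * X 2) := by rw [hρ, aeval_X]; rfl
  have r2 : ρ (X 2) = X 2 := by rw [hρ, aeval_X]; rfl
  have rC : ∀ c : K, ρ (C c) = C c := fun c => by
    have := ρ.commutes c
    simpa [algebraMap_eq] using this
  have s2 : ρ A2 = 0 := by
    rw [hA2, map_add, map_mul, r1, r2, rC]
    ring
  have s3 : ρ A3 = 0 := by
    rw [hA3, map_neg, map_add, r0, r2]
    ring
  have sP : ρ (P1 t) = -(C 4 * X 2 ^ 3) := by
    unfold P1
    rw [map_mul, map_mul, map_sub, map_add, map_sub, map_mul, r0, r1, rC]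
    have h4 : (C 4 : S K) = 4 := map_ofNat C 4
    rw [h4]
    linear_combination (X 2 ^ 3 * (3 - C t ^ 2) : S K) * hC
  have sh : ρ h = 0 := by
    have e := congrArg ρ hh1
    rw [map_sub, map_mul, map_mul, map_mul, s2, s3, zero_mul, zero_mul, sub_zero, sP] at e
    refine (mul_eq_zero.1 e.symm).resolve_right ?_
    refine neg_ne_zero.2 (mul_ne_zero ?_ (pow_ne_zero _ (X_ne_zero _)))
    rw [Ne, C_eq_zero]
    intro h4
    have : (2 : K) * 2 = 0 := by linear_combination h4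
    rcases mul_eq_zero.1 this with h | h <;> exact h2 h
  have hmem : h ∈ Ideal.span {X 0 + X 2, X 1 + C t * X 2} := by
    have := sub_mem ρ (Ideal.span {X 0 + X 2, X 1 + C t * X 2}) (fun i => by
      fin_cases i
      · show X 0 - ρ (X 0) ∈ _
        rw [r0, sub_neg_eq_add]
        exact Ideal.subset_span (by simp)
      · show X 1 - ρ (X 1) ∈ _
        rw [r1, sub_neg_eq_add]
        exact Ideal.subset_span (by simp)
      · show X 2 - ρ (X 2) ∈ _
        rw [r2, sub_self]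
        exact Ideal.zero_mem _) h
    rwa [sh, sub_zero] at this
  obtain ⟨a', b', hab⟩ := Ideal.mem_span_pair.1 hmem
  have hab' : h = a' * A1 + (b' - C t * a') * A2 := by
    rw [← hab, hA1, hA2]
    linear_combination (a' * X 2) * hC
  obtain ⟨b, hb⟩ : ∃ b : S K, b = a' := ⟨_, rfl⟩
  obtain ⟨c, hc⟩ : ∃ c : S K, c = b' - C t * a' := ⟨_, rfl⟩
  rw [← hc, ← hb] at hab'
  -- subtract
  obtain ⟨D1, hD1⟩ : ∃ D1 : S K, D1 = B1 - c * (-P3 t) := ⟨_, rfl⟩
  obtain ⟨D2, hD2⟩ : ∃ D2 : S K, D2 = B2 - b * P3 t := ⟨_, rfl⟩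
  obtain ⟨D3, hD3⟩ : ∃ D3 : S K, D3 = B3 - b * (-P2 t) - c * P1 t := ⟨_, rfl⟩
  have k3 : A1 * D2 = A2 * D1 := by
    rw [hD1, hD2]
    rw [hab'] at hh3
    linear_combination hh3
  have k2 : A1 * D3 = A3 * D1 := by
    rw [hD1, hD3]
    rw [hab'] at hh2
    linear_combination -hh2 - c * hA
  have pA1 : Prime A1 := by
    rw [hA1]
    have : (X 0 + C t * X 1 : S K) = form ![1, t, 0] := by rw [form3]; simp
    rw [this]
    exact fprime (ne0 0 one_ne_zero)
  have nA1 : ¬ A1 ∣ A2 := by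
    rw [hA1, hA2]
    have e1 : (X 0 + C t * X 1 : S K) = form ![1, t, 0] := by rw [form3]; simp
    have e2 : (X 1 + C t * X 2 : S K) = form ![0, 1, t] := by rw [form3]; simp
    rw [e1, e2]
    exact ndvd (ne0 1 one_ne_zero) (smul_ne 0 1 (by simp))
  obtain ⟨a, ha⟩ := (pA1.dvd_or_dvd (Dvd.intro D2 k3)).resolve_left nA1
  have hD2' : D2 = a * A2 := by
    apply mul_left_cancel₀ pA1.ne_zero
    rw [k3, ha]
    ring
  have hD3' : D3 = a * A3 := by
    apply mul_left_cancel₀ pA1.ne_zero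
    rw [k2, ha]
    ring
  refine ⟨a, b, c, ?_, ?_⟩
  · rw [← hA2]
    linear_combination hD2' - hD2
  · rw [← hA3]
    linear_combination hD3' - hD3

/-- the resolution of the first arrangement -/
theorem resA (h2 : (2 : K) ≠ 0) (ht : t ^ 2 = -1) :
    IsPOGResolution (tri t) ![1, 5, 7] 7
      ![der t 1 0 0, der t 0 (X 1 + C t * X 2) (-(X 0 + X 2)), der t 0 (P3 t) (-P2 t)]
      (der t 0 0 (P1 t)) ![0, -P3 t, X 1 + C t * X 2] (-(X 0 + C t * X 1)) := by
  have ht0 : t ≠ 0 := by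
    rintro rfl
    have : (1 : K) = 0 := by linear_combination ht
    exact one_ne_zero this
  have ht1 : t ≠ 1 := by
    rintro rfl
    exact h2 (by linear_combination ht)
  have htm : t ≠ -1 := by
    rintro rfl
    exact h2 (by linear_combination ht)
  have hA2h : (X 1 + C t * X 2 : S K).IsHomogeneous 1 := (X_hom 1).add (CX_hom t 2)
  constructor
  · intro i
    fin_cases i
    · exact euler_mem
    · exact der_mem (relA ht)
    · exact der_mem (B1 := 0) (by ring)
  · intro i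
    fin_cases i
    · exact euler_hom
    · exact der_hom (e := 1) (isHomogeneous_zero _ _ _) hA2h ((X_hom 0).add (X_hom 2)).neg
    · exact der_hom (e := 3) (isHomogeneous_zero _ _ _) P3_hom P2_hom.neg
  · exact der_mem (B1 := -P3 t) (by ring)
  · exact der_hom (e := 3) (isHomogeneous_zero _ _ _) (isHomogeneous_zero _ _ _) P1_hom
  · intro η hη
    obtain ⟨g, B1, B2, B3, hB, rfl⟩ := struct h2 ht0 ht1 htm hη
    obtain ⟨a, b, c, hB2, hB3⟩ := genA h2 ht hB
    refine ⟨![g, a, b], c, ?_⟩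
    rw [Fin.sum_univ_three]
    show _ = g • der t 1 0 0 + a • der t 0 (X 1 + C t * X 2) (-(X 0 + X 2)) +
      b • der t 0 (P3 t) (-P2 t) + c • der t 0 0 (P1 t)
    rw [smul_der, smul_der, smul_der, smul_der, der_add, der_add, der_add]
    congr 1
    · ring
    · rw [hB2]; ring
    · rw [hB3]; ring
  · rw [Fin.sum_univ_three]
    show (0 : S K) • der t 1 0 0 + (-P3 t) • der t 0 (X 1 + C t * X 2) (-(X 0 + X 2)) +
      (X 1 + C t * X 2) • der t 0 (P3 t) (-P2 t) + (-(X 0 + C t * X 1)) • der t 0 0 (P1 t) = 0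
    rw [smul_der, smul_der, smul_der, smul_der, der_add, der_add, der_add, ← der_zero (t := t)]
    congr 1
    · ring
    · ring
    · linear_combination -relA (K := K) ht
  · intro a b hab
    rw [Fin.sum_univ_three] at hab
    have hab' : a 0 • der t 1 0 0 + a 1 • der t 0 (X 1 + C t * X 2) (-(X 0 + X 2)) +
      a 2 • der t 0 (P3 t) (-P2 t) + b • der t 0 0 (P1 t) = 0 := hab
    rw [smul_der, smul_der, smul_der, smul_der, der_add, der_add, der_add] at hab'
    obtain ⟨h0, h1, h3⟩ := der_eq_zero hab'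
    have pA2 : Prime (X 1 + C t * X 2 : S K) := by
      have : (X 1 + C t * X 2 : S K) = form ![0, 1, t] := by rw [form3]; simp
      rw [this]
      exact fprime (ne0 1 one_ne_zero)
    have nA2 : ¬ (X 1 + C t * X 2 : S K) ∣ P3 t := by
      have e2 : (X 1 + C t * X 2 : S K) = form ![0, 1, t] := by rw [form3]; simp
      rw [e2] at pA2 ⊢
      unfold P3
      rw [← e9, ← e10, ← e11]
      intro h'
      rcases pA2.dvd_or_dvd h' with h'' | h''
      · rcases pA2.dvd_or_dvd h'' with h3 | h3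
        · exact ndvd (ne0 2 one_ne_zero) (smul_ne 0 1 (by simp)) h3
        · exact ndvd (ne0 2 ht0) (smul_ne 0 1 (by simp)) h3
      · exact ndvd (ne0 2 ht0) (smul_ne 0 1 (by simp)) h''
    have d : (X 1 + C t * X 2 : S K) ∣ P3 t * a 2 := ⟨-a 1, by linear_combination h1⟩
    obtain ⟨h, hh⟩ := (pA2.dvd_or_dvd d).resolve_left nA2
    have ha1 : a 1 = -(h * P3 t) := by
      apply mul_left_cancel₀ pA2.ne_zero
      rw [hh] at h1
      linear_combination h1
    have hb : b = -(h * (X 0 + C t * X 1)) := by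
      apply mul_right_cancel₀ (P1_ne (t := t))
      rw [hh, ha1] at h3
      linear_combination h3 + h * relA (K := K) ht
    refine ⟨h, ?_, ?_⟩
    · intro i
      fin_cases i
      · show a 0 = h * 0
        linear_combination h0
      · show a 1 = h * (-P3 t)
        rw [ha1]; ring
      · show a 2 = h * (X 1 + C t * X 2)
        rw [hh]; ring
    · rw [hb]; ring
  · rintro ⟨h1, -⟩
    have : (X 1 + C t * X 2 : S K) = 0 := h1 2
    have e2 : (X 1 + C t * X 2 : S K) = form ![0, 1, t] := by rw [form3]; simp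
    rw [e2] at this
    exact (fprime (ne0 1 one_ne_zero)).ne_zero this
  · intro i
    fin_cases i
    · intro m hm
      exact absurd hm (by simp)
    · exact deg_of_hom P3_hom.neg (b := 5) (c := 7 + 1) rfl
    · exact deg_of_hom hA2h (b := 7) (c := 7 + 1) rfl
  · exact ((X_hom 0).add (CX_hom t 1)).neg
  · intro i
    fin_cases i
    · exact map_zero _
    · show constantCoeff (-P3 t) = 0
      simp [P3]
    · show constantCoeff (X 1 + C t * X 2 : S K) = 0
      simp

end A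

end Pool.Agent.X273.Tri
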