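import Mathlib
import Pool.Agent.X273.TriRes

set_option autoImplicit false
set_option linter.unusedSectionVars false

/-! The resolution of the triangular arrangement for `t² ≠ -1`. -/

namespace Pool.Agent.X273.Tri

open MvPolynomial Pool.Agent.X273.Arr

variable {K : Type} [Field K] {t : K}

section B

noncomputable def a1 (t : K) : S K := C t * (X 0 * X 1) - X 0 * X 2 - X 1 ^ 2 - C t * (X 1 * X 2) +
  (C t ^ 2 + 1) * X 2 ^ 2
noncomputable def a2 (t : K) : S K := -((C t ^ 2 + 1) * (X 0 * X 1)) -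
  C t * (C t ^ 2 + 1) * (X 0 * X 2) + C t * X 1 ^ 2 + 2 * C t ^ 2 * (X 1 * X 2) + C t ^ 3 * X 2 ^ 2
noncomputable def a3 (t : K) : S K := -(C t * (X 0 * X 1)) + X 0 * X 2 + (C t ^ 2 + 1) * X 1 ^ 2 -
  C t * (X 1 * X 2) - C t ^ 2 * X 2 ^ 2
noncomputable def b1 (t : K) : S K := -(C t * X 0 ^ 2) + X 0 * X 1 - C t * (X 0 * X 2) -
  C t ^ 2 * (X 1 * X 2) + C t * (C t ^ 2 + 1) * X 2 ^ 2
noncomputable def b2 (t : K) : S K := (C t ^ 2 + 1) * X 0 ^ 2 - C t * (X 0 * X 1) -
  C t ^ 2 * (X 0 * X 2) + C t ^ 3 * (X 1 * X 2) - C t ^ 2 * X 2 ^ 2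
noncomputable def b3 (t : K) : S K := C t * X 0 ^ 2 - (C t ^ 2 + 1) * (X 0 * X 1) +
  2 * C t * (X 0 * X 2) - (C t ^ 2 + 1) * (X 1 * X 2) + C t * X 2 ^ 2
noncomputable def c1 (t : K) : S K := X 0 ^ 2 + 2 * C t * (X 0 * X 1) - (C t ^ 2 + 1) * (X 0 * X 2) +
  C t ^ 2 * X 1 ^ 2 - C t * (C t ^ 2 + 1) * (X 1 * X 2)
noncomputable def c2 (t : K) : S K := C t * (C t ^ 2 + 1) * X 0 ^ 2 - C t ^ 2 * (X 0 * X 1) -
  C t ^ 3 * (X 0 * X 2) - C t ^ 3 * X 1 ^ 2 + C t ^ 2 * (X 1 * X 2)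
noncomputable def c3 (t : K) : S K := -X 0 ^ 2 - C t * (X 0 * X 1) + C t ^ 2 * (X 0 * X 2) +
  (C t ^ 2 + 1) * X 1 ^ 2 - C t * (X 1 * X 2)

noncomputable def ss (t : K) : S K := -(1 + C t ^ 2) ^ 2

lemma ra : a1 t * P1 t + a2 t * P2 t + a3 t * P3 t = 0 := by
  unfold a1 a2 a3 P1 P2 P3; ring
lemma rb : b1 t * P1 t + b2 t * P2 t + b3 t * P3 t = 0 := by
  unfold b1 b2 b3 P1 P2 P3; ring
lemma rc : c1 t * P1 t + c2 t * P2 t + c3 t * P3 t = 0 := by
  unfold c1 c2 c3 P1 P2 P3; ring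

lemma rel1 : X 0 * a1 t + X 1 * b1 t + X 2 * c1 t = 0 := by
  unfold a1 b1 c1; ring
lemma rel2 : X 0 * a2 t + X 1 * b2 t + X 2 * c2 t = 0 := by
  unfold a2 b2 c2; ring
lemma rel3 : X 0 * a3 t + X 1 * b3 t + X 2 * c3 t = 0 := by
  unfold a3 b3 c3; ring

/-- `τ₂ × τ₃ = s x P` -/
lemma bc1 : b2 t * c3 t - b3 t * c2 t = ss t * X 0 * P1 t := by
  unfold b2 c3 b3 c2 ss P1; ring
lemma bc2 : b3 t * c1 t - b1 t * c3 t = ss t * X 0 * P2 t := by
  unfold b3 c1 b1 c3 ss P2; ring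
lemma bc3 : b1 t * c2 t - b2 t * c1 t = ss t * X 0 * P3 t := by
  unfold b1 c2 b2 c1 ss P3; ring
/-- `τ₃ × τ₁ = s y P` -/
lemma ca1 : c2 t * a3 t - c3 t * a2 t = ss t * X 1 * P1 t := by
  unfold c2 a3 c3 a2 ss P1; ring
lemma ca2 : c3 t * a1 t - c1 t * a3 t = ss t * X 1 * P2 t := by
  unfold c3 a1 c1 a3 ss P2; ring
lemma ca3 : c1 t * a2 t - c2 t * a1 t = ss t * X 1 * P3 t := by
  unfold c1 a2 c2 a1 ss P3; ring
/-- `τ₁ × τ₂ = s z P` -/
lemma ab1 : a2 t * b3 t - a3 t * b2 t = ss t * X 2 * P1 t := by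
  unfold a2 b3 a3 b2 ss P1; ring
lemma ab2 : a3 t * b1 t - a1 t * b3 t = ss t * X 2 * P2 t := by
  unfold a3 b1 a1 b3 ss P2; ring
lemma ab3 : a1 t * b2 t - a2 t * b1 t = ss t * X 2 * P3 t := by
  unfold a1 b2 a2 b1 ss P3; ring

/-- quadratic forms -/
noncomputable def quad (c : Fin 6 → K) : S K :=
  C (c 0) * (X 0 * X 0) + C (c 1) * (X 0 * X 1) + C (c 2) * (X 0 * X 2) + C (c 3) * (X 1 * X 1) +
    C (c 4) * (X 1 * X 2) + C (c 5) * (X 2 * X 2)

lemma mon_hom (c : K) (i j : Fin 3) : (C c * (X i * X j) : S K).IsHomogeneous 2 :=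
  ((X_hom i).mul (X_hom j)).C_mul c

lemma quad_hom (c : Fin 6 → K) : (quad c).IsHomogeneous 2 :=
  (((((mon_hom _ _ _).add (mon_hom _ _ _)).add (mon_hom _ _ _)).add (mon_hom _ _ _)).add
    (mon_hom _ _ _)).add (mon_hom _ _ _)

lemma a1_hom : (a1 t).IsHomogeneous 2 := by
  have : a1 t = quad ![0, t, -1, -1, -t, t ^ 2 + 1] := by
    simp only [a1, quad, Matrix.cons_val, C_neg, C_0, C_1, C_add, C_pow]
    ring
  rw [this]; exact quad_hom _
lemma a2_hom : (a2 t).IsHomogeneous 2 := by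
  have : a2 t = quad ![0, -(t ^ 2 + 1), -(t * (t ^ 2 + 1)), t, t ^ 2 + t ^ 2, t ^ 3] := by
    simp only [a2, quad, Matrix.cons_val, C_neg, C_0, C_1, C_add, C_pow, C_mul]
    ring
  rw [this]; exact quad_hom _
lemma a3_hom : (a3 t).IsHomogeneous 2 := by
  have : a3 t = quad ![0, -t, 1, t ^ 2 + 1, -t, -t ^ 2] := by
    simp only [a3, quad, Matrix.cons_val, C_neg, C_0, C_1, C_add, C_pow, C_mul]
    ring
  rw [this]; exact quad_hom _
lemma b1_hom : (b1 t).IsHomogeneous 2 := by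
  have : b1 t = quad ![-t, 1, -t, 0, -t ^ 2, t * (t ^ 2 + 1)] := by
    simp only [b1, quad, Matrix.cons_val, C_neg, C_0, C_1, C_add, C_pow, C_mul]
    ring
  rw [this]; exact quad_hom _
lemma b2_hom : (b2 t).IsHomogeneous 2 := by
  have : b2 t = quad ![t ^ 2 + 1, -t, -t ^ 2, 0, t ^ 3, -t ^ 2] := by
    simp only [b2, quad, Matrix.cons_val, C_neg, C_0, C_1, C_add, C_pow, C_mul]
    ring
  rw [this]; exact quad_hom _
lemma b3_hom : (b3 t).IsHomogeneous 2 := by
  have : b3 t = quad ![t, -(t ^ 2 + 1), t + t, 0, -(t ^ 2 + 1), t] := by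
    simp only [b3, quad, Matrix.cons_val, C_neg, C_0, C_1, C_add, C_pow, C_mul]
    ring
  rw [this]; exact quad_hom _
lemma c1_hom : (c1 t).IsHomogeneous 2 := by
  have : c1 t = quad ![1, t + t, -(t ^ 2 + 1), t ^ 2, -(t * (t ^ 2 + 1)), 0] := by
    simp only [c1, quad, Matrix.cons_val, C_neg, C_0, C_1, C_add, C_pow, C_mul]
    ring
  rw [this]; exact quad_hom _
lemma c2_hom : (c2 t).IsHomogeneous 2 := by
  have : c2 t = quad ![t * (t ^ 2 + 1), -t ^ 2, -t ^ 3, -t ^ 3, t ^ 2, 0] := by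
    simp only [c2, quad, Matrix.cons_val, C_neg, C_0, C_1, C_add, C_pow, C_mul]
    ring
  rw [this]; exact quad_hom _
lemma c3_hom : (c3 t).IsHomogeneous 2 := by
  have : c3 t = quad ![-1, -t, t ^ 2, t ^ 2 + 1, -t, 0] := by
    simp only [c3, quad, Matrix.cons_val, C_neg, C_0, C_1, C_add, C_pow, C_mul]
    ring
  rw [this]; exact quad_hom _

/-- first homology of the Koszul complex on the three variables -/
lemma koszul {h1 h2 h3 : S K} (h : X 0 * h1 + X 1 * h2 + X 2 * h3 = 0) :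
    ∃ u1 u2 u3 : S K, h1 = u2 * X 2 - u3 * X 1 ∧ h2 = u3 * X 0 - u1 * X 2 ∧
      h3 = u1 * X 1 - u2 * X 0 := by
  obtain ⟨ρ, hρ⟩ : ∃ ρ : S K →ₐ[K] S K, ρ = aeval ![X 0, X 1, 0] := ⟨_, rfl⟩
  have r0 : ρ (X 0) = X 0 := by rw [hρ, aeval_X]; rfl
  have r1 : ρ (X 1) = X 1 := by rw [hρ, aeval_X]; rfl
  have r2 : ρ (X 2) = 0 := by rw [hρ, aeval_X]; rfl
  have key : ∀ p : S K, ∃ q, p = ρ p + X 2 * q := by
    intro p
    have := sub_mem ρ (Ideal.span {X 2}) (fun i => by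
      fin_cases i
      · show X 0 - ρ (X 0) ∈ _
        rw [r0, sub_self]
        exact Ideal.zero_mem _
      · show X 1 - ρ (X 1) ∈ _
        rw [r1, sub_self]
        exact Ideal.zero_mem _
      · show X 2 - ρ (X 2) ∈ _
        rw [r2, sub_zero]
        exact Ideal.subset_span (by simp)) p
    obtain ⟨q, hq⟩ := Ideal.mem_span_singleton'.1 this
    exact ⟨q, by linear_combination -hq⟩
  obtain ⟨p1, hp1⟩ := key h1
  obtain ⟨p2, hp2⟩ := key h2
  have e : X 0 * ρ h1 + X 1 * ρ h2 = 0 := by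
    have := congrArg ρ h
    rw [map_add, map_add, map_mul, map_mul, map_mul, r0, r1, r2, map_zero] at this
    linear_combination this
  have n : ¬ (X 0 : S K) ∣ X 1 := by
    rw [← e0, ← e1]
    exact ndvd (ne0 1 one_ne_zero) (smul_ne 0 1 (by simp))
  have d : (X 0 : S K) ∣ X 1 * ρ h2 := ⟨-ρ h1, by linear_combination e⟩
  obtain ⟨w, hw⟩ := (((X_prime (R := K) (i := (0 : Fin 3))).dvd_or_dvd d)).resolve_left n
  have hw1 : ρ h1 = -(X 1 * w) := by
    apply mul_left_cancel₀ (X_ne_zero (R := K) (0 : Fin 3))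
    rw [hw] at e
    linear_combination e
  refine ⟨-p2, p1, w, ?_, ?_, ?_⟩
  · rw [hp1, hw1]; ring
  · rw [hp2, hw]; ring
  · apply mul_left_cancel₀ (X_ne_zero (R := K) (2 : Fin 3))
    have h1' : h1 = -(X 1 * w) + X 2 * p1 := by rw [← hw1]; exact hp1
    have h2' : h2 = X 0 * w + X 2 * p2 := by rw [← hw]; exact hp2
    rw [h1', h2'] at h
    linear_combination h

lemma ss_ne (ht : t ^ 2 ≠ -1) : (ss t : S K) ≠ 0 := by
  unfold ss
  have h1 : (1 + C t ^ 2 : S K) = C (1 + t ^ 2) := by simp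
  rw [h1]
  refine neg_ne_zero.2 (pow_ne_zero _ ?_)
  rw [Ne, C_eq_zero]
  intro h
  exact ht (by linear_combination h)

/-- the scalar inverse of `s` -/
lemma ss_inv (ht : t ^ 2 ≠ -1) : ∃ r : S K, r * ss t = 1 := by
  refine ⟨C (-(1 + t ^ 2) ^ 2)⁻¹, ?_⟩
  have h1 : (ss t : S K) = C (-(1 + t ^ 2) ^ 2) := by simp [ss]
  rw [h1, ← C_mul, inv_mul_cancel₀, C_1]
  refine neg_ne_zero.2 (pow_ne_zero _ ?_)
  intro h
  exact ht (by linear_combination h)

/-- generation of the module of syzygies -/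
lemma genB (h2 : (2 : K) ≠ 0) (ht1 : t ≠ 1) (htm : t ≠ -1) (ht : t ^ 2 ≠ -1) {B1 B2 B3 : S K}
    (hB : B1 * P1 t + B2 * P2 t + B3 * P3 t = 0) :
    ∃ u v w : S K, B2 = u * a2 t + v * b2 t + w * c2 t ∧
      B3 = u * a3 t + v * b3 t + w * c3 t := by
  obtain ⟨r, hr⟩ := ss_inv (t := t) ht
  -- the cross products with the generators
  obtain ⟨h1, g11, g12, g13⟩ := parallel h2 ht1 htm
    (C1 := B2 * a3 t - B3 * a2 t) (C2 := B3 * a1 t - B1 * a3 t) (C3 := B1 * a2 t - B2 * a1 t)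
    (by linear_combination a3 t * hB - B3 * ra (K := K) (t := t))
    (by linear_combination B2 * ra (K := K) (t := t) - a2 t * hB)
  obtain ⟨h2', g21, g22, g23⟩ := parallel h2 ht1 htm
    (C1 := B2 * b3 t - B3 * b2 t) (C2 := B3 * b1 t - B1 * b3 t) (C3 := B1 * b2 t - B2 * b1 t)
    (by linear_combination b3 t * hB - B3 * rb (K := K) (t := t))
    (by linear_combination B2 * rb (K := K) (t := t) - b2 t * hB)
  obtain ⟨h3, g31, g32, g33⟩ := parallel h2 ht1 htm
    (C1 := B2 * c3 t - B3 * c2 t) (C2 := B3 * c1 t - B1 * c3 t) (C3 := B1 * c2 t - B2 * c1 t)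
    (by linear_combination c3 t * hB - B3 * rc (K := K) (t := t))
    (by linear_combination B2 * rc (K := K) (t := t) - c2 t * hB)
  have hk : X 0 * h1 + X 1 * h2' + X 2 * h3 = 0 := by
    apply (mul_eq_zero.1 _).resolve_right (P1_ne (t := t))
    linear_combination (-X 0) * g11 - X 1 * g21 - X 2 * g31 + B2 * rel3 (K := K) (t := t) -
      B3 * rel2 (K := K) (t := t)
  obtain ⟨u1, u2, u3, k1, k2, k3⟩ := koszul hk
  -- B' = u1 τ1 + u2 τ2 + u3 τ3;  D = B + s⁻¹ B'
  obtain ⟨D1, hD1⟩ : ∃ D1 : S K, D1 = B1 + r * (u1 * a1 t + u2 * b1 t + u3 * c1 t) := ⟨_, rfl⟩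
  obtain ⟨D2, hD2⟩ : ∃ D2 : S K, D2 = B2 + r * (u1 * a2 t + u2 * b2 t + u3 * c2 t) := ⟨_, rfl⟩
  obtain ⟨D3, hD3⟩ : ∃ D3 : S K, D3 = B3 + r * (u1 * a3 t + u2 * b3 t + u3 * c3 t) := ⟨_, rfl⟩
  have x11 : D2 * a3 t - D3 * a2 t = 0 := by
    rw [hD2, hD3]
    rw [k1] at g11
    linear_combination g11 - (r * u2) * ab1 (K := K) (t := t) + (r * u3) * ca1 (K := K) (t := t) -
      ((u2 * X 2 - u3 * X 1) * P1 t) * hr
  have x12 : D3 * a1 t - D1 * a3 t = 0 := by
    rw [hD1, hD3]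
    rw [k1] at g12
    linear_combination g12 - (r * u2) * ab2 (K := K) (t := t) + (r * u3) * ca2 (K := K) (t := t) -
      ((u2 * X 2 - u3 * X 1) * P2 t) * hr
  have x21 : D2 * b3 t - D3 * b2 t = 0 := by
    rw [hD2, hD3]
    rw [k2] at g21
    linear_combination g21 + (r * u1) * ab1 (K := K) (t := t) - (r * u3) * bc1 (K := K) (t := t) -
      ((u3 * X 0 - u1 * X 2) * P1 t) * hr
  have hs : (ss t * X 2 * P1 t : S K) ≠ 0 :=
    mul_ne_zero (mul_ne_zero (ss_ne ht) (X_ne_zero _)) P1_ne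
  have z2 : D2 = 0 := by
    apply (mul_eq_zero.1 _).resolve_right hs
    rw [← ab1]
    linear_combination a2 t * x21 - b2 t * x11
  have z3 : D3 = 0 := by
    apply (mul_eq_zero.1 _).resolve_right hs
    rw [← ab1]
    linear_combination a3 t * x21 - b3 t * x11
  refine ⟨-(r * u1), -(r * u2), -(r * u3), ?_, ?_⟩
  · linear_combination z2 - hD2
  · linear_combination z3 - hD3

/-- the resolution of the second arrangement -/
theorem resB (h2 : (2 : K) ≠ 0) (ht0 : t ≠ 0) (ht1 : t ≠ 1) (htm : t ≠ -1) (ht : t ^ 2 ≠ -1) :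
    IsPOGResolution (tri t) ![1, 6, 6] 6
      ![der t 1 0 0, der t 0 (a2 t) (a3 t), der t 0 (b2 t) (b3 t)]
      (der t 0 (c2 t) (c3 t)) ![0, X 0, X 1] (X 2) := by
  constructor
  · intro i
    fin_cases i
    · exact euler_mem
    · exact der_mem ra
    · exact der_mem rb
  · intro i
    fin_cases i
    · exact euler_hom
    · exact der_hom (e := 2) (isHomogeneous_zero _ _ _) a2_hom a3_hom
    · exact der_hom (e := 2) (isHomogeneous_zero _ _ _) b2_hom b3_hom
  · exact der_mem rc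
  · exact der_hom (e := 2) (isHomogeneous_zero _ _ _) c2_hom c3_hom
  · intro η hη
    obtain ⟨g, B1, B2, B3, hB, rfl⟩ := struct h2 ht0 ht1 htm hη
    obtain ⟨a, b, c, hB2, hB3⟩ := genB h2 ht1 htm ht hB
    refine ⟨![g, a, b], c, ?_⟩
    rw [Fin.sum_univ_three]
    show _ = g • der t 1 0 0 + a • der t 0 (a2 t) (a3 t) +
      b • der t 0 (b2 t) (b3 t) + c • der t 0 (c2 t) (c3 t)
    rw [smul_der, smul_der, smul_der, smul_der, der_add, der_add, der_add]
    congr 1
    · ring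
    · rw [hB2]; ring
    · rw [hB3]; ring
  · rw [Fin.sum_univ_three]
    show (0 : S K) • der t 1 0 0 + X 0 • der t 0 (a2 t) (a3 t) +
      X 1 • der t 0 (b2 t) (b3 t) + X 2 • der t 0 (c2 t) (c3 t) = 0
    rw [smul_der, smul_der, smul_der, smul_der, der_add, der_add, der_add, ← der_zero (t := t)]
    congr 1
    · ring
    · linear_combination rel2 (K := K) (t := t)
    · linear_combination rel3 (K := K) (t := t)
  · intro a b hab
    rw [Fin.sum_univ_three] at hab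
    have hab' : a 0 • der t 1 0 0 + a 1 • der t 0 (a2 t) (a3 t) +
      a 2 • der t 0 (b2 t) (b3 t) + b • der t 0 (c2 t) (c3 t) = 0 := hab
    rw [smul_der, smul_der, smul_der, smul_der, der_add, der_add, der_add] at hab'
    obtain ⟨h0, hy, hz⟩ := der_eq_zero hab'
    have hs : (ss t * P1 t : S K) ≠ 0 := mul_ne_zero (ss_ne ht) P1_ne
    have q1 : a 1 * X 1 = a 2 * X 0 := by
      apply mul_right_cancel₀ hs
      linear_combination c2 t * hz - c3 t * hy - a 1 * ca1 (K := K) (t := t) +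
        a 2 * bc1 (K := K) (t := t)
    have q2 : a 1 * X 2 = b * X 0 := by
      apply mul_right_cancel₀ hs
      linear_combination b3 t * hy - b2 t * hz - a 1 * ab1 (K := K) (t := t) +
        b * bc1 (K := K) (t := t)
    have n : ¬ (X 0 : S K) ∣ X 1 := by
      rw [← e0, ← e1]
      exact ndvd (ne0 1 one_ne_zero) (smul_ne 0 1 (by simp))
    have d : (X 0 : S K) ∣ X 1 * a 1 := ⟨a 2, by linear_combination q1⟩
    obtain ⟨h, hh⟩ := (((X_prime (R := K) (i := (0 : Fin 3))).dvd_or_dvd d)).resolve_left n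
    have ha2 : a 2 = h * X 1 := by
      apply mul_right_cancel₀ (X_ne_zero (R := K) (0 : Fin 3))
      rw [← q1, hh]; ring
    have hb : b = h * X 2 := by
      apply mul_right_cancel₀ (X_ne_zero (R := K) (0 : Fin 3))
      rw [← q2, hh]; ring
    refine ⟨h, ?_, hb⟩
    intro i
    fin_cases i
    · show a 0 = h * 0
      linear_combination h0
    · show a 1 = h * X 0
      rw [hh]; ring
    · exact ha2
  · rintro ⟨h1, -⟩
    exact X_ne_zero (R := K) (1 : Fin 3) (h1 2)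
  · intro i
    fin_cases i
    · intro m hm
      exact absurd hm (by simp)
    · exact deg_of_hom (X_hom 0) (b := 6) (c := 6 + 1) rfl
    · exact deg_of_hom (X_hom 1) (b := 6) (c := 6 + 1) rfl
  · exact X_hom 2
  · intro i
    fin_cases i
    · exact map_zero _
    · exact constantCoeff_X _ _
    · exact constantCoeff_X _ _

/-- low coefficients of multiples of a homogeneous polynomial vanish -/
lemma coeff_low {Q : S K} {k : ℕ} (hQ : Q.IsHomogeneous k) (u : S K) (m : Fin 3 →₀ ℕ)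
    (hm : m.degree < k) : coeff m (u * Q) = 0 := by
  classical
  rw [coeff_mul]
  refine Finset.sum_eq_zero fun x hx => ?_
  have h1 : x.1 + x.2 = m := by simpa using hx
  rw [hQ.coeff_eq_zero, mul_zero]
  intro h2
  have := congrArg Finsupp.degree h1
  rw [map_add] at this
  omega

lemma zero_of_low {Q1 Q2 Q3 : S K} {k j : ℕ} (h1 : Q1.IsHomogeneous k) (h2 : Q2.IsHomogeneous k)
    (h3 : Q3.IsHomogeneous k) (u v w : S K) (hjk : j < k)
    (h : (u * Q1 + v * Q2 + w * Q3).IsHomogeneous j) : u * Q1 + v * Q2 + w * Q3 = 0 := by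
  ext m
  rw [coeff_zero]
  by_cases hm : m.degree = j
  · rw [coeff_add, coeff_add, coeff_low h1 u m (by omega), coeff_low h2 v m (by omega),
      coeff_low h3 w m (by omega), add_zero, add_zero]
  · exact h.coeff_eq_zero hm

lemma hom_of_X_mul {p : S K} {i : Fin 3} {j : ℕ} (h : (X i * p).IsHomogeneous (j + 1)) :
    p.IsHomogeneous j := by
  classical
  rw [IsHomogeneous, IsWeightedHomogeneous]
  intro m hm
  have h1 : coeff (m + Finsupp.single i 1) (X i * p) ≠ 0 := by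
    rw [mul_comm, coeff_mul_X]
    exact hm
  have h2 : (m + Finsupp.single i 1).degree = j + 1 := by
    by_contra hne
    exact h1 (h.coeff_eq_zero hne)
  rw [map_add, Finsupp.degree_single] at h2
  show (Finsupp.weight (fun _ => 1)) m = j
  rw [← Finsupp.degree_eq_weight_one]
  omega

/-- every homogeneous logarithmic derivation of degree five is a multiple of the Euler
derivation -/
lemma deg5 (h2 : (2 : K) ≠ 0) (ht0 : t ≠ 0) (ht1 : t ≠ 1) (htm : t ≠ -1) (ht : t ^ 2 ≠ -1)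
    {η : Derivation K (S K) (S K)} (hη : η ∈ logDer (tri t)) (hd : IsHomDer η 5) :
    ∃ g : S K, constantCoeff g = 0 ∧ η = g • der t 1 0 0 := by
  obtain ⟨g, B1, B2, B3, hB, rfl⟩ := struct h2 ht0 ht1 htm hη
  obtain ⟨u, v, w, hB2, hB3⟩ := genB h2 ht1 htm ht hB
  have d0 := hd 0
  have d1 := hd 1
  have d2 := hd 2
  rw [der_X0] at d0
  rw [der_X1] at d1
  rw [der_X2] at d2
  have g4 : g.IsHomogeneous 4 := hom_of_X_mul d2
  have g4' := hom_of_X_mul d1
  have g4'' := hom_of_X_mul d0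
  have hPB2 : (P2 t * B2).IsHomogeneous 4 := by
    have := g4'.sub g4
    rwa [add_sub_cancel_left] at this
  have hPB3 : (P3 t * B3).IsHomogeneous 4 := by
    have := g4.sub g4''
    rwa [sub_sub_cancel] at this
  have z2 : B2 = 0 := by
    have e : P2 t * B2 = u * (P2 t * a2 t) + v * (P2 t * b2 t) + w * (P2 t * c2 t) := by
      rw [hB2]; ring
    rw [e] at hPB2
    have := zero_of_low (P2_hom.mul a2_hom) (P2_hom.mul b2_hom) (P2_hom.mul c2_hom) u v w
      (by norm_num) hPB2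
    rw [← e] at this
    exact (mul_eq_zero.1 this).resolve_left P2_ne
  have z3 : B3 = 0 := by
    have e : P3 t * B3 = u * (P3 t * a3 t) + v * (P3 t * b3 t) + w * (P3 t * c3 t) := by
      rw [hB3]; ring
    rw [e] at hPB3
    have := zero_of_low (P3_hom.mul a3_hom) (P3_hom.mul b3_hom) (P3_hom.mul c3_hom) u v w
      (by norm_num) hPB3
    rw [← e] at this
    exact (mul_eq_zero.1 this).resolve_left P3_ne
  refine ⟨g, ?_, ?_⟩
  · rw [constantCoeff_eq]
    exact g4.coeff_eq_zero (by simp)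
  · rw [smul_der, z2, z3]
    congr 1 <;> ring

/-- the exponents of the second arrangement do not contain `5` -/
theorem not_five (h2 : (2 : K) ≠ 0) (ht0 : t ≠ 0) (ht1 : t ≠ 1) (htm : t ≠ -1) (ht : t ^ 2 ≠ -1)
    (d : Fin 3 → ℕ) (e : ℕ) (h : IsPOG (tri t) d e) (i : Fin 3) : d i ≠ 5 := by
  classical
  intro hi
  obtain ⟨θ, φ, f, α, R⟩ := h
  obtain ⟨g, hg, hη⟩ := deg5 h2 ht0 ht1 htm ht (R.mem i) (by
    have := R.hom i
    rwa [hi] at this)
  obtain ⟨a, b, hab⟩ := R.gen _ (euler_mem (t := t))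
  obtain ⟨h, hh1, -⟩ := R.all_rel (fun j => g * a j - if j = i then 1 else 0) (g * b) (by
    have e1 : ∑ j, (g * a j - if j = i then 1 else 0) • θ j =
        g • ∑ j, a j • θ j - θ i := by
      have e3 : ∀ j, (g * a j - if j = i then 1 else 0) • θ j =
          g • a j • θ j - if j = i then θ i else 0 := by
        intro j
        apply Derivation.ext
        intro x
        split_ifs with hj
        · subst hj
          simp only [Derivation.sub_apply, Derivation.smul_apply, smul_eq_mul]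
          ring
        · simp only [Derivation.sub_apply, Derivation.smul_apply, smul_eq_mul,
            Derivation.zero_apply]
          ring
      rw [Finset.sum_congr rfl fun j _ => e3 j, Finset.sum_sub_distrib, Finset.smul_sum,
        Finset.sum_ite_eq' Finset.univ i, if_pos (Finset.mem_univ i)]
    rw [e1, ← smul_smul]
    have e2 : g • ∑ j, a j • θ j - θ i + g • b • φ = g • (∑ j, a j • θ j + b • φ) - θ i := by
      rw [smul_add]; abel
    rw [e2, ← hab, ← hη, sub_self])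
  have h1 := congrArg constantCoeff (hh1 i)
  simp only [if_true, map_sub, map_mul, map_one, hg, zero_mul, R.minimal i, mul_zero] at h1
  norm_num at h1

end B

end Pool.Agent.X273.Tri
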