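import Mathlib

set_option autoImplicit false
set_option linter.unusedSectionVars false

/-! Logarithmic derivations of central arrangements, SPOG arrangements, and the two conditions of
the Saito-type criterion. -/

namespace Pool.Agent.X273.Saito

open MvPolynomial

universe u

/-- The `K`-linear derivations `∑ f_j ∂_j` of `S = K[X_1, …, X_l]`. -/
abbrev Der (K : Type u) [Field K] (l : ℕ) : Type u :=
  Derivation K (MvPolynomial (Fin l) K) (MvPolynomial (Fin l) K)

variable {K : Type u} [Field K] {l n : ℕ}

/-- `A` is the family of coefficient vectors of a central arrangement of `n` distinct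
hyperplanes `{x : ∑ j, A i j * x j = 0}` in `K^l`. -/
def IsArrangement (A : Fin n → Fin l → K) : Prop :=
  (∀ i, A i ≠ 0) ∧ Function.Injective fun i => {x : Fin l → K | ∑ j, A i j * x j = 0}

/-- The defining linear form `∑ j, a j X_j` of the hyperplane with coefficient vector `a`. -/
noncomputable def form (a : Fin l → K) : MvPolynomial (Fin l) K := ∑ j, C (a j) * X j

/-- The defining polynomial `Q` of the arrangement, the product of the linear forms. -/
noncomputable def defPoly (A : Fin n → Fin l → K) : MvPolynomial (Fin l) K := ∏ i, form (A i)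

/-- The module `D(A)` of logarithmic derivations: all derivations `θ` such that `α` divides
`θ(α)` for every defining form `α`. -/
noncomputable def logDer (A : Fin n → Fin l → K) :
    Submodule (MvPolynomial (Fin l) K) (Der K l) where
  carrier := {θ | ∀ i, form (A i) ∣ θ (form (A i))}
  add_mem' := fun {θ η} hθ hη i => by
    rw [Derivation.add_apply]
    exact dvd_add (hθ i) (hη i)
  zero_mem' := fun i => by rw [Derivation.zero_apply]; exact dvd_zero _
  smul_mem' := fun r θ hθ i => by
    rw [Derivation.smul_apply, smul_eq_mul]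
    exact dvd_mul_of_dvd_right (hθ i) r

/-- The derivation `θ = ∑ f_j ∂_j` is homogeneous of degree `d`: every coefficient
`f_j = θ(X_j)` is homogeneous of degree `d`. -/
def IsHomDer (θ : Der K l) (d : ℕ) : Prop := ∀ j, (θ (X j)).IsHomogeneous d

/-- The determinant of the square matrix `M_i` obtained from the `(l + 1) × l` matrix
`M_{ab} = θ_a(X_b)` by deleting row `i`. -/
noncomputable def minor (θ : Fin (l + 1) → Der K l) (i : Fin (l + 1)) : MvPolynomial (Fin l) K :=
  Matrix.det (Matrix.of fun a b : Fin l => θ (i.succAbove a) (X b))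

/-- The derivations `θ_1, …, θ_l, φ` and the map `1 ↦ (f_1, …, f_l, α)` form a minimal graded free
resolution `0 → S[-e-1] → ⨁ S[-d_i] ⊕ S[-e] → D(A) → 0` with `α` a nonzero linear form. -/
structure IsSPOGResolution (A : Fin n → Fin l → K) (d : Fin l → ℕ) (e : ℕ)
    (θ : Fin l → Der K l) (φ : Der K l)
    (f : Fin l → MvPolynomial (Fin l) K) (α : MvPolynomial (Fin l) K) : Prop where
  /-- the `θ_i` are homogeneous elements of `D(A)` of degree `d_i` -/
  mem : ∀ i, θ i ∈ logDer A
  hom : ∀ i, IsHomDer (θ i) (d i)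
  /-- `φ` is a homogeneous element of `D(A)` of degree `e` -/
  mem' : φ ∈ logDer A
  hom' : IsHomDer φ e
  /-- `θ_1, …, θ_l, φ` generate `D(A)` -/
  gen : ∀ η ∈ logDer A, ∃ (a : Fin l → MvPolynomial (Fin l) K) (b : MvPolynomial (Fin l) K),
    η = ∑ i, a i • θ i + b • φ
  /-- the relation -/
  rel : ∑ i, f i • θ i + α • φ = 0
  /-- all relations are multiples of it -/
  all_rel : ∀ (a : Fin l → MvPolynomial (Fin l) K) (b : MvPolynomial (Fin l) K),
    ∑ i, a i • θ i + b • φ = 0 → ∃ h : MvPolynomial (Fin l) K, (∀ i, a i = h * f i) ∧ b = h * α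
  /-- the map is graded: `f_i` is homogeneous of degree `e + 1 - d_i` -/
  deg_f : ∀ i, ∀ m ∈ (f i).support, m.degree + d i = e + 1
  /-- minimality: the entries of the map lie in the maximal ideal -/
  minimal : ∀ i, constantCoeff (f i) = 0
  /-- `α` is a nonzero linear form -/
  deg_α : α.IsHomogeneous 1
  α_ne_zero : α ≠ 0

/-- `A` is SPOG (strictly plus-one generated). -/
def IsSPOG (A : Fin n → Fin l → K) : Prop :=
  ∃ d e θ φ f α, IsSPOGResolution A d e θ φ f α

/-- `g` is homogeneous of positive degree (zero counts as homogeneous of every degree). -/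
def PosHom (g : MvPolynomial (Fin l) K) : Prop := ∃ k : ℕ, 1 ≤ k ∧ g.IsHomogeneous k

/-- The `f_i` have no nonconstant common divisor. -/
def Coprime {m : ℕ} (f : Fin m → MvPolynomial (Fin l) K) : Prop :=
  ∀ h, (∀ i, h ∣ f i) → ∃ c : K, h = C c

/-- Condition (i): `A` is SPOG, the `θ_i` are a minimal generating set of `D(A)`, their unique
relation of minimal degree (up to nonzero scalars) is `∑ g_i θ_i = 0`, and the coefficient
`g_{l+1}` of `θ_{l+1}` is a nonzero linear form. -/
def CondI (A : Fin n → Fin l → K) (θ : Fin (l + 1) → Der K l)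
    (g : Fin (l + 1) → MvPolynomial (Fin l) K) : Prop :=
  IsSPOG A ∧
  Submodule.span (MvPolynomial (Fin l) K) (Set.range θ) = logDer A ∧
  (∀ i, Submodule.span (MvPolynomial (Fin l) K) (θ '' {i}ᶜ) ≠ logDer A) ∧
  (∑ i, g i • θ i = 0 ∧ Coprime g ∧
    ∀ f : Fin (l + 1) → MvPolynomial (Fin l) K, ∑ i, f i • θ i = 0 → Coprime f →
      ∃ c : K, c ≠ 0 ∧ ∀ i, f i = C c * g i) ∧
  (g (Fin.last l)).IsHomogeneous 1 ∧ g (Fin.last l) ≠ 0

/-- Condition (ii): `g_{l+1}` is a nonzero linear form, `g_1, …, g_l` are homogeneous of positive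
degree and have no non-trivial common divisor modulo `g_{l+1}`. -/
def CondII (g : Fin (l + 1) → MvPolynomial (Fin l) K) : Prop :=
  (g (Fin.last l)).IsHomogeneous 1 ∧ g (Fin.last l) ≠ 0 ∧
  (∀ i : Fin l, PosHom (g i.castSucc)) ∧
  ¬ ∃ h, PosHom h ∧ ∀ i : Fin l, g i.castSucc ∈ Ideal.span {h, g (Fin.last l)}

end Pool.Agent.X273.Saito
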