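import Mathlib
import Pool.Agent.X273.SaitoDefs
import Pool.Agent.X273.Lin
import Pool.Agent.X273.Hom

set_option autoImplicit false
set_option linter.unusedSectionVars false

/-! Determinants of logarithmic derivations. -/

namespace Pool.Agent.X273.Saito

open MvPolynomial

universe u

variable {K : Type u} [Field K] {l n : ℕ}

lemma smul_sum_apply {m : ℕ} (a : Fin m → MvPolynomial (Fin l) K) (θ : Fin m → Der K l)
    (p : MvPolynomial (Fin l) K) : (∑ i, a i • θ i) p = ∑ i, a i * θ i p := by
  have h : ∀ s : Finset (Fin m), (∑ i ∈ s, a i • θ i) p = ∑ i ∈ s, a i * θ i p := by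
    intro s
    induction s using Finset.cons_induction with
    | empty => simp
    | cons x s hx ih =>
      rw [Finset.sum_cons, Finset.sum_cons, Derivation.add_apply, ih, Derivation.smul_apply,
        smul_eq_mul]
  exact h _

lemma der_form (θ : Der K l) (a : Fin l → K) : θ (form a) = ∑ j, θ (X j) * C (a j) := by
  rw [form, map_sum]
  refine Finset.sum_congr rfl fun j _ => ?_
  simp only [Derivation.leibniz, derivation_C, mul_zero, add_zero, smul_eq_mul]
  ring

lemma form_prime {a : Fin l → K} (ha : a ≠ 0) : Prime (form a) := lf_prime ha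

lemma form_hom (a : Fin l → K) : (form a).IsHomogeneous 1 := lf_hom a

/-- a linear form divides the determinant of derivations which are logarithmic along it -/
lemma form_dvd_det {A : Fin n → Fin l → K} (hA : ∀ i, A i ≠ 0) (η : Fin l → Der K l)
    (hη : ∀ a, η a ∈ logDer A) (i : Fin n) :
    form (A i) ∣ Matrix.det (Matrix.of fun a b : Fin l => η a (X b)) := by
  set N := Matrix.of fun a b : Fin l => η a (X b) with hN
  obtain ⟨j, hj⟩ : ∃ j, A i j ≠ 0 := by
    by_contra hc
    push Not at hc
    exact hA i (funext hc)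
  have h1 : ∀ a, form (A i) ∣ (N.mulVec fun j => C (A i j)) a := by
    intro a
    have := hη a i
    rw [der_form] at this
    exact this
  have h2 : N.det * C (A i j) = ∑ b, N.adjugate j b * (N.mulVec fun j => C (A i j)) b := by
    have e : N.adjugate.mulVec (N.mulVec fun j => C (A i j)) =
        N.det • (fun j => (C (A i j) : MvPolynomial (Fin l) K)) := by
      rw [Matrix.mulVec_mulVec, Matrix.adjugate_mul, Matrix.smul_mulVec, Matrix.one_mulVec]
    have e' := congrFun e j
    rw [Pi.smul_apply, smul_eq_mul] at e'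
    rw [← e']
    rfl
  have h3 : form (A i) ∣ N.det * C (A i j) := by
    rw [h2]
    exact Finset.dvd_sum fun b _ => Dvd.dvd.mul_left (h1 b) _
  have h4 : N.det = N.det * C (A i j) * C (A i j)⁻¹ := by
    rw [mul_assoc, ← C_mul, mul_inv_cancel₀ hj, C_1, mul_one]
  rw [h4]
  exact Dvd.dvd.mul_right h3 _

lemma not_form_dvd {A : Fin n → Fin l → K} (hA : IsArrangement A) {i j : Fin n} (hij : i ≠ j) :
    ¬ form (A i) ∣ form (A j) := by
  intro h
  obtain ⟨c, hc⟩ := lf_dvd_lf (hA.1 j) h
  apply hij
  apply hA.2
  have hc0 : c ≠ 0 := by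
    rintro rfl
    rw [zero_smul] at hc
    exact hA.1 j hc
  ext x
  simp only [Set.mem_ofPred_eq]
  rw [hc]
  simp only [Pi.smul_apply, smul_eq_mul, mul_assoc, ← Finset.mul_sum, mul_eq_zero, hc0, false_or]

/-- the defining polynomial divides the determinant -/
lemma defPoly_dvd_det {A : Fin n → Fin l → K} (hA : IsArrangement A) (η : Fin l → Der K l)
    (hη : ∀ a, η a ∈ logDer A) :
    defPoly A ∣ Matrix.det (Matrix.of fun a b : Fin l => η a (X b)) := by
  unfold defPoly
  apply Fintype.prod_dvd_of_isRelPrime
  · intro i j hij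
    exact (form_prime (hA.1 i)).irreducible.isRelPrime_iff_not_dvd.2 (not_form_dvd hA hij)
  · exact fun i => form_dvd_det hA.1 η hη i

lemma defPoly_ne {A : Fin n → Fin l → K} (hA : IsArrangement A) : defPoly A ≠ 0 :=
  Finset.prod_ne_zero_iff.2 fun i _ => (form_prime (hA.1 i)).ne_zero

lemma defPoly_hom (A : Fin n → Fin l → K) : (defPoly A).IsHomogeneous n := by
  have := IsHomogeneous.prod Finset.univ (fun i => form (A i)) (fun _ => 1)
    (fun i _ => form_hom (A i))
  unfold defPoly
  simpa using this

lemma minor_dvd {A : Fin n → Fin l → K} (hA : IsArrangement A) (θ : Fin (l + 1) → Der K l)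
    (hθ : ∀ i, θ i ∈ logDer A) (i : Fin (l + 1)) : defPoly A ∣ minor θ i :=
  defPoly_dvd_det hA (fun a => θ (i.succAbove a)) fun _ => hθ _

/-- Cramer's rule -/
lemma cramer {A : Fin n → Fin l → K} (hA : IsArrangement A) (η : Fin l → Der K l)
    (hη : ∀ a, η a ∈ logDer A) {s : MvPolynomial (Fin l) K}
    (hs : Matrix.det (Matrix.of fun a b : Fin l => η a (X b)) = s * defPoly A) {φ : Der K l}
    (hφ : φ ∈ logDer A) : ∃ c : Fin l → MvPolynomial (Fin l) K, s • φ = ∑ j, c j • η j := by
  classical
  set N := Matrix.of fun a b : Fin l => η a (X b) with hN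
  have h1 : ∀ j, defPoly A ∣ (N.updateRow j fun b => φ (X b)).det := by
    intro j
    have e : N.updateRow j (fun b => φ (X b)) =
        Matrix.of fun a b : Fin l => (Function.update η j φ) a (X b) := by
      ext a b
      by_cases h : a = j
      · subst h
        rw [Matrix.updateRow_self]
        simp
      · rw [Matrix.updateRow_ne h]
        simp [Function.update_of_ne h, hN]
    rw [e]
    apply defPoly_dvd_det hA
    intro a
    by_cases h : a = j
    · subst h
      simpa using hφ
    · rw [Function.update_of_ne h]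
      exact hη a
  choose c hc using h1
  refine ⟨c, derivation_ext fun k => ?_⟩
  rw [Derivation.smul_apply, smul_eq_mul, smul_sum_apply]
  apply mul_left_cancel₀ (defPoly_ne hA)
  have h2 := congrFun (Matrix.mulVec_cramer N.transpose fun b => φ (X b)) k
  rw [Pi.smul_apply, smul_eq_mul, Matrix.det_transpose, hs] at h2
  have h3 : (N.transpose.mulVec (N.transpose.cramer fun b => φ (X b))) k =
      ∑ j, η j (X k) * (N.transpose.cramer fun b => φ (X b)) j := rfl
  rw [h3] at h2
  have h4 : ∑ j, η j (X k) * (N.transpose.cramer fun b => φ (X b)) j =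
      ∑ j, defPoly A * (c j * η j (X k)) := by
    refine Finset.sum_congr rfl fun j _ => ?_
    rw [Matrix.cramer_transpose_apply, hc]
    ring
  rw [Finset.mul_sum, ← h4, h2]
  ring

/-- the relation between `l + 1` derivations -/
lemma minor_rel (θ : Fin (l + 1) → Der K l) (k : Fin l) :
    ∑ i : Fin (l + 1), (-1) ^ (i : ℕ) * θ i (X k) * minor θ i = 0 := by
  let N : Matrix (Fin (l + 1)) (Fin (l + 1)) (MvPolynomial (Fin l) K) :=
    Matrix.of fun a b => θ a (X (Fin.cases k (fun j => j) b))
  have h1 : N.det = 0 := by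
    apply Matrix.det_zero_of_column_eq (i := 0) (j := k.succ) (Fin.succ_ne_zero k).symm
    intro a
    rfl
  rw [Matrix.det_succ_column_zero] at h1
  exact h1

/-- independence -/
lemma indep (η : Fin l → Der K l) (h0 : Matrix.det (Matrix.of fun a b : Fin l => η a (X b)) ≠ 0)
    (a : Fin l → MvPolynomial (Fin l) K) (ha : ∑ j, a j • η j = 0) : a = 0 := by
  apply Matrix.eq_zero_of_vecMul_eq_zero h0
  ext1 k
  have := smul_sum_apply a η (X k)
  rw [ha, Derivation.zero_apply] at this
  exact this.symm

/-- determinants of homogeneous derivations are homogeneous -/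
lemma det_hom (η : Fin l → Der K l) (d : Fin l → ℕ) (hη : ∀ a, IsHomDer (η a) (d a)) :
    (Matrix.det (Matrix.of fun a b : Fin l => η a (X b))).IsHomogeneous (∑ a, d a) := by
  rw [← Matrix.det_transpose, Matrix.det_apply]
  refine IsHomogeneous.sum _ _ _ fun σ _ => ?_
  have h1 : (∏ i, (Matrix.of fun a b : Fin l => η a (X b)).transpose (σ i) i).IsHomogeneous
      (∑ a, d a) := IsHomogeneous.prod _ _ _ fun i _ => hη i (σ i)
  rcases Int.units_eq_one_or (Equiv.Perm.sign σ) with h | h
  · rw [h, one_smul]
    exact h1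
  · rw [h, Units.neg_smul, one_smul]
    exact h1.neg

end Pool.Agent.X273.Saito
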