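import Mathlib
import Pool.Agent.X273.SaitoBasic

set_option autoImplicit false
set_option linter.unusedSectionVars false

/-! Logarithmic derivations of the arrangement of nine lines
`x y z (x² - y²) (y² - z²) (z² - c² x²)`. -/

namespace Pool.Agent.X273.Quad

open MvPolynomial Pool.Agent.X273.Saito

variable {K : Type} [Field K]

/-- the nine lines -/
def qa (c : K) : Fin 9 → Fin 3 → K :=
  ![![1, 0, 0], ![0, 1, 0], ![0, 0, 1],
    ![1, -1, 0], ![1, 1, 0], ![0, 1, -1], ![0, 1, 1], ![-c, 0, 1], ![c, 0, 1]]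

abbrev S (K : Type) [Field K] := MvPolynomial (Fin 3) K

noncomputable def q1 : S K := X 0 ^ 2 - X 1 ^ 2
noncomputable def q2 : S K := X 1 ^ 2 - X 2 ^ 2
noncomputable def q3 (c : K) : S K := X 2 ^ 2 - C c ^ 2 * X 0 ^ 2

/-- the derivation attached to `(g, B2, B3)` -/
noncomputable def der (c : K) (g B2 B3 : S K) : Der K 3 :=
  mkDerivation K ![X 0 * (g - q3 c * B3), X 1 * (g + q2 * B2), X 2 * g]

lemma der_X0 (c : K) (g B2 B3 : S K) : der c g B2 B3 (X 0) = X 0 * (g - q3 c * B3) := by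
  simp [der, mkDerivation_X]
lemma der_X1 (c : K) (g B2 B3 : S K) : der c g B2 B3 (X 1) = X 1 * (g + q2 * B2) := by
  simp [der, mkDerivation_X]
lemma der_X2 (c : K) (g B2 B3 : S K) : der c g B2 B3 (X 2) = X 2 * g := by
  simp [der, mkDerivation_X]

lemma form3 (a b c : K) : (form ![a, b, c] : S K) = C a * X 0 + C b * X 1 + C c * X 2 := by
  rw [form, Fin.sum_univ_three]
  rfl

lemma ne0 {a : Fin 3 → K} (j : Fin 3) (h : a j ≠ 0) : a ≠ 0 := fun h0 => h (by rw [h0]; rfl)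

lemma ndvd {a b : Fin 3 → K} (hb : b ≠ 0) (h : ∀ c : K, b ≠ c • a) : ¬ form a ∣ form b := by
  intro hd
  obtain ⟨c, hc⟩ := lf_dvd_lf hb hd
  exact h c hc

lemma smul_ne {a b : Fin 3 → K} (i j : Fin 3) (h : a i * b j ≠ a j * b i) (c : K) : b ≠ c • a := by
  rintro rfl
  apply h
  simp only [Pi.smul_apply, smul_eq_mul]
  ring

section

variable {c : K}

lemma e0 : (form ![1, 0, 0] : S K) = X 0 := by rw [form3]; simp
lemma e1 : (form ![0, 1, 0] : S K) = X 1 := by rw [form3]; simp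
lemma e2 : (form ![0, 0, 1] : S K) = X 2 := by rw [form3]; simp
lemma e3 : (form ![1, -1, 0] : S K) = X 0 - X 1 := by rw [form3]; simp; ring
lemma e4 : (form ![1, 1, 0] : S K) = X 0 + X 1 := by rw [form3]; simp
lemma e5 : (form ![0, 1, -1] : S K) = X 1 - X 2 := by rw [form3]; simp; ring
lemma e6 : (form ![0, 1, 1] : S K) = X 1 + X 2 := by rw [form3]; simp
lemma e7 (c : K) : (form ![-c, 0, 1] : S K) = X 2 - C c * X 0 := by rw [form3]; simp; ring
lemma e8 (c : K) : (form ![c, 0, 1] : S K) = X 2 + C c * X 0 := by rw [form3]; simp; ring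

lemma defPoly_eq : (defPoly (qa c) : S K) = X 0 * X 1 * X 2 * q1 * q2 * q3 c := by
  unfold defPoly
  simp only [Fin.prod_univ_succ, Fin.prod_univ_zero]
  show form ![1, 0, 0] * (form ![0, 1, 0] * (form ![0, 0, 1] * (form ![1, -1, 0] *
    (form ![1, 1, 0] * (form ![0, 1, -1] * (form ![0, 1, 1] * (form ![-c, 0, 1] *
      (form ![c, 0, 1] * 1)))))))) = _
  rw [e0, e1, e2, e3, e4, e5, e6, e7, e8]
  unfold q1 q2 q3
  ring

/-- membership in `D` in terms of the nine forms -/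
lemma mem_iff (θ : Der K 3) : θ ∈ logDer (qa c) ↔
    (X 0 ∣ θ (X 0)) ∧ (X 1 ∣ θ (X 1)) ∧ (X 2 ∣ θ (X 2)) ∧
    ((X 0 - X 1) ∣ θ (X 0) - θ (X 1)) ∧ ((X 0 + X 1) ∣ θ (X 0) + θ (X 1)) ∧
    ((X 1 - X 2) ∣ θ (X 1) - θ (X 2)) ∧ ((X 1 + X 2) ∣ θ (X 1) + θ (X 2)) ∧
    ((X 2 - C c * X 0) ∣ θ (X 2) - C c * θ (X 0)) ∧
    ((X 2 + C c * X 0) ∣ θ (X 2) + C c * θ (X 0)) := by
  have h0 : θ ∈ logDer (qa c) ↔ ∀ i, form (qa c i) ∣ θ (form (qa c i)) := Iff.rfl
  rw [h0]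
  have hx : ∀ (θ : Derivation K (S K) (S K)) (c : K) (p : S K), θ (C c * p) = C c * θ p := by
    intro θ c p
    simp only [Derivation.leibniz, derivation_C, mul_zero, add_zero, smul_eq_mul]
  constructor
  · intro h
    have g0 := h 0; have g1 := h 1; have g2 := h 2; have g3 := h 3; have g4 := h 4
    have g5 := h 5; have g6 := h 6; have g7 := h 7; have g8 := h 8
    simp only [qa, Matrix.cons_val] at g0 g1 g2 g3 g4 g5 g6 g7 g8
    rw [e0] at g0; rw [e1] at g1; rw [e2] at g2; rw [e3, map_sub] at g3; rw [e4, map_add] at g4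
    rw [e5, map_sub] at g5; rw [e6, map_add] at g6; rw [e7, map_sub, hx] at g7
    rw [e8, map_add, hx] at g8
    exact ⟨g0, g1, g2, g3, g4, g5, g6, g7, g8⟩
  · rintro ⟨g0, g1, g2, g3, g4, g5, g6, g7, g8⟩ i
    fin_cases i
    · show form ![1, 0, 0] ∣ θ (form ![1, 0, 0]); rw [e0]; exact g0
    · show form ![0, 1, 0] ∣ θ (form ![0, 1, 0]); rw [e1]; exact g1
    · show form ![0, 0, 1] ∣ θ (form ![0, 0, 1]); rw [e2]; exact g2
    · show form ![1, -1, 0] ∣ θ (form ![1, -1, 0]); rw [e3, map_sub]; exact g3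
    · show form ![1, 1, 0] ∣ θ (form ![1, 1, 0]); rw [e4, map_add]; exact g4
    · show form ![0, 1, -1] ∣ θ (form ![0, 1, -1]); rw [e5, map_sub]; exact g5
    · show form ![0, 1, 1] ∣ θ (form ![0, 1, 1]); rw [e6, map_add]; exact g6
    · show form ![-c, 0, 1] ∣ θ (form ![-c, 0, 1]); rw [e7, map_sub, hx]; exact g7
    · show form ![c, 0, 1] ∣ θ (form ![c, 0, 1]); rw [e8, map_add, hx]; exact g8

lemma two_dvd {R : Type} [CommRing R] {p q u : R} (hq : Prime q)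
    (hqp : ¬ q ∣ p) (h1 : p ∣ u) (h2 : q ∣ u) : p * q ∣ u := by
  obtain ⟨v, rfl⟩ := h1
  obtain ⟨w, rfl⟩ := (hq.dvd_or_dvd h2).resolve_left hqp
  exact ⟨w, by ring⟩

lemma q1_dvd (h2 : (2 : K) ≠ 0) {u : S K} (ha : (X 0 - X 1) ∣ u) (hb : (X 0 + X 1) ∣ u) :
    q1 ∣ u := by
  have e : (q1 : S K) = (X 0 - X 1) * (X 0 + X 1) := by unfold q1; ring
  rw [e]
  rw [← e3] at ha ⊢; rw [← e4] at hb ⊢
  refine two_dvd (form_prime (ne0 0 one_ne_zero)) ?_ ha hb
  refine ndvd (ne0 0 one_ne_zero) (smul_ne 0 1 ?_)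
  simp only [Matrix.cons_val]
  intro h
  apply h2
  linear_combination -h

lemma q2_dvd (h2 : (2 : K) ≠ 0) {u : S K} (ha : (X 1 - X 2) ∣ u) (hb : (X 1 + X 2) ∣ u) :
    q2 ∣ u := by
  have e : (q2 : S K) = (X 1 - X 2) * (X 1 + X 2) := by unfold q2; ring
  rw [e]
  rw [← e5] at ha ⊢; rw [← e6] at hb ⊢
  refine two_dvd (form_prime (ne0 1 one_ne_zero)) ?_ ha hb
  refine ndvd (ne0 1 one_ne_zero) (smul_ne 1 2 ?_)
  simp only [Matrix.cons_val]
  intro h
  apply h2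
  linear_combination -h

lemma q3_dvd (h2 : (2 : K) ≠ 0) (hc : c ≠ 0) {u : S K} (ha : (X 2 - C c * X 0) ∣ u)
    (hb : (X 2 + C c * X 0) ∣ u) : q3 c ∣ u := by
  have e : (q3 c : S K) = (X 2 - C c * X 0) * (X 2 + C c * X 0) := by unfold q3; ring
  rw [e]
  rw [← e7] at ha ⊢; rw [← e8] at hb ⊢
  refine two_dvd (form_prime (ne0 2 one_ne_zero)) ?_ ha hb
  refine ndvd (ne0 2 one_ne_zero) (smul_ne 0 2 ?_)
  simp only [Matrix.cons_val]
  intro h
  have : (2 : K) * c = 0 := by linear_combination h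
  rcases mul_eq_zero.1 this with h | h
  · exact h2 h
  · exact hc h

lemma X_ndvd (i : Fin 3) {a : Fin 3 → K} (j k : Fin 3) (hjk : j ≠ k) (hj : a j ≠ 0) (hk : a k ≠ 0) :
    ¬ form a ∣ (X i : S K) := by
  have e : (X i : S K) = form (Pi.single i 1) := by
    rw [form, Finset.sum_eq_single i]
    · simp
    · intro b _ hb
      simp [hb]
    · simp
  rw [e]
  refine ndvd (ne0 i (by simp)) fun c h => ?_
  have h1 := congrFun h j
  have h2 := congrFun h k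
  simp only [Pi.smul_apply, smul_eq_mul, Pi.single_apply] at h1 h2
  have hc : c ≠ 0 := by
    rintro rfl
    have := congrFun h i
    simp at this
  by_cases hji : j = i
  · have hki : k ≠ i := fun h => hjk (hji.trans h.symm)
    rw [if_neg hki] at h2
    exact mul_ne_zero hc hk h2.symm
  · rw [if_neg hji] at h1
    exact mul_ne_zero hc hj h1.symm

/-- the structure of the logarithmic derivations -/
lemma struct (h2 : (2 : K) ≠ 0) (hc : c ≠ 0) {θ : Der K 3} (hθ : θ ∈ logDer (qa c)) :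
    ∃ g B1 B2 B3 : S K, B1 * q1 + B2 * q2 + B3 * q3 c = 0 ∧ θ = der c g B2 B3 := by
  obtain ⟨⟨f0, h0⟩, ⟨f1, h1⟩, ⟨f2, h2'⟩, h3, h4, h5, h6, h7, h8⟩ := (mem_iff θ).1 hθ
  rw [h0, h1] at h3 h4
  rw [h1, h2'] at h5 h6
  rw [h2', h0] at h7 h8
  have key : ∀ {a : Fin 3 → K} (ha : a ≠ 0) (i : Fin 3) (c : K) (hc : c ≠ 0)
      (hn : ¬ form a ∣ (X i : S K)) {v w : S K} (hv : form a ∣ v) (hw : v = C c * X i * w),
      form a ∣ w := by
    intro a ha i c hc hn v w hv hw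
    have h1 : form a ∣ X i * w := by
      have : X i * w = C c⁻¹ * v := by
        rw [hw, ← mul_assoc, ← mul_assoc, ← C_mul, inv_mul_cancel₀ hc, C_1, one_mul]
      rw [this]
      exact Dvd.dvd.mul_left hv _
    exact ((form_prime ha).dvd_or_dvd h1).resolve_left hn
  obtain ⟨B1, hB1⟩ : q1 ∣ f0 - f1 := by
    refine q1_dvd h2 ?_ ?_
    · rw [← e3] at h3 ⊢
      refine key (ne0 0 one_ne_zero) 1 1 one_ne_zero
        (X_ndvd 1 0 1 (by decide) one_ne_zero (neg_ne_zero.2 one_ne_zero))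
        (dvd_sub h3 (Dvd.intro f0 rfl)) ?_
      rw [e3, C_1]
      ring
    · rw [← e4] at h4 ⊢
      refine key (ne0 0 one_ne_zero) 1 (-1) (neg_ne_zero.2 one_ne_zero)
        (X_ndvd 1 0 1 (by decide) one_ne_zero one_ne_zero)
        (dvd_sub h4 (Dvd.intro f0 rfl)) ?_
      rw [e4, C_neg, C_1]
      ring
  obtain ⟨B2, hB2⟩ : q2 ∣ f1 - f2 := by
    refine q2_dvd h2 ?_ ?_
    · rw [← e5] at h5 ⊢
      refine key (ne0 1 one_ne_zero) 2 1 one_ne_zero
        (X_ndvd 2 1 2 (by decide) one_ne_zero (neg_ne_zero.2 one_ne_zero))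
        (dvd_sub h5 (Dvd.intro f1 rfl)) ?_
      rw [e5, C_1]
      ring
    · rw [← e6] at h6 ⊢
      refine key (ne0 1 one_ne_zero) 2 (-1) (neg_ne_zero.2 one_ne_zero)
        (X_ndvd 2 1 2 (by decide) one_ne_zero one_ne_zero)
        (dvd_sub h6 (Dvd.intro f1 rfl)) ?_
      rw [e6, C_neg, C_1]
      ring
  obtain ⟨B3, hB3⟩ : q3 c ∣ f2 - f0 := by
    refine q3_dvd h2 hc ?_ ?_
    · rw [← e7] at h7 ⊢
      refine key (ne0 2 one_ne_zero) 0 c hc
        (X_ndvd 0 0 2 (by decide) (neg_ne_zero.2 hc) one_ne_zero)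
        (dvd_sub h7 (Dvd.intro f2 rfl)) ?_
      rw [e7]
      ring
    · rw [← e8] at h8 ⊢
      refine key (ne0 2 one_ne_zero) 0 (-c) (neg_ne_zero.2 hc)
        (X_ndvd 0 0 2 (by decide) hc one_ne_zero)
        (dvd_sub h8 (Dvd.intro f2 rfl)) ?_
      rw [e8, C_neg]
      ring
  refine ⟨f2, B1, B2, B3, by linear_combination -hB1 - hB2 - hB3, ?_⟩
  apply derivation_ext
  intro i
  fin_cases i
  · show θ (X 0) = der c f2 B2 B3 (X 0)
    rw [der_X0, h0]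
    linear_combination (-X 0) * hB3
  · show θ (X 1) = der c f2 B2 B3 (X 1)
    rw [der_X1, h1]
    linear_combination (X 1) * hB2
  · show θ (X 2) = der c f2 B2 B3 (X 2)
    rw [der_X2, h2']

lemma der_mem {g B1 B2 B3 : S K} (h : B1 * q1 + B2 * q2 + B3 * q3 c = 0) :
    der c g B2 B3 ∈ logDer (qa c) := by
  rw [mem_iff, der_X0, der_X1, der_X2]
  have e1 : -(q3 c * B3) = B1 * q1 + B2 * q2 := by linear_combination -h
  have d1 : (X 0 - X 1 : S K) ∣ q1 := ⟨(X 0 + X 1), by unfold q1; ring⟩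
  have d2 : (X 0 + X 1 : S K) ∣ q1 := ⟨(X 0 - X 1), by unfold q1; ring⟩
  have d4 : (X 1 - X 2 : S K) ∣ q2 := ⟨(X 1 + X 2), by unfold q2; ring⟩
  have d5 : (X 1 + X 2 : S K) ∣ q2 := ⟨(X 1 - X 2), by unfold q2; ring⟩
  have d7 : (X 2 - C c * X 0) ∣ q3 c := ⟨(X 2 + C c * X 0), by unfold q3; ring⟩
  have d8 : (X 2 + C c * X 0) ∣ q3 c := ⟨(X 2 - C c * X 0), by unfold q3; ring⟩
  refine ⟨Dvd.intro _ rfl, Dvd.intro _ rfl, Dvd.intro _ rfl, ?_, ?_, ?_, ?_, ?_, ?_⟩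
  · have : X 0 * (g - q3 c * B3) - X 1 * (g + q2 * B2) =
        (X 0 - X 1) * (g + q2 * B2) + q1 * (X 0 * B1) := by linear_combination (X 0) * e1
    rw [this]
    exact dvd_add (Dvd.intro _ rfl) (Dvd.dvd.mul_right d1 _)
  · have : X 0 * (g - q3 c * B3) + X 1 * (g + q2 * B2) =
        (X 0 + X 1) * (g + q2 * B2) + q1 * (X 0 * B1) := by linear_combination (X 0) * e1
    rw [this]
    exact dvd_add (Dvd.intro _ rfl) (Dvd.dvd.mul_right d2 _)
  · have : X 1 * (g + q2 * B2) - X 2 * g = (X 1 - X 2) * g + q2 * (X 1 * B2) := by ring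
    rw [this]
    exact dvd_add (Dvd.intro _ rfl) (Dvd.dvd.mul_right d4 _)
  · have : X 1 * (g + q2 * B2) + X 2 * g = (X 1 + X 2) * g + q2 * (X 1 * B2) := by ring
    rw [this]
    exact dvd_add (Dvd.intro _ rfl) (Dvd.dvd.mul_right d5 _)
  · have : X 2 * g - C c * (X 0 * (g - q3 c * B3)) =
        (X 2 - C c * X 0) * g + q3 c * (C c * X 0 * B3) := by ring
    rw [this]
    exact dvd_add (Dvd.intro _ rfl) (Dvd.dvd.mul_right d7 _)
  · have : X 2 * g + C c * (X 0 * (g - q3 c * B3)) =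
        (X 2 + C c * X 0) * g + q3 c * (-(C c * X 0 * B3)) := by ring
    rw [this]
    exact dvd_add (Dvd.intro _ rfl) (Dvd.dvd.mul_right d8 _)

lemma smul_der (a g B2 B3 : S K) :
    a • der c g B2 B3 = der c (a * g) (a * B2) (a * B3) := by
  apply derivation_ext
  intro i
  rw [Derivation.smul_apply, smul_eq_mul]
  fin_cases i
  · show a * der c g B2 B3 (X 0) = der c (a * g) (a * B2) (a * B3) (X 0)
    rw [der_X0, der_X0]; ring
  · show a * der c g B2 B3 (X 1) = der c (a * g) (a * B2) (a * B3) (X 1)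
    rw [der_X1, der_X1]; ring
  · show a * der c g B2 B3 (X 2) = der c (a * g) (a * B2) (a * B3) (X 2)
    rw [der_X2, der_X2]; ring

lemma der_add (g B2 B3 g' B2' B3' : S K) :
    der c g B2 B3 + der c g' B2' B3' = der c (g + g') (B2 + B2') (B3 + B3') := by
  apply derivation_ext
  intro i
  rw [Derivation.add_apply]
  fin_cases i
  · show der c g B2 B3 (X 0) + der c g' B2' B3' (X 0) = der c (g + g') (B2 + B2') (B3 + B3') (X 0)
    rw [der_X0, der_X0, der_X0]; ring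
  · show der c g B2 B3 (X 1) + der c g' B2' B3' (X 1) = der c (g + g') (B2 + B2') (B3 + B3') (X 1)
    rw [der_X1, der_X1, der_X1]; ring
  · show der c g B2 B3 (X 2) + der c g' B2' B3' (X 2) = der c (g + g') (B2 + B2') (B3 + B3') (X 2)
    rw [der_X2, der_X2, der_X2]; ring

lemma q2_ne : (q2 : S K) ≠ 0 := by
  have e : (q2 : S K) = (X 1 - X 2) * (X 1 + X 2) := by unfold q2; ring
  rw [e, ← e5, ← e6]
  exact mul_ne_zero (form_prime (ne0 1 one_ne_zero)).ne_zero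
    (form_prime (ne0 1 one_ne_zero)).ne_zero

lemma q1_ne : (q1 : S K) ≠ 0 := by
  have e : (q1 : S K) = (X 0 - X 1) * (X 0 + X 1) := by unfold q1; ring
  rw [e, ← e3, ← e4]
  exact mul_ne_zero (form_prime (ne0 0 one_ne_zero)).ne_zero
    (form_prime (ne0 0 one_ne_zero)).ne_zero

lemma q3_ne : (q3 c : S K) ≠ 0 := by
  have e : (q3 c : S K) = (X 2 - C c * X 0) * (X 2 + C c * X 0) := by unfold q3; ring
  rw [e, ← e7, ← e8]
  exact mul_ne_zero (form_prime (ne0 2 one_ne_zero)).ne_zero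
    (form_prime (ne0 2 one_ne_zero)).ne_zero

lemma der_eq_zero {g B2 B3 : S K} (h : der c g B2 B3 = 0) : g = 0 ∧ B2 = 0 ∧ B3 = 0 := by
  have h0 : der c g B2 B3 (X 0) = 0 := by rw [h, Derivation.zero_apply]
  have h1 : der c g B2 B3 (X 1) = 0 := by rw [h, Derivation.zero_apply]
  have h2 : der c g B2 B3 (X 2) = 0 := by rw [h, Derivation.zero_apply]
  rw [der_X0] at h0
  rw [der_X1] at h1
  rw [der_X2] at h2
  have hg : g = 0 := (mul_eq_zero.1 h2).resolve_left (X_ne_zero _)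
  subst hg
  have h1' := (mul_eq_zero.1 h1).resolve_left (X_ne_zero _)
  have h0' := (mul_eq_zero.1 h0).resolve_left (X_ne_zero _)
  rw [zero_add] at h1'
  rw [zero_sub, neg_eq_zero] at h0'
  exact ⟨rfl, (mul_eq_zero.1 h1').resolve_left q2_ne, (mul_eq_zero.1 h0').resolve_left q3_ne⟩

/-! ### The Koszul relations of the squares of the variables -/

lemma sq_dvd {p : S K} (h : (X 0 : S K) ^ 2 ∣ X 1 ^ 2 * p) : (X 0 : S K) ^ 2 ∣ p := by
  have n : ¬ (X 0 : S K) ∣ X 1 := by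
    rw [← e0, ← e1]
    exact ndvd (ne0 1 one_ne_zero) (smul_ne 0 1 (by simp))
  have hp : Prime (X 0 : S K) := X_prime
  have n2 : ¬ (X 0 : S K) ∣ X 1 ^ 2 := fun h => n (hp.dvd_of_dvd_pow h)
  exact hp.pow_dvd_of_dvd_mul_left 2 n2 h

lemma mem_sq (p : S K) : p ∈ Ideal.span {(X 0 : S K) ^ 2, X 1 ^ 2} ↔
    ∀ m ∈ p.support, 2 ≤ m 0 ∨ 2 ≤ m 1 := by
  have e : ({(X 0 : S K) ^ 2, X 1 ^ 2} : Set (S K)) =
      (fun s => monomial s (1 : K)) '' {Finsupp.single 0 2, Finsupp.single 1 2} := by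
    rw [Set.image_pair]
    simp only [X_pow_eq_monomial]
  rw [e, mem_ideal_span_monomial_image]
  refine forall₂_congr fun m _ => ?_
  constructor
  · rintro ⟨s, hs, hsm⟩
    rcases hs with rfl | rfl
    · left
      simpa using hsm 0
    · right
      simpa using hsm 1
  · rintro (h | h)
    · refine ⟨_, Or.inl rfl, ?_⟩
      rwa [Finsupp.single_le_iff]
    · refine ⟨_, Or.inr rfl, ?_⟩
      rwa [Finsupp.single_le_iff]

lemma mem_of_mul {p : S K} (h : X 2 ^ 2 * p ∈ Ideal.span {(X 0 : S K) ^ 2, X 1 ^ 2}) :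
    p ∈ Ideal.span {(X 0 : S K) ^ 2, X 1 ^ 2} := by
  classical
  rw [mem_sq] at h ⊢
  intro m hm
  have h1 : m + Finsupp.single 2 2 ∈ (X 2 ^ 2 * p).support := by
    rw [mem_support_iff, X_pow_eq_monomial, mul_comm, coeff_mul_monomial, mul_one]
    exact mem_support_iff.1 hm
  have h2 := h _ h1
  simpa using h2

/-- first homology of the Koszul complex of `x², y², z²` -/
lemma koszul {h1 h2 h3 : S K} (h : X 0 ^ 2 * h1 + X 1 ^ 2 * h2 + X 2 ^ 2 * h3 = 0) :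
    ∃ u1 u2 u3 : S K, h1 = u2 * X 2 ^ 2 - u3 * X 1 ^ 2 ∧ h2 = u3 * X 0 ^ 2 - u1 * X 2 ^ 2 ∧
      h3 = u1 * X 1 ^ 2 - u2 * X 0 ^ 2 := by
  have m : X 2 ^ 2 * h3 ∈ Ideal.span {(X 0 : S K) ^ 2, X 1 ^ 2} := by
    rw [Ideal.mem_span_pair]
    exact ⟨-h1, -h2, by linear_combination -h⟩
  obtain ⟨a, b, hab⟩ := Ideal.mem_span_pair.1 (mem_of_mul m)
  have hd : (X 0 : S K) ^ 2 ∣ X 1 ^ 2 * (h2 + X 2 ^ 2 * b) :=
    ⟨-(h1 + X 2 ^ 2 * a), by rw [← hab] at h; linear_combination h⟩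
  obtain ⟨u3, hu3⟩ := sq_dvd hd
  refine ⟨b, -a, u3, ?_, ?_, ?_⟩
  · apply mul_left_cancel₀ (pow_ne_zero 2 (X_ne_zero (R := K) (0 : Fin 3)))
    rw [← hab] at h
    linear_combination h - X 1 ^ 2 * hu3
  · linear_combination hu3
  · rw [← hab]; ring

/-- generation of the module of syzygies of `q1, q2, q3` -/
lemma gen (hc1 : c ^ 2 ≠ 1) {B1 B2 B3 : S K} (hB : B1 * q1 + B2 * q2 + B3 * q3 c = 0) :
    ∃ v1 v2 v3 : S K, B2 = v1 * q3 c - v3 * q1 ∧ B3 = -(v1 * q2) + v2 * q1 := by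
  obtain ⟨u1, u2, u3, k1, k2, k3⟩ := koszul (h1 := B1 - C c ^ 2 * B3) (h2 := B2 - B1)
    (h3 := B3 - B2) (by unfold q1 q2 q3 at hB; linear_combination hB)
  have hne : 1 - c ^ 2 ≠ 0 := fun h => hc1 (by linear_combination -h)
  have he : (C (1 - c ^ 2)⁻¹ : S K) * (1 - C c ^ 2) = 1 := by
    have : (1 - C c ^ 2 : S K) = C (1 - c ^ 2) := by simp
    rw [this, ← C_mul, inv_mul_cancel₀ hne, C_1]
  set e : S K := C (1 - c ^ 2)⁻¹ with hedef
  have b3 : B3 = e * ((u1 - u2) * q2 + (u3 - u2) * q1) := by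
    unfold q1 q2
    linear_combination e * (k1 + k2 + k3) - B3 * he
  refine ⟨e * (u2 - u1), e * (u3 - u2), -(e * (u3 - u1) + u1), ?_, ?_⟩
  · have b2 : B2 = B3 - (u1 * X 1 ^ 2 - u2 * X 0 ^ 2) := by linear_combination -k3
    rw [b2, b3]
    unfold q1 q2 q3
    linear_combination ((u1 - u2) * X 0 ^ 2) * he
  · rw [b3]; ring

end

end Pool.Agent.X273.Quad
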