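import Mathlib
import Pool.Agent.X273.SaitoDefs

set_option autoImplicit false
set_option linter.unusedSectionVars false

/-! The hypotheses (H) and the resolution shape in projective dimension one. -/

namespace Pool.Agent.X273.Shape

open MvPolynomial CategoryTheory Pool.Agent.X273.Saito

variable {K : Type} [Field K] {l n : ℕ}

/-- The hypotheses (H) for the arrangement `A`, the derivations `θ_1, …, θ_{l+1}` and the
polynomials `g_i` with `(-1)^i det M_i = g_i Q`. -/
structure HypH (A : Fin n → Fin l → K) (θ : Fin (l + 1) → Der K l)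
    (g : Fin (l + 1) → MvPolynomial (Fin l) K) : Prop where
  /-- the `θ_i` are homogeneous elements of `D(A)` -/
  mem : ∀ i, θ i ∈ logDer A
  hom : ∀ i, ∃ d : ℕ, IsHomDer (θ i) d
  /-- the definition of the `g_i` -/
  def_g : ∀ i : Fin (l + 1), (-1) ^ ((i : ℕ) + 1) * minor θ i = g i * defPoly A
  /-- `g_{l+1} ≠ 0` -/
  last_ne_zero : g (Fin.last l) ≠ 0
  /-- `g_1, …, g_l` are homogeneous of positive degree -/
  pos : ∀ i : Fin l, PosHom (g i.castSucc)
  /-- `g_1, …, g_l` have no non-trivial common divisor modulo `g_{l+1}` -/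
  no_common : ¬ ∃ h, PosHom h ∧ ∀ i : Fin l, g i.castSucc ∈ Ideal.span {h, g (Fin.last l)}
  /-- `D(A)` has projective dimension one -/
  pd : projectiveDimension (ModuleCat.of (MvPolynomial (Fin l) K) (logDer A)) = 1

/-- The derivations `θ_1, …, θ_{l+m}` of degrees `d_i` and the relations `r_1, …, r_m` form a
graded minimal free resolution
`0 → ⨁_{i=l+1}^{l+m} S[-d_i-1] → ⨁_{i=1}^{l+m} S[-d_i] → D(A) → 0`. -/
structure IsShapedRes (A : Fin n → Fin l → K) (m : ℕ) (d : Fin (l + m) → ℕ)
    (θ : Fin (l + m) → Der K l) (r : Fin m → Fin (l + m) → MvPolynomial (Fin l) K) : Prop where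
  /-- the `θ_i` are homogeneous elements of `D(A)` of degree `d_i` -/
  mem : ∀ i, θ i ∈ logDer A
  hom : ∀ i, IsHomDer (θ i) (d i)
  /-- they generate `D(A)` -/
  gen : ∀ η ∈ logDer A, ∃ a : Fin (l + m) → MvPolynomial (Fin l) K, η = ∑ i, a i • θ i
  /-- the `r_k` are relations between the `θ_i` -/
  rel : ∀ k, ∑ i, r k i • θ i = 0
  /-- the `r_k` are a basis of the module of relations -/
  basis : ∀ a : Fin (l + m) → MvPolynomial (Fin l) K, ∑ i, a i • θ i = 0 →
    ∃! b : Fin m → MvPolynomial (Fin l) K, ∀ i, a i = ∑ k, b k * r k i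
  /-- the `k`-th relation is homogeneous of degree `d_{l+k} + 1` -/
  deg : ∀ k i, ∀ u ∈ (r k i).support, u.degree + d i = d (Fin.natAdd l k) + 1
  /-- minimality: the entries of the relations lie in the maximal ideal -/
  minimal : ∀ k i, constantCoeff (r k i) = 0

end Pool.Agent.X273.Shape
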