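import Mathlib
import Pool.Agent.X273.Quad
import Pool.Agent.X273.ShapeDefs
import Pool.Agent.H158R3.Hilb
import Pool.Agent.X273.TriLat

set_option autoImplicit false
set_option linter.unusedSectionVars false

/-! The nine-line arrangement satisfies (H) but its resolution has the wrong shape. -/

namespace Pool.Agent.X273.Quad

open MvPolynomial CategoryTheory Pool.Agent.X273.Saito Pool.Agent.X273.Shape

section general

variable {K : Type} [Field K] {l : ℕ}

/-- all monomials of `p` have degree `b - a` -/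
def HD (p : MvPolynomial (Fin l) K) (a b : ℕ) : Prop := ∀ u ∈ p.support, u.degree + a = b

lemma HD.mul {p q : MvPolynomial (Fin l) K} {a b e : ℕ} (hp : HD p a b) (hq : HD q e a) :
    HD (p * q) e b := by
  classical
  intro u hu
  have h := support_mul p q hu
  rw [Finset.mem_add] at h
  obtain ⟨u1, h1, u2, h2, rfl⟩ := h
  have g1 := hp _ h1
  have g2 := hq _ h2
  rw [map_add]
  omega

lemma HD.sum {ι : Type} (s : Finset ι) {p : ι → MvPolynomial (Fin l) K} {a b : ℕ}
    (hp : ∀ i ∈ s, HD (p i) a b) : HD (∑ i ∈ s, p i) a b := by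
  classical
  intro u hu
  have h := support_sum hu
  rw [Finset.mem_biUnion] at h
  obtain ⟨i, hi, h⟩ := h
  exact hp i hi u h

lemma HD.const {p : MvPolynomial (Fin l) K} {a b : ℕ} (hp : HD p a b) (h : a < b) :
    constantCoeff p = 0 := by
  by_contra hne
  have h1 : (0 : Fin l →₀ ℕ) ∈ p.support := by
    rw [mem_support_iff]
    exact hne
  have := hp _ h1
  simp at this
  omega

lemma hc_mul (p : MvPolynomial (Fin l) K) {q : MvPolynomial (Fin l) K} {e : ℕ}
    (hq : q.IsHomogeneous e) (δ : ℕ) : homogeneousComponent δ (p * q) =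
      (if e ≤ δ then homogeneousComponent (δ - e) p else 0) * q := by
  classical
  have h1 : p * q = ∑ i ∈ Finset.range (p.totalDegree + 1), homogeneousComponent i p * q := by
    rw [← Finset.sum_mul, sum_homogeneousComponent]
  have h2 : ∀ i, homogeneousComponent δ (homogeneousComponent i p * q) =
      if i + e = δ then homogeneousComponent i p * q else 0 := by
    intro i
    rw [homogeneousComponent_of_mem (n := i + e)
      ((homogeneousComponent_isHomogeneous i p).mul hq)]
    by_cases h : i + e = δ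
    · rw [if_pos h.symm, if_pos h]
    · rw [if_neg (fun h' => h h'.symm), if_neg h]
  rw [h1, map_sum, Finset.sum_congr rfl fun i _ => h2 i]
  split_ifs with he
  · have h3 : ∀ i, (if i + e = δ then homogeneousComponent i p * q else 0) =
        if i = δ - e then homogeneousComponent i p * q else 0 := by
      intro i
      by_cases h : i + e = δ
      · rw [if_pos h, if_pos (by omega)]
      · rw [if_neg h, if_neg (by omega)]
    rw [Finset.sum_congr rfl fun i _ => h3 i, Finset.sum_ite_eq']
    split_ifs with h4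
    · rfl
    · rw [homogeneousComponent_eq_zero _ _ (by rw [Finset.mem_range] at h4; omega), zero_mul]
  · rw [zero_mul]
    refine Finset.sum_eq_zero fun i _ => ?_
    rw [if_neg (by omega)]

lemma hom_rep {m : ℕ} (κ : Fin m → Der K l) (e : Fin m → ℕ) (hκ : ∀ j, IsHomDer (κ j) (e j))
    {η : Der K l} {δ : ℕ} (hη : IsHomDer η δ) {R : Fin m → MvPolynomial (Fin l) K}
    (h : η = ∑ j, R j • κ j) :
    ∃ R' : Fin m → MvPolynomial (Fin l) K, η = ∑ j, R' j • κ j ∧ ∀ j, HD (R' j) (e j) δ := by
  classical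
  refine ⟨fun j => if e j ≤ δ then homogeneousComponent (δ - e j) (R j) else 0, ?_, ?_⟩
  · apply derivation_ext
    intro k
    rw [smul_sum_apply]
    have h1 := congrArg (fun D => homogeneousComponent δ (D (X k))) h
    simp only [smul_sum_apply, map_sum] at h1
    rw [homogeneousComponent_of_mem (hη k), if_pos rfl] at h1
    rw [h1]
    exact Finset.sum_congr rfl fun j _ => hc_mul _ (hκ j k) δ
  · intro j u hu
    by_cases he : e j ≤ δ
    · simp only [he, if_true] at hu
      have h2 : u.degree = δ - e j := by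
        by_contra hne
        exact (mem_support_iff.1 hu) ((homogeneousComponent_isHomogeneous _ _).coeff_eq_zero hne)
      omega
    · simp only [he, if_false, support_zero, Finset.notMem_empty] at hu

/-- low coefficients of multiples of a homogeneous polynomial vanish -/
lemma coeff_low {Q : MvPolynomial (Fin l) K} {k : ℕ} (hQ : Q.IsHomogeneous k)
    (u : MvPolynomial (Fin l) K) (m : Fin l →₀ ℕ)
    (hm : m.degree < k) : coeff m (u * Q) = 0 := by
  classical
  rw [coeff_mul]
  refine Finset.sum_eq_zero fun x hx => ?_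
  have h1 : x.1 + x.2 = m := by simpa using hx
  rw [hQ.coeff_eq_zero, mul_zero]
  intro h2
  have := congrArg Finsupp.degree h1
  rw [map_add] at this
  omega

/-- a square matrix which is the identity modulo the maximal ideal is injective on rows -/
lemma vec_zero {m : ℕ} (M : Matrix (Fin m) (Fin m) (MvPolynomial (Fin l) K))
    (hM : ∀ i j, constantCoeff (M i j - if i = j then 1 else 0) = 0)
    (v : Fin m → MvPolynomial (Fin l) K) (hv : Matrix.vecMul v M = 0) : v = 0 := by
  refine Matrix.eq_zero_of_vecMul_eq_zero ?_ hv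
  intro h0
  have h1 := congrArg (constantCoeff (σ := Fin l) (R := K)) h0
  rw [RingHom.map_det, map_zero] at h1
  have h2 : (constantCoeff (σ := Fin l) (R := K)).mapMatrix M = 1 := by
    ext i j
    have := hM i j
    rw [map_sub, sub_eq_zero] at this
    rw [RingHom.mapMatrix_apply, Matrix.map_apply, this, Matrix.one_apply]
    split_ifs <;> simp
  rw [h2, Matrix.det_one] at h1
  exact one_ne_zero h1

end general

variable {K : Type} [Field K] {c : K}

/-- the four generators -/
noncomputable def kap (c : K) : Fin 4 → Der K 3 :=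
  ![der c 1 0 0, der c 0 (q3 c) (-q2), der c 0 0 q1, der c 0 (-q1) 0]

/-- the relation -/
noncomputable def wv (c : K) : Fin 4 → S K := ![0, q1, q2, q3 c]

lemma X_hom (i : Fin 3) : (X i : S K).IsHomogeneous 1 := isHomogeneous_X K i

lemma Xsq_hom (i : Fin 3) : (X i ^ 2 : S K).IsHomogeneous 2 := by
  have := (X_hom (K := K) i).pow 2
  simpa using this

lemma q1_hom : (q1 : S K).IsHomogeneous 2 := (Xsq_hom 0).sub (Xsq_hom 1)
lemma q2_hom : (q2 : S K).IsHomogeneous 2 := (Xsq_hom 1).sub (Xsq_hom 2)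
lemma q3_hom : (q3 c : S K).IsHomogeneous 2 := by
  unfold q3
  rw [← C_pow]
  exact (Xsq_hom 2).sub ((Xsq_hom 0).C_mul _)

lemma der_hom {g B2 B3 : S K} {e : ℕ} (hg : g.IsHomogeneous (2 + e)) (h2 : B2.IsHomogeneous e)
    (h3 : B3.IsHomogeneous e) : IsHomDer (der c g B2 B3) (1 + (2 + e)) := by
  intro i
  fin_cases i
  · show (der c g B2 B3 (X 0)).IsHomogeneous _
    rw [der_X0]
    exact (X_hom 0).mul (hg.sub (q3_hom.mul h3))
  · show (der c g B2 B3 (X 1)).IsHomogeneous _
    rw [der_X1]
    exact (X_hom 1).mul (hg.add (q2_hom.mul h2))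
  · show (der c g B2 B3 (X 2)).IsHomogeneous _
    rw [der_X2]
    exact (X_hom 2).mul hg

lemma euler_hom : IsHomDer (der c (1 : S K) 0 0) 1 := by
  intro i
  fin_cases i
  · show (der c (1 : S K) 0 0 (X 0)).IsHomogeneous _
    rw [der_X0, mul_zero, sub_zero, mul_one]
    exact X_hom 0
  · show (der c (1 : S K) 0 0 (X 1)).IsHomogeneous _
    rw [der_X1, mul_zero, add_zero, mul_one]
    exact X_hom 1
  · show (der c (1 : S K) 0 0 (X 2)).IsHomogeneous _
    rw [der_X2, mul_one]
    exact X_hom 2

lemma kap_hom (j : Fin 4) : IsHomDer (kap c j) ((![1, 5, 5, 5] : Fin 4 → ℕ) j) := by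
  fin_cases j
  · exact euler_hom
  · exact der_hom (e := 2) (isHomogeneous_zero _ _ _) q3_hom q2_hom.neg
  · exact der_hom (e := 2) (isHomogeneous_zero _ _ _) (isHomogeneous_zero _ _ _) q1_hom
  · exact der_hom (e := 2) (isHomogeneous_zero _ _ _) q1_hom.neg (isHomogeneous_zero _ _ _)

lemma kap_mem (j : Fin 4) : kap c j ∈ logDer (qa c) := by
  fin_cases j
  · exact der_mem (B1 := 0) (by ring)
  · exact der_mem (B1 := 0) (by ring)
  · exact der_mem (B1 := -q3 c) (by ring)
  · exact der_mem (B1 := q2) (by ring)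

lemma sum_kap (a : Fin 4 → S K) : ∑ i, a i • kap c i =
    der c (a 0) (a 1 * q3 c - a 3 * q1) (-(a 1 * q2) + a 2 * q1) := by
  rw [Fin.sum_univ_four]
  show a 0 • der c 1 0 0 + a 1 • der c 0 (q3 c) (-q2) + a 2 • der c 0 0 q1 +
    a 3 • der c 0 (-q1) 0 = _
  rw [smul_der, smul_der, smul_der, smul_der, der_add, der_add, der_add]
  congr 1 <;> ring

lemma gen_kap (h2 : (2 : K) ≠ 0) (hc : c ≠ 0) (hc1 : c ^ 2 ≠ 1) {η : Der K 3}
    (hη : η ∈ logDer (qa c)) : ∃ a : Fin 4 → S K, η = ∑ i, a i • kap c i := by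
  obtain ⟨g, B1, B2, B3, hB, rfl⟩ := struct h2 hc hη
  obtain ⟨v1, v2, v3, k2, k3⟩ := gen hc1 hB
  refine ⟨![g, v1, v2, v3], ?_⟩
  rw [sum_kap]
  show der c g B2 B3 = der c g (v1 * q3 c - v3 * q1) (-(v1 * q2) + v2 * q1)
  rw [k2, k3]

/-- `q1` and `q3` are coprime -/
lemma q1_dvd_of_mul (h2 : (2 : K) ≠ 0) {u : S K} (h : q1 ∣ u * q3 c) : q1 ∣ u := by
  have key : ∀ a : Fin 3 → K, a 0 = 1 → a 1 ≠ 0 → a 2 = 0 → form a ∣ u * q3 c → form a ∣ u := by
    intro a ha ha1 ha2 hd
    have hp : Prime (form a) := form_prime (ne0 0 (by rw [ha]; exact one_ne_zero))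
    refine (hp.dvd_or_dvd hd).resolve_right ?_
    have e : (q3 c : S K) = (X 2 - C c * X 0) * (X 2 + C c * X 0) := by unfold q3; ring
    rw [e, ← e7, ← e8]
    intro h'
    rcases hp.dvd_or_dvd h' with h'' | h''
    · exact ndvd (ne0 2 one_ne_zero) (smul_ne 1 2 (by simpa [ha2] using ha1)) h''
    · exact ndvd (ne0 2 one_ne_zero) (smul_ne 1 2 (by simpa [ha2] using ha1)) h''
  have d1 : (X 0 - X 1 : S K) ∣ q1 := ⟨(X 0 + X 1), by unfold q1; ring⟩
  have d2 : (X 0 + X 1 : S K) ∣ q1 := ⟨(X 0 - X 1), by unfold q1; ring⟩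
  refine q1_dvd h2 ?_ ?_
  · rw [← e3] at d1 ⊢
    exact key _ rfl (by simp) rfl (d1.trans h)
  · rw [← e4] at d2 ⊢
    exact key _ rfl (by simp) rfl (d2.trans h)

lemma rel_kap (h2 : (2 : K) ≠ 0) (a : Fin 4 → S K) (ha : ∑ i, a i • kap c i = 0) :
    ∃ h : S K, ∀ i, a i = h * wv c i := by
  rw [sum_kap] at ha
  obtain ⟨h0, h1, h3⟩ := der_eq_zero ha
  have d : q1 ∣ a 1 * q3 c := ⟨a 3, by linear_combination h1⟩
  obtain ⟨h, hh⟩ := q1_dvd_of_mul h2 d
  refine ⟨h, ?_⟩
  have ha3 : a 3 = h * q3 c := by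
    apply mul_left_cancel₀ (q1_ne (K := K))
    rw [hh] at h1
    linear_combination -h1
  have ha2 : a 2 = h * q2 := by
    apply mul_left_cancel₀ (q1_ne (K := K))
    rw [hh] at h3
    linear_combination h3
  intro i
  fin_cases i
  · show a 0 = h * 0
    rw [h0, mul_zero]
  · show a 1 = h * q1
    rw [hh]; ring
  · exact ha2
  · exact ha3

lemma wv_rel : ∑ i, wv c i • kap c i = 0 := by
  rw [sum_kap]
  show der c 0 (q1 * q3 c - q3 c * q1) (-(q1 * q2) + q2 * q1) = 0
  apply derivation_ext
  intro i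
  rw [Derivation.zero_apply]
  fin_cases i
  · show der c (0 : S K) _ _ (X 0) = 0
    rw [der_X0]; ring
  · show der c (0 : S K) _ _ (X 1) = 0
    rw [der_X1]; ring
  · show der c (0 : S K) _ _ (X 2) = 0
    rw [der_X2]; ring

lemma wv_const (i : Fin 4) : constantCoeff (wv c i) = 0 := by
  fin_cases i
  · exact map_zero _
  · show constantCoeff (q1 : S K) = 0
    simp [q1]
  · show constantCoeff (q2 : S K) = 0
    simp [q2]
  · show constantCoeff (q3 c : S K) = 0
    simp [q3]

/-- no resolution of the shape in question -/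
theorem no_shape (h2 : (2 : K) ≠ 0) (hc : c ≠ 0) (hc1 : c ^ 2 ≠ 1) :
    ¬ ∃ (m : ℕ) (d : Fin (3 + m) → ℕ) (θ : Fin (3 + m) → Der K 3)
      (r : Fin m → Fin (3 + m) → S K), IsShapedRes (qa c) m d θ r := by
  classical
  rintro ⟨m, d, θ, r, H⟩
  have hP : ∀ j, ∃ a : Fin (3 + m) → S K, kap c j = ∑ i, a i • θ i := fun j =>
    H.gen _ (kap_mem j)
  choose P hP using hP
  have hR : ∀ i, ∃ R : Fin 4 → S K, θ i = ∑ j, R j • kap c j ∧
      ∀ j, HD (R j) ((![1, 5, 5, 5] : Fin 4 → ℕ) j) (d i) := by
    intro i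
    obtain ⟨R, hR⟩ := gen_kap h2 hc hc1 (H.mem i)
    exact hom_rep (kap c) _ kap_hom (H.hom i) hR
  choose R hR hRd using hR
  -- composite relations
  have hRP : ∀ i i', constantCoeff ((Matrix.of R * Matrix.of P) i i' - if i = i' then 1 else 0) =
      0 := by
    intro i i'
    obtain ⟨b, hb, -⟩ := H.basis (fun i' => (Matrix.of R * Matrix.of P) i i' -
      if i = i' then 1 else 0) (by
        apply derivation_ext
        intro k
        rw [smul_sum_apply, Derivation.zero_apply]
        simp only [sub_mul, Finset.sum_sub_distrib, ite_mul, one_mul, zero_mul,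
          Finset.sum_ite_eq, Finset.mem_univ, if_true, Matrix.mul_apply, Matrix.of_apply,
          Finset.sum_mul]
        rw [Finset.sum_comm, sub_eq_zero]
        have e1 := congrArg (fun D => D (X k)) (hR i)
        simp only [smul_sum_apply] at e1
        rw [e1]
        refine Finset.sum_congr rfl fun j _ => ?_
        have e2 := congrArg (fun D => D (X k)) (hP j)
        simp only [smul_sum_apply] at e2
        rw [e2, Finset.mul_sum]
        exact Finset.sum_congr rfl fun _ _ => mul_assoc _ _ _)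
    have := hb i'
    rw [this, map_sum]
    refine Finset.sum_eq_zero fun k _ => ?_
    rw [map_mul, H.minimal, mul_zero]
  have hPR : ∀ j j', constantCoeff ((Matrix.of P * Matrix.of R) j j' - if j = j' then 1 else 0) =
      0 := by
    intro j j'
    obtain ⟨h, hh⟩ := rel_kap h2 (c := c) (fun j' => (Matrix.of P * Matrix.of R) j j' -
      if j = j' then 1 else 0) (by
        apply derivation_ext
        intro k
        rw [smul_sum_apply, Derivation.zero_apply]
        simp only [sub_mul, Finset.sum_sub_distrib, ite_mul, one_mul, zero_mul,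
          Finset.sum_ite_eq, Finset.mem_univ, if_true, Matrix.mul_apply, Matrix.of_apply,
          Finset.sum_mul]
        rw [Finset.sum_comm, sub_eq_zero]
        have e1 := congrArg (fun D => D (X k)) (hP j)
        simp only [smul_sum_apply] at e1
        rw [e1]
        refine Finset.sum_congr rfl fun i _ => ?_
        have e2 := congrArg (fun D => D (X k)) (hR i)
        simp only [smul_sum_apply] at e2
        rw [e2, Finset.mul_sum]
        exact Finset.sum_congr rfl fun _ _ => mul_assoc _ _ _)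
    have := hh j'
    rw [this, map_mul, wv_const, mul_zero]
  rcases Nat.eq_zero_or_pos m with hm | hm
  · subst hm
    -- `D(A)` would be free
    obtain ⟨b, hb, -⟩ := H.basis (fun i => ∑ j, wv c j * P j i) (by
      apply derivation_ext
      intro k
      rw [smul_sum_apply, Derivation.zero_apply]
      simp only [Finset.sum_mul]
      rw [Finset.sum_comm]
      have e1 := congrArg (fun D => D (X k)) (wv_rel (c := c))
      simp only [smul_sum_apply, Derivation.zero_apply] at e1
      rw [← e1]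
      refine Finset.sum_congr rfl fun j _ => ?_
      have e2 := congrArg (fun D => D (X k)) (hP j)
      simp only [smul_sum_apply] at e2
      rw [e2, Finset.mul_sum]
      exact Finset.sum_congr rfl fun _ _ => mul_assoc _ _ _)
    have h1 : Matrix.vecMul (wv c) (Matrix.of P) = 0 := by
      ext1 i
      have := hb i
      simp only [Finset.univ_eq_empty, Finset.sum_empty] at this
      exact this
    have h3 := vec_zero (Matrix.of P * Matrix.of R) hPR (wv c) (by
      rw [← Matrix.vecMul_vecMul, h1, Matrix.zero_vecMul])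
    have h4 : (q1 : S K) = 0 := congrFun h3 1
    exact q1_ne h4
  · set k0 : Fin m := ⟨0, hm⟩ with hk0
    set i0 : Fin (3 + m) := Fin.natAdd 3 k0 with hi0
    have hd : d i0 ≤ 5 := by
      by_contra hlt
      push Not at hlt
      have h1 := hRP i0 i0
      rw [if_pos rfl, map_sub, map_one, Matrix.mul_apply, map_sum] at h1
      have h3 : ∀ j, constantCoeff (Matrix.of R i0 j * Matrix.of P j i0) = 0 := by
        intro j
        rw [map_mul]
        have : constantCoeff (R i0 j) = 0 := by
          refine (hRd i0 j).const ?_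
          have : (![1, 5, 5, 5] : Fin 4 → ℕ) j ≤ 5 := by
            fin_cases j <;> simp
          omega
        show constantCoeff (R i0 j) * _ = 0
        rw [this, zero_mul]
      rw [Finset.sum_eq_zero fun j _ => h3 j, zero_sub, neg_eq_zero] at h1
      exact one_ne_zero h1
    obtain ⟨h, hh⟩ := rel_kap h2 (c := c) (fun j => ∑ i, r k0 i * R i j) (by
      apply derivation_ext
      intro k
      rw [smul_sum_apply, Derivation.zero_apply]
      simp only [Finset.sum_mul]
      rw [Finset.sum_comm]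
      have e1 := congrArg (fun D => D (X k)) (H.rel k0)
      simp only [smul_sum_apply, Derivation.zero_apply] at e1
      rw [← e1]
      refine Finset.sum_congr rfl fun i _ => ?_
      have e2 := congrArg (fun D => D (X k)) (hR i)
      simp only [smul_sum_apply] at e2
      rw [e2, Finset.mul_sum]
      exact Finset.sum_congr rfl fun _ _ => mul_assoc _ _ _)
    have hs : HD (∑ i, r k0 i * R i 1) 5 (d i0 + 1) := by
      refine HD.sum _ fun i _ => ?_
      exact HD.mul (fun u hu => H.deg k0 i u hu) (hRd i 1)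
    have h1 : h = 0 := by
      have h3 := hh 1
      have h4 : h * q1 = 0 := by
        have h5 : ∑ i, r k0 i * R i 1 = h * q1 := h3
        ext u
        rw [coeff_zero]
        by_contra hne
        have h6 : u ∈ (∑ i, r k0 i * R i 1).support := by
          rw [h5, mem_support_iff]
          exact hne
        have h7 := hs u h6
        exact hne (coeff_low q1_hom h u (by omega))
      exact (mul_eq_zero.1 h4).resolve_right q1_ne
    have h3 : Matrix.vecMul (r k0) (Matrix.of R) = 0 := by
      ext1 j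
      have := hh j
      rw [h1, zero_mul] at this
      exact this
    have h4 := vec_zero (Matrix.of R * Matrix.of P) hRP (r k0) (by
      rw [← Matrix.vecMul_vecMul, h3, Matrix.zero_vecMul])
    obtain ⟨b, -, hb⟩ := H.basis 0 (by simp)
    have h5 := hb 0 (by intro i; simp)
    have h6 := hb (Pi.single k0 1) (by
      intro i
      rw [Finset.sum_eq_single k0]
      · rw [h4]; simp
      · intro k _ hk
        rw [Pi.single_eq_of_ne hk, zero_mul]
      · simp)
    have h7 := congrFun (h5.trans h6.symm) k0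
    rw [Pi.single_eq_same, Pi.zero_apply] at h7
    exact zero_ne_one h7

/-! ### The hypotheses (H) -/

/-- the derivations -/
noncomputable def th (c : K) : Fin 4 → Der K 3 :=
  ![der c 1 0 0, der c (X 0 ^ 4) (q3 c) (-q2), der c 0 0 q1, der c 0 (-q1) 0]

/-- the polynomials `g_i` -/
noncomputable def gv (c : K) : Fin 4 → S K := ![-(X 0 ^ 4 * q1), q1, q2, q3 c]

lemma th_mem (j : Fin 4) : th c j ∈ logDer (qa c) := by
  fin_cases j
  · exact der_mem (B1 := 0) (by ring)
  · exact der_mem (B1 := 0) (by ring)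
  · exact der_mem (B1 := -q3 c) (by ring)
  · exact der_mem (B1 := q2) (by ring)

lemma X4_hom : (X 0 ^ 4 : S K).IsHomogeneous 4 := by
  have := (X_hom (K := K) 0).pow 4
  simpa using this

lemma th_hom (j : Fin 4) : ∃ d : ℕ, IsHomDer (th c j) d := by
  fin_cases j
  · exact ⟨_, euler_hom⟩
  · exact ⟨_, der_hom (e := 2) X4_hom q3_hom q2_hom.neg⟩
  · exact ⟨_, der_hom (e := 2) (isHomogeneous_zero _ _ _) (isHomogeneous_zero _ _ _) q1_hom⟩
  · exact ⟨_, der_hom (e := 2) (isHomogeneous_zero _ _ _) q1_hom.neg (isHomogeneous_zero _ _ _)⟩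

lemma minor_eq (i : Fin 4) : (-1) ^ ((i : ℕ) + 1) * minor (th c) i = gv c i * defPoly (qa c) := by
  rw [defPoly_eq]
  unfold minor
  rw [Matrix.det_fin_three]
  simp only [Matrix.of_apply]
  fin_cases i
  · show (-1) ^ (0 + 1) * (th c 1 (X 0) * th c 2 (X 1) * th c 3 (X 2) -
      th c 1 (X 0) * th c 2 (X 2) * th c 3 (X 1) - th c 1 (X 1) * th c 2 (X 0) * th c 3 (X 2) +
      th c 1 (X 1) * th c 2 (X 2) * th c 3 (X 0) + th c 1 (X 2) * th c 2 (X 0) * th c 3 (X 1) -
      th c 1 (X 2) * th c 2 (X 1) * th c 3 (X 0)) = -(X 0 ^ 4 * q1) * _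
    simp only [th, Matrix.cons_val, der_X0, der_X1, der_X2]
    ring
  · show (-1) ^ (1 + 1) * (th c 0 (X 0) * th c 2 (X 1) * th c 3 (X 2) -
      th c 0 (X 0) * th c 2 (X 2) * th c 3 (X 1) - th c 0 (X 1) * th c 2 (X 0) * th c 3 (X 2) +
      th c 0 (X 1) * th c 2 (X 2) * th c 3 (X 0) + th c 0 (X 2) * th c 2 (X 0) * th c 3 (X 1) -
      th c 0 (X 2) * th c 2 (X 1) * th c 3 (X 0)) = q1 * _
    simp only [th, Matrix.cons_val, der_X0, der_X1, der_X2]
    ring
  · show (-1) ^ (2 + 1) * (th c 0 (X 0) * th c 1 (X 1) * th c 3 (X 2) -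
      th c 0 (X 0) * th c 1 (X 2) * th c 3 (X 1) - th c 0 (X 1) * th c 1 (X 0) * th c 3 (X 2) +
      th c 0 (X 1) * th c 1 (X 2) * th c 3 (X 0) + th c 0 (X 2) * th c 1 (X 0) * th c 3 (X 1) -
      th c 0 (X 2) * th c 1 (X 1) * th c 3 (X 0)) = q2 * _
    simp only [th, Matrix.cons_val, der_X0, der_X1, der_X2]
    ring
  · show (-1) ^ (3 + 1) * (th c 0 (X 0) * th c 1 (X 1) * th c 2 (X 2) -
      th c 0 (X 0) * th c 1 (X 2) * th c 2 (X 1) - th c 0 (X 1) * th c 1 (X 0) * th c 2 (X 2) +
      th c 0 (X 1) * th c 1 (X 2) * th c 2 (X 0) + th c 0 (X 2) * th c 1 (X 0) * th c 2 (X 1) -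
      th c 0 (X 2) * th c 1 (X 1) * th c 2 (X 0)) = q3 c * _
    simp only [th, Matrix.cons_val, der_X0, der_X1, der_X2]
    ring

lemma no_common (hc1 : c ^ 2 ≠ 1) {h : S K} (hh : PosHom h) (m1 : q1 ∈ Ideal.span {h, q3 c})
    (m2 : q2 ∈ Ideal.span {h, q3 c}) : False := by
  obtain ⟨k, hk, hk'⟩ := hh
  let ρ : S K →ₐ[K] S K := aeval ![X 0, X 1, C c * X 0]
  have r0 : ρ (X 0) = X 0 := by simp [ρ]
  have r1 : ρ (X 1) = X 1 := by simp [ρ]
  have r2 : ρ (X 2) = C c * X 0 := by simp [ρ]
  have rC : ∀ a : K, ρ (C a) = C a := fun a => ρ.commutes a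
  have s3 : ρ (q3 c) = 0 := by
    unfold q3
    rw [map_sub, map_mul, map_pow, map_pow, map_pow, r0, r2, rC]
    ring
  have s1 : ρ q1 = X 0 ^ 2 - X 1 ^ 2 := by
    unfold q1
    rw [map_sub, map_pow, map_pow, r0, r1]
  have s2 : ρ q2 = X 1 ^ 2 - C c ^ 2 * X 0 ^ 2 := by
    unfold q2
    rw [map_sub, map_pow, map_pow, r1, r2]
    ring
  have d1 : ρ h ∣ X 0 ^ 2 - X 1 ^ 2 := by
    obtain ⟨a, b, hab⟩ := Ideal.mem_span_pair.1 m1
    rw [← s1, ← hab, map_add, map_mul, map_mul, s3, mul_zero, add_zero]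
    exact Dvd.intro_left _ rfl
  have d2 : ρ h ∣ X 1 ^ 2 - C c ^ 2 * X 0 ^ 2 := by
    obtain ⟨a, b, hab⟩ := Ideal.mem_span_pair.1 m2
    rw [← s2, ← hab, map_add, map_mul, map_mul, s3, mul_zero, add_zero]
    exact Dvd.intro_left _ rfl
  have hne : 1 - c ^ 2 ≠ 0 := fun h => hc1 (by linear_combination -h)
  have he : (C (1 - c ^ 2)⁻¹ : S K) * (1 - C c ^ 2) = 1 := by
    have : (1 - C c ^ 2 : S K) = C (1 - c ^ 2) := by simp
    rw [this, ← C_mul, inv_mul_cancel₀ hne, C_1]
  have d0 : ρ h ∣ X 0 ^ 2 := by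
    have : (X 0 ^ 2 : S K) = C (1 - c ^ 2)⁻¹ * ((X 0 ^ 2 - X 1 ^ 2) +
        (X 1 ^ 2 - C c ^ 2 * X 0 ^ 2)) := by linear_combination (-X 0 ^ 2) * he
    rw [this]
    exact Dvd.dvd.mul_left (dvd_add d1 d2) _
  have d3 : ρ h ∣ X 1 ^ 2 := by
    have := dvd_sub d0 d1
    rwa [sub_sub_cancel] at this
  have hhom : (ρ h).IsHomogeneous k := by
    have := hk'.aeval (![X 0, X 1, C c * X 0] : Fin 3 → S K) (n := 1) (fun j => by
      fin_cases j
      · exact X_hom 0
      · exact X_hom 1
      · exact (X_hom 0).C_mul c)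
    rw [one_mul] at this
    exact this
  have hnu : ¬ IsUnit (ρ h) := by
    intro hu
    have := hu.map (constantCoeff (σ := Fin 3) (R := K))
    rw [constantCoeff_eq, hhom.coeff_eq_zero (by simp; omega)] at this
    exact not_isUnit_zero this
  have hn0 : ρ h ≠ 0 := by
    intro h0
    rw [h0, zero_dvd_iff] at d0
    exact pow_ne_zero 2 (X_ne_zero (R := K) (0 : Fin 3)) d0
  obtain ⟨p, hp, hpd⟩ := WfDvdMonoid.exists_irreducible_factor hnu hn0
  have hpp := hp.prime
  have p0 := hpp.dvd_of_dvd_pow (hpd.trans d0)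
  have p1 := hpp.dvd_of_dvd_pow (hpd.trans d3)
  have has : Associated p (X 0) := hpp.associated_of_dvd X_prime p0
  have n : ¬ (X 0 : S K) ∣ X 1 := by
    rw [← e0, ← e1]
    exact ndvd (ne0 1 one_ne_zero) (smul_ne 0 1 (by simp))
  exact n (has.symm.dvd.trans p1)

open Pool.Agent.H158R3 in
/-- the projective dimension is one -/
lemma pd_eq (h2 : (2 : K) ≠ 0) (hc : c ≠ 0) (hc1 : c ^ 2 ≠ 1) :
    projectiveDimension (ModuleCat.of (S K) (logDer (qa c))) = 1 := by
  classical
  let G : (Fin 4 → S K) →ₗ[S K] logDer (qa c) :=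
    { toFun := fun a => ⟨∑ i, a i • kap c i,
        Submodule.sum_mem _ fun i _ => Submodule.smul_mem _ _ (kap_mem i)⟩
      map_add' := fun a b => by
        apply Subtype.ext
        apply derivation_ext
        intro k
        show (∑ i, (a + b) i • kap c i) (X k) =
          (∑ i, a i • kap c i + ∑ i, b i • kap c i) (X k)
        rw [Derivation.add_apply, smul_sum_apply, smul_sum_apply, smul_sum_apply,
          ← Finset.sum_add_distrib]
        exact Finset.sum_congr rfl fun _ _ => add_mul _ _ _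
      map_smul' := fun r a => by
        apply Subtype.ext
        apply derivation_ext
        intro k
        show (∑ i, (r • a) i • kap c i) (X k) = (r • ∑ i, a i • kap c i) (X k)
        rw [Derivation.smul_apply, smul_sum_apply, smul_sum_apply, smul_eq_mul, Finset.mul_sum]
        exact Finset.sum_congr rfl fun _ _ => mul_assoc _ _ _ }
  have hG : ∀ a, (G a : Der K 3) = ∑ i, a i • kap c i := fun a => rfl
  let F : S K →ₗ[S K] (Fin 4 → S K) := LinearMap.toSpanSingleton (S K) _ (wv c)
  have hF : Function.Injective F := by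
    intro a b hab
    have h1 : a * q1 = b * q1 := congrFun hab 1
    exact mul_right_cancel₀ q1_ne h1
  have hGs : Function.Surjective G := by
    rintro ⟨η, hη⟩
    obtain ⟨a, ha⟩ := gen_kap h2 hc hc1 hη
    exact ⟨a, Subtype.ext ha.symm⟩
  have hex : Function.Exact F G := by
    intro a
    constructor
    · intro ha
      have h1 : ∑ i, a i • kap c i = 0 := by
        rw [← hG, ha]
        rfl
      obtain ⟨h, hh⟩ := rel_kap h2 a h1
      exact ⟨h, funext fun i => (hh i).symm⟩
    · rintro ⟨h, rfl⟩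
      apply Subtype.ext
      rw [hG]
      show ∑ i, (h • wv c) i • kap c i = 0
      apply derivation_ext
      intro k
      have e1 := congrArg (fun D => D (X k)) (wv_rel (c := c))
      simp only [smul_sum_apply, Derivation.zero_apply] at e1
      rw [smul_sum_apply, Derivation.zero_apply]
      simp only [Pi.smul_apply, smul_eq_mul, mul_assoc, ← Finset.mul_sum]
      rw [e1, mul_zero]
  have hle : PdLT (S K) (logDer (qa c)) 2 :=
    pdLT_right F G hF hGs hex (pdLT_one_of_projective inferInstance)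
      (pdLT_mono (by omega) (pdLT_one_of_projective inferInstance))
  have hnot : ¬ PdLT (S K) (logDer (qa c)) 1 := by
    intro h1
    have hproj := projective_of_pdLT_one h1
    obtain ⟨s, hs⟩ := Module.projective_lifting_property G LinearMap.id hGs
    have key : ∀ i : Fin 4, ∃ h : S K, (Pi.single i 1 : Fin 4 → S K) -
        s (G (Pi.single i 1)) = h • wv c := by
      intro i
      have h3 : G (Pi.single i 1 - s (G (Pi.single i 1))) = 0 := by
        rw [map_sub]
        have := congrArg (fun f => f (G (Pi.single i 1))) hs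
        simp only [LinearMap.comp_apply, LinearMap.id_apply] at this
        rw [this, sub_self]
      obtain ⟨h, hh⟩ := (hex _).1 h3
      exact ⟨h, hh.symm⟩
    choose h hh using key
    have hw : wv c = ∑ i, wv c i • (Pi.single i 1 : Fin 4 → S K) := by
      ext1 j
      rw [Finset.sum_apply, Finset.sum_eq_single j]
      · simp
      · intro b _ hb
        simp [Pi.single_apply, hb.symm]
      · simp
    have hGw : G (wv c) = 0 := (hex _).2 ⟨1, by simp [F]⟩
    have h4 : wv c = (∑ i, wv c i * h i) • wv c := by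
      have h5 : wv c - s (G (wv c)) = ∑ i, wv c i • ((Pi.single i 1 : Fin 4 → S K) -
          s (G (Pi.single i 1))) := by
        simp only [smul_sub, Finset.sum_sub_distrib]
        rw [← hw]
        congr 1
        conv_lhs => rw [hw]
        rw [map_sum, map_sum]
        exact Finset.sum_congr rfl fun i _ => by rw [map_smul, map_smul]
      rw [hGw, map_zero, sub_zero] at h5
      rw [Finset.sum_smul]
      refine h5.trans (Finset.sum_congr rfl fun i _ => ?_)
      rw [hh, smul_smul]
    have h5 : (q1 : S K) = (∑ i, wv c i * h i) * q1 := congrFun h4 1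
    have h6 : (1 : S K) = ∑ i, wv c i * h i := by
      apply mul_right_cancel₀ (q1_ne (K := K))
      rw [one_mul]
      exact h5
    have h7 := congrArg (constantCoeff (σ := Fin 3) (R := K)) h6
    rw [map_one, map_sum, Finset.sum_eq_zero fun i _ => by rw [map_mul, wv_const, zero_mul]] at h7
    exact one_ne_zero h7
  apply le_antisymm
  · exact (projectiveDimension_le_iff _ 1).2 hle
  · exact (projectiveDimension_ge_iff _ 1).2 hnot

/-- symbolic coefficients, `(a, b)` standing for `a + b c` -/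
def sy : Fin 9 → Fin 3 → ℤ × ℤ :=
  ![![(1, 0), (0, 0), (0, 0)], ![(0, 0), (1, 0), (0, 0)], ![(0, 0), (0, 0), (1, 0)],
    ![(1, 0), (-1, 0), (0, 0)], ![(1, 0), (1, 0), (0, 0)], ![(0, 0), (1, 0), (-1, 0)],
    ![(0, 0), (1, 0), (1, 0)], ![(0, -1), (0, 0), (1, 0)], ![(0, 1), (0, 0), (1, 0)]]

lemma qa_eq (i : Fin 9) (j : Fin 3) : qa c i j = Pool.Agent.X273.Tri.ev1 c (sy i j) := by
  fin_cases i <;> fin_cases j <;> simp [qa, sy, Pool.Agent.X273.Tri.ev1]

lemma set_ne {a b : Fin 3 → K} (j k : Fin 3) (h : a j * b k - a k * b j ≠ 0) :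
    {x : Fin 3 → K | ∑ j, a j * x j = 0} ≠ {x : Fin 3 → K | ∑ j, b j * x j = 0} := by
  intro heq
  have h1 : (Pi.single j (a k) - Pi.single k (a j) : Fin 3 → K) ∈
      {x : Fin 3 → K | ∑ j, a j * x j = 0} := by
    simp only [Set.mem_ofPred_eq, Pi.sub_apply, mul_sub, Finset.sum_sub_distrib, Pi.single_apply,
      mul_ite, mul_zero, Finset.sum_ite_eq', Finset.mem_univ, if_true]
    ring
  rw [heq] at h1
  simp only [Set.mem_ofPred_eq, Pi.sub_apply, mul_sub, Finset.sum_sub_distrib, Pi.single_apply,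
      mul_ite, mul_zero, Finset.sum_ite_eq', Finset.mem_univ, if_true] at h1
  apply h
  linear_combination -h1

open Pool.Agent.X273.Tri in
lemma minors2 : ∀ i i' : Fin 9, i ≠ i' → ∃ j k : Fin 3,
    Nz (pr (sy i j) (sy i' k) (1, 0) - pr (sy i k) (sy i' j) (1, 0)) := by
  decide +kernel

open Pool.Agent.X273.Tri in
lemma arrangement (h2 : (2 : K) ≠ 0) (hc : c ≠ 0) (hc1 : c ^ 2 ≠ 1) : IsArrangement (qa c) := by
  have ht1 : c ≠ 1 := fun h => hc1 (by rw [h]; ring)
  have htm : c ≠ -1 := fun h => hc1 (by rw [h]; ring)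
  have key : ∀ i i' : Fin 9, i ≠ i' → ∃ j k : Fin 3,
      qa c i j * qa c i' k - qa c i k * qa c i' j ≠ 0 := by
    intro i i' hne
    obtain ⟨j, k, hjk⟩ := minors2 i i' hne
    refine ⟨j, k, ?_⟩
    have := ev_nz h2 hc ht1 htm hjk
    rw [ev_sub, ev_pr, ev_pr] at this
    rw [qa_eq, qa_eq, qa_eq, qa_eq]
    simpa [ev1] using this
  constructor
  · intro i h0
    obtain ⟨i', hi'⟩ := exists_ne i
    obtain ⟨j, k, hjk⟩ := key i i' hi'.symm
    apply hjk
    rw [h0]
    simp
  · intro i i' heq
    by_contra hne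
    obtain ⟨j, k, hjk⟩ := key i i' hne
    exact set_ne j k hjk heq

end Pool.Agent.X273.Quad
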