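import Mathlib
import Pool.Agent.X273.QuadMain

set_option autoImplicit false
set_option linter.unusedSectionVars false

/-! The nine-line arrangement satisfies (H). -/

namespace Pool.Agent.X273.Quad

open MvPolynomial CategoryTheory Pool.Agent.X273.Saito Pool.Agent.X273.Shape

variable {K : Type} [Field K] {c : K}

lemma gv0 : gv c (Fin.castSucc 0) = -(X 0 ^ 4 * q1) := rfl
lemma gv1 : gv c (Fin.castSucc 1) = q1 := rfl
lemma gv2 : gv c (Fin.castSucc 2) = q2 := rfl
lemma gv3 : gv c (Fin.last 3) = q3 c := rfl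

lemma pos (i : Fin 3) : PosHom (gv c i.castSucc) := by
  fin_cases i
  · show PosHom (gv c (Fin.castSucc 0))
    rw [gv0]
    exact ⟨4 + 2, by norm_num, (X4_hom.mul q1_hom).neg⟩
  · show PosHom (gv c (Fin.castSucc 1))
    rw [gv1]
    exact ⟨2, by norm_num, q1_hom⟩
  · show PosHom (gv c (Fin.castSucc 2))
    rw [gv2]
    exact ⟨2, by norm_num, q2_hom⟩

lemma nocom (hc1 : c ^ 2 ≠ 1) :
    ¬ ∃ h, PosHom h ∧ ∀ i : Fin 3, gv c i.castSucc ∈ Ideal.span {h, gv c (Fin.last 3)} := by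
  rintro ⟨h, hh, hm⟩
  have m1 := hm 1
  have m2 := hm 2
  rw [gv1, gv3] at m1
  rw [gv2, gv3] at m2
  exact no_common hc1 hh m1 m2

/-- the hypotheses (H) hold -/
theorem hypH (h2 : (2 : K) ≠ 0) (hc : c ≠ 0) (hc1 : c ^ 2 ≠ 1) : HypH (qa c) (th c) (gv c) where
  mem := th_mem
  hom := th_hom
  def_g := minor_eq
  last_ne_zero := by rw [gv3]; exact q3_ne
  pos := pos
  no_common := nocom hc1
  pd := pd_eq h2 hc hc1

end Pool.Agent.X273.Quad
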