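import Mathlib

set_option autoImplicit false

/-! Graded modules over the divided power algebra in one variable over the integers. -/

namespace Pool.Agent.X273.Div

/-- A `ℤ`-graded module over the divided power algebra `D` over `ℤ`, with basis
`x^{[0]}, x^{[1]}, …` and `x^{[n]} x^{[m]} = C(n + m, n) x^{[n+m]}`: a family of abelian groups
`M_j` with additive operators `x^{[n]} : M_i → M_{i+n}` (written `op n i j h` with `j = i + n`)
such that `x^{[0]}` is the identity and `x^{[m]} x^{[n]} = C(n + m, n) x^{[n+m]}`. -/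
structure GrMod : Type 1 where
  obj : ℤ → Type
  [grp : ∀ j, AddCommGroup (obj j)]
  op : ∀ (n : ℕ) (i j : ℤ), j = i + n → obj i → obj j
  op_add : ∀ (n : ℕ) (i j : ℤ) (h : j = i + n) (x y : obj i),
    op n i j h (x + y) = op n i j h x + op n i j h y
  op_zero : ∀ (i : ℤ) (h : i = i + (0 : ℕ)) (x : obj i), op 0 i i h x = x
  op_op : ∀ (n m : ℕ) (i j k : ℤ) (h1 : j = i + n) (h2 : k = j + m)
    (h3 : k = i + ((n + m : ℕ) : ℤ)) (x : obj i),
    op m j k h2 (op n i j h1 x) = (n + m).choose n • op (n + m) i k h3 x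

attribute [instance] GrMod.grp

/-- The operator `x^{[n]}` as an additive map. -/
def GrMod.opHom (M : GrMod) (n : ℕ) (i j : ℤ) (h : j = i + n) : M.obj i →+ M.obj j :=
  AddMonoidHom.mk' (M.op n i j h) (M.op_add n i j h)

/-- A degree-preserving map of graded `D`-modules. -/
structure Hom (M N : GrMod) : Type where
  map : ∀ j, M.obj j → N.obj j
  map_add : ∀ (j : ℤ) (x y : M.obj j), map j (x + y) = map j x + map j y
  comm : ∀ (n : ℕ) (i j : ℤ) (h : j = i + n) (x : M.obj i),
    map j (M.op n i j h x) = N.op n i j h (map i x)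

/-- The component of a map in degree `j` as an additive map. -/
def Hom.hom {M N : GrMod} (f : Hom M N) (j : ℤ) : M.obj j →+ N.obj j :=
  AddMonoidHom.mk' (f.map j) (f.map_add j)

/-- An isomorphism of graded `D`-modules. -/
structure Iso (M N : GrMod) : Type extends Hom M N where
  bij : ∀ j, Function.Bijective (map j)

/-- The degree `j` part of `⨁_a D[-d_a]`: it is free on the `x^{[j - d_a]} e_a` with `d_a ≤ j`;
its elements are given by their coefficients `v a`, with `v a = 0` if `j < d_a`. -/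
def freeSub {r : ℕ} (d : Fin r → ℤ) (j : ℤ) : AddSubgroup (Fin r → ℤ) where
  carrier := {v | ∀ a, j < d a → v a = 0}
  add_mem' := fun {v w} hv hw a h => by rw [Pi.add_apply, hv a h, hw a h, add_zero]
  zero_mem' := fun _ _ => rfl
  neg_mem' := fun {v} hv a h => by rw [Pi.neg_apply, hv a h, neg_zero]

/-- The degree `j` part of `⨁_a D[-d_a]`, as a type. -/
def FreeObj {r : ℕ} (d : Fin r → ℤ) (j : ℤ) : Type := freeSub d j

instance {r : ℕ} (d : Fin r → ℤ) (j : ℤ) : AddCommGroup (FreeObj d j) :=
  inferInstanceAs (AddCommGroup (freeSub d j))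

theorem choose_id (t n m : ℕ) : (t + n + m).choose m * (t + n).choose n =
    (n + m).choose n * (t + (n + m)).choose (n + m) := by
  have key := Nat.choose_mul (n := t + (n + m)) (k := n + m) (s := n) (by omega)
  have k1 : t + (n + m) - n = t + m := by omega
  have k2 : n + m - n = m := by omega
  rw [k1, k2] at key
  have key2 := Nat.choose_mul (n := t + (n + m)) (k := t + n) (s := n) (by omega)
  have k3 : t + n - n = t := by omega
  rw [k1, k3] at key2
  have k4 : (t + m).choose t = (t + m).choose m := by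
    rw [← Nat.choose_symm_add]
  have k5 : (t + n + m).choose m = (t + (n + m)).choose (t + n) := by
    rw [← add_assoc, Nat.choose_symm_add]
  rw [k5, key2, k4, ← key, mul_comm]

/-- The coefficient `C(t + n, n)`, for `t = i - d ≥ 0`, in
`x^{[n]} x^{[t]} = C(t + n, n) x^{[t+n]}`. -/
def cf (n : ℕ) (i d : ℤ) : ℤ := ((i - d).toNat + n).choose n

theorem freeOp_mem {r : ℕ} (d : Fin r → ℤ) (n : ℕ) (i j : ℤ) (h : j = i + n)
    (v : FreeObj d i) : (fun a => cf n i (d a) * v.1 a) ∈ freeSub d j := by
  intro a ha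
  show _ * v.1 a = 0
  rw [v.2 a (by omega), mul_zero]

/-- The operator `x^{[n]}` on `⨁_a D[-d_a]`: it maps `x^{[t]} e_a` to
`C(t + n, n) x^{[t+n]} e_a`. -/
def freeOp {r : ℕ} (d : Fin r → ℤ) (n : ℕ) (i j : ℤ) (h : j = i + n) (v : FreeObj d i) :
    FreeObj d j :=
  ⟨fun a => cf n i (d a) * v.1 a, freeOp_mem d n i j h v⟩

theorem freeOp_add {r : ℕ} (d : Fin r → ℤ) (n : ℕ) (i j : ℤ) (h : j = i + n)
    (x y : FreeObj d i) : freeOp d n i j h (x + y) = freeOp d n i j h x + freeOp d n i j h y :=
  Subtype.ext (funext fun _ => mul_add _ _ _)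

theorem freeOp_zero {r : ℕ} (d : Fin r → ℤ) (i : ℤ) (h : i = i + (0 : ℕ)) (x : FreeObj d i) :
    freeOp d 0 i i h x = x := by
  apply Subtype.ext
  funext a
  show (((i - d a).toNat + 0).choose 0 : ℤ) * x.1 a = x.1 a
  rw [Nat.choose_zero_right, Nat.cast_one, one_mul]

theorem freeObj_nsmul {r : ℕ} (d : Fin r → ℤ) (j : ℤ) (n : ℕ) (x : FreeObj d j) (a : Fin r) :
    (n • x).1 a = n • x.1 a := rfl

theorem freeOp_op {r : ℕ} (d : Fin r → ℤ) (n m : ℕ) (i j k : ℤ) (h1 : j = i + n) (h2 : k = j + m)
    (h3 : k = i + ((n + m : ℕ) : ℤ)) (x : FreeObj d i) :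
    freeOp d m j k h2 (freeOp d n i j h1 x) = (n + m).choose n • freeOp d (n + m) i k h3 x := by
  apply Subtype.ext
  funext a
  rw [freeObj_nsmul]
  show (((j - d a).toNat + m).choose m : ℤ) * ((((i - d a).toNat + n).choose n : ℤ) * x.1 a) =
    (n + m).choose n • ((((i - d a).toNat + (n + m)).choose (n + m) : ℤ) * x.1 a)
  by_cases hi : i < d a
  · rw [x.2 a hi, mul_zero, mul_zero, mul_zero, smul_zero]
  · have e : (j - d a).toNat = (i - d a).toNat + n := by omega
    rw [e, nsmul_eq_mul, ← mul_assoc, ← mul_assoc]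
    congr 1
    exact_mod_cast choose_id (i - d a).toNat n m

/-- The finite direct sum `⨁_a D[-d_a]` of shifted free modules. -/
def free {r : ℕ} (d : Fin r → ℤ) : GrMod where
  obj := FreeObj d
  op := freeOp d
  op_add := freeOp_add d
  op_zero := freeOp_zero d
  op_op := freeOp_op d

/-- The image of a map in degree `j`. -/
def Hom.range {M N : GrMod} (f : Hom M N) (j : ℤ) : AddSubgroup (N.obj j) := (f.hom j).range

/-- The cokernel of a map in degree `j`. -/
def CokerObj {M N : GrMod} (f : Hom M N) (j : ℤ) : Type := N.obj j ⧸ f.range j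

instance {M N : GrMod} (f : Hom M N) (j : ℤ) : AddCommGroup (CokerObj f j) :=
  inferInstanceAs (AddCommGroup (N.obj j ⧸ f.range j))

theorem coker_le {M N : GrMod} (f : Hom M N) (n : ℕ) (i j : ℤ) (h : j = i + n) :
    f.range i ≤ (f.range j).comap (N.opHom n i j h) := by
  rintro _ ⟨x, rfl⟩
  exact ⟨M.op n i j h x, f.comm n i j h x⟩

/-- The operators on the cokernel, induced by those of `N`. -/
def cokerOp {M N : GrMod} (f : Hom M N) (n : ℕ) (i j : ℤ) (h : j = i + n) (x : CokerObj f i) :
    CokerObj f j :=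
  QuotientAddGroup.map (f.range i) (f.range j) (N.opHom n i j h) (coker_le f n i j h) x

theorem cokerOp_add {M N : GrMod} (f : Hom M N) (n : ℕ) (i j : ℤ) (h : j = i + n)
    (x y : CokerObj f i) : cokerOp f n i j h (x + y) = cokerOp f n i j h x + cokerOp f n i j h y :=
  map_add (QuotientAddGroup.map (f.range i) (f.range j) (N.opHom n i j h)
    (coker_le f n i j h)) x y

theorem cokerOp_zero {M N : GrMod} (f : Hom M N) (i : ℤ) (h : i = i + (0 : ℕ))
    (x : CokerObj f i) : cokerOp f 0 i i h x = x := by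
  induction x using QuotientAddGroup.induction_on with
  | H x => exact congrArg _ (N.op_zero i h x)

theorem cokerOp_op {M N : GrMod} (f : Hom M N) (n m : ℕ) (i j k : ℤ) (h1 : j = i + n)
    (h2 : k = j + m) (h3 : k = i + ((n + m : ℕ) : ℤ)) (x : CokerObj f i) :
    cokerOp f m j k h2 (cokerOp f n i j h1 x) = (n + m).choose n • cokerOp f (n + m) i k h3 x := by
  induction x using QuotientAddGroup.induction_on with
  | H x => exact congrArg _ (N.op_op n m i j k h1 h2 h3 x)

/-- The cokernel of a degree-preserving map. -/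
def coker {M N : GrMod} (f : Hom M N) : GrMod where
  obj := CokerObj f
  op := cokerOp f
  op_add := cokerOp_add f
  op_zero := cokerOp_zero f
  op_op := cokerOp_op f

/-- `N` is finitely presented: it is isomorphic to the cokernel of a degree-preserving map between
finite direct sums of shifted free modules. -/
def FP (N : GrMod) : Prop :=
  ∃ (r s : ℕ) (d : Fin r → ℤ) (d' : Fin s → ℤ) (f : Hom (free d') (free d)),
    Nonempty (Iso N (coker f))

/-- The degree `j` part of `τ_{≥ n}(M)`: all of `M_j` if `n ≤ j`, and `0` if `j < n`. -/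
def truncSub (n : ℤ) (M : GrMod) (j : ℤ) : AddSubgroup (M.obj j) where
  carrier := {x | j < n → x = 0}
  add_mem' := fun {x y} hx hy h => by rw [hx h, hy h, add_zero]
  zero_mem' := fun _ => rfl
  neg_mem' := fun {x} hx h => by rw [hx h, neg_zero]

/-- The degree `j` part of `τ_{≥ n}(M)`, as a type. -/
def TruncObj (n : ℤ) (M : GrMod) (j : ℤ) : Type := truncSub n M j

instance (n : ℤ) (M : GrMod) (j : ℤ) : AddCommGroup (TruncObj n M j) :=
  inferInstanceAs (AddCommGroup (truncSub n M j))

theorem truncOp_mem (n : ℤ) (M : GrMod) (m : ℕ) (i j : ℤ) (h : j = i + m) (x : TruncObj n M i) :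
    M.op m i j h x.1 ∈ truncSub n M j := by
  intro hj
  rw [x.2 (by omega)]
  exact map_zero (M.opHom m i j h)

/-- The operators on the truncation. -/
def truncOp (n : ℤ) (M : GrMod) (m : ℕ) (i j : ℤ) (h : j = i + m) (x : TruncObj n M i) :
    TruncObj n M j :=
  ⟨M.op m i j h x.1, truncOp_mem n M m i j h x⟩

theorem truncOp_add (n : ℤ) (M : GrMod) (m : ℕ) (i j : ℤ) (h : j = i + m)
    (x y : TruncObj n M i) :
    truncOp n M m i j h (x + y) = truncOp n M m i j h x + truncOp n M m i j h y :=
  Subtype.ext (M.op_add m i j h x.1 y.1)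

theorem truncOp_zero (n : ℤ) (M : GrMod) (i : ℤ) (h : i = i + (0 : ℕ)) (x : TruncObj n M i) :
    truncOp n M 0 i i h x = x := Subtype.ext (M.op_zero i h x.1)

theorem truncOp_op (n : ℤ) (M : GrMod) (a m : ℕ) (i j k : ℤ) (h1 : j = i + a)
    (h2 : k = j + m) (h3 : k = i + ((a + m : ℕ) : ℤ)) (x : TruncObj n M i) :
    truncOp n M m j k h2 (truncOp n M a i j h1 x) = (a + m).choose a •
      truncOp n M (a + m) i k h3 x := by
  apply Subtype.ext
  exact M.op_op a m i j k h1 h2 h3 x.1

/-- The graded submodule `τ_{≥ n}(M) = ⨁_{j ≥ n} M_j` of `M`. -/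
def trunc (n : ℤ) (M : GrMod) : GrMod where
  obj := TruncObj n M
  op := truncOp n M
  op_add := truncOp_add n M
  op_zero := truncOp_zero n M
  op_op := truncOp_op n M

end Pool.Agent.X273.Div
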