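import Mathlib
import Pool.Agent.X273.DivDefs

set_option autoImplicit false
set_option linter.unusedSectionVars false

/-! Two non-isomorphic finitely presented graded modules over the integral divided power algebra
with isomorphic truncations. -/

namespace Pool.Agent.X273.Div

/-! ### Isomorphisms of truncations -/

section trunc

variable {n : ℤ} {M N : GrMod} (g : ∀ j, n ≤ j → (M.obj j →+ N.obj j))

open Classical in
/-- the map of truncations in degree `j` -/
noncomputable def truncMap (j : ℤ) (x : TruncObj n M j) : TruncObj n N j :=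
  if h : n ≤ j then ⟨g j h x.1, fun hj => absurd h (not_le.2 hj)⟩ else 0

lemma truncMap_of_le {j : ℤ} (h : n ≤ j) (x : TruncObj n M j) :
    (truncMap g j x).1 = g j h x.1 := by
  unfold truncMap
  rw [dif_pos h]

lemma eq_zero_of_lt {j : ℤ} (h : ¬ n ≤ j) (x : TruncObj n M j) : x = 0 :=
  Subtype.ext (x.2 (not_le.1 h))

lemma truncMap_bij (hg : ∀ j h, Function.Bijective (g j h)) (j : ℤ) :
    Function.Bijective (truncMap g j) := by
  by_cases h : n ≤ j
  · constructor
    · intro x y hxy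
      have h1 := congrArg Subtype.val hxy
      rw [truncMap_of_le g h, truncMap_of_le g h] at h1
      exact Subtype.ext ((hg j h).1 h1)
    · intro y
      obtain ⟨x, hx⟩ := (hg j h).2 y.1
      refine ⟨⟨x, fun hj => absurd h (not_le.2 hj)⟩, Subtype.ext ?_⟩
      rw [truncMap_of_le g h]
      exact hx
  · constructor
    · intro x y _
      rw [eq_zero_of_lt h x, eq_zero_of_lt h y]
    · intro y
      exact ⟨0, by rw [eq_zero_of_lt h y]; exact eq_zero_of_lt h _⟩

/-- an isomorphism of truncations from compatible bijections in large degrees -/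
noncomputable def truncIso (hg : ∀ j h, Function.Bijective (g j h))
    (hc : ∀ (m : ℕ) (i j : ℤ) (h : j = i + m) (hi : n ≤ i) (hj : n ≤ j) (x : M.obj i),
      g j hj (M.op m i j h x) = N.op m i j h (g i hi x)) : Iso (trunc n M) (trunc n N) where
  map := truncMap g
  map_add j x y := by
    by_cases hj : n ≤ j
    · apply Subtype.ext
      show (truncMap g j (x + y)).1 = (truncMap g j x).1 + (truncMap g j y).1
      rw [truncMap_of_le g hj, truncMap_of_le g hj, truncMap_of_le g hj]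
      exact map_add (g j hj) x.1 y.1
    · rw [eq_zero_of_lt hj (truncMap g j (x + y))]
      exact (eq_zero_of_lt hj _).symm
  bij := truncMap_bij g hg
  comm m i j h x := by
    apply Subtype.ext
    show (truncMap g j ((trunc n M).op m i j h x)).1 = N.op m i j h (truncMap g i x).1
    by_cases hi : n ≤ i
    · have hj : n ≤ j := by omega
      rw [truncMap_of_le g hi, truncMap_of_le g hj]
      exact hc m i j h hi hj x.1
    · have e : x = 0 := eq_zero_of_lt hi x
      subst e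
      have z1 : (trunc n M).op m i j h 0 = 0 := map_zero ((trunc n M).opHom m i j h)
      have z3 : truncMap g i (0 : TruncObj n M i) = 0 := eq_zero_of_lt hi _
      have z2 : (truncMap g j (0 : TruncObj n M j)).1 = 0 := by
        by_cases hj : n ≤ j
        · rw [truncMap_of_le g hj]
          exact map_zero (g j hj)
        · rw [eq_zero_of_lt hj (truncMap g j (0 : TruncObj n M j))]
          rfl
      calc (truncMap g j ((trunc n M).op m i j h 0)).1
          = (truncMap g j (0 : TruncObj n M j)).1 := by rw [z1]; rfl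
        _ = 0 := z2
        _ = N.op m i j h 0 := (map_zero (N.opHom m i j h)).symm
        _ = N.op m i j h (truncMap g i (0 : TruncObj n M i)).1 := by rw [z3]; rfl

end trunc

/-! ### The modules `N_c = D{f, g} / (x f, x g - c x^{[5]} f)` -/

lemma id1 (t n : ℕ) : (t + 1 + n) * (t + n).choose n = (t + 1 + n).choose n * (t + 1) := by
  have h := Nat.add_one_mul_choose_eq (t + n) t
  have e1 : (t + n).choose t = (t + n).choose n := by rw [Nat.choose_symm_add]
  have e2 : (t + n + 1).choose (t + 1) = (t + 1 + n).choose n := by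
    have : t + n + 1 = t + 1 + n := by omega
    rw [this, Nat.choose_symm_add]
  rw [e1, e2] at h
  have : t + n + 1 = t + 1 + n := by omega
  rw [this] at h
  exact h

lemma id2 (s n : ℕ) : (s + 5 + n).choose 5 * (s + n).choose n =
    (s + 5 + n).choose n * (s + 5).choose 5 := by
  have h := Nat.choose_mul (n := s + 5 + n) (k := s + 5) (s := 5) (by omega)
  have e1 : s + 5 + n - 5 = s + n := by omega
  have e2 : s + 5 - 5 = s := by omega
  rw [e1, e2] at h
  have e3 : (s + 5 + n).choose (s + 5) = (s + 5 + n).choose n := by rw [Nat.choose_symm_add]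
  have e4 : (s + n).choose s = (s + n).choose n := by rw [Nat.choose_symm_add]
  rw [e3, e4] at h
  exact h.symm

/-- the presentation matrix, in degree `j` -/
def fmap (c : ℤ) (j : ℤ) (v : FreeObj (![1, 5] : Fin 2 → ℤ) j) :
    FreeObj (![0, 4] : Fin 2 → ℤ) j :=
  ⟨![j * v.1 0 - c * (j.toNat.choose 5 : ℤ) * v.1 1, (j - 4) * v.1 1], by
    intro a ha
    fin_cases a
    · have h0 : v.1 0 = 0 := v.2 0 (by have : j < 0 := ha; show j < 1; omega)
      have h1 : v.1 1 = 0 := v.2 1 (by have : j < 0 := ha; show j < 5; omega)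
      show j * v.1 0 - c * (j.toNat.choose 5 : ℤ) * v.1 1 = 0
      rw [h0, h1]; ring
    · have h1 : v.1 1 = 0 := v.2 1 (by have : j < 4 := ha; show j < 5; omega)
      show (j - 4) * v.1 1 = 0
      rw [h1]; ring⟩

lemma fmap0 (c j : ℤ) (v : FreeObj (![1, 5] : Fin 2 → ℤ) j) :
    (fmap c j v).1 0 = j * v.1 0 - c * (j.toNat.choose 5 : ℤ) * v.1 1 := rfl
lemma fmap1 (c j : ℤ) (v : FreeObj (![1, 5] : Fin 2 → ℤ) j) :
    (fmap c j v).1 1 = (j - 4) * v.1 1 := rfl

lemma fin2_ext {j : ℤ} {v w : FreeObj (![0, 4] : Fin 2 → ℤ) j} (h0 : v.1 0 = w.1 0)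
    (h1 : v.1 1 = w.1 1) : v = w := by
  apply Subtype.ext
  funext a
  fin_cases a
  · exact h0
  · exact h1

lemma fmap_add (c j : ℤ) (v w : FreeObj (![1, 5] : Fin 2 → ℤ) j) :
    fmap c j (v + w) = fmap c j v + fmap c j w := by
  apply fin2_ext
  · show j * (v.1 0 + w.1 0) - c * (j.toNat.choose 5 : ℤ) * (v.1 1 + w.1 1) =
      (j * v.1 0 - c * (j.toNat.choose 5 : ℤ) * v.1 1) +
        (j * w.1 0 - c * (j.toNat.choose 5 : ℤ) * w.1 1)
    ring
  · show (j - 4) * (v.1 1 + w.1 1) = (j - 4) * v.1 1 + (j - 4) * w.1 1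
    ring

/-- the presentation: `e_1 ↦ x f`, `e_2 ↦ x g - c x^{[5]} f` -/
def pres (c : ℤ) : Hom (free ![1, 5]) (free ![0, 4]) where
  map := fmap c
  map_add := fmap_add c
  comm n i j h v := by
    apply fin2_ext
    · show j * ((((i - 1).toNat + n).choose n : ℤ) * v.1 0) - c * (j.toNat.choose 5 : ℤ) *
          ((((i - 5).toNat + n).choose n : ℤ) * v.1 1) =
        (((i - 0).toNat + n).choose n : ℤ) * (i * v.1 0 - c * (i.toNat.choose 5 : ℤ) * v.1 1)
      by_cases hi1 : i < 1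
      · have e0 : v.1 0 = 0 := v.2 0 hi1
        have e1 : v.1 1 = 0 := v.2 1 (by show i < 5; omega)
        rw [e0, e1]; ring
      · obtain ⟨t, ht⟩ : ∃ t : ℕ, i = t + 1 := ⟨(i - 1).toNat, by omega⟩
        have k1 : (i - 1).toNat = t := by omega
        have k2 : (i - 0).toNat = t + 1 := by omega
        have k3 : j = ((t + 1 + n : ℕ) : ℤ) := by rw [h, ht]; push_cast; ring
        have k4 : j.toNat = t + 1 + n := by omega
        have k5 : i = ((t + 1 : ℕ) : ℤ) := by rw [ht]; push_cast; ring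
        have k6 : i.toNat = t + 1 := by omega
        have q1 : ((t + 1 + n : ℕ) : ℤ) * ((t + n).choose n : ℤ) =
            ((t + 1 + n).choose n : ℤ) * ((t + 1 : ℕ) : ℤ) := by exact_mod_cast id1 t n
        by_cases hi5 : i < 5
        · have e1 : v.1 1 = 0 := v.2 1 hi5
          rw [e1, k1, k2, k3]
          linear_combination (v.1 0) * q1 - ((t + 1 + n).choose n : ℤ) * v.1 0 * k5
        · obtain ⟨s, hs⟩ : ∃ s : ℕ, t + 1 = s + 5 := ⟨t + 1 - 5, by omega⟩
          have k7 : (i - 5).toNat = s := by omega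
          have q2 : ((t + 1 + n).choose 5 : ℤ) * ((s + n).choose n : ℤ) =
              ((t + 1 + n).choose n : ℤ) * ((t + 1).choose 5 : ℤ) := by
            rw [hs]
            exact_mod_cast id2 s n
          rw [k4, k6, k7, k1, k2, k3]
          linear_combination (v.1 0) * q1 - c * v.1 1 * q2 -
            ((t + 1 + n).choose n : ℤ) * v.1 0 * k5
    · show (j - 4) * ((((i - 5).toNat + n).choose n : ℤ) * v.1 1) =
        (((i - 4).toNat + n).choose n : ℤ) * ((i - 4) * v.1 1)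
      by_cases hi5 : i < 5
      · have e1 : v.1 1 = 0 := v.2 1 hi5
        rw [e1]; ring
      · obtain ⟨t, ht⟩ : ∃ t : ℕ, i = t + 5 := ⟨(i - 5).toNat, by omega⟩
        have k1 : (i - 5).toNat = t := by omega
        have k2 : (i - 4).toNat = t + 1 := by omega
        have k3 : j - 4 = ((t + 1 + n : ℕ) : ℤ) := by rw [h, ht]; push_cast; ring
        have k5 : i - 4 = ((t + 1 : ℕ) : ℤ) := by rw [ht]; push_cast; ring
        have q1 : ((t + 1 + n : ℕ) : ℤ) * ((t + n).choose n : ℤ) =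
            ((t + 1 + n).choose n : ℤ) * ((t + 1 : ℕ) : ℤ) := by exact_mod_cast id1 t n
        rw [k1, k2, k3, k5]
        linear_combination (v.1 1) * q1

/-- the module `N_c` -/
def NN (c : ℤ) : GrMod := coker (pres c)

lemma NN_fp (c : ℤ) : FP (NN c) :=
  ⟨2, 2, ![0, 4], ![1, 5], pres c, ⟨⟨⟨fun _ x => x, fun _ _ _ => rfl, fun _ _ _ _ _ => rfl⟩,
    fun _ => Function.bijective_id⟩⟩⟩

/-- the class of `u x^{[j]} f + v x^{[j-4]} g`, for `j ≥ 4` or `v = 0` -/
def el (c j : ℤ) (w : FreeObj (![0, 4] : Fin 2 → ℤ) j) : (NN c).obj j :=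
  QuotientAddGroup.mk w

/-! ### `N_1` and `N_2` are not isomorphic -/

def F0 : FreeObj (![0, 4] : Fin 2 → ℤ) 0 := ⟨![1, 0], by
  intro a ha
  fin_cases a
  · exact absurd ha (by decide)
  · rfl⟩
def G4 : FreeObj (![0, 4] : Fin 2 → ℤ) 4 := ⟨![0, 1], by
  intro a ha
  fin_cases a
  · rfl
  · exact absurd ha (by decide)⟩
def F4 : FreeObj (![0, 4] : Fin 2 → ℤ) 4 := (free ![0, 4]).op 4 0 4 (by decide) F0
def F5 : FreeObj (![0, 4] : Fin 2 → ℤ) 5 := (free ![0, 4]).op 5 0 5 (by decide) F0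
def G5 : FreeObj (![0, 4] : Fin 2 → ℤ) 5 := (free ![0, 4]).op 1 4 5 (by decide) G4

/-- first coordinate in degree zero -/
def phi0 (c : ℤ) : (NN c).obj 0 →+ ℤ :=
  QuotientAddGroup.lift _ ((Pi.evalAddMonoidHom (fun _ => ℤ) 0).comp (AddSubgroup.subtype (freeSub ![0, 4] _))) (by
    rintro _ ⟨v, rfl⟩
    show (fmap c 0 v).1 0 = 0
    rw [fmap0]
    have e0 : v.1 0 = 0 := v.2 0 (by decide)
    have e1 : v.1 1 = 0 := v.2 1 (by decide)
    rw [e0, e1]; ring)

/-- second coordinate in degree four -/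
def phi4 (c : ℤ) : (NN c).obj 4 →+ ℤ :=
  QuotientAddGroup.lift _ ((Pi.evalAddMonoidHom (fun _ => ℤ) 1).comp (AddSubgroup.subtype (freeSub ![0, 4] _))) (by
    rintro _ ⟨v, rfl⟩
    show (fmap c 4 v).1 1 = 0
    rw [fmap1]
    have e1 : v.1 1 = 0 := v.2 1 (by decide)
    rw [e1]; ring)

/-- the functional `(u, v) ↦ u + c v` in degree five -/
def phi5 (c : ℤ) : (NN c).obj 5 →+ ZMod 5 :=
  QuotientAddGroup.lift _
    ((Int.castAddHom (ZMod 5)).comp
      (((Pi.evalAddMonoidHom (fun _ => ℤ) 0).comp (AddSubgroup.subtype (freeSub ![0, 4] _))) +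
        c • ((Pi.evalAddMonoidHom (fun _ => ℤ) 1).comp (AddSubgroup.subtype (freeSub ![0, 4] _))))) (by
    rintro _ ⟨v, rfl⟩
    show (((fmap c 5 v).1 0 + c • (fmap c 5 v).1 1 : ℤ) : ZMod 5) = 0
    rw [fmap0, fmap1]
    have e : (5 * v.1 0 - c * ((5 : ℤ).toNat.choose 5 : ℤ) * v.1 1 + c • ((5 - 4) * v.1 1) : ℤ) =
        5 * v.1 0 := by
      have : ((5 : ℤ).toNat.choose 5 : ℤ) = 1 := by decide
      rw [this, smul_eq_mul]
      ring
    rw [e]
    have h5 : ((5 : ℤ) : ZMod 5) = 0 := by decide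
    rw [Int.cast_mul, h5, zero_mul])

lemma span0 (c : ℤ) (x : (NN c).obj 0) : x = phi0 c x • el c 0 F0 := by
  induction x using QuotientAddGroup.induction_on with
  | H v =>
    show el c 0 v = v.1 0 • el c 0 F0
    have e : v = v.1 0 • F0 := by
      apply fin2_ext
      · show v.1 0 = v.1 0 • (1 : ℤ)
        simp
      · show v.1 1 = v.1 0 • (0 : ℤ)
        rw [v.2 1 (by decide), smul_zero]
    conv_lhs => rw [e]
    rfl

lemma span4 (c : ℤ) (x : (NN c).obj 4) : ∃ γ : ℤ, x = phi4 c x • el c 4 G4 +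
    γ • (NN c).op 4 0 4 (by decide) (el c 0 F0) := by
  induction x using QuotientAddGroup.induction_on with
  | H v =>
    refine ⟨v.1 0, ?_⟩
    show el c 4 v = v.1 1 • el c 4 G4 + v.1 0 • el c 4 F4
    have e : v = v.1 1 • G4 + v.1 0 • F4 := by
      apply fin2_ext
      · show v.1 0 = v.1 1 • (0 : ℤ) + v.1 0 • ((((0 : ℤ) - 0).toNat + 4).choose 4 * (1 : ℤ))
        have : (((0 : ℤ) - 0).toNat + 4).choose 4 = 1 := by decide
        rw [this]
        simp
      · show v.1 1 = v.1 1 • (1 : ℤ) + v.1 0 • ((((0 : ℤ) - 4).toNat + 4).choose 4 * (0 : ℤ))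
        simp
    conv_lhs => rw [e]
    rfl

lemma phi0_F (c : ℤ) : phi0 c (el c 0 F0) = 1 := rfl
lemma phi4_G (c : ℤ) : phi4 c (el c 4 G4) = 1 := rfl
lemma phi4_F (c : ℤ) : phi4 c ((NN c).op 4 0 4 (by decide) (el c 0 F0)) = 0 := by
  show (((0 : ℤ) - 4).toNat + 4).choose 4 * (0 : ℤ) = 0
  rw [mul_zero]
lemma phi5_F (c : ℤ) : phi5 c ((NN c).op 5 0 5 (by decide) (el c 0 F0)) = 1 := by
  show (((((0 : ℤ) - 0).toNat + 5).choose 5 * (1 : ℤ) +
    c • ((((0 : ℤ) - 4).toNat + 5).choose 5 * (0 : ℤ)) : ℤ) : ZMod 5) = 1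
  have : (((0 : ℤ) - 0).toNat + 5).choose 5 = 1 := by decide
  rw [this]
  simp
lemma phi5_G (c : ℤ) : phi5 c ((NN c).op 1 4 5 (by decide) (el c 4 G4)) = (c : ZMod 5) := by
  show (((((4 : ℤ) - 0).toNat + 1).choose 1 * (0 : ℤ) +
    c • ((((4 : ℤ) - 4).toNat + 1).choose 1 * (1 : ℤ)) : ℤ) : ZMod 5) = (c : ZMod 5)
  have : (((4 : ℤ) - 4).toNat + 1).choose 1 = 1 := by decide
  rw [this]
  simp

lemma xg (c : ℤ) : (NN c).op 1 4 5 (by decide) (el c 4 G4) =
    c • (NN c).op 5 0 5 (by decide) (el c 0 F0) := by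
  show el c 5 G5 = el c 5 (c • F5)
  apply QuotientAddGroup.eq.2
  refine ⟨⟨![0, -1], by
    intro a ha
    fin_cases a
    · rfl
    · exact absurd ha (by decide)⟩, ?_⟩
  show fmap c 5 _ = _
  apply fin2_ext
  · rw [fmap0]
    show 5 * (0 : ℤ) - c * ((5 : ℤ).toNat.choose 5 : ℤ) * (-1) =
      -((((4 : ℤ) - 0).toNat + 1).choose 1 * (0 : ℤ)) +
        c • ((((0 : ℤ) - 0).toNat + 5).choose 5 * (1 : ℤ))
    have e1 : ((5 : ℤ).toNat.choose 5 : ℤ) = 1 := by decide
    have e2 : (((0 : ℤ) - 0).toNat + 5).choose 5 = 1 := by decide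
    rw [e1, e2]
    simp
  · rw [fmap1]
    show (5 - 4) * (-1 : ℤ) = -((((4 : ℤ) - 4).toNat + 1).choose 1 * (1 : ℤ)) +
        c • ((((0 : ℤ) - 4).toNat + 5).choose 5 * (0 : ℤ))
    have e2 : (((4 : ℤ) - 4).toNat + 1).choose 1 = 1 := by decide
    rw [e2]
    simp

lemma op_zsmul (M : GrMod) (n : ℕ) (i j : ℤ) (h : j = i + n) (a : ℤ) (x : M.obj i) :
    M.op n i j h (a • x) = a • M.op n i j h x := map_zsmul (M.opHom n i j h) a x

lemma map_zsmul' {M N : GrMod} (f : Hom M N) (j : ℤ) (a : ℤ) (x : M.obj j) :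
    f.map j (a • x) = a • f.map j x := map_zsmul (f.hom j) a x

theorem not_iso : IsEmpty (Iso (NN 1) (NN 2)) := by
  refine ⟨fun e => ?_⟩
  -- degree zero
  obtain ⟨α, hα⟩ : ∃ α, α = phi0 2 (e.map 0 (el 1 0 F0)) := ⟨_, rfl⟩
  have hα1 : e.map 0 (el 1 0 F0) = α • el 2 0 F0 := by rw [hα]; exact span0 2 _
  have hα2 : ∃ α', α' * α = 1 := by
    obtain ⟨X, hX⟩ := (e.bij 0).2 (el 2 0 F0)
    refine ⟨phi0 1 X, ?_⟩
    have h1 := span0 1 X
    have h2 := congrArg (e.map 0) h1
    rw [hX, map_zsmul' e.toHom, hα1] at h2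
    have h3 := congrArg (phi0 2) h2
    rw [map_zsmul, map_zsmul, phi0_F] at h3
    simp only [smul_eq_mul, mul_one] at h3
    exact h3.symm
  -- degree four
  obtain ⟨β, hβ⟩ : ∃ β, β = phi4 2 (e.map 4 (el 1 4 G4)) := ⟨_, rfl⟩
  obtain ⟨γ, hβ1⟩ := span4 2 (e.map 4 (el 1 4 G4))
  rw [← hβ] at hβ1
  have hF4 : e.map 4 ((NN 1).op 4 0 4 (by decide) (el 1 0 F0)) =
      α • (NN 2).op 4 0 4 (by decide) (el 2 0 F0) := by
    rw [e.comm, hα1, op_zsmul]
  have hβ2 : ∃ β', β' * β = 1 := by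
    obtain ⟨X, hX⟩ := (e.bij 4).2 (el 2 4 G4)
    refine ⟨phi4 1 X, ?_⟩
    obtain ⟨γ', h1⟩ := span4 1 X
    have h2 := congrArg (e.map 4) h1
    rw [hX, e.map_add, map_zsmul' e.toHom, map_zsmul' e.toHom, hF4, hβ1] at h2
    have h3 := congrArg (phi4 2) h2
    simp only [map_add, map_zsmul, phi4_G, phi4_F, smul_eq_mul, mul_one, mul_zero, add_zero] at h3
    exact h3.symm
  -- degree five
  have h1 : e.map 5 ((NN 1).op 1 4 5 (by decide) (el 1 4 G4)) =
      e.map 5 ((NN 1).op 5 0 5 (by decide) (el 1 0 F0)) := by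
    rw [xg, one_smul]
  rw [e.comm, e.comm, hβ1, hα1, (NN 2).op_add, op_zsmul, op_zsmul, op_zsmul] at h1
  have h2 := (NN 2).op_op 4 1 0 4 5 (by decide) (by decide) (by decide) (el 2 0 F0)
  rw [h2] at h1
  have h3 := congrArg (phi5 2) h1
  rw [map_add, map_zsmul, map_zsmul, map_zsmul, map_nsmul, phi5_F, phi5_G] at h3
  obtain ⟨α', hα'⟩ := hα2
  obtain ⟨β', hβ'⟩ := hβ2
  have hα3 : α = 1 ∨ α = -1 := Int.isUnit_iff.1 (IsUnit.of_mul_eq_one α' (by rw [mul_comm]; exact hα'))
  have hβ3 : β = 1 ∨ β = -1 := Int.isUnit_iff.1 (IsUnit.of_mul_eq_one β' (by rw [mul_comm]; exact hβ'))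
  have h5 : ((4 + 1).choose 4 • (1 : ZMod 5)) = 0 := by decide
  rw [h5, smul_zero, add_zero] at h3
  rcases hα3 with h | h <;> rcases hβ3 with h' | h' <;> rw [h, h'] at h3 <;> revert h3 <;> decide

end Pool.Agent.X273.Div
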