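import Mathlib
import Pool.Agent.X273.DivMain

set_option autoImplicit false
set_option linter.unusedSectionVars false

/-! The truncations of `N_1` and `N_2` in degrees at least five are isomorphic: multiplication of
`f` by a profinite unit congruent to `2` modulo `5`. -/

namespace Pool.Agent.X273.Div

lemma exists_alpha (m : ℕ) (hm : 0 < m) : ∃ a : ℤ, (∀ k : ℕ, 5 ^ k ∣ 5 * m → (5 : ℤ) ^ k ∣ a - 2) ∧
    ∀ d : ℕ, d ∣ m → ¬ 5 ∣ d → (d : ℤ) ∣ a - 1 := by
  have hp : Nat.Prime 5 := by norm_num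
  have hM : 5 * m ≠ 0 := by omega
  have hco : Nat.Coprime (5 ^ (5 * m).factorization 5) (5 * m / 5 ^ (5 * m).factorization 5) :=
    Nat.Coprime.pow_left _ (Nat.coprime_ordCompl hp hM)
  obtain ⟨k, h1, h2⟩ := Nat.chineseRemainder hco 2 1
  refine ⟨k, ?_, ?_⟩
  · intro e he
    have h3 : e ≤ (5 * m).factorization 5 := (hp.pow_dvd_iff_le_factorization hM).1 he
    have h4 : (5 : ℤ) ^ (5 * m).factorization 5 ∣ (k : ℤ) - 2 := by
      have := (Nat.modEq_iff_dvd.1 h1.symm)
      push_cast at this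
      exact this
    exact (pow_dvd_pow 5 h3).trans h4
  · intro d hd h5
    have h3 : d ∣ 5 * m / 5 ^ (5 * m).factorization 5 := by
      have h4 : d ∣ 5 ^ (5 * m).factorization 5 * (5 * m / 5 ^ (5 * m).factorization 5) := by
        rw [Nat.mul_div_cancel' (Nat.ordProj_dvd _ _)]
        exact Dvd.dvd.mul_left hd 5
      refine Nat.Coprime.dvd_of_dvd_mul_left ?_ h4
      exact Nat.Coprime.pow_right _ ((Nat.Prime.coprime_iff_not_dvd hp).2 h5).symm
    have h4 : ((5 * m / 5 ^ (5 * m).factorization 5 : ℕ) : ℤ) ∣ (k : ℤ) - 1 := by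
      have := (Nat.modEq_iff_dvd.1 h2.symm)
      rw [Nat.cast_one] at this
      exact this
    exact (Int.natCast_dvd_natCast.2 h3).trans h4

open Classical in
/-- residues of the profinite unit -/
noncomputable def al (m : ℕ) : ℤ := if hm : 0 < m then (exists_alpha m hm).choose else 1

lemma al_five (m : ℕ) (hm : 0 < m) (k : ℕ) (h : 5 ^ k ∣ 5 * m) : (5 : ℤ) ^ k ∣ al m - 2 := by
  unfold al
  rw [dif_pos hm]
  exact (exists_alpha m hm).choose_spec.1 k h

lemma al_other (m : ℕ) (hm : 0 < m) (d : ℕ) (h : d ∣ m) (h5 : ¬ 5 ∣ d) : (d : ℤ) ∣ al m - 1 := by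
  unfold al
  rw [dif_pos hm]
  exact (exists_alpha m hm).choose_spec.2 d h h5

lemma al_coprime (m : ℕ) (hm : 0 < m) : IsCoprime (al m) (m : ℤ) := by
  rw [Int.isCoprime_iff_gcd_eq_one]
  show Nat.gcd (al m).natAbs (m : ℤ).natAbs = 1
  apply Nat.Coprime.gcd_eq_one
  refine Nat.Coprime.symm (Nat.coprime_of_dvd ?_)
  intro q hq h1 h2
  rw [Int.natAbs_natCast] at h1
  rw [← Int.natCast_dvd] at h2
  by_cases h5 : q = 5
  · subst h5
    have h3 := al_five m hm 1 (by rw [pow_one]; exact Dvd.intro _ rfl)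
    rw [pow_one] at h3
    have h4 : (5 : ℤ) ∣ 2 := by
      have := dvd_sub h2 h3
      simpa using this
    revert h4
    decide
  · have h3 := al_other m hm q h1 (by
      intro h
      exact h5 ((Nat.prime_dvd_prime_iff_eq (by norm_num) hq).1 h).symm)
    have h4 : (q : ℤ) ∣ 1 := by
      have := dvd_sub h2 h3
      simpa using this
    have h5 := Int.natCast_dvd_natCast.1 (by simpa using h4 : (q : ℤ) ∣ ((1 : ℕ) : ℤ))
    exact hq.one_lt.ne' (Nat.dvd_one.1 h5)

lemma al_compat (m m' : ℕ) (hm : 0 < m) (hm' : 0 < m') :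
    ((Nat.gcd m m' : ℕ) : ℤ) ∣ al m - al m' := by
  have hg : Nat.gcd m m' ≠ 0 := (Nat.gcd_pos_of_pos_left _ hm).ne'
  obtain ⟨k, g', h5, hgk⟩ := Nat.exists_eq_pow_mul_and_not_dvd hg 5 (by norm_num)
  have d1 : 5 ^ k ∣ m := (Dvd.intro _ hgk.symm).trans (Nat.gcd_dvd_left _ _)
  have d2 : 5 ^ k ∣ m' := (Dvd.intro _ hgk.symm).trans (Nat.gcd_dvd_right _ _)
  have d3 : g' ∣ m := (Dvd.intro_left _ hgk.symm).trans (Nat.gcd_dvd_left _ _)
  have d4 : g' ∣ m' := (Dvd.intro_left _ hgk.symm).trans (Nat.gcd_dvd_right _ _)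
  have e1 := dvd_sub (al_five m hm k (Dvd.dvd.mul_left d1 5)) (al_five m' hm' k
    (Dvd.dvd.mul_left d2 5))
  have e2 := dvd_sub (al_other m hm g' d3 h5) (al_other m' hm' g' d4 h5)
  have e1' : (5 : ℤ) ^ k ∣ al m - al m' := by
    have : al m - al m' = al m - 2 - (al m' - 2) := by ring
    rw [this]; exact e1
  have e2' : (g' : ℤ) ∣ al m - al m' := by
    have : al m - al m' = al m - 1 - (al m' - 1) := by ring
    rw [this]; exact e2
  rw [hgk]
  push_cast
  refine IsCoprime.mul_dvd ?_ e1' e2'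
  apply IsCoprime.pow_left
  have : Nat.Coprime 5 g' := (Nat.Prime.coprime_iff_not_dvd (by norm_num)).2 h5
  exact_mod_cast Nat.isCoprime_iff_coprime.2 this

/-- multiplication of the first coordinate -/
def mulfst (a : ℤ) (j : ℤ) (v : FreeObj (![0, 4] : Fin 2 → ℤ) j) :
    FreeObj (![0, 4] : Fin 2 → ℤ) j :=
  ⟨![a * v.1 0, v.1 1], by
    intro b hb
    fin_cases b
    · show a * v.1 0 = 0
      rw [v.2 0 hb, mul_zero]
    · exact v.2 1 hb⟩

/-- multiplication of the first coordinate as an additive map -/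
def mulfstHom (a : ℤ) (j : ℤ) : (free ![0, 4]).obj j →+ (free ![0, 4]).obj j :=
  AddMonoidHom.mk' (mulfst a j) (fun _ _ => by
    apply fin2_ext
    · exact mul_add _ _ _
    · rfl)

lemma al_choose (j : ℤ) (hj : 5 ≤ j) :
    ∃ s : ℤ, (2 - al j.toNat) * (j.toNat.choose 5 : ℤ) = j * s := by
  obtain ⟨J, hJ⟩ : ∃ J : ℕ, j.toNat = J + 1 := ⟨j.toNat - 1, by omega⟩
  have h1 := al_five j.toNat (by omega) 1 (by rw [pow_one]; exact Dvd.intro _ rfl)
  rw [pow_one] at h1
  obtain ⟨t, ht⟩ := h1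
  have h2 := Nat.add_one_mul_choose_eq J 4
  have h3 : ((J + 1 : ℕ) : ℤ) * (J.choose 4 : ℤ) = ((J + 1).choose 5 : ℤ) * 5 := by
    exact_mod_cast h2
  have h4 : j = ((J + 1 : ℕ) : ℤ) := by omega
  refine ⟨-t * (J.choose 4 : ℤ), ?_⟩
  have h5 : 2 - al j.toNat = -(5 * t) := by linear_combination -ht
  rw [h5, hJ, h4]
  linear_combination t * h3

lemma mulfst_range (j : ℤ) (hj : 5 ≤ j) :
    (pres 1).range j ≤ ((pres 2).range j).comap (mulfstHom (al j.toNat) j) := by
  rintro _ ⟨v, rfl⟩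
  obtain ⟨s, hs⟩ := al_choose j hj
  refine ⟨⟨![al j.toNat * v.1 0 + s * v.1 1, v.1 1], ?_⟩, ?_⟩
  · intro b hb
    fin_cases b
    · have : j < 1 := hb
      omega
    · exact v.2 1 hb
  · apply fin2_ext
    · show j * (al j.toNat * v.1 0 + s * v.1 1) - 2 * (j.toNat.choose 5 : ℤ) * v.1 1 =
        al j.toNat * (j * v.1 0 - 1 * (j.toNat.choose 5 : ℤ) * v.1 1)
      linear_combination (-v.1 1) * hs
    · rfl

/-- the class of an element in the cokernel -/
def cmk {M N : GrMod} (f : Hom M N) (j : ℤ) (w : N.obj j) : (coker f).obj j :=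
  (QuotientAddGroup.mk w : N.obj j ⧸ f.range j)

lemma cmk_eq_zero {M N : GrMod} (f : Hom M N) (j : ℤ) (w : N.obj j) :
    cmk f j w = 0 ↔ w ∈ f.range j := QuotientAddGroup.eq_zero_iff w

lemma cmk_eq {M N : GrMod} (f : Hom M N) (j : ℤ) (v w : N.obj j) :
    cmk f j v = cmk f j w ↔ -v + w ∈ f.range j := QuotientAddGroup.eq

/-- maps of cokernels -/
def cokerMap {M N M' N' : GrMod} (f : Hom M N) (f' : Hom M' N') (j : ℤ) (φ : N.obj j →+ N'.obj j)
    (h : f.range j ≤ (f'.range j).comap φ) : (coker f).obj j →+ (coker f').obj j :=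
  QuotientAddGroup.map _ _ φ h

/-- the map in degree `j` -/
noncomputable def gmap (j : ℤ) (hj : 5 ≤ j) : (NN 1).obj j →+ (NN 2).obj j :=
  cokerMap (pres 1) (pres 2) j (mulfstHom (al j.toNat) j) (mulfst_range j hj)

lemma gmap_el (j : ℤ) (hj : 5 ≤ j) (w : FreeObj (![0, 4] : Fin 2 → ℤ) j) :
    gmap j hj (el 1 j w) = el 2 j (mulfst (al j.toNat) j w) := rfl

lemma gmap_bij (j : ℤ) (hj : 5 ≤ j) : Function.Bijective (gmap j hj) := by
  obtain ⟨x, y, hxy⟩ := al_coprime j.toNat (by omega)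
  have hJ : ((j.toNat : ℕ) : ℤ) = j := by omega
  rw [hJ] at hxy
  obtain ⟨s, hs⟩ := al_choose j hj
  constructor
  · rw [injective_iff_map_eq_zero]
    intro z
    induction z using QuotientAddGroup.induction_on with
    | H w =>
      intro hz
      have h1 : mulfst (al j.toNat) j w ∈ (pres 2).range j :=
        (cmk_eq_zero (pres 2) j _).1 hz
      refine (cmk_eq_zero (pres 1) j w).2 ?_
      obtain ⟨v, hv⟩ := h1
      have g0 : j * v.1 0 - 2 * (j.toNat.choose 5 : ℤ) * v.1 1 = al j.toNat * w.1 0 :=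
        congrFun (congrArg Subtype.val hv) 0
      have g1 : (j - 4) * v.1 1 = w.1 1 := congrFun (congrArg Subtype.val hv) 1
      refine ⟨⟨![x * (v.1 0 - s * v.1 1) + y * (w.1 0 + (j.toNat.choose 5 : ℤ) * v.1 1), v.1 1],
        ?_⟩, ?_⟩
      · intro b hb
        fin_cases b
        · have : j < 1 := hb
          omega
        · exact v.2 1 hb
      · show fmap 1 j _ = w
        apply fin2_ext
        · show j * (x * (v.1 0 - s * v.1 1) + y * (w.1 0 + (j.toNat.choose 5 : ℤ) * v.1 1)) -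
            1 * (j.toNat.choose 5 : ℤ) * v.1 1 = w.1 0
          linear_combination x * g0 + (w.1 0 + (j.toNat.choose 5 : ℤ) * v.1 1) * hxy +
            x * v.1 1 * hs
        · exact g1
  · intro z
    induction z using QuotientAddGroup.induction_on with
    | H w =>
      refine ⟨el 1 j ⟨![x * w.1 0, w.1 1], ?_⟩, ?_⟩
      · intro b hb
        fin_cases b
        · have : j < 0 := hb
          omega
        · exact w.2 1 hb
      · rw [gmap_el]
        refine (cmk_eq (pres 2) j _ _).2 ?_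
        refine ⟨⟨![y * w.1 0, 0], ?_⟩, ?_⟩
        · intro b hb
          fin_cases b
          · have : j < 1 := hb
            omega
          · rfl
        · show fmap 2 j _ = _
          apply fin2_ext
          · show j * (y * w.1 0) - 2 * (j.toNat.choose 5 : ℤ) * 0 =
              -(al j.toNat * (x * w.1 0)) + w.1 0
            linear_combination (w.1 0) * hxy
          · show (j - 4) * 0 = -(w.1 1) + w.1 1
            ring

lemma gmap_comm (m : ℕ) (i j : ℤ) (h : j = i + m) (hi : 5 ≤ i) (hj : 5 ≤ j)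
    (x : (NN 1).obj i) :
    gmap j hj ((NN 1).op m i j h x) = (NN 2).op m i j h (gmap i hi x) := by
  induction x using QuotientAddGroup.induction_on with
  | H w =>
    show el 2 j (mulfst (al j.toNat) j ((free ![0, 4]).op m i j h w)) =
      el 2 j ((free ![0, 4]).op m i j h (mulfst (al i.toNat) i w))
    refine (cmk_eq (pres 2) j _ _).2 ?_
    obtain ⟨I, hI⟩ : ∃ I : ℕ, i.toNat = I + 1 := ⟨i.toNat - 1, by omega⟩
    have hJ : j.toNat = I + 1 + m := by omega
    have h1 := al_compat j.toNat i.toNat (by omega) (by omega)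
    obtain ⟨t, ht⟩ := h1
    have h2 := Nat.gcd_eq_gcd_ab j.toNat i.toNat
    have h3 : ((I + 1 + m : ℕ) : ℤ) * ((I + m).choose m : ℤ) =
        ((I + 1 + m).choose m : ℤ) * ((I + 1 : ℕ) : ℤ) := by exact_mod_cast id1 I m
    have hj' : j = ((I + 1 + m : ℕ) : ℤ) := by omega
    have hi' : ((i.toNat : ℕ) : ℤ) = ((I + 1 : ℕ) : ℤ) := by omega
    have hj'' : ((j.toNat : ℕ) : ℤ) = j := by omega
    rw [h2, hj'', hi'] at ht
    set a := Nat.gcdA j.toNat i.toNat
    set b := Nat.gcdB j.toNat i.toNat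
    refine ⟨⟨![-(w.1 0) * t * (a * ((I + 1 + m).choose m : ℤ) + b * ((I + m).choose m : ℤ)), 0],
      ?_⟩, ?_⟩
    · intro c hc
      fin_cases c
      · have : j < 1 := hc
        omega
      · rfl
    · show fmap 2 j _ = _
      have hz : ((i - 0).toNat + m).choose m = (I + 1 + m).choose m := by
        have : (i - 0).toNat + m = I + 1 + m := by omega
        rw [this]
      apply fin2_ext
      · show j * (-(w.1 0) * t * (a * ((I + 1 + m).choose m : ℤ) + b * ((I + m).choose m : ℤ))) -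
            2 * (j.toNat.choose 5 : ℤ) * 0 =
          -(al j.toNat * ((((i - 0).toNat + m).choose m : ℤ) * w.1 0)) +
            (((i - 0).toNat + m).choose m : ℤ) * (al i.toNat * w.1 0)
        rw [hz]
        rw [← hj'] at h3
        linear_combination (-(w.1 0) * t * b) * h3 + ((I + 1 + m).choose m : ℤ) * w.1 0 * ht
      · show (j - 4) * 0 = -((((i - 4).toNat + m).choose m : ℤ) * w.1 1) +
          (((i - 4).toNat + m).choose m : ℤ) * w.1 1
        ring

/-- the truncations are isomorphic -/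
noncomputable def tIso : Iso (trunc 5 (NN 1)) (trunc 5 (NN 2)) :=
  truncIso gmap gmap_bij gmap_comm

end Pool.Agent.X273.Div
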