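import Mathlib
import Pool.Agent.X273.SaitoBasic

set_option autoImplicit false
set_option linter.unusedSectionVars false

/-! The equivalence of the two conditions. -/

namespace Pool.Agent.X273.Saito

open MvPolynomial

universe u

variable {K : Type u} [Field K] {l n : ℕ}

lemma eq_form_of_hom {α : MvPolynomial (Fin l) K} (h : α.IsHomogeneous 1) :
    ∃ a : Fin l → K, α = form a := by
  have h1 : α ∈ homogeneousSubmodule (Fin l) K 1 := h
  rw [homogeneousSubmodule_one_eq_span_X, Submodule.mem_span_range_iff_exists_fun] at h1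
  obtain ⟨c, hc⟩ := h1
  refine ⟨c, ?_⟩
  rw [← hc, form]
  exact Finset.sum_congr rfl fun j _ => smul_eq_C_mul _ _

lemma sub_mem (ρ : MvPolynomial (Fin l) K →ₐ[K] MvPolynomial (Fin l) K)
    (I : Ideal (MvPolynomial (Fin l) K)) (h : ∀ i, X i - ρ (X i) ∈ I)
    (p : MvPolynomial (Fin l) K) : p - ρ p ∈ I := by
  have e : (Ideal.Quotient.mkₐ K I) = (Ideal.Quotient.mkₐ K I).comp ρ := by
    apply MvPolynomial.algHom_ext
    intro i
    rw [AlgHom.comp_apply, Ideal.Quotient.mkₐ_eq_mk, Ideal.Quotient.eq]
    exact h i
  rw [← Ideal.Quotient.eq]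
  have := congrArg (fun f => f p) e
  simpa using this

/-- the retraction onto the polynomials not involving one variable, with kernel generated by a
linear form -/
lemma exists_retraction {a : Fin l → K} (ha : a ≠ 0) :
    ∃ ρ : MvPolynomial (Fin l) K →ₐ[K] MvPolynomial (Fin l) K,
      (∀ p, form a ∣ p - ρ p) ∧ ρ (form a) = 0 ∧
      ∀ p k, IsHomogeneous p k → (ρ p).IsHomogeneous k := by
  classical
  obtain ⟨j₀, h⟩ : ∃ j, a j ≠ 0 := by
    by_contra hc
    push Not at hc
    exact ha (funext hc)
  set q : MvPolynomial (Fin l) K := -(C (a j₀)⁻¹ * ∑ j ∈ Finset.univ.erase j₀, C (a j) * X j) with hq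
  have hform : form a = C (a j₀) * X j₀ + ∑ j ∈ Finset.univ.erase j₀, C (a j) * X j := by
    rw [form]
    exact (Finset.add_sum_erase Finset.univ (fun j => C (a j) * X j) (Finset.mem_univ j₀)).symm
  have hXq : X j₀ - q = C (a j₀)⁻¹ * form a := by
    rw [hform, hq, mul_add, ← mul_assoc, ← C_mul, inv_mul_cancel₀ h, C_1]
    ring
  refine ⟨subst j₀ q, ?_, ?_, ?_⟩
  · intro p
    rw [← Ideal.mem_span_singleton]
    apply sub_mem
    intro i
    rw [subst_X, Ideal.mem_span_singleton]
    split_ifs with hi
    · rw [hi, hXq]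
      exact Dvd.intro_left _ rfl
    · rw [sub_self]
      exact dvd_zero _
  · rw [hform, map_add, map_mul, subst_C, subst_X, if_pos rfl, map_sum]
    have e : ∑ x ∈ Finset.univ.erase j₀, subst j₀ q (C (a x) * X x) =
        ∑ x ∈ Finset.univ.erase j₀, C (a x) * X x := by
      refine Finset.sum_congr rfl fun x hx => ?_
      rw [map_mul, subst_C, subst_X, if_neg (Finset.ne_of_mem_erase hx)]
    rw [e, hq, mul_neg, ← mul_assoc, ← C_mul, mul_inv_cancel₀ h, C_1, one_mul, neg_add_cancel]
  · intro p k hp
    have hqh : q.IsHomogeneous 1 := by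
      rw [hq]
      refine (IsHomogeneous.C_mul (IsHomogeneous.sum _ _ _ fun j _ => ?_) _).neg
      exact isHomogeneous_C_mul_X _ _
    have := hp.aeval (fun j => if j = j₀ then q else X j) (n := 1) (fun j => by
      by_cases hj : j = j₀
      · simp only [hj, if_true]; exact hqh
      · simp only [hj, if_false]; exact isHomogeneous_X _ _)
    rw [one_mul] at this
    exact this

/-- the vectors parallel to a vector without common divisors modulo a linear form -/
lemma parallel {a : Fin l → K} (ha : a ≠ 0) {m : ℕ} (u c : Fin m → MvPolynomial (Fin l) K)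
    (hu : ∀ i, ∃ k, (u i).IsHomogeneous k)
    (hno : ¬ ∃ h, PosHom h ∧ ∀ i, u i ∈ Ideal.span {h, form a})
    (hp : ∀ i k, form a ∣ u i * c k - c i * u k) : ∃ h, ∀ k, form a ∣ c k - h * u k := by
  classical
  obtain ⟨ρ, hρ1, hρ2, hρ3⟩ := exists_retraction ha
  have hdvd : ∀ p, form a ∣ p → ρ p = 0 := by
    rintro _ ⟨q, rfl⟩
    rw [map_mul, hρ2, zero_mul]
  have hw : ∀ i k, ρ (u i) * ρ (c k) = ρ (c i) * ρ (u k) := by
    intro i k
    have := hdvd _ (hp i k)
    rw [map_sub, map_mul, map_mul, sub_eq_zero] at this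
    exact this
  obtain ⟨i₀, hi₀⟩ : ∃ i, ρ (u i) ≠ 0 := by
    by_contra hc
    push Not at hc
    apply hno
    refine ⟨form a, ⟨1, le_rfl, form_hom a⟩, fun i => ?_⟩
    have := hρ1 (u i)
    rw [hc, sub_zero] at this
    obtain ⟨q, hq⟩ := this
    rw [hq]
    exact Ideal.mul_mem_right _ _ (Ideal.subset_span (by simp))
  let _ : StrongNormalizationMonoid (MvPolynomial (Fin l) K) :=
    UniqueFactorizationMonoid.normalizationMonoid
  let _ : NormalizedGCDMonoid (MvPolynomial (Fin l) K) :=
    UniqueFactorizationMonoid.toNormalizedGCDMonoid _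
  set δ := Finset.univ.gcd fun i => ρ (u i) with hδ
  have hδd : ∀ i, δ ∣ ρ (u i) := fun i => Finset.gcd_dvd (Finset.mem_univ i)
  have hδ0 : δ ≠ 0 := by
    intro h0
    have := hδd i₀
    rw [h0, zero_dvd_iff] at this
    exact hi₀ this
  have hδh : δ.IsHomogeneous δ.totalDegree := by
    obtain ⟨k, hk⟩ := hu i₀
    exact homog_of_dvd (hρ3 _ k hk) hi₀ (hδd i₀)
  have hδu : IsUnit δ := by
    have h0 : δ.totalDegree = 0 := by
      by_contra hne
      apply hno
      refine ⟨δ, ⟨δ.totalDegree, Nat.one_le_iff_ne_zero.2 hne, hδh⟩, fun i => ?_⟩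
      have e : u i = ρ (u i) + (u i - ρ (u i)) := by ring
      rw [e]
      obtain ⟨q, hq⟩ := hδd i
      obtain ⟨q', hq'⟩ := hρ1 (u i)
      rw [hq', hq]
      exact Ideal.add_mem _ (Ideal.mul_mem_right _ _ (Ideal.subset_span (by simp)))
        (Ideal.mul_mem_right _ _ (Ideal.subset_span (by simp)))
    rw [totalDegree_eq_zero_iff_eq_C] at h0
    rw [h0]
    apply IsUnit.map
    rw [isUnit_iff_ne_zero]
    intro h1
    rw [h1, C_0] at h0
    exact hδ0 h0
  have h1 : ρ (u i₀) ∣ ρ (c i₀) := by
    have h2 : ρ (u i₀) ∣ Finset.univ.gcd fun k => ρ (c i₀) * ρ (u k) :=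
      Finset.dvd_gcd fun k _ => ⟨ρ (c k), (hw i₀ k).symm⟩
    have h3 := h2.trans (Finset.gcd_mul_left' (s := Finset.univ) (f := fun k => ρ (u k))
      (ρ (c i₀))).dvd
    exact h3.trans (hδu.dvd_mul_right.1 (dvd_refl _))
  obtain ⟨h, hh⟩ := h1
  refine ⟨h, fun k => ?_⟩
  have h2 : ρ (c k) = h * ρ (u k) := by
    apply mul_left_cancel₀ hi₀
    rw [hw, hh]
    ring
  have e : c k - h * u k = (c k - ρ (c k)) - h * (u k - ρ (u k)) := by
    rw [h2]
    ring
  rw [e]
  exact dvd_sub (hρ1 _) (Dvd.dvd.mul_left (hρ1 _) _)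

section

variable {A : Fin n → Fin l → K} (hA : IsArrangement A) {θ : Fin (l + 1) → Der K l}
  (hθ : ∀ i, θ i ∈ logDer A) {g : Fin (l + 1) → MvPolynomial (Fin l) K}
  (hg : ∀ i : Fin (l + 1), (-1) ^ ((i : ℕ) + 1) * minor θ i = g i * defPoly A)

include hA hg in
lemma rel_g : ∑ i, g i • θ i = 0 := by
  apply derivation_ext
  intro k
  rw [smul_sum_apply, Derivation.zero_apply]
  apply mul_left_cancel₀ (defPoly_ne hA)
  rw [Finset.mul_sum, mul_zero]
  have := minor_rel θ k
  have e : ∑ i : Fin (l + 1), defPoly A * (g i * θ i (X k)) =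
      -∑ i : Fin (l + 1), (-1) ^ (i : ℕ) * θ i (X k) * minor θ i := by
    rw [← Finset.sum_neg_distrib]
    refine Finset.sum_congr rfl fun i _ => ?_
    have := hg i
    rw [pow_succ] at this
    linear_combination (-θ i (X k)) * this
  rw [e, this, neg_zero]

include hA hθ hg in
/-- `g_i φ` is a combination of the other derivations -/
lemma cramer' (i : Fin (l + 1)) {φ : Der K l} (hφ : φ ∈ logDer A) :
    ∃ c : Fin (l + 1) → MvPolynomial (Fin l) K, c i = 0 ∧ g i • φ = ∑ k, c k • θ k := by
  have hε : ((-1 : MvPolynomial (Fin l) K) ^ ((i : ℕ) + 1)) * (-1) ^ ((i : ℕ) + 1) = 1 := by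
    rw [← mul_pow]
    simp
  have h1 : Matrix.det (Matrix.of fun a b : Fin l => θ (i.succAbove a) (X b)) =
      ((-1) ^ ((i : ℕ) + 1) * g i) * defPoly A := by
    have := hg i
    have e : minor θ i = (-1) ^ ((i : ℕ) + 1) * (g i * defPoly A) := by
      rw [← this, ← mul_assoc, hε, one_mul]
    unfold minor at e
    rw [e]
    ring
  obtain ⟨c, hc⟩ := cramer hA (fun a => θ (i.succAbove a)) (fun _ => hθ _) h1 hφ
  refine ⟨i.insertNth 0 fun a => (-1) ^ ((i : ℕ) + 1) * c a, by simp, ?_⟩
  rw [Fin.sum_univ_succAbove _ i]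
  simp only [Fin.insertNth_apply_same, Fin.insertNth_apply_succAbove, zero_smul, zero_add]
  have h2 : g i • φ = (-1 : MvPolynomial (Fin l) K) ^ ((i : ℕ) + 1) •
      (((-1) ^ ((i : ℕ) + 1) * g i) • φ) := by
    rw [smul_smul, ← mul_assoc, hε, one_mul]
  rw [h2, hc, Finset.smul_sum]
  exact Finset.sum_congr rfl fun a _ => smul_smul _ _ _

include hA hg in
/-- all relations are proportional to `g` -/
lemma rel_prop (hα : g (Fin.last l) ≠ 0) (a : Fin (l + 1) → MvPolynomial (Fin l) K)
    (ha : ∑ i, a i • θ i = 0) (i : Fin (l + 1)) :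
    g (Fin.last l) * a i = a (Fin.last l) * g i := by
  have hdet : Matrix.det (Matrix.of fun a b : Fin l => θ (Fin.castSucc a) (X b)) ≠ 0 := by
    intro h0
    have h1 := hg (Fin.last l)
    have h2 : minor θ (Fin.last l) = 0 := by
      unfold minor
      simp only [Fin.succAbove_last]
      exact h0
    rw [h2, mul_zero] at h1
    exact mul_ne_zero hα (defPoly_ne hA) h1.symm
  have hrel := rel_g hA hg
  set b : Fin (l + 1) → MvPolynomial (Fin l) K := fun i => g (Fin.last l) * a i -
    a (Fin.last l) * g i with hb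
  have h1 : ∑ i, b i • θ i = 0 := by
    apply derivation_ext
    intro k
    have e1 := smul_sum_apply a θ (X k)
    have e2 := smul_sum_apply g θ (X k)
    rw [ha, Derivation.zero_apply] at e1
    rw [hrel, Derivation.zero_apply] at e2
    rw [smul_sum_apply, Derivation.zero_apply]
    have e3 : ∑ i, b i * θ i (X k) = g (Fin.last l) * ∑ i, a i * θ i (X k) -
        a (Fin.last l) * ∑ i, g i * θ i (X k) := by
      rw [Finset.mul_sum, Finset.mul_sum, ← Finset.sum_sub_distrib]
      refine Finset.sum_congr rfl fun i _ => ?_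
      simp only [hb]
      ring
    rw [e3, ← e1, ← e2]
    ring
  have hbl : b (Fin.last l) = 0 := by
    simp only [hb]
    ring
  rw [Fin.sum_univ_castSucc, hbl, zero_smul, add_zero] at h1
  have h2 := indep (fun a => θ (Fin.castSucc a)) hdet (fun j => b (Fin.castSucc j)) h1
  have h3 : b i = 0 := by
    refine Fin.lastCases hbl (fun j => ?_) i
    exact congrFun h2 j
  exact sub_eq_zero.1 h3

lemma span_compl_mem (θ : Fin (l + 1) → Der K l) (i : Fin (l + 1)) (x : Der K l)
    (hx : x ∈ Submodule.span (MvPolynomial (Fin l) K) (θ '' {i}ᶜ)) :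
    ∃ a : Fin (l + 1) → MvPolynomial (Fin l) K, a i = 0 ∧ x = ∑ k, a k • θ k := by
  classical
  induction hx using Submodule.span_induction with
  | mem x hx =>
    obtain ⟨k, hk, rfl⟩ := hx
    refine ⟨Pi.single k 1, ?_, ?_⟩
    · rw [Pi.single_eq_of_ne]
      exact fun h => hk h.symm
    · apply derivation_ext
      intro j
      rw [smul_sum_apply, Finset.sum_eq_single k]
      · simp
      · intro b _ hb
        rw [Pi.single_eq_of_ne hb, zero_mul]
      · simp
  | zero =>
    refine ⟨0, rfl, ?_⟩
    apply derivation_ext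
    intro j
    rw [smul_sum_apply]
    simp
  | add x y _ _ hx hy =>
    obtain ⟨a, ha, rfl⟩ := hx
    obtain ⟨b, hb, rfl⟩ := hy
    refine ⟨a + b, by simp [ha, hb], ?_⟩
    apply derivation_ext
    intro j
    rw [Derivation.add_apply, smul_sum_apply, smul_sum_apply, smul_sum_apply,
      ← Finset.sum_add_distrib]
    exact Finset.sum_congr rfl fun k _ => (add_mul _ _ _).symm
  | smul r x _ hx =>
    obtain ⟨a, ha, rfl⟩ := hx
    refine ⟨r • a, by simp [ha], ?_⟩
    apply derivation_ext
    intro j
    rw [Derivation.smul_apply, smul_sum_apply, smul_sum_apply, smul_eq_mul, Finset.mul_sum]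
    exact Finset.sum_congr rfl fun k _ => (mul_assoc _ _ _).symm

include hA hθ hg in
/-- (ii) implies (i) -/
theorem two_imp_one (hh : ∀ i, ∃ d, IsHomDer (θ i) d) (h : CondII g) : CondI A θ g := by
  obtain ⟨h1, h0, hpos, hno⟩ := h
  obtain ⟨a, ha⟩ := eq_form_of_hom h1
  have ha0 : a ≠ 0 := by
    rintro rfl
    apply h0
    rw [ha]
    simp [form]
  have hprime : Prime (g (Fin.last l)) := by rw [ha]; exact form_prime ha0
  have hndvd : ¬ ∀ i : Fin l, g (Fin.last l) ∣ g i.castSucc := by
    intro hall
    refine hno ⟨g (Fin.last l), ⟨1, le_rfl, h1⟩, fun i => ?_⟩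
    obtain ⟨q, hq⟩ := hall i
    rw [hq]
    exact Ideal.mul_mem_right _ _ (Ideal.subset_span (by simp))
  -- generation
  have hgen : ∀ φ ∈ logDer A, ∃ b : Fin (l + 1) → MvPolynomial (Fin l) K,
      φ = ∑ k, b k • θ k := by
    intro φ hφ
    obtain ⟨c, hc0, hc⟩ := cramer' hA hθ hg (Fin.last l) hφ
    have key : ∀ i : Fin (l + 1), g i ≠ 0 → ∀ k, g (Fin.last l) ∣ g i * c k - c i * g k := by
      intro i hi k
      obtain ⟨c', hc0', hc'⟩ := cramer' hA hθ hg i hφ
      have e : ∑ k, (g (Fin.last l) * c' k - g i * c k) • θ k = 0 := by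
        apply derivation_ext
        intro j
        have e1 := congrArg (fun D => D (X j)) hc
        have e2 := congrArg (fun D => D (X j)) hc'
        simp only [Derivation.smul_apply, smul_eq_mul, smul_sum_apply] at e1 e2
        rw [smul_sum_apply, Derivation.zero_apply]
        have e3 : ∑ k, (g (Fin.last l) * c' k - g i * c k) * θ k (X j) =
            g (Fin.last l) * ∑ k, c' k * θ k (X j) - g i * ∑ k, c k * θ k (X j) := by
          rw [Finset.mul_sum, Finset.mul_sum, ← Finset.sum_sub_distrib]
          exact Finset.sum_congr rfl fun k _ => by ring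
        rw [e3, ← e1, ← e2]
        ring
      have e1 := rel_prop hA hg h0 _ e
      have e2 : ∀ k, g (Fin.last l) * c' k - g i * c k = c' (Fin.last l) * g k := by
        intro k
        have := e1 k
        rw [hc0, mul_zero, sub_zero] at this
        apply mul_left_cancel₀ h0
        linear_combination this
      have e3 := e2 i
      rw [hc0', mul_zero, zero_sub] at e3
      have e4 : c' (Fin.last l) = -c i := by
        apply mul_right_cancel₀ hi
        rw [← e3]
        ring
      refine ⟨c' k, ?_⟩
      have := e2 k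
      rw [e4] at this
      linear_combination -this
    have key2 : ∀ i k, g (Fin.last l) ∣ g i * c k - c i * g k := by
      intro i k
      by_cases hi : g i = 0
      · by_cases hk : g k = 0
        · rw [hi, hk]
          simp
        · have := key k hk i
          rw [← dvd_neg] at this
          convert this using 1
          ring
      · exact key i hi k
    obtain ⟨h, hh⟩ := parallel ha0 (fun i : Fin l => g i.castSucc) (fun i => c i.castSucc)
      (fun i => by
        obtain ⟨k, -, hk⟩ := hpos i
        exact ⟨k, hk⟩) (by rw [← ha]; exact hno) (fun i k => by rw [← ha]; exact key2 _ _)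
    rw [← ha] at hh
    choose b hb using hh
    refine ⟨Fin.snoc b (-h), ?_⟩
    apply derivation_ext
    intro j
    rw [smul_sum_apply, Fin.sum_univ_castSucc]
    simp only [Fin.snoc_castSucc, Fin.snoc_last]
    apply mul_left_cancel₀ h0
    have e1 := congrArg (fun D => D (X j)) hc
    simp only [Derivation.smul_apply, smul_eq_mul, smul_sum_apply] at e1
    have e2 := smul_sum_apply g θ (X j)
    rw [rel_g hA hg, Derivation.zero_apply, Fin.sum_univ_castSucc] at e2
    rw [e1, Fin.sum_univ_castSucc, hc0, zero_mul, add_zero]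
    have e3 : ∑ i : Fin l, c i.castSucc * θ i.castSucc (X j) =
        g (Fin.last l) * ∑ i : Fin l, b i * θ i.castSucc (X j) +
          h * ∑ i : Fin l, g i.castSucc * θ i.castSucc (X j) := by
      rw [Finset.mul_sum, Finset.mul_sum, ← Finset.sum_add_distrib]
      refine Finset.sum_congr rfl fun i _ => ?_
      linear_combination (θ i.castSucc (X j)) * hb i
    rw [e3]
    linear_combination (-h) * e2
  -- relations
  have hall : ∀ b : Fin (l + 1) → MvPolynomial (Fin l) K, ∑ k, b k • θ k = 0 →
      ∃ h, ∀ k, b k = h * g k := by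
    intro b hb
    have e := rel_prop hA hg h0 b hb
    have h2 : g (Fin.last l) ∣ b (Fin.last l) := by
      by_contra hn
      apply hndvd
      intro i
      exact (hprime.dvd_or_dvd ⟨b i.castSucc, (e i.castSucc).symm⟩).resolve_left hn
    obtain ⟨h, hh⟩ := h2
    refine ⟨h, fun k => ?_⟩
    apply mul_left_cancel₀ h0
    rw [e k, hh]
    ring
  have hconst : ∀ i, constantCoeff (g i) = 0 := by
    intro i
    refine Fin.lastCases ?_ (fun j => ?_) i
    · rw [constantCoeff_eq]
      exact h1.coeff_eq_zero (by simp)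
    · obtain ⟨k, hk, hk'⟩ := hpos j
      rw [constantCoeff_eq]
      exact hk'.coeff_eq_zero (by simp; omega)
  have hgh : ∀ i, ∃ k, (g i).IsHomogeneous k := by
    intro i
    refine Fin.lastCases ⟨1, h1⟩ (fun j => ?_) i
    obtain ⟨k, -, hk'⟩ := hpos j
    exact ⟨k, hk'⟩
  choose d hd using hh
  have hminor : ∀ i, (minor θ i).IsHomogeneous (∑ a, d (i.succAbove a)) := fun i =>
    det_hom (fun a => θ (i.succAbove a)) (fun a => d (i.succAbove a)) fun a => hd _
  have hdeg : ∀ i, g i ≠ 0 → ∀ k, (g i).IsHomogeneous k →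
      k + n + d i = ∑ a, d a := by
    intro i hi k hk
    have e1 : ((-1) ^ ((i : ℕ) + 1) * minor θ i).IsHomogeneous (∑ a, d (i.succAbove a)) := by
      have : (-1 : MvPolynomial (Fin l) K) ^ ((i : ℕ) + 1) = C ((-1) ^ ((i : ℕ) + 1)) := by simp
      rw [this]
      exact (hminor i).C_mul _
    rw [hg i] at e1
    have e2 := (hk.mul (defPoly_hom A)).inj_right e1 (mul_ne_zero hi (defPoly_ne hA))
    rw [e2, Fin.sum_univ_succAbove _ i]
    ring
  have hl1 := hdeg _ h0 1 h1
  have hcoprime : Coprime g := by
    intro h hh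
    have h3 := hh (Fin.last l)
    rcases (hprime.irreducible.dvd_iff.1 h3) with h4 | h4
    · obtain ⟨c, -, hc⟩ := (MvPolynomial.isUnit_iff_eq_C_of_isReduced).1 h4
      exact ⟨c, hc⟩
    · exact absurd (fun i : Fin l => h4.dvd.trans (hh i.castSucc)) hndvd
  refine ⟨⟨fun i => d i.castSucc, d (Fin.last l), fun i => θ i.castSucc, θ (Fin.last l),
    fun i => g i.castSucc, g (Fin.last l), ?_⟩, ?_, ?_, ⟨rel_g hA hg, hcoprime, ?_⟩, h1, h0⟩
  · constructor
    · exact fun i => hθ _
    · exact fun i => hd _
    · exact hθ _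
    · exact hd _
    · intro η hη
      obtain ⟨b, hb⟩ := hgen η hη
      refine ⟨fun i => b i.castSucc, b (Fin.last l), ?_⟩
      rw [hb, Fin.sum_univ_castSucc]
    · have := rel_g hA hg
      rwa [Fin.sum_univ_castSucc] at this
    · intro b c hbc
      obtain ⟨h, hh⟩ := hall (Fin.snoc b c) (by
        rw [Fin.sum_univ_castSucc]
        simpa using hbc)
      refine ⟨h, fun i => ?_, ?_⟩
      · simpa using hh i.castSucc
      · simpa using hh (Fin.last l)
    · intro i m hm
      have hi : g i.castSucc ≠ 0 := by
        intro h0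
        rw [h0] at hm
        simp at hm
      obtain ⟨k, hk⟩ := hgh i.castSucc
      have e := hdeg _ hi k hk
      have e2 : m.degree = k := by
        by_contra hne
        exact (mem_support_iff.1 hm) (hk.coeff_eq_zero hne)
      omega
    · exact fun i => hconst _
    · exact h1
    · exact h0
  · apply le_antisymm
    · rw [Submodule.span_le]
      rintro _ ⟨i, rfl⟩
      exact hθ i
    · intro φ hφ
      obtain ⟨b, hb⟩ := hgen φ hφ
      rw [hb]
      exact Submodule.sum_mem _ fun k _ => Submodule.smul_mem _ _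
        (Submodule.subset_span ⟨k, rfl⟩)
  · intro i hi
    obtain ⟨b, hb0, hb⟩ := span_compl_mem θ i (θ i) (by rw [hi]; exact hθ i)
    classical
    obtain ⟨h, hh⟩ := hall (fun k => b k - (if k = i then 1 else 0)) (by
      apply derivation_ext
      intro j
      rw [smul_sum_apply, Derivation.zero_apply]
      have e1 := congrArg (fun D => D (X j)) hb
      simp only [smul_sum_apply] at e1
      simp only [sub_mul, Finset.sum_sub_distrib, ite_mul, one_mul, zero_mul,
        Finset.sum_ite_eq', Finset.mem_univ, if_true]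
      rw [← e1, sub_self])
    have h2 := congrArg constantCoeff (hh i)
    simp only [hb0, if_true, map_sub, map_zero, map_one, map_mul, hconst, mul_zero] at h2
    norm_num at h2
  · intro f hf hfc
    obtain ⟨h, hh⟩ := hall f hf
    obtain ⟨c, hc⟩ := hfc h fun i => ⟨g i, hh i⟩
    refine ⟨c, ?_, fun i => by rw [hh i, hc]⟩
    rintro rfl
    rw [C_0] at hc
    rw [hc] at hh
    obtain ⟨j, hj⟩ : ∃ j, a j ≠ 0 := by
      by_contra hc
      push Not at hc
      exact ha0 (funext hc)
    obtain ⟨c', hc'⟩ := hfc (X j) fun i => by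
      rw [hh i, zero_mul]
      exact dvd_zero _
    have h3 := congrArg totalDegree hc'
    rw [totalDegree_X, totalDegree_C] at h3
    exact one_ne_zero h3

include hA hθ hg in
/-- (i) implies (ii) -/
theorem one_imp_two (hh : ∀ i, ∃ d, IsHomDer (θ i) d) (h : CondI A θ g) : CondII g := by
  obtain ⟨-, hspan, hmin, ⟨-, hcop, -⟩, h1, h0⟩ := h
  obtain ⟨a, ha⟩ := eq_form_of_hom h1
  have ha0 : a ≠ 0 := by
    rintro rfl
    apply h0
    rw [ha]
    simp [form]
  have hprime : Prime (g (Fin.last l)) := by rw [ha]; exact form_prime ha0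
  have hrel := rel_g hA hg
  -- a generator which is a combination of the others contradicts minimality
  have hred : ∀ (i : Fin (l + 1)) (b : Fin (l + 1) → MvPolynomial (Fin l) K), b i = 0 →
      θ i = ∑ k, b k • θ k → False := by
    intro i b hb0 hb
    apply hmin i
    rw [← hspan]
    apply le_antisymm
    · exact Submodule.span_mono (Set.image_subset_range _ _)
    · rw [Submodule.span_le]
      have h2 : ∀ k, k ≠ i → θ k ∈ Submodule.span (MvPolynomial (Fin l) K) (θ '' {i}ᶜ) :=
        fun k hk => Submodule.subset_span ⟨k, hk, rfl⟩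
      rintro _ ⟨k, rfl⟩
      by_cases hk : k = i
      · subst hk
        show θ k ∈ _
        rw [hb]
        refine Submodule.sum_mem _ fun j _ => ?_
        by_cases hj : j = k
        · rw [hj, hb0, zero_smul]
          exact Submodule.zero_mem _
        · exact Submodule.smul_mem _ _ (h2 j hj)
      · exact h2 k hk
  choose d hd using hh
  refine ⟨h1, h0, ?_, ?_⟩
  · intro i
    by_cases hi : g i.castSucc = 0
    · rw [hi]
      exact ⟨1, le_rfl, isHomogeneous_zero _ _ _⟩
    · have hm0 : minor θ i.castSucc ≠ 0 := by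
        intro hm
        have := hg i.castSucc
        rw [hm, mul_zero] at this
        exact mul_ne_zero hi (defPoly_ne hA) this.symm
      have hdvd : g i.castSucc ∣ minor θ i.castSucc := by
        have := hg i.castSucc
        have e : minor θ i.castSucc = (-1) ^ ((i.castSucc : ℕ) + 1) *
            (g i.castSucc * defPoly A) := by
          rw [← this, ← mul_assoc, ← mul_pow]
          simp
        rw [e]
        exact ⟨(-1) ^ ((i.castSucc : ℕ) + 1) * defPoly A, by ring⟩
      have hhom := homog_of_dvd (det_hom (fun a => θ (i.castSucc.succAbove a)) (fun a => d _)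
        fun a => hd _) hm0 hdvd
      refine ⟨(g i.castSucc).totalDegree, ?_, hhom⟩
      by_contra hlt
      have h2 : (g i.castSucc).totalDegree = 0 := by omega
      rw [totalDegree_eq_zero_iff_eq_C] at h2
      set c := coeff 0 (g i.castSucc) with hc
      have hc0 : c ≠ 0 := by
        intro h3
        rw [h3, C_0] at h2
        exact hi h2
      classical
      refine hred i.castSucc (fun k => if k = i.castSucc then 0 else -(C c⁻¹ * g k)) (by simp) ?_
      apply derivation_ext
      intro j
      rw [smul_sum_apply]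
      have e1 := smul_sum_apply g θ (X j)
      rw [hrel, Derivation.zero_apply, ← Finset.add_sum_erase _ _ (Finset.mem_univ i.castSucc),
        h2] at e1
      rw [← Finset.add_sum_erase _ _ (Finset.mem_univ i.castSucc), if_pos rfl, zero_mul, zero_add]
      have e2 : ∑ x ∈ Finset.univ.erase i.castSucc,
          (if x = i.castSucc then 0 else -(C c⁻¹ * g x)) * θ x (X j) =
          -(C c⁻¹ * ∑ x ∈ Finset.univ.erase i.castSucc, g x * θ x (X j)) := by
        rw [Finset.mul_sum, ← Finset.sum_neg_distrib]
        refine Finset.sum_congr rfl fun x hx => ?_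
        rw [if_neg (Finset.ne_of_mem_erase hx)]
        ring
      rw [e2]
      have e3 : C c⁻¹ * C c = (1 : MvPolynomial (Fin l) K) := by
        rw [← C_mul, inv_mul_cancel₀ hc0, C_1]
      linear_combination (-(C c⁻¹)) * e1 - (θ i.castSucc (X j)) * e3
  · rintro ⟨h, ⟨k, hk, hk'⟩, hmem⟩
    have hmem' : ∀ i : Fin l, ∃ a b, a * h + b * g (Fin.last l) = g i.castSucc := fun i =>
      Ideal.mem_span_pair.1 (hmem i)
    choose a' b' hab using hmem'
    have hconst : constantCoeff h = 0 := by
      rw [constantCoeff_eq]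
      exact hk'.coeff_eq_zero (by simp; omega)
    by_cases hdiv : g (Fin.last l) ∣ h
    · obtain ⟨q, hq⟩ := hdiv
      refine hred (Fin.last l) (Fin.snoc (fun i => -(a' i * q + b' i)) 0) (by simp) ?_
      apply derivation_ext
      intro j
      rw [smul_sum_apply, Fin.sum_univ_castSucc]
      simp only [Fin.snoc_castSucc, Fin.snoc_last, zero_mul, add_zero]
      have e1 := smul_sum_apply g θ (X j)
      rw [hrel, Derivation.zero_apply, Fin.sum_univ_castSucc] at e1
      apply mul_left_cancel₀ h0
      have e2 : g (Fin.last l) * ∑ i : Fin l, -(a' i * q + b' i) * θ i.castSucc (X j) =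
          -∑ i : Fin l, g i.castSucc * θ i.castSucc (X j) := by
        rw [Finset.mul_sum, ← Finset.sum_neg_distrib]
        refine Finset.sum_congr rfl fun i _ => ?_
        have := hab i
        rw [hq] at this
        linear_combination (-θ i.castSucc (X j)) * this
      rw [e2]
      linear_combination -e1
    · -- `ψ' = ∑ a' i θ i` is divisible by `α`, the quotient is logarithmic
      have e1 : ∀ p, h * (∑ i : Fin l, a' i * θ i.castSucc p) + g (Fin.last l) *
          (∑ i : Fin l, b' i * θ i.castSucc p + θ (Fin.last l) p) = 0 := by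
        intro p
        have e1 := smul_sum_apply g θ p
        rw [hrel, Derivation.zero_apply, Fin.sum_univ_castSucc] at e1
        have e2 : ∑ i : Fin l, g i.castSucc * θ i.castSucc p =
            h * ∑ i : Fin l, a' i * θ i.castSucc p +
              g (Fin.last l) * ∑ i : Fin l, b' i * θ i.castSucc p := by
          rw [Finset.mul_sum, Finset.mul_sum, ← Finset.sum_add_distrib]
          refine Finset.sum_congr rfl fun i _ => ?_
          linear_combination (-θ i.castSucc p) * hab i
        rw [e2] at e1
        linear_combination -e1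
      have e2 : ∀ j : Fin l, ∃ q, ∑ i : Fin l, a' i * θ i.castSucc (X j) =
          g (Fin.last l) * q := by
        intro j
        refine (hprime.dvd_or_dvd ?_).resolve_left hdiv
        exact ⟨-(∑ i : Fin l, b' i * θ i.castSucc (X j) + θ (Fin.last l) (X j)), by
          linear_combination e1 (X j)⟩
      choose q hq using e2
      set ψ : Der K l := mkDerivation K q with hψ
      have hψ1 : ∀ p, g (Fin.last l) * ψ p = ∑ i : Fin l, a' i * θ i.castSucc p := by
        have : g (Fin.last l) • ψ = ∑ i : Fin l, a' i • θ i.castSucc := by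
          apply derivation_ext
          intro j
          rw [smul_sum_apply, Derivation.smul_apply, smul_eq_mul, hq j, hψ, mkDerivation_X]
        intro p
        have := congrArg (fun D => D p) this
        simpa [smul_sum_apply] using this
      have hψ2 : ∀ p, h * ψ p = -(∑ i : Fin l, b' i * θ i.castSucc p + θ (Fin.last l) p) := by
        intro p
        apply mul_left_cancel₀ h0
        linear_combination h * hψ1 p + e1 p
      have hψmem : ψ ∈ logDer A := by
        intro i
        have m1 : form (A i) ∣ g (Fin.last l) * ψ (form (A i)) := by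
          rw [hψ1]
          exact Finset.dvd_sum fun k _ => Dvd.dvd.mul_left (hθ _ i) _
        have m2 : form (A i) ∣ h * ψ (form (A i)) := by
          rw [hψ2]
          exact (dvd_neg.2 (dvd_add (Finset.dvd_sum fun k _ => Dvd.dvd.mul_left (hθ _ i) _)
            (hθ _ i)))
        have hpi := form_prime (hA.1 i)
        rcases hpi.dvd_or_dvd m1 with m3 | m3
        · refine (hpi.dvd_or_dvd m2).resolve_left ?_
          intro m4
          apply hdiv
          have : Associated (form (A i)) (g (Fin.last l)) :=
            hpi.associated_of_dvd hprime m3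
          exact this.symm.dvd.trans m4
        · exact m3
      have hψspan : ψ ∈ Submodule.span (MvPolynomial (Fin l) K) (Set.range θ) := by
        rw [hspan]; exact hψmem
      rw [Submodule.mem_span_range_iff_exists_fun] at hψspan
      obtain ⟨e, he⟩ := hψspan
      have hr : ∑ k, (Fin.snoc (fun i => b' i + h * e i.castSucc) (1 + h * e (Fin.last l)) :
          Fin (l + 1) → MvPolynomial (Fin l) K) k • θ k = 0 := by
        apply derivation_ext
        intro j
        rw [smul_sum_apply, Fin.sum_univ_castSucc, Derivation.zero_apply]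
        simp only [Fin.snoc_castSucc, Fin.snoc_last]
        have f1 := congrArg (fun D => D (X j)) he
        simp only [smul_sum_apply] at f1
        rw [Fin.sum_univ_castSucc] at f1
        have f2 := hψ2 (X j)
        have f3 : ∑ i : Fin l, (b' i + h * e i.castSucc) * θ i.castSucc (X j) =
            ∑ i : Fin l, b' i * θ i.castSucc (X j) +
              h * ∑ i : Fin l, e i.castSucc * θ i.castSucc (X j) := by
          rw [Finset.mul_sum, ← Finset.sum_add_distrib]
          exact Finset.sum_congr rfl fun i _ => by ring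
        rw [f3]
        linear_combination f2 + h * f1
      have hr2 := rel_prop hA hg h0 _ hr
      simp only [Fin.snoc_last] at hr2
      have hr3 : g (Fin.last l) ∣ 1 + h * e (Fin.last l) := by
        by_contra hn
        obtain ⟨c, hc⟩ := hcop (g (Fin.last l)) fun i =>
          (hprime.dvd_or_dvd ⟨_, (hr2 i).symm⟩).resolve_left hn
        have h3 := h1.totalDegree h0
        rw [hc, totalDegree_C] at h3
        exact zero_ne_one h3
      obtain ⟨w, hw⟩ := hr3
      have h3 := congrArg constantCoeff hw
      rw [map_add, map_mul, map_one, hconst, map_mul] at h3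
      have h4 : constantCoeff (g (Fin.last l)) = 0 := by
        rw [constantCoeff_eq]
        exact h1.coeff_eq_zero (by simp)
      rw [h4] at h3
      simp at h3

end

end Pool.Agent.X273.Saito
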