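import Mathlib

/-!
# Completely additive functions with values in a group are not periodic on short intervals
-/

namespace Pool.Agent.X273.KR

/-- completely additive on the positive integers -/
def CAdd {G : Type*} [AddCommGroup G] (u : ℕ → G) : Prop :=
  ∀ a b : ℕ, 1 ≤ a → 1 ≤ b → u (a * b) = u a + u b

/-- periodicity along an interval gives constancy along progressions -/
lemma per_mul {α : Type*} {g : ℕ → α} {D Y B : ℕ} (hper : ∀ u, Y ≤ u → u + D ≤ B → g (u + D) = g u)
    {u : ℕ} (hu : Y ≤ u) : ∀ k : ℕ, u + D * k ≤ B → g (u + D * k) = g u := by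
  intro k
  induction k with
  | zero => intro _; simp
  | succ k ih =>
    intro h
    have h1 : u + D * (k + 1) = (u + D * k) + D := by ring
    rw [h1, hper (u + D * k) (by omega) (by omega)]
    exact ih (by omega)

/-- a function which does not change from `x` to `x + 1` is constant -/
lemma const_of_links {α : Type*} {f : ℕ → α} {a b : ℕ} (h : ∀ x, a ≤ x → x < b → f x = f (x + 1)) :
    ∀ x, a ≤ x → x ≤ b → f x = f a := by
  intro x hx
  induction x, hx using Nat.le_induction with
  | base => intro _; rfl
  | succ n hn ih =>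
    intro hb
    rw [← h n hn (by omega)]
    exact ih (by omega)

/-- A completely additive function `u` with `u q ≠ 0` does not have the period `D` on `[Y, B]` if
`B ≥ Y + D ((q + 1) t + 1)`, where `q D t² ≥ Y`. -/
lemma no_period {G : Type*} [AddCommGroup G] {u : ℕ → G} (hu : CAdd u) {q : ℕ} (hq : 1 ≤ q)
    (huq : u q ≠ 0) {D : ℕ} (hD : 1 ≤ D) {Y B t₀ : ℕ} (hY : 1 ≤ Y) (ht₀ : 1 ≤ t₀)
    (htY : Y ≤ q * D * t₀ ^ 2) (hB : Y + D * ((q + 1) * t₀ + 1) ≤ B)
    (hper : ∀ v, Y ≤ v → v + D ≤ B → u (v + D) = u v) : False := by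
  have hlink : ∀ t, t₀ ≤ t → t < q * t₀ → u t = u (t + 1) := by
    intro t h1 h2
    have ht : 1 ≤ t := by omega
    -- d' least with D d' t ≥ Y
    obtain ⟨e, he1, he2⟩ : ∃ e : ℕ, Y ≤ D * e * t ∧ D * e * t < Y + D * t := by
      have hDt : 0 < D * t := Nat.mul_pos hD ht
      refine ⟨(Y + D * t - 1) / (D * t), ?_, ?_⟩
      · have a1 := Nat.div_add_mod (Y + D * t - 1) (D * t)
        have a2 := Nat.mod_lt (Y + D * t - 1) hDt
        have a3 : D * ((Y + D * t - 1) / (D * t)) * t = D * t * ((Y + D * t - 1) / (D * t)) := by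
          ring
        rw [a3]; omega
      · have a1 := Nat.div_add_mod (Y + D * t - 1) (D * t)
        have a3 : D * ((Y + D * t - 1) / (D * t)) * t = D * t * ((Y + D * t - 1) / (D * t)) := by
          ring
        rw [a3]; omega
    have he0 : 1 ≤ e := by
      rcases Nat.eq_zero_or_pos e with h | h
      · rw [h] at he1; simp at he1; omega
      · exact h
    have hDe : 1 ≤ D * e := Nat.mul_pos hD he0
    -- D e (t+1) ≤ B
    have hup : D * e * t + D * e ≤ B := by
      -- multiply by t
      have k1 : Y + D * t * t ≤ D * ((q + 1) * t₀) * t := by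
        -- D (t (q+1) t₀ - t²) ≥ D q t₀² ≥ Y
        obtain ⟨a, ha⟩ : ∃ a, t = t₀ + a := ⟨t - t₀, by omega⟩
        obtain ⟨b, hb⟩ : ∃ b, q * t₀ = t + b := ⟨q * t₀ - t, by omega⟩
        have k2 : (q + 1) * t₀ * t = t * t + q * t₀ ^ 2 + a * b := by
          have : (q + 1) * t₀ = t + b + t₀ := by rw [add_mul, hb]; ring
          rw [this]
          have h3 : q * t₀ ^ 2 = (t + b) * t₀ := by rw [← hb]; ring
          rw [h3, ha]; ring
        have k3 : D * ((q + 1) * t₀) * t = D * t * t + q * D * t₀ ^ 2 + D * (a * b) := by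
          have : D * ((q + 1) * t₀) * t = D * ((q + 1) * t₀ * t) := by ring
          rw [this, k2]; ring
        rw [k3]; omega
      by_contra hc
      push Not at hc
      have k4 : (B + 1) * t ≤ (D * e * t + D * e) * t := Nat.mul_le_mul_right _ hc
      have k5 : (D * e * t + D * e) * t = D * e * t * t + D * e * t := by ring
      have k6 : (D * e * t) * t ≤ (Y + D * t) * t - t := by
        have : D * e * t + 1 ≤ Y + D * t := he2
        have h7 := Nat.mul_le_mul_right t this
        have h8 : (D * e * t + 1) * t = D * e * t * t + t := by ring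
        omega
      have k7 : (Y + D * ((q + 1) * t₀ + 1)) * t ≤ B * t := Nat.mul_le_mul_right _ hB
      have k8 : (Y + D * ((q + 1) * t₀ + 1)) * t = Y * t + D * ((q + 1) * t₀) * t + D * t := by ring
      have k9 : (B + 1) * t = B * t + t := by ring
      have k10 : (Y + D * t) * t = Y * t + D * t * t := by ring
      have k11 : t ≤ (Y + D * t) * t := by nlinarith
      omega
    have p1 : u (D * e * t + D * e) = u (D * e * t) :=
      per_mul hper he1 e hup
    have p2 : D * e * t + D * e = D * e * (t + 1) := by ring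
    rw [p2, hu _ _ hDe (by omega), hu _ _ hDe ht] at p1
    exact (add_left_cancel p1).symm
  have hc := const_of_links hlink (q * t₀) (by nlinarith) le_rfl
  rw [hu q t₀ hq ht₀] at hc
  apply huq
  simpa using hc

/-- Deterministic recurrences with finitely many states are periodic. -/
lemma det_period {α : Type*} [Fintype α] [DecidableEq α] (g : ℕ → α) (K P A B : ℕ) (hP : 1 ≤ P)
    (hdet : ∀ n n', A ≤ n → n ≤ B → A ≤ n' → n' ≤ B → n ≡ n' [MOD P] →
      (∀ i < K, g (n + i) = g (n' + i)) → g (n + K) = g (n' + K)) :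
    ∃ D, 1 ≤ D ∧ D ≤ P * Fintype.card α ^ K ∧
      ∀ u, A + P * Fintype.card α ^ K ≤ u → u + D ≤ B + K → g (u + D) = g u := by
  classical
  set k := Fintype.card α with hk
  let φ : Fin (k ^ K + 1) → (Fin K → α) := fun t i => g (A + P * t + i)
  obtain ⟨t, t', hne, hφ⟩ := Fintype.exists_ne_map_eq_of_card_lt φ (by simp [hk])
  wlog hlt : (t : ℕ) < t' generalizing t t' with H
  · exact H t' t hne.symm hφ.symm (by
      have : (t : ℕ) ≠ t' := fun h => hne (Fin.ext h)
      omega)
  have ht' : (t' : ℕ) ≤ k ^ K := by have := t'.2; omega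
  have hDle : P * ((t' : ℕ) - t) ≤ P * k ^ K := Nat.mul_le_mul_left _ (by omega)
  have hPt : P * (t' : ℕ) = P * t + P * ((t' : ℕ) - t) := by
    rw [← Nat.mul_add]; congr 1; omega
  have hbase : ∀ i < K, g (A + P * t + i) = g (A + P * t' + i) := by
    intro i hi
    exact congrFun hφ ⟨i, hi⟩
  have hind : ∀ m, A + P * t' + m ≤ B + K → g (A + P * t + m) = g (A + P * t' + m) := by
    intro m
    induction m using Nat.strong_induction_on with
    | _ m ih =>
      intro hm
      by_cases hmK : m < K
      · exact hbase m hmK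
      · push Not at hmK
        have h := hdet (A + P * t + (m - K)) (A + P * t' + (m - K)) (by omega) (by
            have : P * (t : ℕ) ≤ P * t' := Nat.mul_le_mul_left _ hlt.le
            omega) (by omega) (by omega) ?_ ?_
        · have e1 : A + P * t + (m - K) + K = A + P * t + m := by omega
          have e2 : A + P * t' + (m - K) + K = A + P * t' + m := by omega
          rw [e1, e2] at h; exact h
        · have e : A + P * t' + (m - K) = A + P * t + (m - K) + P * ((t' : ℕ) - t) := by omega
          rw [e]
          exact (Nat.modEq_iff_dvd' (by omega)).mpr ⟨(t' : ℕ) - t, by omega⟩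
        · intro i hi
          have h' := ih ((m - K) + i) (by omega) (by omega)
          rw [← add_assoc, ← add_assoc] at h'
          exact h'
  refine ⟨P * ((t' : ℕ) - t), Nat.mul_pos hP (by omega), hDle, ?_⟩
  intro u hu huB
  have hu' : A + P * t ≤ u := by
    have : P * (t : ℕ) ≤ P * k ^ K := Nat.mul_le_mul_left _ (by omega)
    omega
  have h := hind (u - (A + P * t)) (by omega)
  have e1 : A + P * t + (u - (A + P * t)) = u := by omega
  have e2 : A + P * t' + (u - (A + P * t)) = u + P * ((t' : ℕ) - t) := by omega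
  rw [e1, e2] at h
  exact h.symm

end Pool.Agent.X273.KR
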