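import Pool.Agent.X273.PMGlue

/-!
# A graph with 58 vertices that is not coverable by four perfect matchings

`inc v` lists the numbers `1, ..., 87` of the three edges at the vertex `v < 58`.
-/

namespace Pool.Agent.X273.PM58

open Pool.Agent.X273.PMGlue

/-- Numbers of the three edges at a vertex. -/
def incL : List (List ℕ) :=
  [[1, 16, 87], [1, 15, 47], [2, 6, 8], [2, 5, 11], [3, 4, 49], [3, 6, 12], [4, 5, 9], [7, 8,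
  48], [7, 9, 13], [10, 11, 68], [10, 12, 13], [14, 15, 31], [14, 17, 69], [16, 17, 34], [33,
  46, 65], [18, 22, 24], [18, 21, 27], [19, 20, 86], [19, 22, 28], [20, 21, 25], [23, 24, 30],
  [23, 25, 29], [26, 27, 61], [26, 28, 29], [30, 31, 62], [32, 33, 64], [32, 34, 63], [45, 48,
  70], [43, 44, 45], [35, 41, 43], [35, 42, 46], [36, 39, 41], [36, 40, 47], [38, 39, 49], [37,
  38, 42], [37, 40, 44], [60, 63, 64], [58, 59, 60], [50, 56, 58], [50, 57, 61], [51, 54, 56],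
  [51, 55, 62], [53, 54, 65], [52, 53, 57], [52, 55, 59], [67, 68, 85], [66, 67, 69], [66, 70,
  84], [82, 83, 86], [81, 82, 87], [79, 80, 81], [71, 77, 79], [71, 78, 84], [72, 75, 77], [72,
  76, 85], [74, 75, 83], [73, 74, 78], [73, 76, 80]]

/-- The edges at `v`. -/
def inc (v : ℕ) : List ℕ := incL.getD v []

/-- Label vectors up to permutation, set 0. -/
def s0 : List (List ℕ) :=
   [[1, 2, 12], [1, 6, 8], [3, 4, 8]]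

/-- Label vectors up to permutation, set 1. -/
def s1 : List (List ℕ) :=
   [[1, 2, 1, 2], [1, 2, 2, 1], [1, 6, 1, 6], [1, 6, 2, 5], [1, 6, 3, 4], [1, 6, 6, 1], [3, 4,
   1, 6], [3, 4, 3, 4], [3, 4, 4, 3], [3, 4, 5, 2]]

/-- Label vectors up to permutation, set 2. -/
def s2 : List (List ℕ) :=
   [[1, 1, 2, 1, 12], [1, 1, 2, 4, 9], [1, 1, 2, 5, 8], [1, 1, 2, 12, 1], [1, 1, 6, 1, 8], [1,
   1, 6, 8, 1], [1, 2, 1, 1, 12], [1, 2, 1, 4, 9], [1, 2, 1, 5, 8], [1, 2, 1, 12, 1], [1, 2, 5,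
   1, 8], [1, 2, 5, 8, 1], [1, 3, 4, 1, 8], [1, 3, 4, 8, 1], [1, 6, 1, 1, 8], [1, 6, 1, 8, 1],
   [3, 1, 6, 1, 10], [3, 1, 6, 2, 9], [3, 1, 6, 3, 8], [3, 1, 6, 8, 3], [3, 1, 6, 9, 2], [3, 1,
   6, 10, 1], [3, 3, 4, 1, 10], [3, 3, 4, 3, 8], [3, 3, 4, 8, 3], [3, 3, 4, 9, 2], [3, 4, 3, 1,
   10], [3, 4, 3, 3, 8], [3, 4, 3, 8, 3], [3, 4, 3, 9, 2], [3, 5, 2, 1, 10], [3, 5, 2, 2, 9],
   [3, 5, 2, 3, 8], [3, 5, 2, 8, 3], [3, 5, 2, 9, 2], [3, 5, 2, 10, 1]]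

/-- Label vectors up to permutation, set 3. -/
def s3 : List (List ℕ) :=
   [[1, 1, 1, 2, 12], [1, 1, 1, 6, 8], [1, 1, 2, 1, 12], [1, 1, 2, 5, 8], [1, 1, 3, 4, 8], [1,
   1, 3, 5, 9], [1, 1, 3, 6, 10], [1, 1, 6, 1, 8], [1, 1, 6, 3, 10], [1, 2, 1, 4, 9], [1, 2, 1,
   12, 1], [1, 2, 4, 2, 10], [1, 2, 4, 4, 12], [1, 2, 4, 10, 2], [1, 2, 4, 12, 4], [1, 2, 5, 8,
   1], [1, 2, 5, 10, 3], [1, 2, 5, 12, 5], [1, 2, 12, 2, 2], [1, 2, 12, 4, 4], [1, 2, 12, 6,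
   6], [1, 2, 12, 12, 12], [1, 3, 1, 4, 8], [1, 3, 1, 5, 9], [1, 3, 1, 6, 10], [1, 3, 4, 1, 8],
   [1, 3, 4, 3, 10], [1, 3, 4, 5, 12], [1, 6, 1, 8, 1], [1, 6, 1, 10, 3], [1, 6, 8, 2, 2], [1,
   6, 8, 6, 6], [1, 6, 8, 8, 8], [1, 6, 8, 10, 10], [3, 1, 1, 4, 8], [3, 1, 3, 4, 10], [3, 1,
   4, 1, 8], [3, 1, 5, 1, 9], [3, 1, 5, 4, 12], [3, 1, 6, 1, 10], [3, 3, 1, 6, 8], [3, 3, 3, 4,
   8], [3, 3, 3, 5, 9], [3, 3, 4, 3, 8], [3, 3, 5, 2, 8], [3, 3, 5, 3, 9], [3, 3, 5, 6, 12],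
   [3, 4, 1, 8, 1], [3, 4, 3, 8, 3], [3, 4, 8, 4, 4], [3, 4, 8, 8, 8], [3, 4, 9, 4, 5], [3, 4,
   9, 8, 9], [3, 5, 1, 9, 1], [3, 5, 1, 12, 4], [3, 5, 2, 9, 2], [3, 5, 3, 8, 2], [3, 5, 3, 9,
   3], [3, 5, 3, 12, 6], [3, 5, 8, 5, 4], [3, 5, 8, 9, 8], [3, 5, 9, 1, 1], [3, 5, 9, 4, 4],
   [3, 5, 9, 5, 5], [3, 5, 9, 8, 8], [3, 5, 9, 9, 9], [3, 5, 9, 12, 12], [3, 5, 10, 1, 2], [3,
   5, 10, 5, 6], [3, 5, 10, 9, 10]]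

/-- Label vectors up to permutation, set 4. -/
def s4 : List (List ℕ) :=
   [[1, 1, 2, 1, 12], [1, 1, 2, 4, 9], [1, 1, 2, 5, 8], [1, 1, 2, 12, 1], [1, 1, 3, 4, 8], [1,
   1, 6, 1, 8], [1, 1, 6, 3, 10], [1, 1, 6, 8, 1], [1, 1, 6, 10, 3], [1, 2, 1, 1, 12], [1, 2,
   1, 5, 8], [1, 2, 2, 4, 10], [1, 2, 2, 12, 2], [1, 2, 4, 1, 9], [1, 2, 4, 2, 10], [1, 2, 4,
   9, 1], [1, 2, 4, 10, 2], [1, 2, 5, 1, 8], [1, 2, 5, 3, 10], [1, 2, 5, 5, 12], [1, 2, 6, 8,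
   2], [1, 2, 6, 9, 3], [1, 2, 6, 12, 6], [1, 2, 12, 1, 1], [1, 2, 12, 2, 2], [1, 2, 12, 3, 3],
   [1, 2, 12, 4, 4], [1, 2, 12, 5, 5], [1, 2, 12, 6, 6], [1, 3, 4, 1, 8], [1, 3, 4, 3, 10], [1,
   3, 4, 5, 12], [1, 3, 4, 8, 1], [1, 3, 4, 10, 3], [1, 3, 4, 12, 5], [1, 3, 5, 2, 10], [1, 3,
   5, 4, 12], [1, 3, 6, 1, 10], [1, 3, 6, 8, 3], [1, 3, 12, 2, 3], [1, 3, 12, 4, 5], [1, 6, 1,
   1, 8], [1, 6, 1, 3, 10], [1, 6, 2, 8, 2], [1, 6, 2, 9, 3], [1, 6, 2, 12, 6], [1, 6, 3, 1,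
   10], [1, 6, 6, 8, 6], [1, 6, 8, 1, 1], [1, 6, 8, 2, 2], [1, 6, 8, 3, 3], [1, 6, 8, 6, 6],
   [1, 6, 10, 1, 3], [1, 6, 10, 4, 6], [3, 1, 4, 1, 8], [3, 1, 4, 3, 10], [3, 1, 4, 5, 12], [3,
   1, 4, 8, 1], [3, 1, 4, 10, 3], [3, 1, 4, 12, 5], [3, 1, 5, 10, 2], [3, 1, 5, 12, 4], [3, 1,
   6, 3, 8], [3, 1, 6, 10, 1], [3, 1, 12, 3, 2], [3, 1, 12, 5, 4], [3, 3, 4, 1, 10], [3, 3, 4,
   3, 8], [3, 3, 4, 8, 3], [3, 3, 4, 9, 2], [3, 3, 5, 2, 8], [3, 3, 5, 8, 2], [3, 3, 12, 1, 2],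
   [3, 4, 1, 1, 8], [3, 4, 1, 3, 10], [3, 4, 1, 5, 12], [3, 4, 3, 3, 8], [3, 4, 4, 8, 4], [3,
   4, 4, 9, 5], [3, 4, 5, 9, 4], [3, 4, 8, 1, 1], [3, 4, 8, 3, 3], [3, 4, 8, 4, 4], [3, 4, 8,
   5, 5], [3, 4, 9, 3, 2], [3, 4, 9, 5, 4], [3, 5, 1, 2, 10], [3, 5, 1, 4, 12], [3, 5, 1, 10,
   2], [3, 5, 1, 12, 4], [3, 5, 2, 2, 9], [3, 5, 2, 3, 8], [3, 5, 2, 10, 1], [3, 5, 3, 2, 8],
   [3, 5, 4, 1, 12], [3, 5, 4, 8, 5], [3, 5, 4, 9, 4], [3, 5, 5, 8, 4], [3, 5, 8, 2, 3], [3, 5,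
   8, 3, 2], [3, 5, 8, 4, 5], [3, 5, 8, 5, 4], [3, 5, 9, 2, 2], [3, 5, 9, 4, 4], [3, 5, 10, 2,
   1], [3, 5, 12, 1, 4]]

/-- Label vectors up to permutation, set 5. -/
def s5 : List (List ℕ) :=
   [[3, 5, 9]]

/-- Label vectors up to permutation, set 6. -/
def s6 : List (List ℕ) :=
   [[1, 1, 1, 2, 12], [1, 1, 1, 6, 8], [1, 1, 2, 4, 9], [1, 1, 2, 12, 1], [1, 1, 3, 4, 8], [1,
   1, 3, 5, 9], [1, 1, 3, 6, 10], [1, 1, 6, 8, 1], [1, 1, 6, 10, 3], [1, 2, 1, 1, 12], [1, 2,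
   1, 5, 8], [1, 2, 4, 2, 10], [1, 2, 4, 4, 12], [1, 2, 4, 10, 2], [1, 2, 4, 12, 4], [1, 2, 5,
   1, 8], [1, 2, 5, 3, 10], [1, 2, 5, 5, 12], [1, 2, 12, 2, 2], [1, 2, 12, 4, 4], [1, 2, 12, 6,
   6], [1, 2, 12, 12, 12], [1, 3, 1, 4, 8], [1, 3, 1, 5, 9], [1, 3, 1, 6, 10], [1, 3, 4, 8, 1],
   [1, 3, 4, 10, 3], [1, 3, 4, 12, 5], [1, 6, 1, 1, 8], [1, 6, 1, 3, 10], [1, 6, 8, 2, 2], [1,
   6, 8, 6, 6], [1, 6, 8, 8, 8], [1, 6, 8, 10, 10], [3, 1, 1, 4, 8], [3, 1, 3, 6, 8], [3, 1, 4,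
   8, 1], [3, 1, 5, 9, 1], [3, 1, 5, 12, 4], [3, 1, 6, 10, 1], [3, 3, 1, 4, 10], [3, 3, 3, 4,
   8], [3, 3, 3, 5, 9], [3, 3, 4, 8, 3], [3, 3, 5, 8, 2], [3, 3, 5, 9, 3], [3, 3, 5, 12, 6],
   [3, 4, 1, 1, 8], [3, 4, 3, 3, 8], [3, 4, 8, 4, 4], [3, 4, 8, 8, 8], [3, 4, 9, 5, 4], [3, 4,
   9, 9, 8], [3, 5, 1, 1, 9], [3, 5, 1, 4, 12], [3, 5, 2, 2, 9], [3, 5, 3, 2, 8], [3, 5, 3, 3,
   9], [3, 5, 3, 6, 12], [3, 5, 8, 4, 5], [3, 5, 8, 8, 9], [3, 5, 9, 1, 1], [3, 5, 9, 4, 4],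
   [3, 5, 9, 5, 5], [3, 5, 9, 8, 8], [3, 5, 9, 9, 9], [3, 5, 9, 12, 12], [3, 5, 10, 2, 1], [3,
   5, 10, 6, 5], [3, 5, 10, 10, 9]]

/-- Label vectors up to permutation, set 7. -/
def s7 : List (List ℕ) :=
   [[1, 1, 2, 1, 12], [1, 1, 2, 5, 8], [1, 1, 6, 1, 8], [1, 1, 6, 3, 10], [1, 2, 1, 1, 12], [1,
   2, 1, 4, 9], [1, 2, 1, 5, 8], [1, 2, 1, 12, 1], [1, 2, 2, 4, 10], [1, 2, 2, 12, 2], [1, 2,
   4, 1, 9], [1, 2, 4, 4, 12], [1, 2, 4, 9, 1], [1, 2, 4, 12, 4], [1, 2, 5, 1, 8], [1, 2, 5, 3,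
   10], [1, 2, 5, 5, 12], [1, 2, 5, 8, 1], [1, 2, 5, 10, 3], [1, 2, 5, 12, 5], [1, 2, 6, 8, 2],
   [1, 2, 6, 9, 3], [1, 2, 6, 12, 6], [1, 2, 12, 1, 1], [1, 2, 12, 4, 4], [1, 2, 12, 5, 5], [1,
   2, 12, 12, 12], [1, 3, 1, 4, 8], [1, 3, 4, 1, 8], [1, 3, 4, 3, 10], [1, 3, 4, 5, 12], [1, 3,
   5, 2, 10], [1, 3, 5, 4, 12], [1, 3, 6, 1, 10], [1, 6, 1, 1, 8], [1, 6, 1, 3, 10], [1, 6, 1,
   8, 1], [1, 6, 1, 10, 3], [1, 6, 2, 8, 2], [1, 6, 2, 9, 3], [1, 6, 2, 12, 6], [1, 6, 3, 1,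
   10], [1, 6, 3, 8, 3], [1, 6, 6, 8, 6], [1, 6, 8, 1, 1], [1, 6, 8, 2, 2], [1, 6, 8, 3, 3],
   [1, 6, 8, 8, 8], [1, 6, 8, 9, 9], [1, 6, 8, 10, 10], [1, 6, 9, 2, 3], [1, 6, 9, 8, 9], [1,
   6, 10, 1, 3], [1, 6, 10, 8, 10], [3, 1, 4, 1, 8], [3, 1, 4, 3, 10], [3, 1, 4, 5, 12], [3, 1,
   5, 2, 10], [3, 1, 5, 4, 12], [3, 1, 5, 10, 2], [3, 1, 5, 12, 4], [3, 1, 6, 1, 10], [3, 1, 6,
   3, 8], [3, 1, 6, 9, 2], [3, 3, 4, 3, 8], [3, 3, 5, 2, 8], [3, 4, 1, 1, 8], [3, 4, 1, 3, 10],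
   [3, 4, 1, 5, 12], [3, 4, 1, 8, 1], [3, 4, 1, 10, 3], [3, 4, 1, 12, 5], [3, 4, 3, 1, 10], [3,
   4, 3, 3, 8], [3, 4, 3, 8, 3], [3, 4, 3, 9, 2], [3, 4, 4, 8, 4], [3, 4, 4, 9, 5], [3, 4, 5,
   1, 12], [3, 4, 5, 8, 5], [3, 4, 5, 9, 4], [3, 4, 8, 1, 1], [3, 4, 8, 3, 3], [3, 4, 8, 8, 8],
   [3, 4, 8, 9, 9], [3, 4, 9, 2, 3], [3, 4, 9, 3, 2], [3, 4, 9, 8, 9], [3, 4, 9, 9, 8], [3, 5,
   1, 10, 2], [3, 5, 1, 12, 4], [3, 5, 2, 3, 8], [3, 5, 2, 9, 2], [3, 5, 3, 2, 8], [3, 5, 3, 8,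
   2], [3, 5, 4, 9, 4], [3, 5, 5, 8, 4], [3, 5, 8, 3, 2], [3, 5, 8, 9, 8], [3, 5, 9, 2, 2], [3,
   5, 9, 8, 8], [3, 5, 10, 1, 2], [3, 12, 1, 3, 2], [3, 12, 1, 5, 4], [3, 12, 3, 1, 2], [3, 12,
   5, 1, 4]]

/-- Label vectors up to permutation, set 8. -/
def s8 : List (List ℕ) :=
   [[1, 1, 1, 1], [1, 1, 3, 3], [1, 2, 2, 1], [1, 2, 6, 5], [1, 3, 1, 3], [1, 3, 3, 1], [1, 3,
   6, 4], [1, 6, 2, 5], [1, 6, 3, 4], [1, 6, 6, 1], [3, 1, 1, 3], [3, 1, 3, 1], [3, 1, 4, 6],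
   [3, 3, 1, 1], [3, 3, 3, 3], [3, 4, 1, 6], [3, 4, 4, 3], [3, 4, 5, 2], [3, 5, 4, 2], [3, 5,
   5, 3], [3, 5, 10, 12], [3, 5, 12, 10], [3, 12, 5, 10], [3, 12, 12, 3]]

/-- Label vectors up to permutation, set 9. -/
def s9 : List (List ℕ) :=
   [[1, 1, 1, 2, 12], [1, 1, 1, 6, 8], [1, 1, 3, 4, 8], [1, 2, 2, 2, 12], [1, 2, 2, 4, 10], [1,
   2, 2, 6, 8], [1, 2, 2, 12, 2], [1, 2, 6, 2, 8], [1, 2, 6, 8, 2], [1, 3, 1, 4, 8], [1, 3, 3,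
   2, 12], [1, 3, 3, 4, 10], [1, 3, 3, 6, 8], [1, 3, 3, 12, 2], [1, 3, 6, 1, 10], [1, 3, 6, 2,
   9], [1, 3, 6, 3, 8], [1, 3, 6, 8, 3], [1, 3, 6, 9, 2], [1, 3, 6, 10, 1], [1, 6, 2, 2, 8],
   [1, 6, 2, 8, 2], [1, 6, 3, 1, 10], [1, 6, 3, 2, 9], [1, 6, 3, 3, 8], [1, 6, 3, 8, 3], [1, 6,
   3, 9, 2], [1, 6, 3, 10, 1], [1, 6, 6, 2, 12], [1, 6, 6, 6, 8], [1, 6, 6, 8, 6], [1, 6, 6,
   10, 4], [3, 1, 1, 4, 8], [3, 1, 3, 2, 12], [3, 1, 3, 4, 10], [3, 1, 3, 6, 8], [3, 1, 3, 12,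
   2], [3, 1, 4, 1, 8], [3, 1, 4, 8, 1], [3, 3, 1, 2, 12], [3, 3, 1, 4, 10], [3, 3, 1, 6, 8],
   [3, 3, 1, 12, 2], [3, 3, 3, 4, 8], [3, 4, 1, 1, 8], [3, 4, 1, 8, 1], [3, 4, 4, 4, 8], [3, 4,
   4, 8, 4], [3, 4, 5, 1, 12], [3, 4, 5, 4, 9], [3, 4, 5, 5, 8], [3, 4, 5, 8, 5], [3, 4, 5, 9,
   4], [3, 4, 5, 12, 1], [3, 5, 4, 1, 12], [3, 5, 4, 4, 9], [3, 5, 4, 5, 8], [3, 5, 4, 8, 5],
   [3, 5, 4, 9, 4], [3, 5, 4, 12, 1], [3, 5, 5, 4, 8], [3, 5, 5, 8, 4], [3, 5, 10, 1, 2], [3,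
   5, 10, 2, 1], [3, 5, 12, 1, 4], [3, 5, 12, 4, 1], [3, 12, 5, 1, 4], [3, 12, 5, 4, 1], [3,
   12, 12, 4, 8]]

/-- Label vectors up to permutation, set 10. -/
def s10 : List (List ℕ) :=
   [[1, 3, 1, 3], [1, 3, 4, 6], [3, 1, 1, 3], [3, 1, 4, 6]]

/-- Label vectors up to permutation, set 11. -/
def s11 : List (List ℕ) :=
   [[1, 1, 1, 1], [1, 1, 2, 2], [1, 1, 3, 3], [1, 1, 6, 6], [1, 2, 1, 2], [1, 2, 2, 1], [1, 3,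
   1, 3], [1, 3, 3, 1], [1, 3, 4, 6], [1, 3, 6, 4], [3, 1, 1, 3], [3, 1, 3, 1], [3, 1, 4, 6],
   [3, 1, 6, 4], [3, 3, 1, 1], [3, 3, 3, 3], [3, 3, 4, 4], [3, 3, 5, 5], [3, 3, 12, 12], [3, 5,
   2, 4], [3, 5, 3, 5], [3, 5, 4, 2], [3, 5, 5, 3], [3, 5, 10, 12], [3, 5, 12, 10]]

/-- Label vectors up to permutation, set 12. -/
def s12 : List (List ℕ) :=
   [[1, 1, 3, 4, 8], [1, 1, 6, 1, 8], [1, 1, 6, 8, 1], [1, 2, 4, 1, 9], [1, 2, 4, 2, 10], [1,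
   2, 4, 4, 12], [1, 2, 4, 9, 1], [1, 2, 4, 10, 2], [1, 2, 4, 12, 4], [1, 2, 5, 1, 8], [1, 2,
   5, 8, 1], [1, 2, 12, 1, 1], [1, 2, 12, 2, 2], [1, 2, 12, 3, 3], [1, 2, 12, 4, 4], [1, 2, 12,
   5, 5], [1, 2, 12, 6, 6], [1, 2, 12, 12, 12], [1, 3, 1, 4, 8], [1, 3, 4, 1, 8], [1, 3, 4, 8,
   1], [1, 6, 1, 1, 8], [1, 6, 1, 8, 1], [1, 6, 8, 1, 1], [1, 6, 8, 2, 2], [1, 6, 8, 3, 3], [1,
   6, 8, 6, 6], [1, 6, 8, 8, 8], [1, 6, 8, 9, 9], [1, 6, 8, 10, 10], [3, 1, 1, 4, 8], [3, 1, 1,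
   5, 9], [3, 1, 1, 6, 10], [3, 1, 4, 1, 8], [3, 1, 4, 3, 10], [3, 1, 4, 5, 12], [3, 1, 4, 8,
   1], [3, 1, 4, 10, 3], [3, 1, 4, 12, 5], [3, 1, 5, 1, 9], [3, 1, 5, 2, 10], [3, 1, 5, 4, 12],
   [3, 1, 5, 9, 1], [3, 1, 5, 10, 2], [3, 1, 5, 12, 4], [3, 3, 3, 4, 8], [3, 3, 5, 2, 8], [3,
   3, 5, 8, 2], [3, 4, 1, 1, 8], [3, 4, 1, 3, 10], [3, 4, 1, 5, 12], [3, 4, 1, 8, 1], [3, 4, 1,
   10, 3], [3, 4, 1, 12, 5], [3, 4, 8, 1, 1], [3, 4, 8, 3, 3], [3, 4, 8, 4, 4], [3, 4, 8, 5,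
   5], [3, 4, 8, 8, 8], [3, 4, 8, 9, 9], [3, 4, 8, 12, 12], [3, 4, 9, 2, 3], [3, 4, 9, 3, 2],
   [3, 4, 9, 4, 5], [3, 4, 9, 5, 4], [3, 4, 9, 8, 9], [3, 4, 9, 9, 8], [3, 5, 1, 1, 9], [3, 5,
   1, 2, 10], [3, 5, 1, 4, 12], [3, 5, 1, 9, 1], [3, 5, 1, 10, 2], [3, 5, 1, 12, 4], [3, 5, 3,
   2, 8], [3, 5, 3, 8, 2], [3, 5, 8, 2, 3], [3, 5, 8, 3, 2], [3, 5, 8, 4, 5], [3, 5, 8, 5, 4],
   [3, 5, 8, 8, 9], [3, 5, 8, 9, 8], [3, 5, 9, 1, 1], [3, 5, 9, 2, 2], [3, 5, 9, 3, 3], [3, 5,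
   9, 4, 4], [3, 5, 9, 5, 5], [3, 5, 9, 6, 6], [3, 5, 9, 8, 8], [3, 5, 9, 9, 9], [3, 5, 9, 10,
   10], [3, 5, 9, 12, 12], [3, 5, 10, 1, 2], [3, 5, 10, 2, 1]]

/-- Label vectors up to permutation, set 13. -/
def s13 : List (List ℕ) :=
   [[1, 2, 4, 1, 9], [1, 2, 4, 2, 10], [1, 2, 4, 4, 12], [1, 2, 4, 9, 1], [1, 2, 4, 10, 2], [1,
   2, 4, 12, 4], [3, 1, 5, 1, 9], [3, 1, 5, 2, 10], [3, 1, 5, 4, 12], [3, 1, 5, 9, 1], [3, 1,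
   5, 10, 2], [3, 1, 5, 12, 4], [3, 4, 12, 1, 5], [3, 4, 12, 5, 1], [3, 4, 12, 8, 12], [3, 4,
   12, 12, 8], [3, 5, 1, 1, 9], [3, 5, 1, 2, 10], [3, 5, 1, 4, 12], [3, 5, 1, 9, 1], [3, 5, 1,
   10, 2], [3, 5, 1, 12, 4], [3, 12, 4, 1, 5], [3, 12, 4, 5, 1], [3, 12, 4, 8, 12], [3, 12, 4,
   12, 8]]

/-- Label vectors up to permutation, set 14. -/
def s14 : List (List ℕ) :=
   [[1, 2, 1, 5, 8], [1, 2, 2, 6, 8], [1, 2, 4, 9, 1], [1, 2, 4, 10, 2], [1, 2, 5, 1, 8], [1,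
   2, 5, 3, 10], [1, 2, 5, 5, 12], [1, 2, 6, 2, 8], [1, 2, 6, 3, 9], [1, 2, 6, 6, 12], [1, 2,
   12, 1, 1], [1, 2, 12, 2, 2], [1, 2, 12, 3, 3], [1, 2, 12, 4, 4], [1, 2, 12, 5, 5], [1, 2,
   12, 6, 6], [3, 1, 1, 4, 8], [3, 1, 4, 8, 1], [3, 1, 5, 2, 10], [3, 1, 5, 4, 12], [3, 1, 6,
   2, 9], [3, 1, 12, 2, 3], [3, 1, 12, 4, 5], [3, 4, 1, 1, 8], [3, 4, 5, 1, 12], [3, 4, 8, 1,
   1], [3, 4, 12, 1, 5], [3, 5, 1, 10, 2], [3, 5, 1, 12, 4], [3, 5, 2, 10, 1], [3, 5, 4, 12,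
   1], [3, 5, 9, 2, 2], [3, 5, 9, 4, 4], [3, 5, 9, 6, 6], [3, 5, 9, 8, 8], [3, 5, 9, 10, 10],
   [3, 5, 9, 12, 12], [3, 5, 10, 2, 1], [3, 5, 10, 6, 5], [3, 5, 10, 10, 9], [3, 5, 12, 4, 1],
   [3, 5, 12, 6, 3], [3, 5, 12, 12, 9], [3, 12, 1, 3, 2], [3, 12, 1, 5, 4], [3, 12, 4, 5, 1],
   [3, 12, 5, 1, 4], [3, 12, 5, 3, 6], [3, 12, 5, 9, 12], [3, 12, 12, 4, 8], [3, 12, 12, 5, 9]]

/-- Label vectors up to permutation, set 15. -/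
def s15 : List (List ℕ) :=
   [[1, 1, 2, 5, 8], [1, 1, 3, 4, 8], [1, 1, 3, 5, 9], [1, 1, 3, 6, 10], [1, 2, 2, 6, 8], [1,
   2, 4, 9, 1], [1, 2, 4, 10, 2], [1, 2, 4, 12, 4], [1, 2, 5, 8, 1], [1, 2, 5, 10, 3], [1, 2,
   5, 12, 5], [1, 2, 6, 2, 8], [1, 2, 6, 3, 9], [1, 2, 6, 6, 12], [1, 2, 12, 1, 1], [1, 2, 12,
   2, 2], [1, 2, 12, 3, 3], [1, 2, 12, 4, 4], [1, 2, 12, 5, 5], [1, 2, 12, 6, 6], [1, 3, 1, 4,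
   8], [1, 3, 1, 5, 9], [1, 3, 1, 6, 10], [1, 3, 3, 4, 10], [1, 3, 4, 1, 8], [1, 3, 4, 8, 1],
   [1, 3, 5, 1, 9], [1, 3, 5, 2, 10], [1, 6, 1, 8, 1], [1, 6, 1, 10, 3], [1, 6, 2, 2, 8], [1,
   6, 2, 3, 9], [1, 6, 2, 6, 12], [1, 6, 2, 8, 2], [1, 6, 2, 9, 3], [1, 6, 2, 12, 6], [1, 6, 3,
   2, 9], [1, 6, 3, 8, 3], [1, 6, 6, 2, 12], [1, 6, 8, 1, 1], [1, 6, 8, 2, 2], [1, 6, 8, 3, 3],
   [1, 6, 8, 6, 6], [1, 6, 9, 2, 3], [1, 6, 10, 1, 3], [1, 6, 10, 4, 6], [3, 1, 5, 9, 1], [3,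
   1, 5, 10, 2], [3, 1, 5, 12, 4], [3, 1, 6, 9, 2], [3, 1, 12, 3, 2], [3, 1, 12, 5, 4], [3, 3,
   1, 12, 2], [3, 3, 5, 8, 2], [3, 4, 5, 12, 1], [3, 4, 12, 5, 1], [3, 4, 12, 12, 8], [3, 5, 1,
   9, 1], [3, 5, 1, 12, 4], [3, 5, 2, 9, 2], [3, 5, 4, 9, 4], [3, 5, 4, 12, 1], [3, 5, 5, 8,
   4], [3, 5, 8, 3, 2], [3, 5, 8, 5, 4], [3, 5, 9, 1, 1], [3, 5, 9, 4, 4], [3, 5, 10, 1, 2],
   [3, 5, 12, 1, 4], [3, 5, 12, 4, 1], [3, 12, 4, 5, 1], [3, 12, 4, 12, 8], [3, 12, 5, 4, 1],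
   [3, 12, 12, 4, 8]]

/-- Label vectors up to permutation, set 16. -/
def s16 : List (List ℕ) :=
   [[1, 1, 2, 2], [1, 1, 3, 3], [1, 2, 1, 2], [1, 2, 2, 1], [1, 2, 5, 6], [1, 2, 6, 5], [1, 3,
   1, 3], [1, 3, 4, 6], [1, 3, 6, 4], [1, 6, 1, 6], [1, 6, 2, 5], [1, 6, 3, 4], [1, 6, 6, 1],
   [3, 1, 3, 1], [3, 1, 6, 4], [3, 3, 4, 4], [3, 3, 12, 12], [3, 4, 5, 2], [3, 5, 3, 5], [3, 5,
   4, 2], [3, 5, 5, 3], [3, 5, 12, 10], [3, 12, 5, 10], [3, 12, 12, 3]]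

/-- Label vectors up to permutation, set 17. -/
def s17 : List (List ℕ) :=
   [[1, 1, 2, 1, 12], [1, 1, 2, 4, 9], [1, 1, 2, 5, 8], [1, 1, 2, 12, 1], [1, 1, 3, 4, 8], [1,
   1, 6, 1, 8], [1, 1, 6, 8, 1], [1, 2, 1, 1, 12], [1, 2, 1, 4, 9], [1, 2, 1, 5, 8], [1, 2, 1,
   12, 1], [1, 2, 2, 2, 12], [1, 2, 2, 4, 10], [1, 2, 2, 6, 8], [1, 2, 2, 12, 2], [1, 2, 5, 1,
   8], [1, 2, 5, 8, 1], [1, 2, 6, 2, 8], [1, 2, 6, 8, 2], [1, 3, 3, 2, 12], [1, 3, 3, 4, 10],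
   [1, 3, 3, 6, 8], [1, 3, 3, 12, 2], [1, 3, 4, 1, 8], [1, 3, 4, 8, 1], [1, 3, 6, 1, 10], [1,
   3, 6, 2, 9], [1, 3, 6, 3, 8], [1, 3, 6, 8, 3], [1, 3, 6, 9, 2], [1, 3, 6, 10, 1], [1, 6, 1,
   1, 8], [1, 6, 1, 8, 1], [1, 6, 2, 2, 8], [1, 6, 2, 8, 2], [1, 6, 3, 1, 10], [1, 6, 3, 2, 9],
   [1, 6, 3, 3, 8], [1, 6, 3, 8, 3], [1, 6, 3, 9, 2], [1, 6, 3, 10, 1], [3, 3, 1, 2, 12], [3,
   3, 1, 4, 10], [3, 3, 1, 6, 8], [3, 3, 1, 12, 2], [3, 3, 5, 2, 8], [3, 3, 5, 8, 2], [3, 4, 1,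
   1, 8], [3, 4, 1, 8, 1], [3, 4, 4, 4, 8], [3, 4, 4, 8, 4], [3, 5, 2, 1, 10], [3, 5, 2, 2, 9],
   [3, 5, 2, 3, 8], [3, 5, 2, 8, 3], [3, 5, 2, 9, 2], [3, 5, 2, 10, 1], [3, 5, 3, 2, 8], [3, 5,
   3, 8, 2], [3, 5, 4, 1, 12], [3, 5, 4, 4, 9], [3, 5, 4, 5, 8], [3, 5, 4, 8, 5], [3, 5, 4, 9,
   4], [3, 5, 4, 12, 1], [3, 5, 10, 1, 2], [3, 5, 10, 2, 1], [3, 12, 3, 1, 2], [3, 12, 5, 1,
   4], [3, 12, 5, 4, 1], [3, 12, 12, 4, 8]]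

/-- Label vectors up to permutation, set 18. -/
def s18 : List (List ℕ) :=
   [[1, 2, 5, 6], [1, 2, 6, 5]]

/-- Label vectors up to permutation, set 19. -/
def s19 : List (List ℕ) :=
   [[1, 2, 4, 1, 9], [1, 2, 4, 2, 10], [1, 2, 4, 4, 12], [3, 1, 12, 2, 3], [3, 1, 12, 4, 5],
   [3, 4, 9, 2, 3], [3, 4, 9, 4, 5], [3, 4, 9, 8, 9], [3, 5, 8, 2, 3], [3, 5, 8, 4, 5], [3, 5,
   8, 8, 9], [3, 12, 1, 2, 3], [3, 12, 1, 4, 5]]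

/-- Label vectors up to permutation, set 20. -/
def s20 : List (List ℕ) :=
   [[1, 1, 3, 4, 8], [1, 1, 3, 5, 9], [1, 1, 3, 6, 10], [1, 2, 6, 2, 8], [1, 2, 6, 3, 9], [1,
   2, 6, 6, 12], [1, 2, 6, 8, 2], [1, 2, 6, 9, 3], [1, 2, 6, 12, 6], [3, 1, 3, 2, 12], [3, 1,
   3, 4, 10], [3, 1, 3, 6, 8], [3, 1, 3, 12, 2], [3, 4, 5, 1, 12], [3, 4, 5, 4, 9], [3, 4, 5,
   5, 8], [3, 4, 5, 8, 5], [3, 4, 5, 9, 4], [3, 4, 5, 12, 1]]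

theorem c0 : chk s0 s0 [(0, 0)] [1, 2]
    [1, 2] s1 = true := by decide +kernel

theorem c1 : chk s1 s0 [(0, 0)] [1, 2, 3]
    [1, 2] s2 = true := by decide +kernel

theorem c2 : chk s2 s1 [(1, 0), (3, 2)] [0, 2, 4]
    [1, 3] s3 = true := by decide +kernel

theorem c3 : chk s3 s1 [(2, 2), (3, 0)] [0, 1, 4]
    [1, 3] s4 = true := by decide +kernel

theorem c4 : chk s4 s1 [(1, 2), (2, 0), (4, 3)] [0, 3]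
    [1] s5 = true := by decide +kernel

theorem c5 : chk s2 s1 [(1, 2), (3, 0)] [0, 2, 4]
    [1, 3] s6 = true := by decide +kernel

theorem c6 : chk s6 s1 [(0, 2), (3, 0)] [1, 2, 4]
    [1, 3] s7 = true := by decide +kernel

theorem c7 : chk s7 s0 [(0, 1), (3, 0)] [1, 2, 4]
    [2] s8 = true := by decide +kernel

theorem c8 : chk s8 s0 [(3, 0)] [0, 1, 2]
    [1, 2] s9 = true := by decide +kernel

theorem c9 : chk s9 s5 [(0, 0), (3, 1)] [1, 2, 4]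
    [2] s10 = true := by decide +kernel

theorem c10 : chk s9 s0 [(0, 1), (3, 0)] [1, 2, 4]
    [2] s11 = true := by decide +kernel

theorem c11 : chk s2 s11 [(2, 1), (4, 0)] [0, 1, 3]
    [2, 3] s12 = true := by decide +kernel

theorem c12 : chk s12 s10 [(1, 2), (2, 3)] [0, 3, 4]
    [0, 1] s13 = true := by decide +kernel

theorem c13 : chk s13 s1 [(1, 1), (3, 3)] [0, 2, 4]
    [0, 2] s14 = true := by decide +kernel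

theorem c14 : chk s14 s1 [(0, 3), (4, 0)] [1, 2, 3]
    [1, 2] s15 = true := by decide +kernel

theorem c15 : chk s15 s0 [(2, 0), (4, 1)] [0, 1, 3]
    [2] s16 = true := by decide +kernel

theorem c16 : chk s16 s0 [(1, 1)] [0, 2, 3]
    [0, 2] s17 = true := by decide +kernel

theorem c17 : chk s0 s5 [(0, 1)] [1, 2]
    [0, 2] s18 = true := by decide +kernel

theorem c18 : chk s9 s18 [(1, 1), (2, 3)] [0, 3, 4]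
    [0, 2] s19 = true := by decide +kernel

theorem c19 : chk s19 s1 [(1, 3), (2, 1)] [0, 3, 4]
    [0, 2] s20 = true := by decide +kernel

theorem c20 : chk s17 s20 [(0, 2), (1, 1), (2, 4), (3, 3), (4, 0)] []
    [] [] = true := by decide +kernel

theorem leaf (v : ℕ) (hv : v < 58) : Snd inc 58 (inc v) s0 := snd_leaf v hv

theorem t0 : Snd inc 58 [16, 87, 15, 47] s1 :=
  step (leaf 0 (by decide)) (leaf 1 (by decide)) c0 (by decide +kernel)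

theorem t1 : Snd inc 58 [6, 8, 5, 11] s1 :=
  step (leaf 2 (by decide)) (leaf 3 (by decide)) c0 (by decide +kernel)

theorem t2 : Snd inc 58 [4, 49, 6, 12] s1 :=
  step (leaf 4 (by decide)) (leaf 5 (by decide)) c0 (by decide +kernel)

theorem t3 : Snd inc 58 [49, 6, 12, 5, 9] s2 :=
  step t2 (leaf 6 (by decide)) c1 (by decide +kernel)

theorem t4 : Snd inc 58 [49, 12, 9, 8, 11] s3 :=
  step t3 t1 c2 (by decide +kernel)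

theorem t5 : Snd inc 58 [8, 48, 9, 13] s1 :=
  step (leaf 7 (by decide)) (leaf 8 (by decide)) c0 (by decide +kernel)

theorem t6 : Snd inc 58 [49, 12, 11, 48, 13] s4 :=
  step t4 t5 c3 (by decide +kernel)

theorem t7 : Snd inc 58 [11, 68, 12, 13] s1 :=
  step (leaf 9 (by decide)) (leaf 10 (by decide)) c0 (by decide +kernel)

theorem t8 : Snd inc 58 [49, 48, 68] s5 :=
  step t6 t7 c4 (by decide +kernel)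

theorem t9 : Snd inc 58 [41, 43, 42, 46] s1 :=
  step (leaf 29 (by decide)) (leaf 30 (by decide)) c0 (by decide +kernel)

theorem t10 : Snd inc 58 [39, 41, 40, 47] s1 :=
  step (leaf 31 (by decide)) (leaf 32 (by decide)) c0 (by decide +kernel)

theorem t11 : Snd inc 58 [38, 42, 40, 44] s1 :=
  step (leaf 34 (by decide)) (leaf 35 (by decide)) c0 (by decide +kernel)

theorem t12 : Snd inc 58 [42, 40, 44, 39, 49] s2 :=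
  step t11 (leaf 33 (by decide)) c1 (by decide +kernel)

theorem t13 : Snd inc 58 [42, 44, 49, 41, 47] s6 :=
  step t12 t10 c5 (by decide +kernel)

theorem t14 : Snd inc 58 [44, 49, 47, 43, 46] s7 :=
  step t13 t9 c6 (by decide +kernel)

theorem t15 : Snd inc 58 [49, 47, 46, 45] s8 :=
  step t14 (leaf 28 (by decide)) c7 (by decide +kernel)

theorem t16 : Snd inc 58 [49, 47, 46, 48, 70] s9 :=
  step t15 (leaf 27 (by decide)) c8 (by decide +kernel)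

theorem t17 : Snd inc 58 [47, 46, 70, 68] s10 :=
  step t16 t8 c9 (by decide +kernel)

theorem t18 : Snd inc 58 [77, 79, 78, 84] s1 :=
  step (leaf 51 (by decide)) (leaf 52 (by decide)) c0 (by decide +kernel)

theorem t19 : Snd inc 58 [75, 77, 76, 85] s1 :=
  step (leaf 53 (by decide)) (leaf 54 (by decide)) c0 (by decide +kernel)

theorem t20 : Snd inc 58 [74, 78, 76, 80] s1 :=
  step (leaf 56 (by decide)) (leaf 57 (by decide)) c0 (by decide +kernel)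

theorem t21 : Snd inc 58 [78, 76, 80, 75, 83] s2 :=
  step t20 (leaf 55 (by decide)) c1 (by decide +kernel)

theorem t22 : Snd inc 58 [78, 80, 83, 77, 85] s6 :=
  step t21 t19 c5 (by decide +kernel)

theorem t23 : Snd inc 58 [80, 83, 85, 79, 84] s7 :=
  step t22 t18 c6 (by decide +kernel)

theorem t24 : Snd inc 58 [83, 85, 84, 81] s8 :=
  step t23 (leaf 50 (by decide)) c7 (by decide +kernel)

theorem t25 : Snd inc 58 [83, 85, 84, 82, 87] s9 :=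
  step t24 (leaf 49 (by decide)) c8 (by decide +kernel)

theorem t26 : Snd inc 58 [85, 84, 87, 86] s11 :=
  step t25 (leaf 48 (by decide)) c10 (by decide +kernel)

theorem t27 : Snd inc 58 [67, 69, 70, 84] s1 :=
  step (leaf 46 (by decide)) (leaf 47 (by decide)) c0 (by decide +kernel)

theorem t28 : Snd inc 58 [69, 70, 84, 68, 85] s2 :=
  step t27 (leaf 45 (by decide)) c1 (by decide +kernel)

theorem t29 : Snd inc 58 [69, 70, 68, 87, 86] s12 :=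
  step t28 t26 c11 (by decide +kernel)

theorem t30 : Snd inc 58 [69, 87, 86, 47, 46] s13 :=
  step t29 t17 c12 (by decide +kernel)

theorem t31 : Snd inc 58 [69, 86, 46, 16, 15] s14 :=
  step t30 t0 c13 (by decide +kernel)

theorem t32 : Snd inc 58 [15, 31, 17, 69] s1 :=
  step (leaf 11 (by decide)) (leaf 12 (by decide)) c0 (by decide +kernel)

theorem t33 : Snd inc 58 [86, 46, 16, 31, 17] s15 :=
  step t31 t32 c14 (by decide +kernel)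

theorem t34 : Snd inc 58 [86, 46, 31, 34] s16 :=
  step t33 (leaf 13 (by decide)) c15 (by decide +kernel)

theorem t35 : Snd inc 58 [86, 31, 34, 33, 65] s17 :=
  step t34 (leaf 14 (by decide)) c16 (by decide +kernel)

theorem t36 : Snd inc 58 [22, 24, 21, 27] s1 :=
  step (leaf 15 (by decide)) (leaf 16 (by decide)) c0 (by decide +kernel)

theorem t37 : Snd inc 58 [20, 86, 22, 28] s1 :=
  step (leaf 17 (by decide)) (leaf 18 (by decide)) c0 (by decide +kernel)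

theorem t38 : Snd inc 58 [86, 22, 28, 21, 25] s2 :=
  step t37 (leaf 19 (by decide)) c1 (by decide +kernel)

theorem t39 : Snd inc 58 [86, 28, 25, 24, 27] s3 :=
  step t38 t36 c2 (by decide +kernel)

theorem t40 : Snd inc 58 [24, 30, 25, 29] s1 :=
  step (leaf 20 (by decide)) (leaf 21 (by decide)) c0 (by decide +kernel)

theorem t41 : Snd inc 58 [86, 28, 27, 30, 29] s4 :=
  step t39 t40 c3 (by decide +kernel)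

theorem t42 : Snd inc 58 [27, 61, 28, 29] s1 :=
  step (leaf 22 (by decide)) (leaf 23 (by decide)) c0 (by decide +kernel)

theorem t43 : Snd inc 58 [86, 30, 61] s5 :=
  step t41 t42 c4 (by decide +kernel)

theorem t44 : Snd inc 58 [31, 62, 86, 61] s18 :=
  step (leaf 24 (by decide)) t43 c17 (by decide +kernel)

theorem t45 : Snd inc 58 [56, 58, 57, 61] s1 :=
  step (leaf 38 (by decide)) (leaf 39 (by decide)) c0 (by decide +kernel)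

theorem t46 : Snd inc 58 [54, 56, 55, 62] s1 :=
  step (leaf 40 (by decide)) (leaf 41 (by decide)) c0 (by decide +kernel)

theorem t47 : Snd inc 58 [53, 57, 55, 59] s1 :=
  step (leaf 43 (by decide)) (leaf 44 (by decide)) c0 (by decide +kernel)

theorem t48 : Snd inc 58 [57, 55, 59, 54, 65] s2 :=
  step t47 (leaf 42 (by decide)) c1 (by decide +kernel)

theorem t49 : Snd inc 58 [57, 59, 65, 56, 62] s6 :=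
  step t48 t46 c5 (by decide +kernel)

theorem t50 : Snd inc 58 [59, 65, 62, 58, 61] s7 :=
  step t49 t45 c6 (by decide +kernel)

theorem t51 : Snd inc 58 [65, 62, 61, 60] s8 :=
  step t50 (leaf 37 (by decide)) c7 (by decide +kernel)

theorem t52 : Snd inc 58 [65, 62, 61, 63, 64] s9 :=
  step t51 (leaf 36 (by decide)) c8 (by decide +kernel)

theorem t53 : Snd inc 58 [65, 63, 64, 31, 86] s19 :=
  step t52 t44 c18 (by decide +kernel)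

theorem t54 : Snd inc 58 [33, 64, 34, 63] s1 :=
  step (leaf 25 (by decide)) (leaf 26 (by decide)) c0 (by decide +kernel)

theorem t55 : Snd inc 58 [65, 31, 86, 33, 34] s20 :=
  step t53 t54 c19 (by decide +kernel)

theorem t56 : Snd inc 58 [] [] :=
  step t35 t55 c20 (by decide +kernel)

/-- There is no labelling. -/
theorem no_labelling (g : ℕ → ℕ) : ¬ Col inc 58 g := no_col t56 g

end Pool.Agent.X273.PM58
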