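import Mathlib

/-!
# Gluing of label sets for coverings by four perfect matchings

An edge that lies in the matchings `M_i`, `i ∈ S`, gets the label `∑_{i ∈ S} 2^i`.  `Snd F S`
says that, up to a permutation of the four matchings, every label vector occurring on the edges `F`
is in the list `S`; `step` glues two such lists.
-/

namespace Pool.Agent.X273.PMGlue

/-- The 24 permutations of four matchings, acting on labels `0, ..., 15`. -/
def perms : List (List ℕ) :=
  [[0, 1, 2, 3, 4, 5, 6, 7, 8, 9, 10, 11, 12, 13, 14, 15],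
   [0, 1, 2, 3, 8, 9, 10, 11, 4, 5, 6, 7, 12, 13, 14, 15],
   [0, 1, 4, 5, 2, 3, 6, 7, 8, 9, 12, 13, 10, 11, 14, 15],
   [0, 1, 4, 5, 8, 9, 12, 13, 2, 3, 6, 7, 10, 11, 14, 15],
   [0, 1, 8, 9, 2, 3, 10, 11, 4, 5, 12, 13, 6, 7, 14, 15],
   [0, 1, 8, 9, 4, 5, 12, 13, 2, 3, 10, 11, 6, 7, 14, 15],
   [0, 2, 1, 3, 4, 6, 5, 7, 8, 10, 9, 11, 12, 14, 13, 15],
   [0, 2, 1, 3, 8, 10, 9, 11, 4, 6, 5, 7, 12, 14, 13, 15],
   [0, 2, 4, 6, 1, 3, 5, 7, 8, 10, 12, 14, 9, 11, 13, 15],
   [0, 2, 4, 6, 8, 10, 12, 14, 1, 3, 5, 7, 9, 11, 13, 15],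
   [0, 2, 8, 10, 1, 3, 9, 11, 4, 6, 12, 14, 5, 7, 13, 15],
   [0, 2, 8, 10, 4, 6, 12, 14, 1, 3, 9, 11, 5, 7, 13, 15],
   [0, 4, 1, 5, 2, 6, 3, 7, 8, 12, 9, 13, 10, 14, 11, 15],
   [0, 4, 1, 5, 8, 12, 9, 13, 2, 6, 3, 7, 10, 14, 11, 15],
   [0, 4, 2, 6, 1, 5, 3, 7, 8, 12, 10, 14, 9, 13, 11, 15],
   [0, 4, 2, 6, 8, 12, 10, 14, 1, 5, 3, 7, 9, 13, 11, 15],
   [0, 4, 8, 12, 1, 5, 9, 13, 2, 6, 10, 14, 3, 7, 11, 15],
   [0, 4, 8, 12, 2, 6, 10, 14, 1, 5, 9, 13, 3, 7, 11, 15],
   [0, 8, 1, 9, 2, 10, 3, 11, 4, 12, 5, 13, 6, 14, 7, 15],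
   [0, 8, 1, 9, 4, 12, 5, 13, 2, 10, 3, 11, 6, 14, 7, 15],
   [0, 8, 2, 10, 1, 9, 3, 11, 4, 12, 6, 14, 5, 13, 7, 15],
   [0, 8, 2, 10, 4, 12, 6, 14, 1, 9, 3, 11, 5, 13, 7, 15],
   [0, 8, 4, 12, 1, 9, 5, 13, 2, 10, 6, 14, 3, 11, 7, 15],
   [0, 8, 4, 12, 2, 10, 6, 14, 1, 9, 5, 13, 3, 11, 7, 15]]

/-- Action of a permutation on labels. -/
def act (p : List ℕ) (x : ℕ) : ℕ := p.getD x 0

/-- The label triples allowed at a vertex: partitions of the four matchings in three parts. -/
def tri : List (List ℕ) :=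
  [[1, 2, 12], [1, 4, 10], [1, 8, 6], [1, 6, 8], [1, 10, 4], [1, 12, 2],
   [2, 1, 12], [2, 4, 9], [2, 8, 5], [2, 5, 8], [2, 9, 4], [2, 12, 1],
   [4, 1, 10], [4, 2, 9], [4, 8, 3], [4, 3, 8], [4, 9, 2], [4, 10, 1],
   [8, 1, 6], [8, 2, 5], [8, 4, 3], [8, 3, 4], [8, 5, 2], [8, 6, 1],
   [3, 4, 8], [3, 8, 4], [5, 2, 8], [5, 8, 2], [6, 1, 8], [6, 8, 1],
   [9, 2, 4], [9, 4, 2], [10, 1, 4], [10, 4, 1], [12, 1, 2], [12, 2, 1]]

theorem act_zero : ∀ p ∈ perms, act p 0 = 0 := by decide +kernel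

theorem act_lt : ∀ p ∈ perms, ∀ x < 16, act p x < 16 := by decide +kernel

theorem tri_act : ∀ p ∈ perms, ∀ t ∈ tri, t.map (act p) ∈ tri := by decide +kernel

theorem one_mem : ∃ p ∈ perms, ∀ x < 16, act p x = x := by decide +kernel

theorem comp_mem : (perms.all fun c => perms.all fun p => perms.contains (p.map (act c))) = true := by
  decide +kernel

theorem len16 : ∀ p ∈ perms, p.length = 16 := by decide +kernel

theorem comp (c : List ℕ) (hc : c ∈ perms) (p : List ℕ) (hp : p ∈ perms) :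
    ∃ q ∈ perms, ∀ x < 16, act q x = act c (act p x) := by
  have h := comp_mem
  rw [List.all_eq_true] at h
  have h1 := h c hc
  rw [List.all_eq_true] at h1
  have h2 := h1 p hp
  rw [List.contains_iff_mem] at h2
  refine ⟨_, h2, fun x hx => ?_⟩
  have hl : x < p.length := by rw [len16 p hp]; exact hx
  unfold act
  rw [List.getD_eq_getElem _ _ (by rw [List.length_map]; exact hl), List.getElem_map,
    ← List.getD_eq_getElem p 0 hl]

theorem inverse : ∀ r ∈ perms, ∃ q ∈ perms, ∀ x < 16, act q (act r x) = x := by decide +kernel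

theorem quot (p : List ℕ) (hp : p ∈ perms) (r : List ℕ) (hr : r ∈ perms) :
    ∃ q ∈ perms, ∀ x < 16, act q (act r x) = act p x := by
  obtain ⟨i, hi, hi1⟩ := inverse r hr
  obtain ⟨q, hq, hq1⟩ := comp p hp i hi
  refine ⟨q, hq, fun x hx => ?_⟩
  rw [hq1 _ (act_lt r hr x hx), hi1 x hx]

/-- Number coding a label vector. -/
def code (s : List ℕ) : ℕ := s.foldl (fun a x => a * 16 + x) 1

/-- The image of `s` under `p` if its code is smaller than that of `b`, and `b` otherwise. -/
def better (s : List ℕ) (b : List ℕ) (p : List ℕ) : List ℕ :=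
  if Nat.blt (code (s.map (act p))) (code b) then s.map (act p) else b

/-- A representative of the orbit of a label vector. -/
def canon (s : List ℕ) : List ℕ := perms.foldl (better s) s

theorem canon_spec (s : List ℕ) (hs : ∀ x ∈ s, x < 16) :
    ∃ p ∈ perms, canon s = s.map (act p) := by
  have h : ∀ (l : List (List ℕ)), (∀ p ∈ l, p ∈ perms) → ∀ b : List ℕ,
      (∃ p ∈ perms, b = s.map (act p)) → ∃ p ∈ perms, l.foldl (better s) b = s.map (act p) := by
    intro l
    induction l with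
    | nil => intro _ b hb; simpa using hb
    | cons q l ih =>
      intro hl b hb
      rw [List.foldl_cons]
      refine ih (fun p hp => hl p (List.mem_cons_of_mem _ hp)) _ ?_
      unfold better
      split_ifs
      · exact ⟨q, hl q List.mem_cons_self, rfl⟩
      · exact hb
  refine h perms (fun p hp => hp) s ?_
  obtain ⟨p, hp, h1⟩ := one_mem
  refine ⟨p, hp, ?_⟩
  conv_lhs => rw [← List.map_id s]
  refine List.map_congr_left fun x hx => ?_
  rw [h1 x (hs x hx)]; rfl

/-- Positions of the common edges. -/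
def common (F E : List ℕ) : List (ℕ × ℕ) :=
  (List.range F.length).flatMap fun i =>
    ((List.range E.length).filter fun j => Nat.beq (F.getD i 0) (E.getD j 0)).map fun j => (i, j)

/-- Positions of the edges of `F` that are not in `E`. -/
def keep (F E : List ℕ) : List ℕ :=
  (List.range F.length).filter fun i => !(E.contains (F.getD i 0))

/-- Entries at given positions. -/
def pick (s : List ℕ) (l : List ℕ) : List ℕ := l.map fun i => s.getD i 0

/-- Agreement on the common edges. -/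
def agree (s t : List ℕ) (c : List (ℕ × ℕ)) : Bool :=
  c.all fun ij => Nat.beq (s.getD ij.1 0) (t.getD ij.2 0)

/-- A labelling of the edges coming from a covering by four perfect matchings. -/
structure Col (inc : ℕ → List ℕ) (n : ℕ) (g : ℕ → ℕ) : Prop where
  zero : g 0 = 0
  lt : ∀ e, g e < 16
  vert : ∀ v < n, (inc v).map g ∈ tri

/-- Up to a permutation of the matchings, every label vector on the edges `F` is in `S`. -/
def Snd (inc : ℕ → List ℕ) (n : ℕ) (F : List ℕ) (S : List (List ℕ)) : Prop :=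
  ∀ g, Col inc n g → ∃ p ∈ perms, F.map (fun e => act p (g e)) ∈ S

/-- The check of one gluing: `c` the pairs of positions of common edges, `k`, `l` the positions of
the other edges. -/
def chk (S R : List (List ℕ)) (c : List (ℕ × ℕ)) (k l : List ℕ) (S' : List (List ℕ)) : Bool :=
  R.all fun t => perms.all fun p => S.all fun s =>
    !(agree s (t.map (act p)) c) || S'.contains (canon (pick s k ++ pick (t.map (act p)) l))

theorem getD_map' {g : ℕ → ℕ} (hg : g 0 = 0) (l : List ℕ) (i : ℕ) :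
    (l.map g).getD i 0 = g (l.getD i 0) := by
  rw [← hg]
  conv_lhs => rw [hg]
  rw [List.getD_eq_getElem?_getD, List.getD_eq_getElem?_getD, List.getElem?_map]
  cases l[i]? <;> simp [hg]

theorem Col.act {inc : ℕ → List ℕ} {n : ℕ} {g : ℕ → ℕ} (h : Col inc n g) {p : List ℕ}
    (hp : p ∈ perms) : Col inc n (fun e => act p (g e)) where
  zero := by rw [h.zero]; exact act_zero p hp
  lt e := act_lt p hp _ (h.lt e)
  vert v hv := by
    have := tri_act p hp _ (h.vert v hv)
    rwa [List.map_map] at this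

theorem tri_canon : ∀ t ∈ tri, canon t ∈ [[1, 2, 12], [1, 6, 8], [3, 4, 8]] := by decide +kernel

theorem snd_leaf {inc : ℕ → List ℕ} {n : ℕ} (v : ℕ) (hv : v < n) :
    Snd inc n (inc v) [[1, 2, 12], [1, 6, 8], [3, 4, 8]] := by
  intro g hg
  obtain ⟨p, hp, hc⟩ := canon_spec ((inc v).map g) (by
    intro x hx
    obtain ⟨e, _, rfl⟩ := List.mem_map.1 hx
    exact hg.lt e)
  refine ⟨p, hp, ?_⟩
  have h2 : (inc v).map (fun e => PMGlue.act p (g e)) = canon ((inc v).map g) := by
    rw [hc, List.map_map]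
    exact List.map_congr_left fun e _ => rfl
  rw [h2]
  exact tri_canon _ (hg.vert v hv)

theorem step {inc : ℕ → List ℕ} {n : ℕ} {F E : List ℕ} {S R S' : List (List ℕ)}
    {c : List (ℕ × ℕ)} {k l : List ℕ} {F' : List ℕ} (hF : Snd inc n F S) (hE : Snd inc n E R)
    (hc : chk S R c k l S' = true)
    (h : common F E = c ∧ keep F E = k ∧ keep E F = l ∧ pick F k ++ pick E l = F') :
    Snd inc n F' S' := by
  obtain ⟨rfl, rfl, rfl, rfl⟩ := h
  intro g hg
  obtain ⟨p, hp, hl⟩ := hF g hg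
  obtain ⟨q, hq, hr⟩ := hE g hg
  -- the colouring that is aligned with the left part
  set g1 : ℕ → ℕ := fun e => PMGlue.act p (g e) with hg1
  have hc1 : Col inc n g1 := hg.act hp
  obtain ⟨u, hu, hu1⟩ := quot p hp q hq
  have ht : (E.map fun e => PMGlue.act q (g e)).map (PMGlue.act u) = E.map g1 := by
    rw [List.map_map]
    exact List.map_congr_left fun e _ => hu1 _ (hg.lt e)
  have hag : agree (F.map g1) (E.map g1) (common F E) = true := by
    unfold agree
    rw [List.all_eq_true]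
    rintro ⟨i, j⟩ hij
    unfold common at hij
    rw [List.mem_flatMap] at hij
    obtain ⟨i', _, hij⟩ := hij
    rw [List.mem_map] at hij
    obtain ⟨j', hj', hij⟩ := hij
    rw [List.mem_filter] at hj'
    obtain ⟨rfl, rfl⟩ := Prod.mk.inj hij
    have h2 := Nat.eq_of_beq_eq_true hj'.2
    simp only [getD_map' hc1.zero, h2]
    exact Nat.beq_refl _
  have hpick : ∀ (L k : List ℕ), pick (L.map g1) k = (pick L k).map g1 := by
    intro L k
    unfold pick
    rw [List.map_map]
    refine List.map_congr_left fun i _ => ?_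
    exact getD_map' hc1.zero L i
  unfold chk at hc
  rw [List.all_eq_true] at hc
  have h1 := hc _ hr
  rw [List.all_eq_true] at h1
  have h2 := h1 u hu
  rw [List.all_eq_true] at h2
  have h3 := h2 _ hl
  rw [ht, hag, hpick, hpick, ← List.map_append] at h3
  simp only [Bool.not_true, Bool.false_or, List.contains_iff_mem] at h3
  obtain ⟨w, hw, hwc⟩ := canon_spec
    ((pick F (keep F E) ++ pick E (keep E F)).map g1) (by
      intro x hx
      obtain ⟨e, _, rfl⟩ := List.mem_map.1 hx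
      exact hc1.lt e)
  obtain ⟨z, hz, hz1⟩ := comp w hw p hp
  refine ⟨z, hz, ?_⟩
  have h4 : (pick F (keep F E) ++ pick E (keep E F)).map (fun e => PMGlue.act z (g e)) =
      canon ((pick F (keep F E) ++ pick E (keep E F)).map g1) := by
    rw [hwc, List.map_map]
    refine List.map_congr_left fun e _ => ?_
    exact hz1 _ (hg.lt e)
  rw [h4]
  exact h3

/-- If nothing is left, there is no covering. -/
theorem no_col {inc : ℕ → List ℕ} {n : ℕ} {F : List ℕ} (h : Snd inc n F []) (g : ℕ → ℕ) :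
    ¬ Col inc n g := by
  intro hg
  obtain ⟨p, _, hp⟩ := h g hg
  exact absurd hp List.not_mem_nil

end Pool.Agent.X273.PMGlue
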