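import Mathlib

/-!
# Completely multiplicative sign functions in windows of the length of Legendre's intervals

`f` is completely multiplicative with values `1`, `-1` on the positive integers.  If `f = 1` on
`(N, N + s + 1]` with `4 N ≤ s ^ 2` then `f t = f (t + 1)` unless `(N / t + 1) (t + 1) > N + s + 1`.
-/

namespace Pool.Agent.X273.Run

/-- values of `f` on positive integers are multiplicative signs -/
structure SignFun (f : ℕ → ℤ) : Prop where
  mul : ∀ a b, 0 < a → 0 < b → f (a * b) = f a * f b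
  val : ∀ a, 0 < a → f a = 1 ∨ f a = -1

variable {f : ℕ → ℤ}

lemma SignFun.sq (hf : SignFun f) {a : ℕ} (ha : 0 < a) : f a * f a = 1 := by
  rcases hf.val a ha with h | h <;> rw [h] <;> norm_num

lemma SignFun.square (hf : SignFun f) {a : ℕ} (ha : 0 < a) : f (a ^ 2) = 1 := by
  rw [pow_two, hf.mul a a ha ha, hf.sq ha]

lemma SignFun.mul_square (hf : SignFun f) {q a : ℕ} (hq : 0 < q) (ha : 0 < a) :
    f (q * a ^ 2) = f q := by
  rw [hf.mul q (a ^ 2) hq (by positivity), hf.square ha, mul_one]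

/-- the links -/
lemma link (hf : SignFun f) {N s : ℕ} (hI : ∀ x, N < x → x ≤ N + s + 1 → f x = 1)
    {t d : ℕ} (ht : 0 < t) (hd : 0 < d) (h1 : N < d * t) (h2 : d * (t + 1) ≤ N + s + 1) :
    f t = f (t + 1) := by
  have e1 : f (d * t) = 1 := hI _ h1 (by nlinarith)
  have e2 : f (d * (t + 1)) = 1 := hI _ (by nlinarith) h2
  rw [hf.mul d t hd ht] at e1
  rw [hf.mul d (t + 1) hd (by omega)] at e2
  rcases hf.val d hd with h | h <;> rw [h] at e1 e2 <;> linarith

lemma lt_succ_div {N t : ℕ} (ht : 0 < t) : N < (N / t + 1) * t := by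
  have h1 := Nat.div_add_mod N t
  have h2 := Nat.mod_lt N ht
  nlinarith

lemma div_mul {N t : ℕ} : N / t * t ≤ N := Nat.div_mul_le_self N t

lemma link' (hf : SignFun f) {N s : ℕ} (hI : ∀ x, N < x → x ≤ N + s + 1 → f x = 1)
    {t : ℕ} (ht : 0 < t) (h2 : (N / t + 1) * (t + 1) ≤ N + s + 1) :
    f t = f (t + 1) :=
  link hf hI ht (Nat.succ_pos _) (lt_succ_div ht) h2

/-- a function which does not change from `x` to `x + 1` is constant -/
lemma const_of_links {a b : ℕ} (h : ∀ x, a ≤ x → x < b → f x = f (x + 1)) :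
    ∀ x, a ≤ x → x ≤ b → f x = f a := by
  intro x hx
  induction x, hx using Nat.le_induction with
  | base => intro _; rfl
  | succ n hn ih =>
    intro hb
    rw [← h n hn (by omega)]
    exact ih (by omega)

/-- a block from `A` to `A + D + 1` without a level contains `q k²` and a square -/
lemma block {q A D : ℕ} (hq : 2 ≤ q) (hA : 1 ≤ A) (hs : q + 1 ≤ 2 * A + D)
    (h3 : 4 * (q : ℤ) * A ≤ (D : ℤ) ^ 2 - (2 * q - 4) * D + q ^ 2 + 4) :
    (∃ k, 0 < k ∧ A ≤ q * k ^ 2 ∧ q * k ^ 2 ≤ A + D + 1) ∧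
    (∃ l, 0 < l ∧ A ≤ l ^ 2 ∧ l ^ 2 ≤ A + D + 1) := by
  have hDq : (q : ℤ) - 2 ≤ D := by
    by_contra hc
    push Not at hc
    set y : ℤ := q - D with hy
    have hy3 : 3 ≤ y := by omega
    have hyq : y ≤ q := by omega
    have hD : (D : ℤ) = q - y := by omega
    have h1 : 2 * (q : ℤ) * (y + 1) ≤ 4 * q * A := by
      have : y + 1 ≤ 2 * (A : ℤ) := by
        have : (q : ℤ) + 1 ≤ 2 * A + D := by exact_mod_cast hs
        omega
      nlinarith
    rw [hD] at h3
    nlinarith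
  constructor
  · have hex : ∃ k, A ≤ q * k ^ 2 := ⟨A, by nlinarith⟩
    classical
    set k := Nat.find hex with hk
    have hk1 : A ≤ q * k ^ 2 := Nat.find_spec hex
    have hk0 : 0 < k := by
      rcases Nat.eq_zero_or_pos k with h | h
      · rw [h] at hk1; simp at hk1; omega
      · exact h
    refine ⟨k, hk0, hk1, ?_⟩
    by_contra hc
    push Not at hc
    obtain ⟨j, hj⟩ : ∃ j, k = j + 1 := ⟨k - 1, by omega⟩
    have hj1 : ¬ A ≤ q * j ^ 2 := Nat.find_min hex (by omega)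
    push Not at hj1
    rw [hj] at hc
    have e1 : (q : ℤ) * j ^ 2 ≤ A - 1 := by
      have : ((q * j ^ 2 : ℕ) : ℤ) < A := by exact_mod_cast hj1
      push_cast at this
      linarith
    have e2 : (A : ℤ) + D + 2 ≤ q * (j + 1) ^ 2 := by
      have : ((A + D + 1 : ℕ) : ℤ) < ((q * (j + 1) ^ 2 : ℕ) : ℤ) := by exact_mod_cast hc
      push_cast at this
      linarith
    have e3 : (2 * q * j : ℤ) ^ 2 ≤ (D - q + 2) ^ 2 := by
      have : (2 * q * j : ℤ) ^ 2 = 4 * q * (q * j ^ 2) := by ring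
      rw [this]
      have h4 : 4 * (q : ℤ) * (q * j ^ 2) ≤ 4 * q * (A - 1) :=
        mul_le_mul_of_nonneg_left e1 (by positivity)
      nlinarith
    have e4 : (2 * q * j : ℤ) ≤ D - q + 2 := by
      apply abs_le_of_sq_le_sq' e3 (by linarith) |>.2
    nlinarith
  · have hex : ∃ k, A ≤ k ^ 2 := ⟨A, by nlinarith⟩
    classical
    set k := Nat.find hex with hk
    have hk1 : A ≤ k ^ 2 := Nat.find_spec hex
    have hk0 : 0 < k := by
      rcases Nat.eq_zero_or_pos k with h | h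
      · rw [h] at hk1; simp at hk1; omega
      · exact h
    refine ⟨k, hk0, hk1, ?_⟩
    by_contra hc
    push Not at hc
    obtain ⟨j, hj⟩ : ∃ j, k = j + 1 := ⟨k - 1, by omega⟩
    have hj1 : ¬ A ≤ j ^ 2 := Nat.find_min hex (by omega)
    push Not at hj1
    rw [hj] at hc
    have e1 : (j : ℤ) ^ 2 ≤ A - 1 := by
      have : ((j ^ 2 : ℕ) : ℤ) < A := by exact_mod_cast hj1
      push_cast at this
      linarith
    have e2 : (A : ℤ) + D + 2 ≤ (j + 1) ^ 2 := by
      have : ((A + D + 1 : ℕ) : ℤ) < (((j + 1) ^ 2 : ℕ) : ℤ) := by exact_mod_cast hc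
      push_cast at this
      linarith
    have e5 : (D : ℤ) + 2 ≤ 2 * j := by nlinarith
    have hqz : (2 : ℤ) ≤ q := by exact_mod_cast hq
    have e3 : 4 * (q : ℤ) * (j : ℤ) ^ 2 ≤ (D - q + 2) ^ 2 := by
      have h4 : 4 * (q : ℤ) * ((j : ℤ) ^ 2) ≤ 4 * q * (A - 1) :=
        mul_le_mul_of_nonneg_left e1 (by positivity)
      nlinarith
    have e6 : ((D : ℤ) + 2) ^ 2 ≤ (2 * j) ^ 2 := by
      apply pow_le_pow_left₀ (by positivity) e5
    have e7 : ((D : ℤ) - q + 2) ^ 2 ≤ D ^ 2 := by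
      apply sq_le_sq' <;> linarith
    nlinarith

end Pool.Agent.X273.Run
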