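import Pool.Agent.X273.Run1

/-!
# The descent
-/

namespace Pool.Agent.X273.Run

variable {f : ℕ → ℤ}

/-- If `f = 1` on `(N, N + s + 1]`, `4 N ≤ s²`, and `f q = -1`, then there are `m < t` with
`t + m = s + R`, `1 ≤ R < q`, `N - R < t m ≤ N`, such that `f` is constant on `(m, t]`. -/
lemma level (hf : SignFun f) {q N s : ℕ} (hq : 2 ≤ q) (hfq : f q = -1) (hN : 1 ≤ N)
    (hs : 4 * N ≤ s ^ 2) (hI : ∀ x, N < x → x ≤ N + s + 1 → f x = 1) :
    ∃ t m R : ℕ, 1 ≤ R ∧ R < q ∧ t + m = s + R ∧ t * m ≤ N ∧ N < t * m + R ∧ m < t ∧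
      ∀ x, m < x → x ≤ t → f x = f t := by
  classical
  have hs2 : 2 ≤ s := by
    by_contra hc
    push Not at hc
    have : s ^ 2 ≤ 1 := by
      have : s ≤ 1 := by omega
      nlinarith
    omega
  -- levels
  let Bad : ℕ → Prop := fun t => 0 < t ∧ N + s + 1 < (N / t + 1) * (t + 1)
  let Lv : ℕ → Prop := fun i => ∃ t, Bad t ∧ t + N / t ≤ s + i
  have hgood : ∀ t, 0 < t → ¬ Bad t → f t = f (t + 1) := by
    intro t ht hb
    apply link' hf hI ht
    by_contra hc
    push Not at hc
    exact hb ⟨ht, hc⟩
  have hbad : ∀ t, Bad t → ∀ i, t + N / t ≤ s + i → 1 ≤ i ∧ N < t * (N / t) + i := by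
    intro t ht i hi
    have h1 := ht.2
    have h2 : (N / t + 1) * (t + 1) = t * (N / t) + (t + N / t) + 1 := by ring
    have h3 : N / t * t ≤ N := Nat.div_mul_le_self N t
    have h4 : t * (N / t) ≤ N := by rw [mul_comm]; exact h3
    omega
  by_cases hL : Lv (q - 1)
  · -- minimal level
    have hex : ∃ i, Lv i := ⟨_, hL⟩
    set R := Nat.find hex with hR
    have hRL : Lv R := Nat.find_spec hex
    have hRq : R ≤ q - 1 := Nat.find_min' hex hL
    obtain ⟨t, htb, hti⟩ := hRL
    set m := N / t with hm
    have h1 := hbad t htb R hti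
    have ht0 : 0 < t := htb.1
    have hmt : t * m ≤ N := by
      have : N / t * t ≤ N := Nat.div_mul_le_self N t
      rw [mul_comm]; exact this
    have hsum : t + m = s + R := by
      by_contra hne
      have : t + m ≤ s + (R - 1) := by omega
      exact Nat.find_min hex (m := R - 1) (by omega) ⟨t, htb, this⟩
    have hR1 : 1 ≤ R := h1.1
    have hNlt : N < t * m + R := h1.2
    -- order
    obtain ⟨t', m', hsum', hmt', hNlt', hlt⟩ : ∃ t' m' : ℕ, t' + m' = s + R ∧ t' * m' ≤ N ∧
        N < t' * m' + R ∧ m' < t' := by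
      rcases lt_trichotomy m t with h | h | h
      · exact ⟨t, m, hsum, hmt, hNlt, h⟩
      · exfalso
        rw [h] at hsum hmt
        nlinarith
      · exact ⟨m, t, by omega, by rw [mul_comm]; exact hmt, by rw [mul_comm]; exact hNlt, h⟩
    -- the difference
    have hD : R < t' - m' := by
      by_contra hc
      push Not at hc
      obtain ⟨D, hDe⟩ : ∃ D, t' = m' + D := ⟨t' - m', by omega⟩
      have hDR : D ≤ R := by omega
      subst hDe
      nlinarith
    refine ⟨t', m', R, hR1, by omega, hsum', hmt', hNlt', hlt, ?_⟩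
    have hlinks : ∀ x, m' + 1 ≤ x → x < t' → f x = f (x + 1) := by
      intro x hx1 hx2
      apply hgood x (by omega)
      intro hb
      have hk : s + R ≤ x + N / x := by
        by_contra hc
        push Not at hc
        exact Nat.find_min hex (m := R - 1) (by omega) ⟨x, hb, by omega⟩
      have hkx : N / x * x ≤ N := Nat.div_mul_le_self N x
      obtain ⟨a, ha⟩ : ∃ a, x = m' + 1 + a := ⟨x - m' - 1, by omega⟩
      obtain ⟨b, hb'⟩ : ∃ b, t' = x + 1 + b := ⟨t' - x - 1, by omega⟩
      -- x (s + R - x) = t' m' + (a+1)(b+1)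
      have h5 : x * (m' + 1 + b) ≤ N := by
        have : m' + 1 + b ≤ N / x := by omega
        calc x * (m' + 1 + b) ≤ x * (N / x) := Nat.mul_le_mul_left _ this
          _ ≤ N := by rw [mul_comm]; exact hkx
      have h6 : x * (m' + 1 + b) = t' * m' + (a + 1) * (b + 1) := by
        rw [hb', ha]; ring
      have h7 : a + b + 1 ≤ (a + 1) * (b + 1) := by nlinarith
      omega
    intro x hx1 hx2
    rw [const_of_links hlinks x (by omega) hx2, const_of_links hlinks t' (by omega) le_rfl]
  · -- no level below q : contradiction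
    exfalso
    have hlink : ∀ t, 0 < t → t < s + q → N < t * (s + q - t) → f t = f (t + 1) := by
      intro t ht htq hlt
      apply hgood t ht
      intro hb
      apply hL
      by_contra hc
      have hk : s + q ≤ t + N / t := by
        by_contra hc'
        push Not at hc'
        exact hL ⟨t, hb, by omega⟩
      have hkx : N / t * t ≤ N := Nat.div_mul_le_self N t
      have : t * (s + q - t) ≤ N := by
        calc t * (s + q - t) ≤ t * (N / t) := Nat.mul_le_mul_left _ (by omega)
          _ ≤ N := by rw [mul_comm]; exact hkx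
      omega
    -- the first element
    have hex : ∃ t, 0 < t ∧ t < s + q ∧ N < t * (s + q - t) := by
      rcases Nat.even_or_odd' (s + q) with ⟨c, hc | hc⟩
      · refine ⟨c, by omega, by omega, ?_⟩
        have : s + q - c = c := by omega
        rw [this]
        nlinarith
      · refine ⟨c, by omega, by omega, ?_⟩
        have : s + q - c = c + 1 := by omega
        rw [this]
        nlinarith
    set A := Nat.find hex with hA
    obtain ⟨hA0, hAq, hAN⟩ := Nat.find_spec hex
    rw [← hA] at hA0 hAq hAN
    have hAle : A ≤ s + q - A := by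
      by_contra hc
      push Not at hc
      refine Nat.find_min hex (m := s + q - A) hc ⟨by omega, by omega, ?_⟩
      have : s + q - (s + q - A) = A := by omega
      rw [this, mul_comm]
      exact hAN
    obtain ⟨D, hD⟩ : ∃ D, s + q = A + (A + D) := ⟨s + q - A - A, by omega⟩
    have hAN' : N < A * (A + D) := by
      have : s + q - A = A + D := by omega
      rw [this] at hAN
      exact hAN
    -- (A-1)(A+D+1) ≤ N
    have hAmin : ((A : ℤ) - 1) * (A + D + 1) ≤ N := by
      obtain ⟨a, ha⟩ : ∃ a, A = a + 1 := ⟨A - 1, by omega⟩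
      rcases Nat.eq_zero_or_pos a with h | h
      · rw [ha, h]; push_cast; simp
      · have := Nat.find_min hex (m := a) (by omega)
        push Not at this
        have h8 := this h (by omega)
        have h9 : s + q - a = A + D + 1 := by omega
        rw [h9] at h8
        have : ((a * (A + D + 1) : ℕ) : ℤ) ≤ (N : ℤ) := by exact_mod_cast h8
        rw [ha] at this ⊢
        push_cast at this ⊢
        linarith
    have hlinks : ∀ x, A ≤ x → x < A + D + 1 → f x = f (x + 1) := by
      intro x hx1 hx2
      apply hlink x (by omega) (by omega)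
      obtain ⟨a, ha⟩ : ∃ a, x = A + a := ⟨x - A, by omega⟩
      obtain ⟨b, hb'⟩ : ∃ b, A + D = x + b := ⟨A + D - x, by omega⟩
      have h5 : s + q - x = A + b := by omega
      rw [h5]
      have h6 : x * (A + b) = A * (A + D) + a * b := by
        rw [hb', ha]; ring
      omega
    have hconst := const_of_links hlinks
    have h3 : 4 * (q : ℤ) * A ≤ (D : ℤ) ^ 2 - (2 * q - 4) * D + q ^ 2 + 4 := by
      have e1 : (s : ℤ) = 2 * A + D - q := by
        have : ((s + q : ℕ) : ℤ) = ((A + (A + D) : ℕ) : ℤ) := by exact_mod_cast hD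
        push_cast at this
        linarith
      have e2 : 4 * (N : ℤ) ≤ (s : ℤ) ^ 2 := by exact_mod_cast hs
      rw [e1] at e2
      nlinarith
    obtain ⟨⟨k, hk0, hk1, hk2⟩, ⟨l, hl0, hl1, hl2⟩⟩ :=
      block hq (by omega : 1 ≤ A) (by omega) h3
    have c1 := hconst _ hk1 hk2
    have c2 := hconst _ hl1 hl2
    rw [hf.mul_square (by omega) hk0, hfq] at c1
    rw [hf.square hl0] at c2
    omega

end Pool.Agent.X273.Run
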