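import Pool.Agent.X273.Run2

/-!
# The theorem on windows
-/

namespace Pool.Agent.X273.Run

variable {f : ℕ → ℤ}

/-- an interval `(m, t]` with `(t - m - 1)² ≥ 4 m`, `m < t`, contains a square -/
lemma square_in {m t : ℕ} (hlt : m < t) (h : 4 * m ≤ (t - m - 1) ^ 2) :
    ∃ l, 0 < l ∧ m < l ^ 2 ∧ l ^ 2 ≤ t := by
  have hex : ∃ l, m < l ^ 2 := ⟨m + 1, by nlinarith⟩
  classical
  set l := Nat.find hex with hl
  have h1 : m < l ^ 2 := Nat.find_spec hex
  have hl0 : 0 < l := by
    rcases Nat.eq_zero_or_pos l with h | h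
    · rw [h] at h1; simp at h1
    · exact h
  refine ⟨l, hl0, h1, ?_⟩
  by_contra hc
  push Not at hc
  obtain ⟨j, hj⟩ : ∃ j, l = j + 1 := ⟨l - 1, by omega⟩
  have hj1 : ¬ m < j ^ 2 := Nat.find_min hex (by omega)
  push Not at hj1
  rw [hj] at hc
  obtain ⟨E, hE⟩ : ∃ E, t = m + 1 + E := ⟨t - m - 1, by omega⟩
  have h2 : t - m - 1 = E := by omega
  rw [h2] at h
  have h3 : E + 1 ≤ 2 * j := by
    have : (j + 1) ^ 2 = j ^ 2 + 2 * j + 1 := by ring
    omega
  nlinarith

/-- the induction -/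
lemma windows (hf : SignFun f) {q N₀ : ℕ} (hq : 2 ≤ q) (hfq : f q = -1) (hN₀ : 1 ≤ N₀)
    (hN₀q : N₀ ≤ q)
    (hbase : ∀ N s, N₀ ≤ N → 4 * N ≤ s ^ 2 → s + 2 < q + N₀ →
      ∃ x, N < x ∧ x ≤ N + s + 1 ∧ f x = -1) :
    ∀ N s, N₀ ≤ N → 4 * N ≤ s ^ 2 → ∃ x, N < x ∧ x ≤ N + s + 1 ∧ f x = -1 := by
  intro N
  induction N using Nat.strong_induction_on with
  | _ N ih =>
    intro s hN hs
    by_contra hcon
    push Not at hcon
    have hI : ∀ x, N < x → x ≤ N + s + 1 → f x = 1 := by
      intro x h1 h2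
      rcases hf.val x (by omega) with h | h
      · exact h
      · exact absurd h (hcon x h1 h2)
    obtain ⟨t, m, R, hR1, hRq, hsum, htm, hlt', hmt, hconst⟩ :=
      level hf hq hfq (by omega) hs hI
    have hs2 : 2 ≤ s := by
      by_contra hc
      push Not at hc
      have : s ≤ 1 := by omega
      nlinarith
    -- (t - m - 1)^2 ≥ 4 m
    obtain ⟨E, hE⟩ : ∃ E, t = m + 1 + E := ⟨t - m - 1, by omega⟩
    have hE' : t - m - 1 = E := by omega
    have hD : 4 * m ≤ E ^ 2 := by
      have h1 : (2 * m + 1 + E) = s + R := by omega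
      -- s^2 ≥ 4 t m
      have h2 : 4 * ((m + 1 + E) * m) ≤ s ^ 2 := by
        rw [← hE]; omega
      have hRE : R ≤ E := by
        by_contra hc
        push Not at hc
        have : E + 1 ≤ R := by omega
        nlinarith
      obtain ⟨a, ha⟩ : ∃ a, E = R + a := ⟨E - R, by omega⟩
      have hs' : s = 2 * m + 1 + a := by omega
      subst ha
      rw [hs'] at h2
      nlinarith
    obtain ⟨l, hl0, hl1, hl2⟩ := square_in hmt (by rw [hE']; exact hD)
    have hft : f t = 1 := by
      rw [← hconst _ hl1 hl2, hf.square hl0]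
    -- now a value -1 in (m, t]
    have : ∃ x, m < x ∧ x ≤ t ∧ f x = -1 := by
      by_cases hm : N₀ ≤ m
      · have hmN : m < N := by
          have : 2 ≤ t := by omega
          nlinarith
        obtain ⟨x, hx1, hx2, hx3⟩ := ih m hmN E hm hD
        exact ⟨x, hx1, by omega, hx3⟩
      · by_cases hss : s + 2 < q + N₀
        · obtain ⟨x, hx1, hx2, hx3⟩ := hbase N s hN hs hss
          exact absurd hx3 (hcon x hx1 hx2)
        · exact ⟨q, by omega, by omega, hfq⟩
    obtain ⟨x, hx1, hx2, hx3⟩ := this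
    have := hconst x hx1 hx2
    rw [hft, hx3] at this
    norm_num at this

/-- `f(2) = -1` or `f(3) = -1`: all `N ≥ 1` -/
theorem windows_two_three (hf : SignFun f) (h : f 2 = -1 ∨ f 3 = -1) {N s : ℕ} (hN : 1 ≤ N)
    (hs : 4 * N ≤ s ^ 2) : ∃ x, N < x ∧ x ≤ N + s + 1 ∧ f x = -1 := by
  have hs2 : 2 ≤ s := by
    by_contra hc
    push Not at hc
    have : s ≤ 1 := by omega
    nlinarith
  rcases h with h | h
  · refine windows hf (q := 2) (N₀ := 1) le_rfl h le_rfl (by norm_num) ?_ N s hN hs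
    intro N s hN hs hlt
    exfalso
    have : s = 0 := by omega
    subst this
    omega
  · refine windows hf (q := 3) (N₀ := 1) (by norm_num) h le_rfl (by norm_num) ?_ N s hN hs
    intro N s hN hs hlt
    exfalso
    have : s ≤ 1 := by omega
    nlinarith

/-- one of `f(2), f(3), f(5), f(7)` is `-1`: all `N ≥ 3` -/
theorem windows_two_three_five_seven (hf : SignFun f)
    (h : f 2 = -1 ∨ f 3 = -1 ∨ f 5 = -1 ∨ f 7 = -1) {N s : ℕ} (hN : 3 ≤ N)
    (hs : 4 * N ≤ s ^ 2) : ∃ x, N < x ∧ x ≤ N + s + 1 ∧ f x = -1 := by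
  by_cases h2 : f 2 = -1
  · exact windows_two_three hf (Or.inl h2) (by omega) hs
  by_cases h3 : f 3 = -1
  · exact windows_two_three hf (Or.inr h3) (by omega) hs
  by_cases h5 : f 5 = -1
  · refine windows hf (q := 5) (N₀ := 2) (by norm_num) h5 (by norm_num) (by norm_num) ?_ N s
      (by omega) hs
    intro N s hN hs hlt
    refine ⟨5, ?_, ?_, h5⟩
    · have : s ≤ 4 := by omega
      nlinarith
    · by_contra hc
      push Not at hc
      have h1 : N + s ≤ 3 := by omega
      have hN3 : N ≤ 3 := by omega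
      have hs3 : s ≤ 3 := by omega
      interval_cases N <;> interval_cases s <;> omega
  have h7 : f 7 = -1 := by tauto
  have h2' : f 2 = 1 := by
    rcases hf.val 2 (by norm_num) with h | h
    · exact h
    · exact absurd h h2
  have h14 : f 14 = -1 := by
    have := hf.mul 2 7 (by norm_num) (by norm_num)
    rw [h2', h7] at this
    norm_num at this
    exact this
  refine windows hf (q := 7) (N₀ := 3) (by norm_num) h7 (by norm_num) (by norm_num) ?_ N s
    (by omega) hs
  intro N s hN hs hlt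
  have hs7 : s ≤ 7 := by omega
  have hN12 : N ≤ 12 := by nlinarith
  by_cases hN7 : N < 7
  · refine ⟨7, hN7, ?_, h7⟩
    by_contra hc
    push Not at hc
    have hN3 : N ≤ 6 := by omega
    interval_cases N <;> interval_cases s <;> omega
  · refine ⟨14, by omega, ?_, h14⟩
    by_contra hc
    push Not at hc
    interval_cases N <;> interval_cases s <;> omega

end Pool.Agent.X273.Run
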