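import Pool.Agent.X273.Run3

/-!
# Sets of primes; Legendre's and Oppermann's intervals; examples
-/

namespace Pool.Agent.X273.Run

open Classical in
/-- The number of the prime factors of `m` (with multiplicity) which belong to `P`. -/
noncomputable def OmegaIn (P : Set ℕ) (m : ℕ) : ℕ :=
  m.primeFactorsList.countP (fun p => decide (p ∈ P))

open Classical in
lemma omegaIn_mul (P : Set ℕ) {a b : ℕ} (ha : 0 < a) (hb : 0 < b) :
    OmegaIn P (a * b) = OmegaIn P a + OmegaIn P b := by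
  unfold OmegaIn
  rw [(Nat.perm_primeFactorsList_mul ha.ne' hb.ne').countP_eq, List.countP_append]

open Classical in
lemma omegaIn_prime (P : Set ℕ) {p : ℕ} (hp : p.Prime) (h : p ∈ P) : OmegaIn P p = 1 := by
  unfold OmegaIn
  rw [Nat.primeFactorsList_prime hp]
  simp [h]

lemma omegaIn_univ (m : ℕ) : OmegaIn Set.univ m = ArithmeticFunction.cardFactors m := by
  unfold OmegaIn
  simp [ArithmeticFunction.cardFactors_apply]

/-- the sign -/
noncomputable def sg (P : Set ℕ) (m : ℕ) : ℤ := (-1) ^ OmegaIn P m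

lemma sg_signFun (P : Set ℕ) : SignFun (sg P) where
  mul a b ha hb := by
    unfold sg
    rw [omegaIn_mul P ha hb, pow_add]
  val a _ := neg_one_pow_eq_or ℤ _

lemma sg_neg_iff (P : Set ℕ) (m : ℕ) : sg P m = -1 ↔ Odd (OmegaIn P m) := by
  unfold sg
  constructor
  · intro h
    by_contra hc
    rw [Nat.not_odd_iff_even] at hc
    rw [hc.neg_one_pow] at h
    norm_num at h
  · intro h
    exact h.neg_one_pow

lemma sg_prime (P : Set ℕ) {p : ℕ} (hp : p.Prime) (h : p ∈ P) : sg P p = -1 := by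
  unfold sg
  rw [omegaIn_prime P hp h]
  norm_num

/-- an interval between consecutive squares, from the windows -/
lemma legendre_of {f : ℕ → ℤ} (hf : SignFun f) {x : ℕ} (hx : 1 ≤ x)
    (h : ∃ m, x ^ 2 < m ∧ m ≤ x ^ 2 + 2 * x + 1 ∧ f m = -1) :
    ∃ m, x ^ 2 < m ∧ m < (x + 1) ^ 2 ∧ f m = -1 := by
  obtain ⟨m, h1, h2, h3⟩ := h
  refine ⟨m, h1, ?_, h3⟩
  have e : (x + 1) ^ 2 = x ^ 2 + 2 * x + 1 := by ring
  rcases Nat.lt_or_ge m ((x + 1) ^ 2) with h | h
  · exact h
  · exfalso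
    have : m = (x + 1) ^ 2 := by omega
    rw [this, hf.square (by omega)] at h3
    norm_num at h3

lemma intervals {f : ℕ → ℤ} (hf : SignFun f) {x : ℕ} (hx : 1 ≤ x)
    (hw : ∀ N s, x ^ 2 - x ≤ N → 1 ≤ N → 4 * N ≤ s ^ 2 → ∃ m, N < m ∧ m ≤ N + s + 1 ∧ f m = -1)
    (h1 : x = 1 → f 2 = -1 ∨ f 1 = -1) :
    (∃ m, x ^ 2 - x < m ∧ m ≤ x ^ 2 + x ∧ f m = -1) ∧
    (∃ m, x ^ 2 < m ∧ m < (x + 1) ^ 2 ∧ f m = -1) := by
  constructor
  · rcases Nat.lt_or_ge x 2 with h | h
    · have hx1 : x = 1 := by omega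
      subst hx1
      rcases h1 rfl with h | h
      · exact ⟨2, by norm_num, by norm_num, h⟩
      · exact ⟨1, by norm_num, by norm_num, h⟩
    · obtain ⟨y, hy⟩ : ∃ y, x = y + 1 := ⟨x - 1, by omega⟩
      have e : x ^ 2 - x = y * (y + 1) := by
        rw [hy]
        have : (y + 1) ^ 2 = y * (y + 1) + (y + 1) := by ring
        omega
      have e2 : x ^ 2 + x = y * (y + 1) + (2 * y + 1) + 1 := by rw [hy]; ring
      obtain ⟨m, a, b, c⟩ := hw (y * (y + 1)) (2 * y + 1) (by rw [e])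
        (by nlinarith [show 1 ≤ y by omega]) (by nlinarith)
      exact ⟨m, by rw [e]; exact a, by rw [e2]; exact b, c⟩
  · apply legendre_of hf hx
    obtain ⟨m, a, b, c⟩ := hw (x ^ 2) (2 * x) (by omega) (by nlinarith) (by nlinarith)
    exact ⟨m, a, b, c⟩

lemma omegaIn_of_list {P : Set ℕ} {m k : ℕ} {l : List ℕ} (hl : m.primeFactorsList = l)
    (h : ∀ [DecidablePred (· ∈ P)], l.countP (fun p => decide (p ∈ P)) = k) : OmegaIn P m = k := by
  classical
  unfold OmegaIn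
  rw [hl]
  exact h

end Pool.Agent.X273.Run
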