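import Mathlib

/-!
# Completely multiplicative sign functions are not periodic on short intervals
-/

open Finset

namespace Pool.Agent.X273.SI

/-- completely multiplicative, with the values `1` and `-1` at the positive integers -/
structure CM (f : ℕ → ℤ) : Prop where
  mul : ∀ m n : ℕ, 1 ≤ m → 1 ≤ n → f (m * n) = f m * f n
  val : ∀ n : ℕ, 1 ≤ n → f n = 1 ∨ f n = -1

variable {f : ℕ → ℤ}

lemma CM.sq (hf : CM f) (t s : ℕ) (ht : 1 ≤ t) (hs : 1 ≤ s) : f (t * s ^ 2) = f t := by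
  have h1 : f (t * s ^ 2) = f t * f (s ^ 2) := hf.mul _ _ ht (Nat.one_le_pow _ _ hs)
  have h2 : f (s ^ 2) = f s * f s := by rw [pow_two]; exact hf.mul _ _ hs hs
  rw [h1, h2]
  rcases hf.val s hs with h | h <;> rw [h] <;> ring

/-- a number of the form `t s²`, `s ≡ 1 mod M`, in an interval -/
lemma exists_sq (t M : ℕ) (ht : 1 ≤ t) (hM : 1 ≤ M) (Z : ℝ) (hZ : 0 ≤ Z) :
    ∃ s : ℕ, 1 ≤ s ∧ s ≡ 1 [MOD M] ∧ Z ≤ t * (s : ℝ) ^ 2 ∧
      t * (s : ℝ) ^ 2 ≤ Z + 2 * Real.sqrt (t * Z) * (M + 1) + t * (M + 1) ^ 2 := by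
  have ht0 : (0 : ℝ) < t := by exact_mod_cast ht
  have hM0 : (0 : ℝ) < M := by exact_mod_cast hM
  set r : ℝ := Real.sqrt (Z / t) with hr
  have hr0 : 0 ≤ r := Real.sqrt_nonneg _
  have hrr : t * r ^ 2 = Z := by
    rw [hr, Real.sq_sqrt (by positivity)]; field_simp
  have htr : Real.sqrt (t * Z) = t * r := by
    rw [← hrr]
    rw [show (t : ℝ) * (t * r ^ 2) = (t * r) ^ 2 by ring, Real.sqrt_sq (by positivity)]
  set j : ℕ := ⌈r / M⌉₊ with hj
  have hj1 : r / M ≤ j := Nat.le_ceil _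
  have hj2 : (j : ℝ) < r / M + 1 := Nat.ceil_lt_add_one (by positivity)
  have h1 : r ≤ M * j := by
    rw [div_le_iff₀ hM0] at hj1; linarith
  have h2 : (M : ℝ) * j ≤ r + M := by
    have : (j : ℝ) * M < (r / M + 1) * M := by
      exact mul_lt_mul_of_pos_right hj2 hM0
    have h3 : (r / M + 1) * M = r + M := by field_simp
    nlinarith
  refine ⟨1 + M * j, by omega, ?_, ?_, ?_⟩
  · exact (Nat.modEq_iff_dvd' (by omega)).mpr ⟨j, by omega⟩ |>.symm
  · push_cast
    rw [← hrr]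
    have : r ^ 2 ≤ (1 + (M : ℝ) * j) ^ 2 := by
      apply pow_le_pow_left₀ hr0; linarith
    exact mul_le_mul_of_nonneg_left this ht0.le
  · push_cast
    have h3 : (1 + (M : ℝ) * j) ^ 2 ≤ (r + (M + 1)) ^ 2 := by
      apply pow_le_pow_left₀ (by positivity); linarith
    rw [htr]
    nlinarith [mul_le_mul_of_nonneg_left h3 ht0.le]

/-- a number of the form `t s²` in an interval -/
lemma exists_sq' (t : ℕ) (ht : 1 ≤ t) (Z : ℝ) (hZ : 0 < Z) :
    ∃ s : ℕ, 1 ≤ s ∧ Z ≤ t * (s : ℝ) ^ 2 ∧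
      t * (s : ℝ) ^ 2 ≤ Z + 2 * Real.sqrt (t * Z) + t := by
  have ht0 : (0 : ℝ) < t := by exact_mod_cast ht
  set r : ℝ := Real.sqrt (Z / t) with hr
  have hr0 : 0 < r := Real.sqrt_pos.mpr (by positivity)
  have hrr : t * r ^ 2 = Z := by
    rw [hr, Real.sq_sqrt (by positivity)]; field_simp
  have htr : Real.sqrt (t * Z) = t * r := by
    rw [← hrr]
    rw [show (t : ℝ) * (t * r ^ 2) = (t * r) ^ 2 by ring, Real.sqrt_sq (by positivity)]
  refine ⟨⌈r⌉₊, Nat.ceil_pos.mpr hr0, ?_, ?_⟩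
  · have : r ^ 2 ≤ ((⌈r⌉₊ : ℕ) : ℝ) ^ 2 := by
      apply pow_le_pow_left₀ hr0.le; exact Nat.le_ceil _
    calc Z = t * r ^ 2 := hrr.symm
      _ ≤ _ := mul_le_mul_of_nonneg_left this ht0.le
  · have h1 : ((⌈r⌉₊ : ℕ) : ℝ) ≤ r + 1 := (Nat.ceil_lt_add_one hr0.le).le
    have h3 : ((⌈r⌉₊ : ℕ) : ℝ) ^ 2 ≤ (r + 1) ^ 2 := by
      apply pow_le_pow_left₀ (by positivity) h1
    rw [htr]
    nlinarith [mul_le_mul_of_nonneg_left h3 ht0.le]

/-- periodicity along an interval gives constancy along progressions -/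
lemma per_mul {g : ℕ → ℤ} {D Y B : ℕ} (hper : ∀ u, Y ≤ u → u + D ≤ B → g (u + D) = g u)
    {u : ℕ} (hu : Y ≤ u) : ∀ k : ℕ, u + D * k ≤ B → g (u + D * k) = g u := by
  intro k
  induction k with
  | zero => intro _; simp
  | succ k ih =>
    intro h
    have h1 : u + D * (k + 1) = (u + D * k) + D := by ring
    rw [h1, hper (u + D * k) (by omega) (by omega)]
    exact ih (by omega)

lemma per_modEq {g : ℕ → ℤ} {D Y B : ℕ} (hper : ∀ u, Y ≤ u → u + D ≤ B → g (u + D) = g u)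
    {u v : ℕ} (hu : Y ≤ u) (hv : Y ≤ v) (huB : u ≤ B) (hvB : v ≤ B) (h : u ≡ v [MOD D]) :
    g u = g v := by
  rcases le_total u v with h1 | h1
  · obtain ⟨k, hk⟩ := (Nat.modEq_iff_dvd' h1).mp h
    have : v = u + D * k := by omega
    rw [this]; exact (per_mul hper hu k (by omega)).symm
  · obtain ⟨k, hk⟩ := (Nat.modEq_iff_dvd' h1).mp h.symm
    have : u = v + D * k := by omega
    rw [this]; exact (per_mul hper hv k (by omega))

/-- A completely multiplicative sign function `f`, `f q = -1`, is not periodic with the period `D`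
on `[Y, Y + 2 √(q D Y) + q D]`. -/
lemma no_period (hf : CM f) {q : ℕ} (hq : 1 ≤ q) (hfq : f q = -1) {D : ℕ} (hD : 1 ≤ D)
    {Y B : ℕ} (hY : 1 ≤ Y) (hper : ∀ u, Y ≤ u → u + D ≤ B → f (u + D) = f u)
    (hB : (Y : ℝ) + 2 * Real.sqrt (q * D * Y) + q * D ≤ B) : False := by
  have hY0 : (0 : ℝ) < Y := by exact_mod_cast hY
  have hD0 : (0 : ℝ) < D := by exact_mod_cast hD
  have hq1 : (1 : ℝ) ≤ q := by exact_mod_cast hq
  obtain ⟨s, hs1, hs2, hs3⟩ := exists_sq' D hD Y hY0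
  obtain ⟨r, hr1, hr2, hr3⟩ := exists_sq' (q * D) (Nat.mul_pos hq hD) Y hY0
  have e1 : (Y : ℝ) ≤ ((D * s ^ 2 : ℕ) : ℝ) := by push_cast; exact hs2
  have e2 : (Y : ℝ) ≤ ((q * D * r ^ 2 : ℕ) : ℝ) := by push_cast at hr2 ⊢; exact hr2
  have e1' : ((D * s ^ 2 : ℕ) : ℝ) ≤ B := by
    push_cast
    refine hs3.trans (le_trans ?_ hB)
    have h1 : Real.sqrt (D * Y) ≤ Real.sqrt (q * D * Y) := by
      apply Real.sqrt_le_sqrt
      nlinarith [mul_pos hD0 hY0]
    nlinarith
  have e2' : ((q * D * r ^ 2 : ℕ) : ℝ) ≤ B := by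
    push_cast
    push_cast at hr3
    exact hr3.trans hB
  have k1 : Y ≤ D * s ^ 2 := by exact_mod_cast e1
  have k2 : Y ≤ q * D * r ^ 2 := by exact_mod_cast e2
  have k1' : D * s ^ 2 ≤ B := by exact_mod_cast e1'
  have k2' : q * D * r ^ 2 ≤ B := by exact_mod_cast e2'
  have key := per_modEq hper k1 k2 k1' k2' (by
    have a1 : D * s ^ 2 ≡ 0 [MOD D] := (Nat.modEq_zero_iff_dvd).mpr (Dvd.intro _ rfl)
    have a2 : q * D * r ^ 2 ≡ 0 [MOD D] :=
      (Nat.modEq_zero_iff_dvd).mpr (Dvd.intro (q * r ^ 2) (by ring))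
    exact a1.trans a2.symm)
  rw [hf.sq D s hD hs1, hf.sq (q * D) r (Nat.mul_pos hq hD) hr1, hf.mul q D hq hD, hfq] at key
  rcases hf.val D hD with h | h <;> rw [h] at key <;> norm_num at key

/-- Deterministic recurrences with finitely many states are periodic. -/
lemma det_period (g : ℕ → ℤ) (K P A B : ℕ) (hP : 1 ≤ P)
    (hg : ∀ n, A ≤ n → g n = 1 ∨ g n = -1)
    (hdet : ∀ n n', A ≤ n → n ≤ B → A ≤ n' → n' ≤ B → n ≡ n' [MOD P] →
      (∀ i < K, g (n + i) = g (n' + i)) → g (n + K) = g (n' + K)) :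
    ∃ D, 1 ≤ D ∧ D ≤ P * 2 ^ K ∧
      ∀ u, A + P * 2 ^ K ≤ u → u + D ≤ B + K → g (u + D) = g u := by
  classical
  let φ : Fin (2 ^ K + 1) → (Fin K → Bool) := fun t i => decide (g (A + P * t + i) = 1)
  obtain ⟨t, t', hne, hφ⟩ := Fintype.exists_ne_map_eq_of_card_lt φ (by simp)
  wlog hlt : (t : ℕ) < t' generalizing t t' with H
  · exact H t' t hne.symm hφ.symm (by
      have : (t : ℕ) ≠ t' := fun h => hne (Fin.ext h)
      omega)
  have ht' : (t' : ℕ) ≤ 2 ^ K := by have := t'.2; omega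
  have hDle : P * ((t' : ℕ) - t) ≤ P * 2 ^ K := Nat.mul_le_mul_left _ (by omega)
  have hPt : P * (t' : ℕ) = P * t + P * ((t' : ℕ) - t) := by
    rw [← Nat.mul_add]; congr 1; omega
  have hbase : ∀ i < K, g (A + P * t + i) = g (A + P * t' + i) := by
    intro i hi
    have h := congrFun hφ ⟨i, hi⟩
    simp only [φ, decide_eq_decide] at h
    rcases hg (A + P * t + i) (by omega) with h1 | h1
    · rw [h1, (h.mp h1)]
    · rcases hg (A + P * t' + i) (by omega) with h2 | h2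
      · rw [h.mpr h2, h2]
      · rw [h1, h2]
  have hind : ∀ m, A + P * t' + m ≤ B + K → g (A + P * t + m) = g (A + P * t' + m) := by
    intro m
    induction m using Nat.strong_induction_on with
    | _ m ih =>
      intro hm
      by_cases hmK : m < K
      · exact hbase m hmK
      · push Not at hmK
        have h := hdet (A + P * t + (m - K)) (A + P * t' + (m - K)) (by omega) (by
            have : P * (t : ℕ) ≤ P * t' := Nat.mul_le_mul_left _ hlt.le
            omega) (by omega) (by omega) ?_ ?_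
        · have e1 : A + P * t + (m - K) + K = A + P * t + m := by omega
          have e2 : A + P * t' + (m - K) + K = A + P * t' + m := by omega
          rw [e1, e2] at h; exact h
        · have e : A + P * t' + (m - K) = A + P * t + (m - K) + P * ((t' : ℕ) - t) := by omega
          rw [e]
          exact (Nat.modEq_iff_dvd' (by omega)).mpr ⟨(t' : ℕ) - t, by omega⟩
        · intro i hi
          have h' := ih ((m - K) + i) (by omega) (by omega)
          rw [← add_assoc, ← add_assoc] at h'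
          exact h'
  refine ⟨P * ((t' : ℕ) - t), Nat.mul_pos hP (by omega), hDle, ?_⟩
  intro u hu huB
  have hu' : A + P * t ≤ u := by
    have : P * (t : ℕ) ≤ P * 2 ^ K := Nat.mul_le_mul_left _ (by omega)
    omega
  have h := hind (u - (A + P * t)) (by omega)
  have e1 : A + P * t + (u - (A + P * t)) = u := by omega
  have e2 : A + P * t' + (u - (A + P * t)) = u + P * ((t' : ℕ) - t) := by omega
  rw [e1, e2] at h
  exact h.symm

end Pool.Agent.X273.SI
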