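import Pool.Agent.X273.SI1

/-!
# Products of shifts of completely multiplicative sign functions in short intervals
-/

open Finset

namespace Pool.Agent.X273.SI

variable {f : ℕ → ℤ}

lemma CM.one (hf : CM f) : f 1 = 1 := by
  have h := hf.mul 1 1 le_rfl le_rfl
  rcases hf.val 1 le_rfl with h1 | h1
  · exact h1
  · rw [mul_one, h1] at h; norm_num at h

lemma CM.two_le (hf : CM f) {q : ℕ} (hq : 1 ≤ q) (hfq : f q = -1) : 2 ≤ q := by
  rcases Nat.lt_or_ge q 2 with h | h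
  · have : q = 1 := by omega
    rw [this, hf.one] at hfq; norm_num at hfq
  · exact h

lemma prod_sign (H : Finset ℕ) (g : ℕ → ℤ) (hg : ∀ h ∈ H, g h = 1 ∨ g h = -1) :
    ∏ h ∈ H, g h = 1 ∨ ∏ h ∈ H, g h = -1 := by
  classical
  induction H using Finset.induction_on with
  | empty => left; simp
  | insert a s ha ih =>
    rw [Finset.prod_insert ha]
    rcases hg a (Finset.mem_insert_self _ _) with h1 | h1 <;>
      rcases ih (fun h hh => hg h (Finset.mem_insert_of_mem hh)) with h2 | h2 <;>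
      rw [h1, h2] <;> norm_num

lemma per_of_modEq {w : ℕ → ℤ} {P : ℕ} (hper : ∀ n, w (n + P) = w n) {n n' : ℕ}
    (h : n ≡ n' [MOD P]) : w n = w n' := by
  have key : ∀ n k, w (n + P * k) = w n := by
    intro n k
    induction k with
    | zero => simp
    | succ k ih => rw [show n + P * (k + 1) = n + P * k + P by ring, hper, ih]
  rcases le_total n n' with h1 | h1
  · obtain ⟨k, hk⟩ := (Nat.modEq_iff_dvd' h1).mp h
    have : n' = n + P * k := by omega
    rw [this, key]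
  · obtain ⟨k, hk⟩ := (Nat.modEq_iff_dvd' h1).mp h.symm
    have : n = n' + P * k := by omega
    rw [this, key]

/-- the length estimate -/
lemma len_aux {q N N0 x : ℝ} (hq : 2 ≤ q) (hN : 1 ≤ N) (hNN : N ≤ N0) (hx : 0 < x) :
    (x + 1 + N) + 2 * Real.sqrt (q * N * (x + 1 + N)) + q * N ≤
      x + (2 * Real.sqrt (q * N0 * x) + 5 * (q * N0)) - 1 := by
  have hN0 : 1 ≤ N0 := hN.trans hNN
  have hs : Real.sqrt (q * N * (x + 1 + N)) ≤ Real.sqrt (q * N0 * x) + q * N0 := by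
    apply Real.sqrt_le_iff.mpr
    constructor
    · positivity
    · have h1 : (Real.sqrt (q * N0 * x) + q * N0) ^ 2 =
          Real.sqrt (q * N0 * x) ^ 2 + 2 * Real.sqrt (q * N0 * x) * (q * N0) + (q * N0) ^ 2 := by
        ring
      rw [h1, Real.sq_sqrt (by positivity)]
      have h2 : 0 ≤ 2 * Real.sqrt (q * N0 * x) * (q * N0) := by positivity
      have h3 : q * N * (x + 1 + N) ≤ q * N0 * (x + 1 + N0) := by
        apply mul_le_mul
        · exact mul_le_mul_of_nonneg_left hNN (by linarith)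
        · linarith
        · linarith
        · positivity
      have h4 : q * N0 * (1 + N0) ≤ (q * N0) ^ 2 := by
        have : 1 + N0 ≤ q * N0 := by nlinarith
        nlinarith [mul_le_mul_of_nonneg_left this (by positivity : (0 : ℝ) ≤ q * N0)]
      nlinarith
  have h5 : q * N ≤ q * N0 := mul_le_mul_of_nonneg_left hNN (by linarith)
  have h6 : 2 * N0 ≤ q * N0 := mul_le_mul_of_nonneg_right hq (by linarith)
  nlinarith

/-- **Products of shifts.** -/
theorem prod_main (hf : CM f) {q : ℕ} (hq : 1 ≤ q) (hfq : f q = -1) (K P : ℕ) (hP : 1 ≤ P)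
    (H : Finset ℕ) (hH : H.Nonempty) (hK : ∀ h ∈ H, h ≤ K) (w : ℕ → ℤ)
    (hw : ∀ n, w n = 1 ∨ w n = -1) (hper : ∀ n, w (n + P) = w n) (x : ℝ) (hx : 0 < x) :
    ∃ n : ℕ, x ≤ n ∧ (n : ℝ) ≤ x + (2 * Real.sqrt (q * (P * 2 ^ K) * x) + 5 * (q * (P * 2 ^ K))) ∧
      ∏ h ∈ H, f (n + h) = w n := by
  classical
  by_contra hcon
  push Not at hcon
  set L : ℝ := 2 * Real.sqrt (q * (P * 2 ^ K) * x) + 5 * (q * (P * 2 ^ K)) with hL
  have hq2 : 2 ≤ q := hf.two_le hq hfq
  have hL0 : 0 ≤ L := by positivity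
  set k : ℕ := H.max' hH with hk
  have hkH : k ∈ H := H.max'_mem hH
  have hkK : k ≤ K := hK k hkH
  set A : ℕ := ⌈x⌉₊ with hA
  set B : ℕ := ⌊x + L⌋₊ with hB
  have hA1 : 1 ≤ A := Nat.ceil_pos.mpr hx
  have hxA : x ≤ A := Nat.le_ceil _
  have hAx : (A : ℝ) < x + 1 := Nat.ceil_lt_add_one hx.le
  have hBx : x + L < B + 1 := Nat.lt_floor_add_one _
  have hrel : ∀ n, A ≤ n → n ≤ B → ∏ h ∈ H, f (n + h) = - w n := by
    intro n h1 h2
    have h3 : x ≤ n := hxA.trans (by exact_mod_cast h1)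
    have h4 : (n : ℝ) ≤ x + L :=
      le_trans (by exact_mod_cast h2) (Nat.floor_le (by positivity))
    have h5 := hcon n h3 h4
    have h6 : ∏ h ∈ H, f (n + h) = 1 ∨ ∏ h ∈ H, f (n + h) = -1 :=
      prod_sign H (fun h => f (n + h)) (fun h _ => hf.val _ (by omega))
    rcases h6 with h6 | h6 <;> rcases hw n with h7 | h7
    · exact absurd (h6.trans h7.symm) h5
    · rw [h6, h7]; norm_num
    · rw [h6, h7]
    · exact absurd (h6.trans h7.symm) h5
  obtain ⟨D, hD1, hD2, hD3⟩ := det_period f k P A B hP (fun n hn => hf.val n (by omega)) (by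
    intro n n' hn1 hn2 hn1' hn2' hmod hbl
    have e1 := hrel n hn1 hn2
    have e2 := hrel n' hn1' hn2'
    rw [← Finset.mul_prod_erase H _ hkH] at e1 e2
    have e3 : ∏ h ∈ H.erase k, f (n + h) = ∏ h ∈ H.erase k, f (n' + h) := by
      apply Finset.prod_congr rfl
      intro h hh
      apply hbl
      have h1 : h ≤ k := H.le_max' h (Finset.mem_of_mem_erase hh)
      have h2 : h ≠ k := Finset.ne_of_mem_erase hh
      omega
    have e4 : w n = w n' := per_of_modEq hper hmod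
    rw [e3] at e1
    rw [e4] at e1
    rcases prod_sign (H.erase k) (fun h => f (n' + h)) (fun h _ => hf.val _ (by omega))
      with h6 | h6 <;> simp only [h6] at e1 e2 <;> linarith)
  have hN1 : 1 ≤ P * 2 ^ k := Nat.mul_pos hP (by positivity)
  have hNN : P * 2 ^ k ≤ P * 2 ^ K := Nat.mul_le_mul_left _ (Nat.pow_le_pow_right (by norm_num) hkK)
  refine no_period hf hq hfq hD1 (Y := A + P * 2 ^ k) (B := B + k) (by omega) hD3 ?_
  have hlen := len_aux (q := q) (N := ((P * 2 ^ k : ℕ) : ℝ)) (N0 := ((P * 2 ^ K : ℕ) : ℝ)) (x := x)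
    (by exact_mod_cast hq2) (by exact_mod_cast hN1) (by exact_mod_cast hNN) hx
  have hDN : (D : ℝ) ≤ ((P * 2 ^ k : ℕ) : ℝ) := by exact_mod_cast hD2
  have hq0 : (0 : ℝ) ≤ q := by positivity
  have hY : (((A + P * 2 ^ k : ℕ)) : ℝ) ≤ x + 1 + ((P * 2 ^ k : ℕ) : ℝ) := by
    push_cast
    linarith
  have hsq : Real.sqrt (q * D * ((A + P * 2 ^ k : ℕ) : ℝ)) ≤
      Real.sqrt (q * ((P * 2 ^ k : ℕ) : ℝ) * (x + 1 + ((P * 2 ^ k : ℕ) : ℝ))) := by
    apply Real.sqrt_le_sqrt
    apply mul_le_mul (mul_le_mul_of_nonneg_left hDN hq0) hY (by positivity) (by positivity)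
  have hqD : (q : ℝ) * D ≤ q * ((P * 2 ^ k : ℕ) : ℝ) := mul_le_mul_of_nonneg_left hDN hq0
  have hk0 : (0 : ℝ) ≤ k := by positivity
  have hLL : L = 2 * Real.sqrt (q * ((P * 2 ^ K : ℕ) : ℝ) * x) + 5 * (q * ((P * 2 ^ K : ℕ) : ℝ)) := by
    rw [hL]; push_cast; ring
  push_cast at hlen hY hsq hqD hLL ⊢
  linarith

/-- **Products of forms with the same slope.** -/
theorem prod_prog (hf : CM f) (hR : ∀ M, 1 ≤ M → ∃ r, 1 ≤ r ∧ r ≡ 1 [MOD M] ∧ f r = -1)
    (a : ℕ) (ha : 1 ≤ a) (P : ℕ) (hP : 1 ≤ P)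
    (H : Finset ℕ) (hH : H.Nonempty) (hHa : ∀ b ∈ H, ∀ b' ∈ H, b ≡ b' [MOD a]) :
    ∃ C : ℝ, ∀ w : ℕ → ℤ, (∀ n, w n = 1 ∨ w n = -1) → (∀ n, w (n + P) = w n) →
      ∀ x : ℝ, 1 ≤ x → ∃ n : ℕ, x ≤ n ∧ (n : ℝ) ≤ x + C * Real.sqrt x ∧
      ∏ b ∈ H, f (a * n + b) = w n := by
  classical
  set b₀ : ℕ := H.min' hH with hb₀
  have hb₀H : b₀ ∈ H := H.min'_mem hH
  set b₁ : ℕ := H.max' hH with hb₁
  have hb₁H : b₁ ∈ H := H.max'_mem hH
  have hdiv : ∀ b ∈ H, b = b₀ + a * ((b - b₀) / a) := by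
    intro b hb
    have h1 : b₀ ≤ b := H.min'_le b hb
    have h2 : a ∣ b - b₀ := (Nat.modEq_iff_dvd' h1).mp (hHa b₀ hb₀H b hb)
    have h3 := Nat.mul_div_cancel' h2
    omega
  set K : ℕ := (b₁ - b₀) / a with hK
  set N : ℕ := P * 2 ^ K with hN
  have hN1 : 1 ≤ N := Nat.mul_pos hP (by positivity)
  set T : ℕ := N.factorial with hT
  have hT1 : 1 ≤ T := Nat.factorial_pos _
  obtain ⟨r, hr1, hrM, hfr⟩ := hR (a * T) (Nat.mul_pos ha hT1)
  set t : ℕ := b₀ + a with ht
  have ht1 : 1 ≤ t := by omega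
  set c₁ : ℝ := 2 * Real.sqrt (t * r) * ((a * T : ℕ) + 1) + (t * r) * ((a * T : ℕ) + 1) ^ 2 with hc₁
  have hc₁0 : 0 ≤ c₁ := by positivity
  set e : ℝ := a * (3 + N) + b₀ with he
  have he1 : 1 ≤ e := by
    have : (1 : ℝ) ≤ a := by exact_mod_cast ha
    have : (0 : ℝ) ≤ N := by positivity
    have : (0 : ℝ) ≤ b₀ := by positivity
    nlinarith
  set C : ℝ := 3 + N + c₁ * Real.sqrt e with hC
  have hC0 : 0 ≤ C := by positivity
  refine ⟨C, ?_⟩
  intro w hw hper x hx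
  by_contra hcon
  push Not at hcon
  have hx0 : 0 < x := by linarith
  have hsx : 1 ≤ Real.sqrt x := Real.one_le_sqrt.mpr hx
  set A : ℕ := ⌈x⌉₊ with hA
  set B : ℕ := ⌊x + C * Real.sqrt x⌋₊ with hB
  have hA1 : 1 ≤ A := Nat.ceil_pos.mpr hx0
  have hxA : x ≤ A := Nat.le_ceil _
  have hAx : (A : ℝ) < x + 1 := Nat.ceil_lt_add_one hx0.le
  have hBx : x + C * Real.sqrt x < B + 1 := Nat.lt_floor_add_one _
  have hrel : ∀ n, A ≤ n → n ≤ B → ∏ b ∈ H, f (a * n + b) = - w n := by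
    intro n h1 h2
    have h3 : x ≤ n := hxA.trans (by exact_mod_cast h1)
    have h4 : (n : ℝ) ≤ x + C * Real.sqrt x :=
      le_trans (by exact_mod_cast h2) (Nat.floor_le (by positivity))
    have h5 := hcon n h3 h4
    have hpos : ∀ h : ℕ, 1 ≤ a * n + h := fun h => by
      have : 1 ≤ a * n := Nat.mul_pos ha (by omega)
      omega
    have h6 : ∏ h ∈ H, f (a * n + h) = 1 ∨ ∏ h ∈ H, f (a * n + h) = -1 :=
      prod_sign H (fun h => f (a * n + h)) (fun h _ => hf.val _ (hpos h))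
    rcases h6 with h6 | h6 <;> rcases hw n with h7 | h7
    · exact absurd (h6.trans h7.symm) h5
    · rw [h6, h7]; norm_num
    · rw [h6, h7]
    · exact absurd (h6.trans h7.symm) h5
  set g : ℕ → ℤ := fun m => f (a * m + b₀) with hg
  have hgf : ∀ n, ∀ b ∈ H, f (a * n + b) = g (n + (b - b₀) / a) := by
    intro n b hb
    have h1 := hdiv b hb
    simp only [hg]
    congr 1
    rw [mul_add]; omega
  obtain ⟨D, hD1, hD2, hD3⟩ := det_period g K P A B hP (fun n hn => hf.val _ (by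
      have : 1 ≤ a * n := Nat.mul_pos ha (by omega)
      omega)) (by
    intro n n' hn1 hn2 hn1' hn2' hmod hbl
    have e1 := hrel n hn1 hn2
    have e2 := hrel n' hn1' hn2'
    rw [← Finset.mul_prod_erase H _ hb₁H, hgf n b₁ hb₁H] at e1
    rw [← Finset.mul_prod_erase H _ hb₁H, hgf n' b₁ hb₁H] at e2
    have e3 : ∏ h ∈ H.erase b₁, f (a * n + h) = ∏ h ∈ H.erase b₁, f (a * n' + h) := by
      apply Finset.prod_congr rfl
      intro b hb
      have hbH := Finset.mem_of_mem_erase hb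
      rw [hgf n b hbH, hgf n' b hbH]
      apply hbl
      have h1 : b ≤ b₁ := H.le_max' b hbH
      have h2 : b ≠ b₁ := Finset.ne_of_mem_erase hb
      have h3 := hdiv b hbH
      have h4 : b₁ = b₀ + a * K := hdiv b₁ hb₁H
      by_contra hle
      push Not at hle
      have : a * K ≤ a * ((b - b₀) / a) := Nat.mul_le_mul_left _ hle
      omega
    have e4 : w n = w n' := per_of_modEq hper hmod
    rw [e3] at e1
    rw [e4] at e1
    have hpos : ∀ h : ℕ, 1 ≤ a * n' + h := fun h => by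
      have : 1 ≤ a * n' := Nat.mul_pos ha (by omega)
      omega
    rcases prod_sign (H.erase b₁) (fun h => f (a * n' + h)) (fun h _ => hf.val _ (hpos h))
      with h6 | h6 <;> simp only [h6] at e1 e2 <;> linarith)
  have hDT : D ∣ T := Nat.dvd_factorial hD1 hD2
  obtain ⟨m, hm⟩ := hDT
  have hperT : ∀ u, A + N ≤ u → u + T ≤ B → g (u + T) = g u := by
    intro u hu huB
    have := per_mul (g := g) (D := D) (Y := A + N) (B := B + K) hD3 hu m (le_trans (by omega : u + D * m ≤ B) (Nat.le_add_right _ _))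
    rwa [← hm] at this
  -- two numbers in the progression
  set Z : ℝ := a * ((A + N : ℕ) : ℝ) + b₀ + a with hZ
  have hZ0 : 0 ≤ Z := by positivity
  obtain ⟨s, hs1, hs2, hs3, hs4⟩ := exists_sq t (a * T) ht1 (Nat.mul_pos ha hT1) Z hZ0
  obtain ⟨s', hs1', hs2', hs3', hs4'⟩ := exists_sq (t * r) (a * T) (Nat.mul_pos ht1 hr1)
    (Nat.mul_pos ha hT1) Z hZ0
  -- congruences
  have hcong : ∀ v s : ℕ, 1 ≤ s → v ≡ 1 [MOD a * T] → s ≡ 1 [MOD a * T] →
      Z ≤ ((t * v * s ^ 2 : ℕ) : ℝ) →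
      ((t * v * s ^ 2 : ℕ) : ℝ) ≤ a * B + b₀ →
      ∃ m, A + N ≤ m ∧ m ≤ B ∧ m ≡ 1 [MOD T] ∧ t * v * s ^ 2 = a * m + b₀ := by
    intro v s hs hv hsm h1 h2
    have h3 : t * v * s ^ 2 ≡ t [MOD a * T] := by
      have : t * v * s ^ 2 ≡ t * 1 * 1 ^ 2 [MOD a * T] :=
        (Nat.ModEq.mul (Nat.ModEq.mul_left t hv) (Nat.ModEq.pow 2 hsm))
      simpa using this
    have h4 : t ≤ t * v * s ^ 2 := by
      have h5 : ((t : ℕ) : ℝ) ≤ Z := by
        rw [hZ, ht]; push_cast
        have : (0 : ℝ) ≤ a * (A + N) := by positivity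
        linarith
      exact_mod_cast h5.trans h1
    obtain ⟨j, hj⟩ := (Nat.modEq_iff_dvd' h4).mp h3.symm
    refine ⟨1 + T * j, ?_, ?_, ?_, ?_⟩
    · have h6 : t * v * s ^ 2 = a * (1 + T * j) + b₀ := by
        have : t * v * s ^ 2 = t + a * T * j := by omega
        rw [this, ht]; ring
      rw [h6] at h1
      have h7 : (a : ℝ) * ((A + N : ℕ) : ℝ) < a * ((1 + T * j : ℕ) : ℝ) := by
        have : (1 : ℝ) ≤ a := by exact_mod_cast ha
        rw [hZ] at h1; push_cast at h1 ⊢; linarith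
      have h8 : ((A + N : ℕ) : ℝ) < ((1 + T * j : ℕ) : ℝ) :=
        lt_of_mul_lt_mul_left h7 (by positivity)
      exact (by exact_mod_cast h8 : A + N < 1 + T * j).le
    · have h6 : t * v * s ^ 2 = a * (1 + T * j) + b₀ := by
        have : t * v * s ^ 2 = t + a * T * j := by omega
        rw [this, ht]; ring
      rw [h6] at h2
      have h7 : (a : ℝ) * ((1 + T * j : ℕ) : ℝ) ≤ a * B := by
        push_cast at h2 ⊢; linarith
      have h8 : ((1 + T * j : ℕ) : ℝ) ≤ B :=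
        le_of_mul_le_mul_left h7 (by exact_mod_cast ha)
      exact_mod_cast h8
    · exact ((Nat.modEq_iff_dvd' (by omega)).mpr ⟨j, by omega⟩ : 1 ≡ 1 + T * j [MOD T]).symm
    · have : t * v * s ^ 2 = t + a * T * j := by omega
      rw [this, ht]; ring
  -- the size of the numbers
  have hsize : Z + 2 * Real.sqrt ((t * r : ℕ) * Z) * ((a * T : ℕ) + 1) +
      (t * r : ℕ) * ((a * T : ℕ) + 1) ^ 2 ≤ a * B + b₀ := by
    have ha1 : (1 : ℝ) ≤ a := by exact_mod_cast ha
    have hN0 : (0 : ℝ) ≤ N := by positivity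
    have hb0 : (0 : ℝ) ≤ b₀ := by positivity
    have hZ1 : Z ≤ a * (x + 2 + N) + b₀ := by
      rw [hZ]; push_cast
      have : (a : ℝ) * (A + N) ≤ a * (x + 1 + N) :=
        mul_le_mul_of_nonneg_left (by linarith) (by positivity)
      linarith
    have hZe : Z ≤ e * x := by
      refine hZ1.trans ?_
      rw [he]
      have h2 : (b₀ : ℝ) ≤ b₀ * x := by nlinarith
      have h3 : (a : ℝ) * (x + 2 + N) ≤ a * ((3 + N) * x) := by
        apply mul_le_mul_of_nonneg_left _ (by positivity)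
        nlinarith
      nlinarith
    have hsZ : Real.sqrt ((t * r : ℕ) * Z) ≤ Real.sqrt (t * r) * (Real.sqrt e * Real.sqrt x) := by
      rw [← Real.sqrt_mul (by positivity), ← Real.sqrt_mul (by positivity)]
      apply Real.sqrt_le_sqrt
      push_cast
      exact mul_le_mul_of_nonneg_left hZe (by positivity)
    have hse : 1 ≤ Real.sqrt e := Real.one_le_sqrt.mpr he1
    have hex : 1 ≤ Real.sqrt e * Real.sqrt x := by nlinarith
    have h1 : 2 * Real.sqrt ((t * r : ℕ) * Z) * ((a * T : ℕ) + 1) ≤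
        2 * (Real.sqrt (t * r) * (Real.sqrt e * Real.sqrt x)) * ((a * T : ℕ) + 1) := by
      apply mul_le_mul_of_nonneg_right _ (by positivity)
      linarith
    have h2 : ((t * r : ℕ) : ℝ) * ((a * T : ℕ) + 1) ^ 2 ≤
        (t * r) * ((a * T : ℕ) + 1) ^ 2 * (Real.sqrt e * Real.sqrt x) := by
      push_cast
      exact le_mul_of_one_le_right (by positivity) hex
    have h3 : 2 * (Real.sqrt (t * r) * (Real.sqrt e * Real.sqrt x)) * ((a * T : ℕ) + 1) +
        (t * r) * ((a * T : ℕ) + 1) ^ 2 * (Real.sqrt e * Real.sqrt x) =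
        c₁ * Real.sqrt e * Real.sqrt x := by rw [hc₁]; ring
    have h4 : (a : ℝ) * (x + C * Real.sqrt x) ≤ a * (B + 1) :=
      mul_le_mul_of_nonneg_left hBx.le (by positivity)
    have h5 : (a : ℝ) * (3 + N) + c₁ * Real.sqrt e * Real.sqrt x ≤ a * (C * Real.sqrt x) := by
      have h6 : (a : ℝ) * (3 + N) ≤ a * ((3 + N) * Real.sqrt x) := by
        apply mul_le_mul_of_nonneg_left _ (by positivity)
        nlinarith
      have h7 : c₁ * Real.sqrt e * Real.sqrt x ≤ a * (c₁ * Real.sqrt e * Real.sqrt x) :=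
        le_mul_of_one_le_left (by positivity) ha1
      rw [hC]; nlinarith
    nlinarith
  obtain ⟨m₁, h11, h12, h13, h14⟩ := hcong 1 s hs1 (Nat.ModEq.refl 1) hs2
    (by push_cast; simpa using hs3) (by
      have h1 : Real.sqrt (t * Z) ≤ Real.sqrt ((t * r : ℕ) * Z) := by
        apply Real.sqrt_le_sqrt
        apply mul_le_mul_of_nonneg_right _ hZ0
        exact_mod_cast Nat.le_mul_of_pos_right t hr1
      have h2 : (t : ℝ) * ((a * T : ℕ) + 1) ^ 2 ≤ (t * r : ℕ) * ((a * T : ℕ) + 1) ^ 2 := by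
        apply mul_le_mul_of_nonneg_right _ (by positivity)
        exact_mod_cast Nat.le_mul_of_pos_right t hr1
      have h3 : 2 * Real.sqrt (t * Z) * ((a * T : ℕ) + 1) ≤
          2 * Real.sqrt ((t * r : ℕ) * Z) * ((a * T : ℕ) + 1) := by
        apply mul_le_mul_of_nonneg_right _ (by positivity)
        linarith
      have h4 : ((t * 1 * s ^ 2 : ℕ) : ℝ) = t * (s : ℝ) ^ 2 := by push_cast; ring
      rw [h4]
      linarith)
  obtain ⟨m₂, h21, h22, h23, h24⟩ := hcong r s' hs1' hrM hs2'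
    (by push_cast at hs3' ⊢; exact hs3') (by
      have h4 : ((t * r * s' ^ 2 : ℕ) : ℝ) = (t * r : ℕ) * (s' : ℝ) ^ 2 := by push_cast; ring
      rw [h4]
      linarith)
  have hfin := per_modEq hperT h11 h21 h12 h22 (h13.trans h23.symm)
  simp only [hg] at hfin
  rw [← h14, ← h24, mul_one, hf.sq t s ht1 hs1, hf.sq (t * r) s' (Nat.mul_pos ht1 hr1) hs1',
    hf.mul t r ht1 hr1, hfr] at hfin
  rcases hf.val t ht1 with h | h <;> rw [h] at hfin <;> norm_num at hfin

end Pool.Agent.X273.SI
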