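import Pool.Agent.X273.SI2

/-!
# Block complexity of completely multiplicative sign functions in short intervals
-/

open Finset

namespace Pool.Agent.X273.SI

variable {f : ℕ → ℤ}

/-- the contradiction, in terms of the length of the interval -/
lemma no_period' (hf : CM f) {q : ℕ} (hq : 1 ≤ q) (hfq : f q = -1) {D N N0 : ℕ} (hD : 1 ≤ D)
    (hDN : D ≤ N) (hNN : N ≤ N0) (x : ℝ) (hx : 0 < x)
    (hper : ∀ u, ⌈x⌉₊ + N ≤ u →
      u + D ≤ ⌊x + (2 * Real.sqrt (q * N0 * x) + 5 * (q * N0))⌋₊ → f (u + D) = f u) : False := by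
  set L : ℝ := 2 * Real.sqrt (q * N0 * x) + 5 * (q * N0) with hL
  have hq2 : 2 ≤ q := hf.two_le hq hfq
  have hL0 : 0 ≤ L := by positivity
  set A : ℕ := ⌈x⌉₊ with hA
  set B : ℕ := ⌊x + L⌋₊ with hB
  have hA1 : 1 ≤ A := Nat.ceil_pos.mpr hx
  have hAx : (A : ℝ) < x + 1 := Nat.ceil_lt_add_one hx.le
  have hBx : x + L < B + 1 := Nat.lt_floor_add_one _
  have hN1 : 1 ≤ N := hD.trans hDN
  refine no_period hf hq hfq hD (Y := A + N) (B := B) (by omega) hper ?_
  have hlen := len_aux (q := q) (N := (N : ℝ)) (N0 := (N0 : ℝ)) (x := x)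
    (by exact_mod_cast hq2) (by exact_mod_cast hN1) (by exact_mod_cast hNN) hx
  have hDN : (D : ℝ) ≤ (N : ℝ) := by exact_mod_cast hDN
  have hq0 : (0 : ℝ) ≤ q := by positivity
  have hY : (((A + N : ℕ)) : ℝ) ≤ x + 1 + (N : ℝ) := by
    push_cast
    linarith
  have hsq : Real.sqrt (q * D * ((A + N : ℕ) : ℝ)) ≤
      Real.sqrt (q * (N : ℝ) * (x + 1 + (N : ℝ))) := by
    apply Real.sqrt_le_sqrt
    apply mul_le_mul (mul_le_mul_of_nonneg_left hDN hq0) hY (by positivity) (by positivity)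
  have hqD : (q : ℝ) * D ≤ q * (N : ℝ) := mul_le_mul_of_nonneg_left hDN hq0
  push_cast at hlen hY hsq hqD ⊢
  linarith

/-- **No automaton with `S` states gives the values of `f` on a short interval.** -/
theorem automaton (hf : CM f) {q : ℕ} (hq : 1 ≤ q) (hfq : f q = -1) {σ : Type} [Fintype σ]
    (δ : σ → σ) (o : σ → ℤ) (s : σ) (x : ℝ) (hx : 0 < x) :
    ∃ i : ℕ, ((⌈x⌉₊ + i : ℕ) : ℝ) ≤
      x + (2 * Real.sqrt (q * Fintype.card σ * x) + 5 * (q * Fintype.card σ)) ∧
      f (⌈x⌉₊ + i) ≠ o (δ^[i] s) := by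
  classical
  by_contra hcon
  push Not at hcon
  set S : ℕ := Fintype.card σ with hS
  set L : ℝ := 2 * Real.sqrt (q * S * x) + 5 * (q * S) with hL
  have hL0 : 0 ≤ L := by positivity
  obtain ⟨t, t', hne, hφ⟩ := Fintype.exists_ne_map_eq_of_card_lt
    (fun t : Fin (S + 1) => δ^[(t : ℕ)] s) (by simp [hS])
  wlog hlt : (t : ℕ) < t' generalizing t t' with H
  · exact H t' t hne.symm hφ.symm (by
      have : (t : ℕ) ≠ t' := fun h => hne (Fin.ext h)
      omega)
  have hφ' : δ^[(t : ℕ)] s = δ^[(t' : ℕ)] s := hφ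
  have ht' : (t' : ℕ) ≤ S := by have := t'.2; omega
  have hS1 : 1 ≤ S := by omega
  refine no_period' hf hq hfq (D := (t' : ℕ) - t) (N := S) (N0 := S) (by omega) (by omega) le_rfl
    x hx ?_
  intro u hu huB
  have h1 : ((u + ((t' : ℕ) - t) : ℕ) : ℝ) ≤ x + L :=
    le_trans (Nat.cast_le.mpr huB) (Nat.floor_le (by positivity))
  have h2 : ((u : ℕ) : ℝ) ≤ x + L := by
    refine le_trans ?_ h1; push_cast; linarith [Nat.zero_le ((t' : ℕ) - t), (Nat.cast_nonneg ((t' : ℕ) - t) : (0:ℝ) ≤ (((t' : ℕ) - t : ℕ) : ℝ))]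
  have e1 := hcon (u - ⌈x⌉₊) (by rw [show ⌈x⌉₊ + (u - ⌈x⌉₊) = u by omega]; exact h2)
  have e2 := hcon (u + ((t' : ℕ) - t) - ⌈x⌉₊) (by
    rw [show ⌈x⌉₊ + (u + ((t' : ℕ) - t) - ⌈x⌉₊) = u + ((t' : ℕ) - t) by omega]; exact h1)
  rw [show ⌈x⌉₊ + (u - ⌈x⌉₊) = u by omega] at e1
  rw [show ⌈x⌉₊ + (u + ((t' : ℕ) - t) - ⌈x⌉₊) = u + ((t' : ℕ) - t) by omega] at e2
  rw [e1, e2]
  congr 1
  have g1 : u + ((t' : ℕ) - t) - ⌈x⌉₊ = (u - ⌈x⌉₊ - t) + t' := by omega
  have g2 : u - ⌈x⌉₊ = (u - ⌈x⌉₊ - t) + t := by omega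
  rw [g1, Function.iterate_add_apply, ← hφ', ← Function.iterate_add_apply, ← g2]

/-- the block of length `j` at `n`, continued by `0` -/
def blk (f : ℕ → ℤ) (j n : ℕ) : ℕ → ℤ := fun i => if i < j then f (n + i) else 0

/-- truncation -/
def trunc (j : ℕ) (s : ℕ → ℤ) : ℕ → ℤ := fun i => if i < j then s i else 0

lemma trunc_blk (f : ℕ → ℤ) (j n : ℕ) : trunc j (blk f (j + 1) n) = blk f j n := by
  funext i
  unfold trunc blk
  by_cases h : i < j
  · simp [h, show i < j + 1 by omega]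
  · simp [h]

/-- **At least `m + 1` blocks of length `m` in every short interval.** -/
theorem blocks (hf : CM f) {q : ℕ} (hq : 1 ≤ q) (hfq : f q = -1) (m : ℕ) (x : ℝ) (hx : 0 < x) :
    m + 1 ≤ Set.ncard {s : Fin m → ℤ | ∃ n : ℕ, x ≤ n ∧
      (n : ℝ) ≤ x + (2 * Real.sqrt (q * 2 ^ m * x) + 5 * (q * 2 ^ m)) ∧
      ∀ i : Fin m, s i = f (n + i)} := by
  classical
  set L : ℝ := 2 * Real.sqrt (q * 2 ^ m * x) + 5 * (q * 2 ^ m) with hL
  have hL0 : 0 ≤ L := by positivity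
  set A : ℕ := ⌈x⌉₊ with hA
  set B : ℕ := ⌊x + L⌋₊ with hB
  have hA1 : 1 ≤ A := Nat.ceil_pos.mpr hx
  have hxA : x ≤ A := Nat.le_ceil _
  have hAx : (A : ℝ) < x + 1 := Nat.ceil_lt_add_one hx.le
  have hBx : x + L < B + 1 := Nat.lt_floor_add_one _
  have hq2 : 2 ≤ q := hf.two_le hq hfq
  have hAB : A ≤ B := by
    have h1 : (1 : ℝ) ≤ (2 : ℝ) ^ m := one_le_pow₀ (by norm_num)
    have h2 : (2 : ℝ) ≤ q := by exact_mod_cast hq2
    have h3 : (0 : ℝ) ≤ Real.sqrt (q * 2 ^ m * x) := Real.sqrt_nonneg _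
    have h4 : (A : ℝ) < B + 1 := by nlinarith
    have h5 : A < B + 1 := by exact_mod_cast h4
    omega
  let I := Icc A B
  let p : ℕ → ℕ := fun j => (I.image (blk f j)).card
  have himg : ∀ j, I.image (blk f j) = (I.image (blk f (j + 1))).image (trunc j) := by
    intro j
    rw [Finset.image_image]
    apply Finset.image_congr
    intro n _
    exact (trunc_blk f j n).symm
  have hmono : ∀ j, p j ≤ p (j + 1) := by
    intro j
    simp only [p]
    rw [himg j]
    exact Finset.card_image_le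
  have hstrict : ∀ j < m, p j < p (j + 1) := by
    intro j hj
    refine lt_of_le_of_ne (hmono j) ?_
    intro heq
    have hinj : Set.InjOn (trunc j) (I.image (blk f (j + 1)) : Finset (ℕ → ℤ)) := by
      rw [← Finset.card_image_iff, ← himg j]
      exact heq
    have hdet : ∀ n n', A ≤ n → n ≤ B → A ≤ n' → n' ≤ B → n ≡ n' [MOD 1] →
        (∀ i < j, f (n + i) = f (n' + i)) → f (n + j) = f (n' + j) := by
      intro n n' h1 h2 h1' h2' _ hbl
      have e1 : trunc j (blk f (j + 1) n) = trunc j (blk f (j + 1) n') := by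
        rw [trunc_blk, trunc_blk]
        funext i
        unfold blk
        by_cases h : i < j
        · simp [h, hbl i h]
        · simp [h]
      have e2 : blk f (j + 1) n = blk f (j + 1) n' :=
        hinj (by simp only [Finset.coe_image]; exact ⟨n, by simp [I, h1, h2], rfl⟩)
          (by simp only [Finset.coe_image]; exact ⟨n', by simp [I, h1', h2'], rfl⟩) e1
      have e3 := congrFun e2 j
      simpa [blk] using e3
    obtain ⟨D, hD1, hD2, hD3⟩ := det_period f j 1 A B le_rfl (fun n hn => hf.val n (by omega)) hdet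
    have hpow : 1 * 2 ^ j ≤ 2 ^ m := by
      rw [one_mul]; exact Nat.pow_le_pow_right (by norm_num) hj.le
    refine no_period' hf hq hfq (D := D) (N := 1 * 2 ^ j) (N0 := 2 ^ m) hD1 hD2 hpow x hx ?_
    intro u hu huB
    refine hD3 u hu ?_
    have : ⌊x + (2 * Real.sqrt (q * ((2 ^ m : ℕ) : ℝ) * x) + 5 * (q * ((2 ^ m : ℕ) : ℝ)))⌋₊ = B := by
      rw [hB, hL]; push_cast; rfl
    rw [this] at huB
    omega
  have hp : ∀ j ≤ m, j + 1 ≤ p j := by
    intro j
    induction j with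
    | zero =>
      intro _
      simp only [p]
      have : (I.image (blk f 0)).Nonempty := ⟨blk f 0 A, Finset.mem_image_of_mem _ (by simp [I, hAB])⟩
      have := Finset.card_pos.mpr this
      omega
    | succ j ih =>
      intro hj
      have h1 := ih (by omega)
      have h2 := hstrict j (by omega)
      omega
  have hpm := hp m le_rfl
  refine hpm.trans ?_
  -- the blocks of length `m`
  have hfin : ({s : Fin m → ℤ | ∃ n : ℕ, x ≤ n ∧ (n : ℝ) ≤ x + L ∧
      ∀ i : Fin m, s i = f (n + i)}) = ((I.image (blk f m)).image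
        (fun s => fun i : Fin m => s (i : ℕ)) : Finset (Fin m → ℤ)) := by
    ext s
    simp only [Set.mem_ofPred_eq, Finset.coe_image, Set.mem_image, Finset.mem_coe]
    constructor
    · rintro ⟨n, h1, h2, h3⟩
      refine ⟨blk f m n, ⟨n, ?_, rfl⟩, ?_⟩
      · simp only [I, Finset.mem_Icc]
        exact ⟨Nat.ceil_le.mpr h1, Nat.le_floor h2⟩
      · funext i
        rw [h3 i]
        simp [blk]
    · rintro ⟨_, ⟨n, hn, rfl⟩, rfl⟩
      simp only [I, Finset.mem_Icc] at hn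
      refine ⟨n, hxA.trans (by exact_mod_cast hn.1), ?_, ?_⟩
      · exact le_trans (by exact_mod_cast hn.2) (Nat.floor_le (by positivity))
      · intro i
        simp [blk]
  rw [hfin, Set.ncard_coe_finset]
  rw [Finset.card_image_of_injOn]
  intro s hs s' hs' h
  simp only [Finset.coe_image, Set.mem_image] at hs hs'
  obtain ⟨n, _, rfl⟩ := hs
  obtain ⟨n', _, rfl⟩ := hs'
  funext i
  by_cases hi : i < m
  · have := congrFun h ⟨i, hi⟩
    simpa using this
  · simp [blk, hi]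

end Pool.Agent.X273.SI
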