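import Mathlib

set_option autoImplicit false

/-!
Smooth numbers which are congruent modulo prime powers.
-/

namespace Pool.Agent.X273.Voj

open Finset

/-- a product of powers of the primes in `T` -/
def pw (T : Finset ℕ) (e : ℕ → ℕ) : ℕ := ∏ p ∈ T, p ^ e p

lemma pw_ne (T : Finset ℕ) (hT : ∀ p ∈ T, p.Prime) (e : ℕ → ℕ) : pw T e ≠ 0 :=
  Finset.prod_ne_zero_iff.2 fun p hp => pow_ne_zero _ (hT p hp).ne_zero

lemma pw_fact (T : Finset ℕ) (hT : ∀ p ∈ T, p.Prime) (e : ℕ → ℕ) (q : ℕ) (hq : q ∈ T) :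
    (pw T e).factorization q = e q := by
  unfold pw
  rw [Nat.factorization_prod fun p hp => pow_ne_zero _ (hT p hp).ne_zero]
  rw [Finsupp.finsetSum_apply, Finset.sum_eq_single q]
  · rw [Nat.factorization_pow, (hT q hq).factorization]
    simp
  · intro p hp hpq
    rw [Nat.factorization_pow, (hT p hp).factorization]
    simp [hpq]
  · intro h
    exact absurd hq h

/-- pigeonhole -/
lemma class_exists (T : Finset ℕ) (hT : ∀ p ∈ T, p.Prime) (E d M : ℕ) (hM : 0 < M)
    (h : M * d < E ^ T.card) :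
    ∃ C : Finset ℕ, d < C.card ∧ (∃ r : ZMod M, ∀ b ∈ C, (b : ZMod M) = r) ∧
      ∀ b ∈ C, ∃ e : ℕ → ℕ, (∀ p ∈ T, e p < E) ∧ b = pw T e := by
  classical
  have : NeZero M := ⟨hM.ne'⟩
  set ext : (T → Fin E) → ℕ → ℕ := fun e p => if hp : p ∈ T then (e ⟨p, hp⟩ : ℕ) else 0 with hext
  set f : (T → Fin E) → ZMod M := fun e => ((pw T (ext e) : ℕ) : ZMod M) with hf
  have hcard : (Finset.univ : Finset (ZMod M)).card * d <
      (Finset.univ : Finset (T → Fin E)).card := by
    rw [Finset.card_univ, ZMod.card, Finset.card_univ, Fintype.card_fun, Fintype.card_fin,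
      Fintype.card_coe]
    exact h
  obtain ⟨r, -, hr⟩ := Finset.exists_lt_card_fiber_of_mul_lt_card_of_maps_to
    (f := f) (fun a _ => Finset.mem_univ _) hcard
  have hinj : Function.Injective fun e : T → Fin E => pw T (ext e) := by
    intro e e' hee
    funext p
    have h1 := pw_fact T hT (ext e) p.1 p.2
    have h2 := pw_fact T hT (ext e') p.1 p.2
    simp only at hee
    rw [hee, h2] at h1
    simp only [hext, p.2, dif_pos] at h1
    exact Fin.ext h1.symm
  refine ⟨(Finset.univ.filter fun e => f e = r).image fun e => pw T (ext e), ?_, ⟨r, ?_⟩, ?_⟩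
  · rw [Finset.card_image_of_injective _ hinj]
    exact hr
  · intro b hb
    obtain ⟨e, he, rfl⟩ := Finset.mem_image.1 hb
    exact (Finset.mem_filter.1 he).2
  · intro b hb
    obtain ⟨e, he, rfl⟩ := Finset.mem_image.1 hb
    refine ⟨ext e, fun p hp => ?_, rfl⟩
    simp only [hext, hp, dif_pos]
    exact (e ⟨p, hp⟩).2

lemma pw_dvd (T : Finset ℕ) (E : ℕ) (e : ℕ → ℕ) (he : ∀ p ∈ T, e p < E) :
    pw T e ∣ (∏ p ∈ T, p) ^ E := by
  unfold pw
  rw [← Finset.prod_pow]
  exact Finset.prod_dvd_prod_of_dvd _ _ fun p hp => pow_dvd_pow _ (he p hp).le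

lemma pw_cop (T : Finset ℕ) (e : ℕ → ℕ) (hT : ∀ p ∈ T, p.Prime) (q N : ℕ) (hq : q.Prime)
    (hqT : q ∉ T) : Nat.Coprime (pw T e) (q ^ N) := by
  unfold pw
  refine Nat.Coprime.prod_left fun p hp => ?_
  refine Nat.Coprime.pow _ _ ((Nat.coprime_primes (hT p hp) hq).2 ?_)
  rintro rfl
  exact hqT hp

/-- the auxiliary primes -/
noncomputable def qq (i : ℕ) : ℕ := Nat.nth Nat.Prime i

lemma qq_prime (i : ℕ) : (qq i).Prime := Nat.prime_nth_prime i

lemma qq_inj : Function.Injective qq := Nat.nth_injective Nat.infinite_setOfPred_prime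

section assemble

variable (m : ℕ) (N : ℕ → ℕ)

/-- the modulus -/
noncomputable def MM : ℕ := ∏ i ∈ range m, qq i ^ N i

/-- the cofactor -/
noncomputable def CC (i : ℕ) : ℕ := ∏ j ∈ (range m).erase i, qq j ^ N j

lemma CC_mul (i : ℕ) (hi : i < m) : qq i ^ N i * CC m N i = MM m N :=
  Finset.mul_prod_erase (range m) (fun i => qq i ^ N i) (Finset.mem_range.2 hi)

lemma CC_ne (i : ℕ) : CC m N i ≠ 0 :=
  Finset.prod_ne_zero_iff.2 fun j _ => pow_ne_zero _ (qq_prime j).ne_zero

lemma MM_ne : MM m N ≠ 0 :=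
  Finset.prod_ne_zero_iff.2 fun j _ => pow_ne_zero _ (qq_prime j).ne_zero

lemma CC_cop (i : ℕ) : Nat.Coprime (CC m N i) (qq i ^ N i) := by
  unfold CC
  refine Nat.Coprime.prod_left fun j hj => ?_
  refine Nat.Coprime.pow _ _ ((Nat.coprime_primes (qq_prime j) (qq_prime i)).2 fun h => ?_)
  exact (Finset.mem_erase.1 hj).1 (qq_inj h)

lemma dvd_CC (i j : ℕ) (hi : i < m) (hij : i ≠ j) : qq i ^ N i ∣ CC m N j :=
  Finset.dvd_prod_of_mem _ (Finset.mem_erase.2 ⟨hij, Finset.mem_range.2 hi⟩)

lemma dvd_MM (i : ℕ) (hi : i < m) : qq i ^ N i ∣ MM m N :=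
  Finset.dvd_prod_of_mem (fun i => qq i ^ N i) (Finset.mem_range.2 hi)

lemma MM_dvd_pow : ∃ A : ℕ, MM m N ∣ (∏ i ∈ range m, qq i) ^ A := by
  refine ⟨∑ i ∈ range m, N i, ?_⟩
  unfold MM
  rw [← Finset.prod_pow]
  refine Finset.prod_dvd_prod_of_dvd _ _ fun i hi => pow_dvd_pow _ ?_
  exact Finset.single_le_sum (f := N) (fun _ _ => Nat.zero_le _) hi

end assemble

/-- The sets of coordinates. -/
theorem data (m n : ℕ) (hm : 1 ≤ m) (hmn : 2 * m ≤ n + 1) (d E : ℕ) (T : Finset ℕ)
    (hT : ∀ p ∈ T, p.Prime) (hTq : ∀ i < m, qq i ∉ T) (N : ℕ → ℕ)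
    (hN : ∀ i < m, qq i ^ N i * d < E ^ T.card) :
    ∃ C : Fin (n + 1) → Finset ℤ, (∀ l, d < (C l).card) ∧
      (∀ l, ∀ a ∈ C l, a ≠ 0 ∧ (∃ A : ℕ, a ∣ ((((∏ p ∈ T, p) * ∏ i ∈ range m, qq i : ℕ) : ℤ)) ^ A) ∧
        |a| ≤ ((MM m N * (∏ p ∈ T, p) ^ E : ℕ) : ℤ)) ∧
      ∀ x : Fin (n + 1) → ℤ, (∀ l, x l ∈ C l) → ∀ g : ℤ, (∀ l, g ∣ x l) →
        g * (MM m N : ℤ) ∣ ∑ l, x l := by
  classical
  have hcl : ∀ i : ℕ, ∃ C : Finset ℕ, i < m → d < C.card ∧
      (∃ r : ZMod (qq i ^ N i), ∀ b ∈ C, (b : ZMod (qq i ^ N i)) = r) ∧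
      ∀ b ∈ C, ∃ e : ℕ → ℕ, (∀ p ∈ T, e p < E) ∧ b = pw T e := by
    intro i
    by_cases hi : i < m
    · obtain ⟨C, hC⟩ := class_exists T hT E d (qq i ^ N i) (pow_pos (qq_prime i).pos _) (hN i hi)
      exact ⟨C, fun _ => hC⟩
    · exact ⟨∅, fun h => absurd h hi⟩
  choose cl hcl using hcl
  set P : ℕ := ∏ p ∈ T, p with hP
  set Q : ℕ := ∏ i ∈ range m, qq i with hQ
  have hPpos : 0 < P := Finset.prod_pos fun p hp => (hT p hp).pos
  -- the coefficient of the coordinate `l`
  set co : ℕ → ℤ := fun l => if l < 2 * m then (if l % 2 = 0 then (CC m N (l / 2) : ℤ) else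
    -(CC m N (l / 2) : ℤ)) else (MM m N : ℤ) with hco
  set bl : ℕ → ℕ := fun l => if l < 2 * m then l / 2 else 0 with hbl
  have hblm : ∀ l, bl l < m := by
    intro l
    simp only [hbl]
    split_ifs <;> omega
  have hco0 : ∀ l, co l ≠ 0 := by
    intro l
    simp only [hco]
    split_ifs
    · exact_mod_cast CC_ne m N _
    · exact neg_ne_zero.2 (by exact_mod_cast CC_ne m N _)
    · exact_mod_cast MM_ne m N
  have hcodvd : ∀ l, co l ∣ (MM m N : ℤ) := by
    intro l
    have h1 : ∀ i < m, (CC m N i : ℤ) ∣ (MM m N : ℤ) := by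
      intro i hi
      refine Int.natCast_dvd_natCast.2 ⟨qq i ^ N i, ?_⟩
      rw [← CC_mul m N i hi, mul_comm]
    simp only [hco]
    split_ifs
    · exact h1 _ (by omega)
    · exact (neg_dvd).2 (h1 _ (by omega))
    · exact dvd_rfl
  have hinj : ∀ l, Function.Injective fun b : ℕ => co l * (b : ℤ) := by
    intro l b b' h
    have := mul_left_cancel₀ (hco0 l) h
    exact_mod_cast this
  refine ⟨fun l => (cl (bl l)).image fun b : ℕ => co l * (b : ℤ), fun l => ?_, fun l a ha => ?_,
    fun x hx g hg => ?_⟩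
  · rw [Finset.card_image_of_injective _ (hinj l)]
    exact (hcl (bl l) (hblm l)).1
  · obtain ⟨b, hb, rfl⟩ := Finset.mem_image.1 ha
    obtain ⟨e, he, rfl⟩ := (hcl (bl l) (hblm l)).2.2 b hb
    have hdvd := pw_dvd T E e he
    refine ⟨mul_ne_zero (hco0 l) (by exact_mod_cast pw_ne T hT e), ?_, ?_⟩
    · obtain ⟨A, hA⟩ := MM_dvd_pow m N
      refine ⟨A + E, ?_⟩
      rw [pow_add]
      refine mul_dvd_mul ((hcodvd l).trans ?_) ?_
      · have h1 : MM m N ∣ (P * Q) ^ A := hA.trans (pow_dvd_pow_of_dvd (Dvd.intro_left P rfl) _)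
        exact_mod_cast h1
      · have h1 : pw T e ∣ (P * Q) ^ E := hdvd.trans (pow_dvd_pow_of_dvd (Dvd.intro Q rfl) _)
        exact_mod_cast h1
    · rw [abs_mul]
      push_cast
      have h1 : |co l| ≤ (MM m N : ℤ) :=
        Int.le_of_dvd (by exact_mod_cast Nat.pos_of_ne_zero (MM_ne m N))
          ((abs_dvd _ _).2 (hcodvd l))
      have h2 : |((pw T e : ℕ) : ℤ)| ≤ (P : ℤ) ^ E := by
        rw [Nat.abs_cast]
        exact_mod_cast Nat.le_of_dvd (pow_pos hPpos _) hdvd
      exact mul_le_mul h1 h2 (abs_nonneg _) (by positivity)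
  · -- each coordinate
    have hxl : ∀ l : Fin (n + 1), ∃ b ∈ cl (bl l), x l = co l * (b : ℤ) := by
      intro l
      obtain ⟨b, hb, h⟩ := Finset.mem_image.1 (hx l)
      exact ⟨b, hb, h.symm⟩
    have hcop : IsCoprime g (MM m N : ℤ) := by
      unfold MM
      push_cast
      refine IsCoprime.prod_right fun i hi => ?_
      have him := Finset.mem_range.1 hi
      obtain ⟨b, hb, hxb⟩ := hxl ⟨2 * i, by omega⟩
      have h1 : bl (2 * i) = i := by simp only [hbl]; split_ifs <;> omega
      have h2 : co (2 * i) = CC m N i := by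
        simp only [hco]
        rw [if_pos (by omega), if_pos (by omega)]
        congr 1
        rw [Nat.mul_div_cancel_left _ (by norm_num)]
      simp only at hb hxb
      rw [h1] at hb
      rw [h2] at hxb
      obtain ⟨e, he, rfl⟩ := (hcl i him).2.2 b hb
      refine IsCoprime.of_isCoprime_of_dvd_left ?_ (hg ⟨2 * i, by omega⟩)
      rw [hxb]
      refine IsCoprime.mul_left ?_ ?_
      · have := Nat.isCoprime_iff_coprime.2 (CC_cop m N i)
        push_cast at this
        exact this
      · have := Nat.isCoprime_iff_coprime.2 (pw_cop T e hT (qq i) (N i) (qq_prime i) (hTq i him))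
        push_cast at this
        exact this
    refine hcop.mul_dvd (Finset.dvd_sum fun l _ => hg l) ?_
    unfold MM
    push_cast
    refine Finset.prod_dvd_of_coprime ?_ fun i hi => ?_
    · intro i hi j hj hij
      refine IsCoprime.pow ?_
      exact Nat.isCoprime_iff_coprime.2 ((Nat.coprime_primes (qq_prime i) (qq_prime j)).2
        fun h => hij (qq_inj h))
    · have him := Finset.mem_range.1 hi
      have hz : (((∑ l, x l : ℤ)) : ZMod (qq i ^ N i)) = 0 := by
        push_cast
        rw [Fintype.sum_eq_add (⟨2 * i, by omega⟩ : Fin (n + 1)) (⟨2 * i + 1, by omega⟩)]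
        · obtain ⟨r, hr⟩ := (hcl i him).2.1
          obtain ⟨b, hb, hxb⟩ := hxl ⟨2 * i, by omega⟩
          obtain ⟨b', hb', hxb'⟩ := hxl ⟨2 * i + 1, by omega⟩
          have h1 : bl (2 * i) = i := by simp only [hbl]; split_ifs <;> omega
          have h1' : bl (2 * i + 1) = i := by simp only [hbl]; split_ifs <;> omega
          have h2 : co (2 * i) = CC m N i := by
            simp only [hco]
            rw [if_pos (by omega), if_pos (by omega)]
            congr 1
            rw [Nat.mul_div_cancel_left _ (by norm_num)]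
          have h2' : co (2 * i + 1) = -CC m N i := by
            simp only [hco]
            rw [if_pos (by omega), if_neg (by omega)]
            congr 2
            have : (2 * i + 1) / 2 = i := by omega
            rw [this]
          simp only at hb hxb hb' hxb'
          rw [h1] at hb
          rw [h1'] at hb'
          rw [hxb, hxb', h2, h2']
          push_cast
          rw [hr b hb, hr b' hb']
          ring
        · intro h
          have := congrArg Fin.val h
          simp at this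
        · intro l hl
          obtain ⟨b, hb, hxb⟩ := hxl l
          rw [hxb]
          have h3 : ((qq i ^ N i : ℕ) : ℤ) ∣ co l := by
            by_cases hl2 : (l : ℕ) < 2 * m
            · have hne : i ≠ (l : ℕ) / 2 := by
                intro h
                rcases Nat.mod_two_eq_zero_or_one (l : ℕ) with h0 | h0
                · exact hl.1 (Fin.ext (by simp only; omega))
                · exact hl.2 (Fin.ext (by simp only; omega))
              have h4 := Int.natCast_dvd_natCast.2 (dvd_CC m N i ((l : ℕ) / 2) him hne)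
              simp only [hco, if_pos hl2]
              split_ifs
              · exact h4
              · exact (dvd_neg).2 h4
            · simp only [hco, if_neg hl2]
              exact Int.natCast_dvd_natCast.2 (dvd_MM m N i him)
          rw [ZMod.intCast_zmod_eq_zero_iff_dvd]
          exact Dvd.dvd.mul_right h3 _
      rw [ZMod.intCast_zmod_eq_zero_iff_dvd] at hz
      push_cast at hz
      exact hz

end Pool.Agent.X273.Voj
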