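import Pool.Agent.X273.Voj1

set_option autoImplicit false

/-!
The choice of the parameters.
-/

namespace Pool.Agent.X273.Voj

open Finset Filter

lemma log_small {ε : ℝ} (hε : 0 < ε) : ∀ᶠ x : ℝ in atTop, Real.log x ≤ ε * x := by
  have h := Real.isLittleO_log_id_atTop.bound hε
  filter_upwards [h, eventually_ge_atTop 0] with x hx hx0
  simp only [id, Real.norm_eq_abs, abs_of_nonneg hx0] at hx
  exact (le_abs_self _).trans hx

lemma tend (m : ℕ) (hm : 1 ≤ m) (C : ℝ) :
    ∀ᶠ E : ℕ in atTop, C ≤ (E : ℝ) ^ m / Real.log E := by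
  have h1 : (0 : ℝ) < (|C| + 1)⁻¹ := by positivity
  filter_upwards [(log_small h1).natCast_atTop, eventually_ge_atTop 2] with E hE hE2
  have hE2' : (2 : ℝ) ≤ E := by exact_mod_cast hE2
  have hlog : 0 < Real.log E := Real.log_pos (by linarith)
  rw [le_div_iff₀ hlog]
  have h2 : (E : ℝ) ≤ (E : ℝ) ^ m := le_self_pow₀ (by linarith) (by omega)
  have h3 : C ≤ |C| + 1 := by linarith [le_abs_self C]
  calc C * Real.log E ≤ (|C| + 1) * Real.log E := mul_le_mul_of_nonneg_right h3 hlog.le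
    _ ≤ (|C| + 1) * ((|C| + 1)⁻¹ * E) := mul_le_mul_of_nonneg_left hE (by positivity)
    _ = E := by field_simp
    _ ≤ _ := h2

/-- There are many primes. -/
lemma primes_many (m : ℕ) (hm : 1 ≤ m) : ∀ᶠ E : ℕ in atTop, ∃ T : Finset ℕ,
    (∀ p ∈ T, p.Prime ∧ 3 * p ≤ E ^ m) ∧ (∀ i < m, qq i ∉ T) ∧
    T.card = ⌊(E : ℝ) ^ m / (24 * m * Real.log E)⌋₊ := by
  have hm' : (1 : ℝ) ≤ m := by exact_mod_cast hm
  have hlim : Tendsto (fun E : ℕ => E ^ m / 3) atTop atTop := by
    refine (Nat.tendsto_div_const_atTop (by norm_num)).comp ?_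
    exact tendsto_pow_atTop (by omega)
  have hev : ∀ᶠ E : ℕ in atTop, Real.log (((E ^ m / 3 : ℕ) : ℝ) + 1) ≤
      (1 / 16) * (((E ^ m / 3 : ℕ) : ℝ) + 1) := by
    have h := (log_small (show (0 : ℝ) < 1 / 16 by norm_num)).natCast_atTop
    have h2 := (tendsto_add_atTop_nat 1).comp hlim |>.eventually h
    filter_upwards [h2] with E hE
    simpa using hE
  filter_upwards [hev, hlim.eventually_ge_atTop 20, eventually_ge_atTop 3,
    tend m hm (24 * m * m)] with E h1 h2 h3 h4
  set y : ℕ := E ^ m / 3 with hy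
  set X : ℝ := (E : ℝ) ^ m with hX
  have hyX : (3 : ℝ) * y ≤ X := by
    have : 3 * y ≤ E ^ m := Nat.mul_div_le _ _
    rw [hX]
    exact_mod_cast this
  have hyX' : X ≤ 3 * y + 3 := by
    have : E ^ m ≤ 3 * y + 3 := by omega
    rw [hX]
    exact_mod_cast this
  have hy20 : (20 : ℝ) ≤ y := by exact_mod_cast h2
  have hE3 : (3 : ℝ) ≤ E := by exact_mod_cast h3
  have hlogE : 0 < Real.log E := Real.log_pos (by linarith)
  have hlogy : 0 < Real.log y := Real.log_pos (by linarith)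
  have hlogyX : Real.log y ≤ m * Real.log E := by
    rw [← Real.log_pow]
    exact Real.log_le_log (by linarith) (by rw [← hX]; linarith)
  have hpi := Chebyshev.pi_ge y
  rw [div_le_iff₀ hlogy] at hpi
  have hlog2 : (0.6 : ℝ) < Real.log 2 := by
    have := Real.log_two_gt_d9
    linarith
  have hnum : (y : ℝ) / 2 ≤ y * Real.log 2 - Real.log (y + 1) := by nlinarith
  -- the number of primes
  have hcount : X / (12 * m * Real.log E) ≤ (Nat.primeCounting y : ℝ) := by
    have hpi0 : (0 : ℝ) ≤ (Nat.primeCounting y : ℝ) := Nat.cast_nonneg _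
    rw [div_le_iff₀ (by positivity)]
    have h5 : (Nat.primeCounting y : ℝ) * Real.log y ≤
        (Nat.primeCounting y : ℝ) * (m * Real.log E) := mul_le_mul_of_nonneg_left hlogyX hpi0
    nlinarith
  classical
  set T0 : Finset ℕ := Nat.primesLE y \ (range m).image qq with hT0
  have hT0card : (Nat.primeCounting y : ℝ) - m ≤ (T0.card : ℝ) := by
    have h5 : (Nat.primesLE y).card - ((range m).image qq).card ≤ T0.card :=
      Finset.le_card_sdiff _ _
    have h6 : ((range m).image qq).card ≤ m := by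
      simpa using Finset.card_image_le (s := range m) (f := qq)
    have h7 : (Nat.primesLE y).card = Nat.primeCounting y := by
      rw [Nat.primeCounting, Nat.primeCounting', Nat.count_eq_card_filter_range]
      rfl
    have h8 : Nat.primeCounting y ≤ T0.card + m := by omega
    have : (Nat.primeCounting y : ℝ) ≤ T0.card + m := by exact_mod_cast h8
    linarith
  have hk : ⌊X / (24 * m * Real.log E)⌋₊ ≤ T0.card := by
    have h9 : X / (24 * m * Real.log E) ≤ (T0.card : ℝ) := by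
      refine le_trans ?_ hT0card
      have h10 : (m : ℝ) ≤ X / (24 * m * Real.log E) := by
        rw [le_div_iff₀ (by positivity)]
        rw [le_div_iff₀ hlogE] at h4
        nlinarith
      have h11 : X / (12 * m * Real.log E) = 2 * (X / (24 * m * Real.log E)) := by
        field_simp
        ring
      linarith
    exact Nat.floor_le_of_le h9
  obtain ⟨T, hT, hcard⟩ := Finset.exists_subset_card_eq hk
  refine ⟨T, fun p hp => ?_, fun i hi hiT => ?_, hcard⟩
  · have h5 := (Finset.mem_sdiff.1 (hT hp)).1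
    rw [Nat.mem_primesLE] at h5
    exact ⟨h5.2, by omega⟩
  · exact (Finset.mem_sdiff.1 (hT hiT)).2 (Finset.mem_image.2 ⟨i, Finset.mem_range.2 hi, rfl⟩)

/-- The data. -/
theorem int_data (m n : ℕ) (hm : 1 ≤ m) (hmn : 2 * m ≤ n + 1) (d : ℕ) :
    ∀ᶠ E : ℕ in atTop, ∃ (R M : ℕ) (C : Fin (n + 1) → Finset ℤ), 1 ≤ R ∧ 1 ≤ M ∧
      (∃ A : ℕ, (M : ℤ) ∣ (R : ℤ) ^ A) ∧ (∀ l, d < (C l).card) ∧
      (∀ l, ∀ a ∈ C l, a ≠ 0 ∧ (∃ A : ℕ, a ∣ (R : ℤ) ^ A) ∧
        Real.log |(a : ℝ)| ≤ (E : ℝ) ^ (m + 1)) ∧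
      (∀ x : Fin (n + 1) → ℤ, (∀ l, x l ∈ C l) → ∀ g : ℤ, (∀ l, g ∣ x l) →
        g * (M : ℤ) ∣ ∑ l, x l) ∧
      (1 / (48 * m)) * ((E : ℝ) ^ m / Real.log E) ≤ Real.log M - Real.log R := by
  have hm' : (1 : ℝ) ≤ m := by exact_mod_cast hm
  set D : ℕ := max d 1 with hD
  set K0 : ℝ := m * Real.log D + 2 * ∑ i ∈ range m, Real.log (qq i) with hK0
  filter_upwards [primes_many m hm, eventually_ge_atTop 3, tend m hm (48 * m * (K0 + 1)),
    tend m hm (24 * m * (D + 1))] with E hT h3 h4 h5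
  obtain ⟨T, hT1, hT2, hT3⟩ := hT
  set k : ℕ := ⌊(E : ℝ) ^ m / (24 * m * Real.log E)⌋₊ with hk
  set X : ℝ := (E : ℝ) ^ m with hX
  have hE3 : (3 : ℝ) ≤ E := by exact_mod_cast h3
  have hlogE : 1 ≤ Real.log E := by
    rw [Real.le_log_iff_exp_le (by linarith)]
    have := Real.exp_one_lt_d9
    linarith
  have hXpos : 0 < X := by positivity
  have hk1 : (k : ℝ) ≤ X / (24 * m * Real.log E) := Nat.floor_le (by positivity)
  have hk2 : X / (24 * m * Real.log E) - 1 ≤ (k : ℝ) := (Nat.sub_one_lt_floor _).le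
  have hkD : D + 1 ≤ k + 1 := by
    have h6 : ((D : ℝ) + 1) ≤ X / (24 * m * Real.log E) := by
      rw [le_div_iff₀ (by positivity)]
      rw [le_div_iff₀ (by linarith)] at h5
      nlinarith
    have h7 : ((D + 1 : ℕ) : ℝ) ≤ ((k + 1 : ℕ) : ℝ) := by push_cast; linarith
    exact_mod_cast h7
  have hDk : D < E ^ k := by
    have h6 : k < E ^ k := Nat.lt_pow_self (by omega)
    omega
  have hD1 : 1 ≤ D := le_max_right _ _
  -- the exponents of the modulus
  set N : ℕ → ℕ := fun i => Nat.log (qq i) ((E ^ k - 1) / D) with hN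
  have hdivpos : (E ^ k - 1) / D ≠ 0 := by
    have : 0 < (E ^ k - 1) / D := Nat.div_pos (by omega) (by omega)
    omega
  have hNle : ∀ i, qq i ^ N i * D ≤ E ^ k - 1 := by
    intro i
    have h6 : qq i ^ N i ≤ (E ^ k - 1) / D := Nat.pow_log_le_self _ hdivpos
    calc qq i ^ N i * D ≤ (E ^ k - 1) / D * D := Nat.mul_le_mul_right _ h6
      _ ≤ _ := Nat.div_mul_le_self _ _
  have hNge : ∀ i, E ^ k ≤ D * (qq i ^ N i * qq i) := by
    intro i
    have h6 : (E ^ k - 1) / D < qq i ^ (N i + 1) :=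
      Nat.lt_pow_succ_log_self (qq_prime i).one_lt _
    rw [pow_succ] at h6
    have h7 : E ^ k - 1 < D * ((E ^ k - 1) / D + 1) := by
      have := Nat.lt_mul_div_succ (E ^ k - 1) (show 0 < D by omega)
      exact this
    have h8 : D * ((E ^ k - 1) / D + 1) ≤ D * (qq i ^ N i * qq i) :=
      Nat.mul_le_mul_left _ h6
    have : 0 < E ^ k := by positivity
    omega
  have hNlt : ∀ i < m, qq i ^ N i * d < E ^ T.card := by
    intro i _
    rw [hT3]
    have h6 := hNle i
    have h7 : qq i ^ N i * d ≤ qq i ^ N i * D := Nat.mul_le_mul_left _ (le_max_left _ _)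
    have : 0 < E ^ k := by positivity
    omega
  obtain ⟨C, hC1, hC2, hC3⟩ := data m n hm hmn d E T (fun p hp => (hT1 p hp).1) hT2 N hNlt
  set P : ℕ := ∏ p ∈ T, p with hP
  set Q : ℕ := ∏ i ∈ range m, qq i with hQ
  have hPpos : 0 < P := Finset.prod_pos fun p hp => (hT1 p hp).1.pos
  have hQpos : 0 < Q := Finset.prod_pos fun i _ => (qq_prime i).pos
  have hMpos : 0 < MM m N := Nat.pos_of_ne_zero (MM_ne m N)
  -- logarithms
  have hlogP : Real.log P ≤ k * (m * Real.log E - 1) := by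
    rw [hP]
    push_cast
    rw [Real.log_prod (fun p hp => by exact_mod_cast (hT1 p hp).1.ne_zero)]
    have h6 : ∀ p ∈ T, Real.log (p : ℝ) ≤ m * Real.log E - 1 := by
      intro p hp
      have h7 : (3 : ℝ) * p ≤ X := by
        rw [hX]
        exact_mod_cast (hT1 p hp).2
      have h8 : (0 : ℝ) < p := by exact_mod_cast (hT1 p hp).1.pos
      have h9 : Real.log (3 * p) ≤ m * Real.log E := by
        rw [← Real.log_pow]
        exact Real.log_le_log (by positivity) h7
      rw [Real.log_mul (by norm_num) h8.ne'] at h9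
      have h10 : (1 : ℝ) ≤ Real.log 3 := by
        rw [Real.le_log_iff_exp_le (by norm_num)]
        have := Real.exp_one_lt_d9
        linarith
      linarith
    calc ∑ p ∈ T, Real.log (p : ℝ) ≤ ∑ p ∈ T, (m * Real.log E - 1) := Finset.sum_le_sum h6
      _ = _ := by rw [Finset.sum_const, nsmul_eq_mul, hT3]
  have hlogQ : Real.log Q = ∑ i ∈ range m, Real.log (qq i) := by
    rw [hQ]
    push_cast
    rw [Real.log_prod (fun i _ => by exact_mod_cast (qq_prime i).ne_zero)]
  have hlogM : Real.log (MM m N) = ∑ i ∈ range m, Real.log ((qq i ^ N i : ℕ) : ℝ) := by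
    unfold MM
    rw [Nat.cast_prod]
    rw [Real.log_prod (fun i _ => by exact_mod_cast pow_ne_zero _ (qq_prime i).ne_zero)]
  have hqpos : ∀ i, (0 : ℝ) < ((qq i ^ N i : ℕ) : ℝ) := fun i => by
    exact_mod_cast pow_pos (qq_prime i).pos _
  have hMi_ge : ∀ i, k * Real.log E - Real.log D - Real.log (qq i) ≤
      Real.log ((qq i ^ N i : ℕ) : ℝ) := by
    intro i
    have h6 : ((E : ℝ) ^ k) ≤ D * (((qq i ^ N i : ℕ) : ℝ) * qq i) := by exact_mod_cast hNge i
    have h7 : Real.log ((E : ℝ) ^ k) ≤ Real.log (D * (((qq i ^ N i : ℕ) : ℝ) * qq i)) :=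
      Real.log_le_log (by positivity) h6
    have hD0 : (D : ℝ) ≠ 0 := by exact_mod_cast (by omega : D ≠ 0)
    have hq0 : (qq i : ℝ) ≠ 0 := by exact_mod_cast (qq_prime i).ne_zero
    rw [Real.log_pow, Real.log_mul hD0 (mul_ne_zero (hqpos i).ne' hq0),
      Real.log_mul (hqpos i).ne' hq0] at h7
    linarith
  have hMi_le : ∀ i, Real.log ((qq i ^ N i : ℕ) : ℝ) ≤ k * Real.log E := by
    intro i
    rw [← Real.log_pow]
    refine Real.log_le_log (hqpos i) ?_
    have h6 := hNle i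
    have h7 : qq i ^ N i * 1 ≤ qq i ^ N i * D := Nat.mul_le_mul_left _ hD1
    have : qq i ^ N i ≤ E ^ k := by omega
    exact_mod_cast this
  have hM_ge : m * (k * Real.log E) - m * Real.log D - ∑ i ∈ range m, Real.log (qq i) ≤
      Real.log (MM m N) := by
    rw [hlogM]
    refine le_trans (le_of_eq ?_) (Finset.sum_le_sum fun i _ => hMi_ge i)
    rw [Finset.sum_sub_distrib, Finset.sum_const, nsmul_eq_mul, Finset.card_range]
    ring
  have hM_le : Real.log (MM m N) ≤ m * (k * Real.log E) := by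
    rw [hlogM]
    refine le_trans (Finset.sum_le_sum fun i _ => hMi_le i) (le_of_eq ?_)
    rw [Finset.sum_const, nsmul_eq_mul, Finset.card_range]
  have hkE : m * (k * Real.log E) ≤ X / 24 := by
    have h6 : (k : ℝ) * (24 * m * Real.log E) ≤ X := by
      rwa [le_div_iff₀ (by positivity)] at hk1
    linarith
  refine ⟨P * Q, MM m N, C, Nat.mul_pos hPpos hQpos, hMpos, ?_, hC1, fun l a ha => ?_, hC3, ?_⟩
  · obtain ⟨A, hA⟩ := MM_dvd_pow m N
    refine ⟨A, ?_⟩
    have h1 : MM m N ∣ (P * Q) ^ A := hA.trans (pow_dvd_pow_of_dvd (Dvd.intro_left P rfl) _)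
    exact_mod_cast h1
  · obtain ⟨ha0, ha1, ha2⟩ := hC2 l a ha
    refine ⟨ha0, ha1, ?_⟩
    have h6 : |(a : ℝ)| ≤ (MM m N : ℝ) * (P : ℝ) ^ E := by exact_mod_cast ha2
    have hP0 : (0 : ℝ) < P := by exact_mod_cast hPpos
    have hM0 : (0 : ℝ) < MM m N := by exact_mod_cast hMpos
    have h7 : Real.log |(a : ℝ)| ≤ Real.log ((MM m N : ℝ) * (P : ℝ) ^ E) :=
      Real.log_le_log (abs_pos.2 (by exact_mod_cast ha0)) h6
    rw [Real.log_mul hM0.ne' (pow_ne_zero _ hP0.ne'), Real.log_pow] at h7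
    have h8 : Real.log P ≤ X / 24 := by
      have : (0 : ℝ) ≤ k := Nat.cast_nonneg _
      nlinarith
    have h9 : (E : ℝ) ^ (m + 1) = X * E := by rw [hX, pow_succ]
    rw [h9]
    have h10 : (E : ℝ) * Real.log P ≤ E * (X / 24) := mul_le_mul_of_nonneg_left h8 (by linarith)
    nlinarith
  · rw [Nat.cast_mul, Real.log_mul (by exact_mod_cast hPpos.ne') (by exact_mod_cast hQpos.ne'),
      hlogQ]
    have h6 : (k : ℝ) - K0 ≤ Real.log (MM m N) - (Real.log P + ∑ i ∈ range m, Real.log (qq i)) := by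
      rw [hK0]
      nlinarith
    refine le_trans ?_ h6
    have h7 : X / (24 * m * Real.log E) = 2 * ((1 / (48 * m)) * (X / Real.log E)) := by
      field_simp
      norm_num
    have h8 : K0 + 1 ≤ (1 / (48 * m)) * (X / Real.log E) := by
      rw [div_mul_eq_mul_div, one_mul, le_div_iff₀ (by positivity)]
      linarith
    linarith

end Pool.Agent.X273.Voj
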