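import Pool.Agent.X273.Voj2
import Pool.Agent.W231.V.Arith
import Pool.Agent.W231.V.Geo

set_option autoImplicit false

/-!
Heights of vectors of integers over a number field.
-/

namespace Pool.Agent.X273.Voj

open NumberField IsDedekindDomain Height Finset Pool.Agent.W231.V

variable {K : Type*} [Field K] [NumberField K]

lemma fv_int (v : HeightOneSpectrum (𝓞 K)) (a : ℤ) : fv v (a : K) ≤ 1 := by
  have h := fv_nat (K := K) v a.natAbs
  rcases Int.natAbs_eq a with h1 | h1
  · rw [h1]
    simpa using h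
  · rw [h1]
    push_cast
    rw [AbsoluteValue.map_neg]
    simpa using h

lemma inf_int (w : InfinitePlace K) (a : ℤ) : w (a : K) = |(a : ℝ)| := by
  rw [← InfinitePlace.norm_embedding_eq, map_intCast, Complex.norm_intCast]

/-- a coprime vector of integers has a coordinate that is a unit at `v` -/
lemma exists_unit {ι : Type*} (x : ι → ℤ) (h : ∀ g : ℤ, (∀ l, g ∣ x l) → IsUnit g)
    (v : HeightOneSpectrum (𝓞 K)) : ∃ l, 1 ≤ fv v ((x l : ℤ) : K) := by
  by_contra hcon
  push Not at hcon
  let I : Ideal ℤ :=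
    { carrier := {a : ℤ | fv v (a : K) < 1}
      add_mem' := fun {a b} ha hb => by
        simp only [Set.mem_ofPred_eq] at ha hb ⊢
        push_cast
        exact (fv_na v _ _).trans_lt (max_lt ha hb)
      zero_mem' := by simp
      smul_mem' := fun c a ha => by
        simp only [Set.mem_ofPred_eq, smul_eq_mul] at ha ⊢
        push_cast
        rw [map_mul]
        calc fv v (c : K) * fv v (a : K) ≤ 1 * fv v (a : K) :=
              mul_le_mul_of_nonneg_right (fv_int v c) (apply_nonneg _ _)
          _ < 1 := by rwa [one_mul] }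
  have hI : ∀ a : ℤ, a ∈ I ↔ fv v (a : K) < 1 := fun a => Iff.rfl
  set g := Submodule.IsPrincipal.generator I with hg
  have h1 : IsUnit g := h g fun l => by
    rw [← Submodule.IsPrincipal.mem_iff_generator_dvd]
    exact (hI _).2 (hcon l)
  have h2 : g ∈ I := Submodule.IsPrincipal.generator_mem I
  have h3 : (1 : ℤ) ∈ I := by
    obtain ⟨u, hu⟩ := h1
    have h4 : (1 : ℤ) = (↑u⁻¹ : ℤ) * g := by rw [← hu, Units.inv_mul]
    rw [h4]
    exact I.mul_mem_left _ h2
  rw [hI] at h3
  simp at h3

/-- the height of a coprime vector of integers -/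
lemma logHeight_ge_of {ι : Type*} [Finite ι] [Nonempty ι] (x : ι → ℤ)
    (h : ∀ g : ℤ, (∀ l, g ∣ x l) → IsUnit g) (l0 : ι) (hl0 : x l0 ≠ 0) :
    (totalWeight K : ℝ) * Real.log |(x l0 : ℝ)| ≤ logHeight (fun l => ((x l : ℤ) : K)) := by
  classical
  have hx : (fun l => ((x l : ℤ) : K)) ≠ 0 := by
    intro h0
    have := congrFun h0 l0
    simp only [Pi.zero_apply, Int.cast_eq_zero] at this
    exact hl0 this
  have hpos : 0 < |(x l0 : ℝ)| := abs_pos.2 (by exact_mod_cast hl0)
  rw [logHeight_eq_log_mulHeight, ← Real.log_pow]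
  refine Real.log_le_log (by positivity) ?_
  rw [NumberField.mulHeight_eq hx]
  have h3 : |(x l0 : ℝ)| ^ totalWeight K ≤
      ∏ v : InfinitePlace K, (⨆ i, v ((x i : ℤ) : K)) ^ v.mult := by
    rw [totalWeight_eq_sum_mult, ← Finset.prod_pow_eq_pow_sum]
    refine Finset.prod_le_prod (fun w _ => by positivity) fun w _ => ?_
    refine pow_le_pow_left₀ hpos.le ?_ _
    rw [← inf_int w]
    exact le_ciSup (Set.finite_range fun i => w ((x i : ℤ) : K)).bddAbove l0
  have h4 : 1 ≤ (∏ᶠ v : FinitePlace K, ⨆ i, v ((x i : ℤ) : K)) := by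
    refine finprod_induction (fun y : ℝ => 1 ≤ y) le_rfl ?_ ?_
    · intro y z hy hz
      nlinarith
    · intro v
      obtain ⟨l, hl⟩ := exists_unit x h v.maximalIdeal
      rw [fv_apply, FinitePlace.mk_maximalIdeal] at hl
      exact hl.trans (le_ciSup (Set.finite_range fun i => v ((x i : ℤ) : K)).bddAbove l)
  calc |(x l0 : ℝ)| ^ totalWeight K = |(x l0 : ℝ)| ^ totalWeight K * 1 := (mul_one _).symm
    _ ≤ _ := mul_le_mul h3 h4 zero_le_one (le_trans (by positivity) h3)

lemma logHeight_int_le {ι : Type*} [Finite ι] [Nonempty ι] (x : ι → ℤ) (l0 : ι) (hl0 : x l0 ≠ 0)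
    (hmax : ∀ l, |x l| ≤ |x l0|) :
    logHeight (fun l => ((x l : ℤ) : K)) ≤ (totalWeight K : ℝ) * Real.log |(x l0 : ℝ)| := by
  refine logHeight_le_of ?_ (abs_pos.2 (by exact_mod_cast hl0)) ?_ ?_
  · intro h0
    have := congrFun h0 l0
    simp only [Pi.zero_apply, Int.cast_eq_zero] at this
    exact hl0 this
  · intro w i
    rw [inf_int]
    exact_mod_cast hmax i
  · intro v i
    exact fv_int v _

/-- The height of a linear combination of integers. -/
lemma logHeight₁_comb {ι : Type*} [Fintype ι] (β : ι → K) : ∃ C : ℝ, ∀ (x : ι → ℤ) (N : ℝ),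
    1 ≤ N → (∀ l, |(x l : ℝ)| ≤ N) →
    logHeight₁ (∑ l, β l * ((x l : ℤ) : K)) ≤ (totalWeight K : ℝ) * Real.log N + C := by
  set A : Fin 2 × Option ι → K := fun p => ![fun o : Option ι => o.elim 0 β,
    fun o : Option ι => o.elim 1 (fun _ => 0)] p.1 p.2 with hA
  refine ⟨totalWeight K * Real.log (Nat.card (Option ι)) + logHeight A, fun x N hN hx => ?_⟩
  set X : Option ι → K := fun o => ((o.elim 1 x : ℤ) : K) with hX
  have h1 := logHeight_linearMap_apply_le A X
  have h2 : (fun j => ∑ i, A (j, i) * X i) = ![∑ l, β l * ((x l : ℤ) : K), 1] := by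
    funext j
    fin_cases j <;> simp [hA, hX, Fintype.sum_option]
  rw [h2, ← logHeight₁_eq_logHeight] at h1
  have h3 : logHeight X ≤ (totalWeight K : ℝ) * Real.log N := by
    refine logHeight_le_of ?_ (by linarith) ?_ ?_
    · intro h
      have := congrFun h none
      simp [hX] at this
    · intro w i
      rw [hX]
      simp only
      rw [inf_int]
      cases i with
      | none => simpa using hN
      | some l => simpa using hx l
    · intro v i
      exact fv_int v _
  linarith

lemma logHeight₁_int {a : ℤ} (N : ℝ) (hN : 1 ≤ N) (ha : |(a : ℝ)| ≤ N) :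
    logHeight₁ ((a : ℤ) : K) ≤ (totalWeight K : ℝ) * Real.log N := by
  rw [logHeight₁_eq_logHeight]
  refine logHeight_le_of ?_ (by linarith) ?_ ?_
  · intro h
    have := congrFun h 1
    simp at this
  · intro w i
    fin_cases i
    · simpa only [Fin.zero_eta, Matrix.cons_val_zero, inf_int] using ha
    · simpa using hN
  · intro v i
    fin_cases i
    · simpa using fv_int v a
    · simp

/-- almost all primes are good for a finite family -/
lemma exists_good {κ : Type*} [Finite κ] (u : κ → K) :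
    ∃ T0 : Finset (HeightOneSpectrum (𝓞 K)), ∀ v ∉ T0, ∀ k, fv v (u k) ≤ 1 := by
  classical
  have hfin : {v : HeightOneSpectrum (𝓞 K) | ∃ k, u k ≠ 0 ∧ fv v (u k) ≠ 1}.Finite := by
    have h1 : {v : HeightOneSpectrum (𝓞 K) | ∃ k, u k ≠ 0 ∧ fv v (u k) ≠ 1} =
        ⋃ k, {v : HeightOneSpectrum (𝓞 K) | u k ≠ 0 ∧ fv v (u k) ≠ 1} := by
      ext v; simp
    rw [h1]
    refine Set.finite_iUnion fun k => ?_
    by_cases hk : u k = 0
    · simp [hk]
    · exact (fv_support_finite hk).subset fun v hv => hv.2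
  refine ⟨hfin.toFinset, fun v hv k => ?_⟩
  rw [Set.Finite.mem_toFinset] at hv
  simp only [Set.mem_ofPred_eq, not_exists, not_and, not_not] at hv
  by_cases hk : u k = 0
  · rw [hk, map_zero]; exact zero_le_one
  · exact (hv k hk).le

end Pool.Agent.X273.Voj
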