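import Pool.Agent.X273.Voj3

set_option autoImplicit false

/-!
The truncated counting function at the points with smooth coordinates.
-/

namespace Pool.Agent.X273.Voj

open NumberField IsDedekindDomain Height Finset Pool.Agent.W231.V

variable {K : Type*} [Field K] [NumberField K]

/-- the linear map -/
def lc {n : ℕ} (f : Fin (n + 1) → Fin (n + 1) → K) (z : Fin (n + 1) → K) : Fin (n + 1) → K :=
  fun j => ∑ l, z l * f l j

omit [NumberField K] in
lemma form_lc {n : ℕ} (f : Fin (n + 1) → Fin (n + 1) → K) (z c : Fin (n + 1) → K) :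
    ∑ j, c j * lc f z j = ∑ l, (∑ j, c j * f l j) * z l := by
  unfold lc
  simp only [Finset.mul_sum, Finset.sum_mul]
  rw [Finset.sum_comm]
  refine Finset.sum_congr rfl fun l _ => Finset.sum_congr rfl fun j _ => ?_
  ring

omit [NumberField K] in
lemma setup {n : ℕ} {ι : Type*} [Fintype ι] (L : ι → Fin (n + 1) → K)
    (hgp : ∀ I : Finset ι, I.card = n + 1 → LinearIndependent K (fun i : I => L i))
    (hr : n + 2 ≤ Fintype.card ι) : ∃ (e : Fin (n + 1) ↪ ι) (i0 : ι) (α : Fin (n + 1) → K)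
      (f : Fin (n + 1) → Fin (n + 1) → K), (∀ k, e k ≠ i0) ∧ (∀ l, α l ≠ 0) ∧
      (∀ k l, ∑ j, L (e k) j * f l j = if k = l then (α k)⁻¹ else 0) ∧
      (∀ l, ∑ j, L i0 j * f l j = 1) ∧ ∀ i l, (∀ k, e k ≠ i) → ∑ j, L i j * f l j ≠ 0 := by
  classical
  set E := (Fintype.equivFin ι).symm with hE
  let e : Fin (n + 1) ↪ ι := (Fin.castLEEmb (by omega)).trans E.toEmbedding
  set i0 : ι := E ⟨n + 1, by omega⟩ with hi0
  have hne : ∀ k, e k ≠ i0 := by
    intro k h
    have h1 : (Fin.castLEEmb (by omega) k : Fin (Fintype.card ι)) = ⟨n + 1, by omega⟩ :=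
      E.injective h
    have h2 := congrArg Fin.val h1
    simp only [Fin.castLEEmb_apply, Fin.val_castLE] at h2
    omega
  obtain ⟨f, hf1, hf2⟩ := exists_dual L hgp e
  have hα : ∀ l, ∑ j, L i0 j * f l j ≠ 0 := hf2 i0 hne
  refine ⟨e, i0, fun l => ∑ j, L i0 j * f l j, fun l j => (∑ j, L i0 j * f l j)⁻¹ * f l j, hne, hα,
    fun k l => ?_, fun l => ?_, fun i l hi => ?_⟩
  · have : ∀ j, L (e k) j * ((∑ j, L i0 j * f l j)⁻¹ * f l j) =
      (∑ j, L i0 j * f l j)⁻¹ * (L (e k) j * f l j) := fun j => by ring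
    rw [Finset.sum_congr rfl fun j _ => this j, ← Finset.mul_sum, hf1]
    split_ifs with h
    · rw [mul_one, h]
    · rw [mul_zero]
  · have : ∀ j, L i0 j * ((∑ j, L i0 j * f l j)⁻¹ * f l j) =
      (∑ j, L i0 j * f l j)⁻¹ * (L i0 j * f l j) := fun j => by ring
    rw [Finset.sum_congr rfl fun j _ => this j, ← Finset.mul_sum]
    exact inv_mul_cancel₀ (hα l)
  · have : ∀ j, L i j * ((∑ j, L i0 j * f l j)⁻¹ * f l j) =
      (∑ j, L i0 j * f l j)⁻¹ * (L i j * f l j) := fun j => by ring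
    rw [Finset.sum_congr rfl fun j _ => this j, ← Finset.mul_sum]
    exact mul_ne_zero (inv_ne_zero (hα l)) (hf2 i hi l)

lemma fv_lt_of_dvd_pow (v : HeightOneSpectrum (𝓞 K)) (a : ℤ) (R : ℕ) (A : ℕ)
    (h : a ∣ (R : ℤ) ^ A) (hv : fv v (a : K) < 1) : fv v ((R : ℕ) : K) < 1 := by
  obtain ⟨b, hb⟩ := h
  have h1 : ((R : ℕ) : K) ^ A = (a : K) * (b : K) := by exact_mod_cast congrArg (Int.cast : ℤ → K) hb
  by_contra hcon
  have h2 : 1 ≤ fv v ((R : ℕ) : K) ^ A := one_le_pow₀ (not_lt.1 hcon)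
  rw [← map_pow, h1, map_mul] at h2
  have h3 : fv v (a : K) * fv v (b : K) ≤ fv v (a : K) * 1 :=
    mul_le_mul_of_nonneg_left (fv_int v b) (apply_nonneg _ _)
  linarith

/-- The estimates for one point. -/
theorem arith {n : ℕ} {ι : Type*} [Fintype ι] (L : ι → Fin (n + 1) → K)
    (hr : n + 2 ≤ Fintype.card ι) (e : Fin (n + 1) ↪ ι) (i0 : ι) (α : Fin (n + 1) → K)
    (f : Fin (n + 1) → Fin (n + 1) → K) (he : ∀ k, e k ≠ i0) (hα : ∀ l, α l ≠ 0)
    (hf1 : ∀ k l, ∑ j, L (e k) j * f l j = if k = l then (α k)⁻¹ else 0)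
    (hf2 : ∀ l, ∑ j, L i0 j * f l j = 1) :
    ∃ C : ℝ, 0 ≤ C ∧ ∀ (x : Fin (n + 1) → ℤ) (R M : ℕ) (y : ℤ) (l0 : Fin (n + 1)), 1 ≤ R → 1 ≤ M →
      (∃ A : ℕ, (M : ℤ) ∣ (R : ℤ) ^ A) → (∀ l, ∃ A : ℕ, x l ∣ (R : ℤ) ^ A) →
      (∀ g : ℤ, (∀ l, g ∣ x l) → IsUnit g) → x l0 ≠ 0 → (∀ l, |x l| ≤ |x l0|) →
      ∑ l, x l = M * y → (∀ i, ∑ j, L i j * lc f (fun l => (x l : K)) j ≠ 0) →
      {v : HeightOneSpectrum (𝓞 K) | ∃ i, fv v (∑ j, L i j * lc f (fun l => (x l : K)) j) <
        (⨆ j, fv v (L i j)) * ⨆ j, fv v (lc f (fun l => (x l : K)) j)}.Finite ∧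
      logHeight (lc f (fun l => (x l : K))) ≤ (totalWeight K : ℝ) * Real.log |(x l0 : ℝ)| + C ∧
      ∀ T : Finset (HeightOneSpectrum (𝓞 K)), (∀ v ∈ T, ∃ i,
        fv v (∑ j, L i j * lc f (fun l => (x l : K)) j) <
          (⨆ j, fv v (L i j)) * ⨆ j, fv v (lc f (fun l => (x l : K)) j)) →
        ∑ v ∈ T, ell v + (totalWeight K : ℝ) * (Real.log M - Real.log R) ≤
          (Fintype.card ι - n - 1 : ℝ) * logHeight (lc f (fun l => (x l : K))) + C := by
  classical
  set O : Finset ι := univ \ (insert i0 (univ.map e)) with hO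
  have hOcard : (O.card : ℝ) + 1 = Fintype.card ι - n - 1 := by
    have h1 : (insert i0 (univ.map e) : Finset ι).card = n + 2 := by
      rw [card_insert_of_notMem, card_map, card_univ, Fintype.card_fin]
      intro h
      obtain ⟨k, -, hk⟩ := mem_map.1 h
      exact he k hk
    have h2 : O.card = Fintype.card ι - (n + 2) := by
      rw [hO, ← Finset.compl_eq_univ_sdiff, card_compl, h1]
    rw [h2, Nat.cast_sub hr]
    push_cast
    ring
  -- good primes
  obtain ⟨T1, hT1⟩ := exists_good (K := K) α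
  obtain ⟨T2, hT2⟩ := exists_good (K := K) fun p : Fin (n + 1) × Fin (n + 1) => f p.1 p.2
  obtain ⟨T3, hT3⟩ := exists_good (K := K) fun p : ι × Fin (n + 1) => L p.1 p.2
  set T0 := T1 ∪ T2 ∪ T3 with hT0
  have hg1 : ∀ v ∉ T0, ∀ l, fv v (α l) ≤ 1 := fun v hv l =>
    hT1 v (fun h => hv (by simp [hT0, h])) l
  have hg2 : ∀ v ∉ T0, ∀ l j, fv v (f l j) ≤ 1 := fun v hv l j =>
    hT2 v (fun h => hv (by simp [hT0, h])) (l, j)
  have hg3 : ∀ v ∉ T0, ∀ i j, fv v (L i j) ≤ 1 := fun v hv i j =>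
    hT3 v (fun h => hv (by simp [hT0, h])) (i, j)
  -- constants
  choose C3 hC3 using fun i : ι => logHeight₁_comb (K := K) fun l => ∑ j, L i j * f l j
  set A1 : Fin (n + 1) × Fin (n + 1) → K := fun p => f p.2 p.1 with hA1
  set C2 : ℝ := totalWeight K * Real.log (Nat.card (Fin (n + 1))) + logHeight A1 with hC2
  set A2 : Fin (n + 1) × Fin (n + 1) → K := fun p => α p.1 * L (e p.1) p.2 with hA2
  set C1 : ℝ := totalWeight K * Real.log (Nat.card (Fin (n + 1))) + logHeight A2 with hC1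
  set C0 : ℝ := ∑ v ∈ T0, ell v + totalWeight K * Real.log (n + 1) + ∑ i ∈ O, C3 i +
    (O.card + 1) * C1 with hC0
  refine ⟨|C0| + |C2|, by positivity, fun x R M y l0 hR hM hMR hxR hx hl0 hmax hsum hne => ?_⟩
  set z : Fin (n + 1) → K := fun l => (x l : K) with hz
  set P : Fin (n + 1) → K := lc f z with hP
  have hform : ∀ i, ∑ j, L i j * P j = ∑ l, (∑ j, L i j * f l j) * z l := fun i =>
    form_lc f z (L i)
  have hek : ∀ k, ∑ j, L (e k) j * P j = (α k)⁻¹ * z k := by
    intro k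
    rw [hform]
    simp only [hf1]
    simp
  have hi0 : ∑ j, L i0 j * P j = (M : K) * (y : K) := by
    rw [hform]
    simp only [hf2, one_mul, hz]
    exact_mod_cast congrArg (Int.cast : ℤ → K) hsum
  -- the height
  have hN1 : (1 : ℝ) ≤ |(x l0 : ℝ)| := by
    have : 1 ≤ |x l0| := Int.one_le_abs hl0
    exact_mod_cast this
  set N : ℝ := |(x l0 : ℝ)| with hN
  have hup : logHeight P ≤ (totalWeight K : ℝ) * Real.log N + C2 := by
    have h1 := logHeight_linearMap_apply_le A1 z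
    have h2 : (fun j => ∑ i, A1 (j, i) * z i) = P := by
      funext j
      simp only [hA1, hP, lc]
      exact Finset.sum_congr rfl fun l _ => mul_comm _ _
    rw [h2] at h1
    have h3 := logHeight_int_le (K := K) x l0 hl0 hmax
    rw [← hz, ← hN] at h3
    linarith
  have hdown : (totalWeight K : ℝ) * Real.log N ≤ logHeight P + C1 := by
    have h1 := logHeight_linearMap_apply_le A2 P
    have h2 : (fun j => ∑ i, A2 (j, i) * P i) = z := by
      funext k
      simp only [hA2]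
      have : ∀ i, α k * L (e k) i * P i = α k * (L (e k) i * P i) := fun i => by ring
      rw [Finset.sum_congr rfl fun i _ => this i, ← Finset.mul_sum, hek, ← mul_assoc,
        mul_inv_cancel₀ (hα k), one_mul]
    rw [h2] at h1
    have h3 := logHeight_ge_of (K := K) x hx l0 hl0
    rw [← hz, ← hN] at h3
    linarith
  -- the bad primes
  have hPle : ∀ v ∉ T0, (⨆ j, fv v (P j)) ≤ 1 := by
    intro v hv
    refine ciSup_le fun j => ?_
    rw [hP, lc]
    refine (IsNonarchimedean.finset_image_add_of_nonempty (f := fv v) (fv_na v)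
      (fun l => z l * f l j) (t := univ) univ_nonempty).elim fun l hl => ?_
    refine hl.2.trans ?_
    rw [map_mul]
    exact mul_le_one₀ (fv_int v _) (apply_nonneg _ _) (hg2 v hv l j)
  have hLle : ∀ v ∉ T0, ∀ i, (⨆ j, fv v (L i j)) ≤ 1 := fun v hv i =>
    ciSup_le fun j => hg3 v hv i j
  have hy0 : y ≠ 0 := by
    intro h
    apply hne i0
    rw [hi0, h]
    simp
  have hR0 : ((R : ℕ) : K) ≠ 0 := by exact_mod_cast (by omega : R ≠ 0)
  set u : Option (Option ι) → K := fun o => o.elim (R : K) fun o' => o'.elim (y : K)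
    fun i => ∑ j, L i j * P j with hu
  have hu0 : ∀ k, u k ≠ 0 := by
    intro k
    rcases k with _ | _ | i
    · exact hR0
    · simpa [hu] using hy0
    · exact hne i
  have hbad : ∀ v, (∃ i, fv v (∑ j, L i j * P j) < (⨆ j, fv v (L i j)) * ⨆ j, fv v (P j)) →
      v ∈ T0 ∨ ∃ k ∈ insertNone (insertNone O), fv v (u k) < 1 := by
    rintro v ⟨i, hi⟩
    by_cases hv : v ∈ T0
    · exact Or.inl hv
    right
    have h1 : fv v (∑ j, L i j * P j) < 1 := by
      refine hi.trans_le (mul_le_one₀ (hLle v hv i) ?_ (hPle v hv))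
      exact Real.iSup_nonneg fun j => apply_nonneg _ _
    by_cases hiO : i ∈ O
    · exact ⟨some (some i), by simp [hiO], h1⟩
    · rw [hO] at hiO
      simp only [mem_sdiff, mem_univ, true_and, not_not, mem_insert, mem_map] at hiO
      rcases hiO with rfl | ⟨k, hk⟩
      · rw [hi0, map_mul] at h1
        by_cases hy1 : fv v ((y : ℤ) : K) < 1
        · exact ⟨some none, by simp, hy1⟩
        · refine ⟨none, by simp, ?_⟩
          have h2 : fv v ((M : ℕ) : K) < 1 := by
            by_contra hcon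
            have : 1 ≤ fv v ((M : ℕ) : K) * fv v ((y : ℤ) : K) :=
              one_le_mul_of_one_le_of_one_le (not_lt.1 hcon) (not_lt.1 hy1)
            linarith
          obtain ⟨A, hA⟩ := hMR
          exact fv_lt_of_dvd_pow v (M : ℤ) R A hA (by simpa using h2)
      · refine ⟨none, by simp, ?_⟩
        rw [← hk, hek, map_mul, map_inv₀] at h1
        have h2 : fv v (z k) < 1 := by
          have h3 : 0 < fv v (α k) := AbsoluteValue.pos _ (hα k)
          have h4 : fv v (z k) < fv v (α k) := by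
            rw [inv_mul_lt_iff₀ h3, mul_one] at h1
            exact h1
          exact h4.trans_le (hg1 v hv k)
        obtain ⟨A, hA⟩ := hxR k
        exact fv_lt_of_dvd_pow v (x k) R A hA h2
  refine ⟨?_, ?_, fun T hT => ?_⟩
  · have h1 : {v : HeightOneSpectrum (𝓞 K) | ∃ i, fv v (∑ j, L i j * P j) <
        (⨆ j, fv v (L i j)) * ⨆ j, fv v (P j)} ⊆ (T0 : Set (HeightOneSpectrum (𝓞 K))) ∪
        ⋃ k, {v : HeightOneSpectrum (𝓞 K) | fv v (u k) ≠ 1} := by
      intro v hv
      rcases hbad v hv with h | ⟨k, -, hk⟩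
      · exact Or.inl h
      · exact Or.inr (Set.mem_iUnion.2 ⟨k, hk.ne⟩)
    exact ((Finset.finite_toSet T0).union (Set.finite_iUnion fun k =>
      fv_support_finite (hu0 k))).subset h1
  · have := le_abs_self C2
    have := abs_nonneg C0
    linarith
  · have h1 := sum_union_le (insertNone (insertNone O)) u (fun k _ => hu0 k) T0 T
      fun v hv => hbad v (hT v hv)
    rw [Finset.sum_insertNone, Finset.sum_insertNone] at h1
    simp only [hu, Option.elim] at h1
    have h2 : logHeight₁ ((R : ℕ) : K) = (totalWeight K : ℝ) * Real.log R := logHeight₁_nat hR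
    have hyN : |(y : ℝ)| * M ≤ (n + 1) * N := by
      have h5 : |(∑ l, x l : ℤ)| ≤ ∑ l : Fin (n + 1), |x l0| :=
        (Finset.abs_sum_le_sum_abs _ _).trans (Finset.sum_le_sum fun l _ => hmax l)
      rw [hsum, Finset.sum_const, card_univ, Fintype.card_fin, abs_mul, Nat.abs_cast,
        nsmul_eq_mul] at h5
      have h6 : (M : ℝ) * |(y : ℝ)| ≤ ((n + 1 : ℕ) : ℝ) * |(x l0 : ℝ)| := by exact_mod_cast h5
      push_cast at h6
      rw [hN]
      linarith
    have hM1 : (0 : ℝ) < M := by exact_mod_cast hM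
    have hy1 : (1 : ℝ) ≤ |(y : ℝ)| := by
      have : 1 ≤ |y| := Int.one_le_abs hy0
      exact_mod_cast this
    have h3 : logHeight₁ ((y : ℤ) : K) ≤ (totalWeight K : ℝ) *
        (Real.log (n + 1) + Real.log N - Real.log M) := by
      refine (logHeight₁_int |(y : ℝ)| hy1 le_rfl).trans ?_
      refine mul_le_mul_of_nonneg_left ?_ (Nat.cast_nonneg _)
      have h5 := Real.log_le_log (by positivity) hyN
      rw [Real.log_mul (by positivity) hM1.ne', Real.log_mul (by positivity) (by positivity)] at h5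
      linarith
    have h4 : ∑ i ∈ O, logHeight₁ (∑ j, L i j * P j) ≤
        ∑ i ∈ O, ((totalWeight K : ℝ) * Real.log N + C3 i) := by
      refine Finset.sum_le_sum fun i _ => ?_
      rw [hform]
      exact hC3 i x N hN1 fun l => by
        rw [hN]
        exact_mod_cast hmax l
    rw [Finset.sum_add_distrib, Finset.sum_const, nsmul_eq_mul] at h4
    rw [h2] at h1
    rw [← hOcard]
    have h6 : ((O.card : ℝ) + 1) * ((totalWeight K : ℝ) * Real.log N) ≤
        ((O.card : ℝ) + 1) * (logHeight P + C1) :=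
      mul_le_mul_of_nonneg_left hdown (by positivity)
    have h7 := le_abs_self C0
    have h8 := abs_nonneg C2
    have h9 : C0 = ∑ v ∈ T0, ell v + totalWeight K * Real.log (n + 1) + ∑ i ∈ O, C3 i +
      (O.card + 1) * C1 := hC0
    nlinarith

end Pool.Agent.X273.Voj
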