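import Pool.Agent.X273.Voj4

set_option autoImplicit false

/-!
The lower bound for the error term.
-/

namespace Pool.Agent.X273.Voj

open NumberField IsDedekindDomain Height Finset Pool.Agent.W231.V Filter

lemma eval_homog {σ R : Type*} [Fintype σ] [CommRing R] {G : MvPolynomial σ R} {δ : ℕ}
    (hG : G.IsHomogeneous δ) (g : R) (v : σ → R) :
    MvPolynomial.eval (fun j => g * v j) G = g ^ δ * MvPolynomial.eval v G := by
  rw [MvPolynomial.eval_eq', MvPolynomial.eval_eq', Finset.mul_sum]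
  refine Finset.sum_congr rfl fun d hd => ?_
  have h1 : ∑ i, d i = δ := by
    have h2 := hG (MvPolynomial.mem_support_iff.1 hd)
    rw [Finsupp.weight_apply, Finsupp.sum_fintype _ _ (by simp)] at h2
    simpa using h2
  have h2 : ∏ i, (g * v i) ^ d i = g ^ δ * ∏ i, v i ^ d i := by
    rw [← h1, ← Finset.prod_pow_eq_pow_sum, ← Finset.prod_mul_distrib]
    exact Finset.prod_congr rfl fun i _ => mul_pow _ _ _
  rw [h2]
  ring

variable {K : Type*} [Field K] [NumberField K]

/-- Schwartz–Zippel for the pulled back form -/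
lemma exists_int_point {n : ℕ} {ι : Type*} [Fintype ι] (L : ι → Fin (n + 1) → K)
    (hgp : ∀ I : Finset ι, I.card = n + 1 → LinearIndependent K (fun i : I => L i))
    (e : Fin (n + 1) ↪ ι) (i0 : ι) (α : Fin (n + 1) → K) (f : Fin (n + 1) → Fin (n + 1) → K)
    (hα : ∀ l, α l ≠ 0)
    (hf1 : ∀ k l, ∑ j, L (e k) j * f l j = if k = l then (α k)⁻¹ else 0)
    (hf2 : ∀ l, ∑ j, L i0 j * f l j = 1)
    (hf3 : ∀ i l, (∀ k, e k ≠ i) → ∑ j, L i j * f l j ≠ 0)
    {Ω : Type*} [Field Ω] [Algebra K Ω] (G : MvPolynomial (Fin (n + 1)) Ω) (hG : G ≠ 0) :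
    ∃ d : ℕ, ∀ C : Fin (n + 1) → Finset ℤ, (∀ l, d < (C l).card) →
      ∃ x : Fin (n + 1) → ℤ, (∀ l, x l ∈ C l) ∧
        MvPolynomial.eval (fun j => algebraMap K Ω (lc f (fun l => (x l : K)) j)) G ≠ 0 ∧
        ∀ i, ∑ j, L i j * lc f (fun l => (x l : K)) j ≠ 0 := by
  classical
  have : CharZero Ω := charZero_of_injective_algebraMap (algebraMap K Ω).injective
  set F : MvPolynomial (Fin (n + 1)) Ω := MvPolynomial.bind₁ (fun j => ∑ l,
    MvPolynomial.C (algebraMap K Ω (f l j)) * MvPolynomial.X l) G *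
    ∏ i, lf Ω (fun l => ∑ j, L i j * f l j) with hF
  have hev : ∀ z : Fin (n + 1) → K, MvPolynomial.eval (fun l => algebraMap K Ω (z l)) F =
      MvPolynomial.eval (fun j => algebraMap K Ω (lc f z j)) G *
        algebraMap K Ω (∏ i, ∑ j, L i j * lc f z j) := by
    intro z
    rw [hF, map_mul, map_prod]
    congr 1
    · rw [← MvPolynomial.coe_aeval_eq_eval, ← MvPolynomial.coe_aeval_eq_eval]
      simp only [RingHom.coe_coe]
      rw [MvPolynomial.aeval_bind₁]
      congr 2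
      funext j
      simp only [map_sum, map_mul, MvPolynomial.aeval_C, MvPolynomial.aeval_X, lc,
        Algebra.algebraMap_self, RingHom.id_apply]
      exact Finset.sum_congr rfl fun l _ => mul_comm _ _
    · rw [map_prod]
      refine Finset.prod_congr rfl fun i _ => ?_
      rw [lf_eval, form_lc]
  have hF0 : F ≠ 0 := by
    have hexc : ∀ k : ι, k ∈ (univ : Finset ι) → ∃ x : Fin (n + 1) → K, ∑ j, L k j * x j ≠ 0 := by
      intro i _
      by_cases hi : ∃ k, e k = i
      · obtain ⟨k, rfl⟩ := hi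
        refine ⟨f k, ?_⟩
        rw [hf1, if_pos rfl]
        exact inv_ne_zero (hα k)
      · push Not at hi
        exact ⟨f 0, hf3 i 0 hi⟩
    obtain ⟨p, hp1, hp2⟩ := exists_point (K := K) G hG univ L hexc
    set z : Fin (n + 1) → K := fun l => α l * ∑ j, L (e l) j * p j with hz
    have hzp : lc f z = p := by
      have h1 : lc f z - p = 0 := by
        refine gp_zero L hgp (univ.map e) (by simp) _ fun i hi => ?_
        obtain ⟨k, _, rfl⟩ := mem_map.1 hi
        have h2 : ∑ j, L (e k) j * (lc f z - p) j =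
            ∑ j, L (e k) j * lc f z j - ∑ j, L (e k) j * p j := by
          rw [← Finset.sum_sub_distrib]
          exact Finset.sum_congr rfl fun j _ => by rw [Pi.sub_apply]; ring
        rw [h2, form_lc]
        simp only [hf1, hz]
        simp only [ite_mul, zero_mul, Finset.sum_ite_eq, Finset.mem_univ, if_true]
        rw [← mul_assoc, inv_mul_cancel₀ (hα k), one_mul, sub_self]
      exact sub_eq_zero.1 h1
    intro h0
    have h3 := hev z
    rw [h0, map_zero, hzp] at h3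
    refine absurd h3.symm (mul_ne_zero hp1 ?_)
    rw [map_ne_zero]
    exact Finset.prod_ne_zero_iff.2 fun i _ => hp2 i (Finset.mem_univ i)
  refine ⟨F.totalDegree, fun C hC => ?_⟩
  by_contra hcon
  push Not at hcon
  apply hF0
  refine MvPolynomial.eq_zero_of_eval_zero_at_prod_finset F
    (fun l => (C l).image fun a : ℤ => (a : Ω)) (fun l => ?_) fun y hy => ?_
  · rw [Finset.card_image_of_injective _ Int.cast_injective]
    exact (MvPolynomial.degreeOf_le_totalDegree F l).trans_lt (hC l)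
  · choose x hx hxy using fun l => Finset.mem_image.1 (hy l)
    have hyx : y = fun l => algebraMap K Ω ((x l : ℤ) : K) := by
      funext l
      rw [← hxy l]
      simp
    rw [hyx, hev]
    by_cases h1 : MvPolynomial.eval (fun j => algebraMap K Ω (lc f (fun l => (x l : K)) j)) G = 0
    · rw [h1, zero_mul]
    · obtain ⟨i, hi⟩ := hcon x hx h1
      rw [Finset.prod_eq_zero (Finset.mem_univ i) hi, map_zero, mul_zero]

lemma lc_mul {n : ℕ} (f : Fin (n + 1) → Fin (n + 1) → K) (g : K) (z : Fin (n + 1) → K) :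
    lc f (fun l => g * z l) = fun j => g * lc f z j := by
  funext j
  simp only [lc, Finset.mul_sum, mul_assoc]

/-- the comparison of the error terms -/
lemma err_le (m D E : ℕ) (hm : 1 ≤ m) (hD : 1 ≤ D) (hE : 3 ≤ E) (h : ℝ) (h1 : Real.exp 2 ≤ h)
    (h2 : h ≤ 2 * D * (E : ℝ) ^ (m + 1)) :
    h ^ ((m : ℝ) / (m + 1)) / Real.log h ≤ 2 * D * ((E : ℝ) ^ m / Real.log E) := by
  have hm' : (1 : ℝ) ≤ m := by exact_mod_cast hm
  have hD' : (1 : ℝ) ≤ D := by exact_mod_cast hD
  have hE' : (3 : ℝ) ≤ E := by exact_mod_cast hE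
  set θ : ℝ := (m : ℝ) / (m + 1) with hθ
  have hθ0 : 0 < θ := by positivity
  have hθ1 : θ ≤ 1 := by
    rw [hθ, div_le_one (by positivity)]
    linarith
  have hθ2 : θ⁻¹ ≤ 2 := by
    rw [hθ, inv_div, div_le_iff₀ (by positivity)]
    linarith
  have hexp : Real.exp θ⁻¹ ≤ h := (Real.exp_le_exp.2 hθ2).trans h1
  set H : ℝ := 2 * D * (E : ℝ) ^ (m + 1) with hH
  have hh0 : 0 < h := (Real.exp_pos 2).trans_le h1
  have hH0 : 0 < H := hh0.trans_le h2
  have hlogh : 0 < Real.log h := by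
    have : (1 : ℝ) < h := (Real.one_lt_exp_iff.2 (by norm_num)).trans_le h1
    exact Real.log_pos this
  have hlogH : 0 < Real.log H := hlogh.trans_le (Real.log_le_log hh0 h2)
  have hanti : Real.log H / H ^ θ ≤ Real.log h / h ^ θ :=
    Real.log_div_self_rpow_antitoneOn hθ0 (Set.mem_Ici.2 hexp) (Set.mem_Ici.2 (hexp.trans h2)) h2
  have hstep : h ^ θ / Real.log h ≤ H ^ θ / Real.log H := by
    have e1 : 0 < h ^ θ := Real.rpow_pos_of_pos hh0 _
    have e2 : 0 < H ^ θ := Real.rpow_pos_of_pos hH0 _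
    rw [div_le_div_iff₀ e2 e1] at hanti
    rw [div_le_div_iff₀ hlogh hlogH]
    linarith
  refine hstep.trans ?_
  have hE0 : (0 : ℝ) < E := by linarith
  have e3 : H ^ θ ≤ 2 * D * (E : ℝ) ^ m := by
    rw [hH, Real.mul_rpow (by positivity) (by positivity)]
    refine mul_le_mul ?_ ?_ (by positivity) (by positivity)
    · calc (2 * (D : ℝ)) ^ θ ≤ (2 * (D : ℝ)) ^ (1 : ℝ) :=
            Real.rpow_le_rpow_of_exponent_le (by linarith) hθ1
        _ = _ := Real.rpow_one _
    · rw [← Real.rpow_natCast, ← Real.rpow_mul hE0.le, ← Real.rpow_natCast]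
      refine le_of_eq ?_
      congr 1
      rw [hθ]
      push_cast
      field_simp
  have hlogE : 0 < Real.log E := Real.log_pos (by linarith)
  have e4 : Real.log E ≤ Real.log H := by
    refine Real.log_le_log hE0 ?_
    have e5 : (E : ℝ) ≤ (E : ℝ) ^ (m + 1) := le_self_pow₀ (by linarith) (by omega)
    have e6 : 1 * (E : ℝ) ^ (m + 1) ≤ 2 * D * (E : ℝ) ^ (m + 1) :=
      mul_le_mul_of_nonneg_right (by linarith) (by positivity)
    linarith
  rw [← mul_div_assoc]
  exact div_le_div₀ (by positivity) e3 hlogE e4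

theorem core {n m : ℕ} (hm : 1 ≤ m) (hmn : 2 * m ≤ n + 1) {ι : Type*} [Fintype ι]
    (L : ι → Fin (n + 1) → K)
    (hgp : ∀ I : Finset ι, I.card = n + 1 → LinearIndependent K (fun i : I => L i))
    (hr : n + 2 ≤ Fintype.card ι) {Ω : Type*} [Field Ω] [Algebra K Ω]
    (G : MvPolynomial (Fin (n + 1)) Ω) (hG : G ≠ 0) {δ : ℕ} (hGδ : G.IsHomogeneous δ) (B : ℝ) :
    ∃ x : Fin (n + 1) → K, MvPolynomial.eval (fun j => algebraMap K Ω (x j)) G ≠ 0 ∧
      (∀ i, ∑ j, L i j * x j ≠ 0) ∧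
      {v : HeightOneSpectrum (𝓞 K) | ∃ i, fv v (∑ j, L i j * x j) <
        (⨆ j, fv v (L i j)) * ⨆ j, fv v (x j)}.Finite ∧ B ≤ logHeight x ∧
      ∀ T : Finset (HeightOneSpectrum (𝓞 K)), (∀ v ∈ T, ∃ i,
        fv v (∑ j, L i j * x j) < (⨆ j, fv v (L i j)) * ⨆ j, fv v (x j)) →
        ∑ v ∈ T, ell v + (1 / (192 * m)) *
          (logHeight x ^ ((m : ℝ) / (m + 1)) / Real.log (logHeight x)) ≤
          (Fintype.card ι - n - 1 : ℝ) * logHeight x := by
  classical
  obtain ⟨e, i0, α, f, he, hα, hf1, hf2, hf3⟩ := setup L hgp hr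
  obtain ⟨C, hC0, hC⟩ := arith L hr e i0 α f he hα hf1 hf2
  obtain ⟨d, hd⟩ := exists_int_point L hgp e i0 α f hα hf1 hf2 hf3 G hG
  have hm' : (1 : ℝ) ≤ m := by exact_mod_cast hm
  have hD1 : 1 ≤ totalWeight K := totalWeight_pos K
  have hD1' : (1 : ℝ) ≤ (totalWeight K : ℝ) := by exact_mod_cast hD1
  set D : ℝ := (totalWeight K : ℝ) with hD
  set c1 : ℝ := 1 / (48 * m) with hc1
  have hc1pos : 0 < c1 := by positivity
  set Q : ℝ := (Fintype.card ι - n - 1 : ℝ) with hQ
  have hQ1 : 1 ≤ Q := by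
    have : ((n + 2 : ℕ) : ℝ) ≤ Fintype.card ι := by exact_mod_cast hr
    push_cast at this
    linarith
  set B' : ℝ := max B (Real.exp 2) with hB'
  have hB'0 : 0 < B' := (Real.exp_pos 2).trans_le (le_max_right _ _)
  obtain ⟨E, hdata, h3, hE1, hE2, hE3⟩ := ((int_data m n hm hmn d).and
    ((eventually_ge_atTop 3).and ((tend m hm (2 * C / (D * c1))).and ((tend m hm C).and
      (tend m hm ((Q * B' + C) / (D * c1))))))).exists
  obtain ⟨R, M, S, hR, hM, hMR, hS1, hS2, hS3, hgain⟩ := hdata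
  obtain ⟨x, hx1, hx2, hx3⟩ := hd S hS1
  set X : ℝ := (E : ℝ) ^ m / Real.log E with hX
  have hE3' : (3 : ℝ) ≤ E := by exact_mod_cast h3
  have hlogE : 1 ≤ Real.log E := by
    rw [Real.le_log_iff_exp_le (by linarith)]
    have := Real.exp_one_lt_d9
    linarith
  -- divide by the gcd
  obtain ⟨x', hx'1, hx'2⟩ := Finset.extract_gcd (s := (univ : Finset (Fin (n + 1)))) x
    Finset.univ_nonempty
  set g : ℤ := univ.gcd x with hg
  have hx0 : ∀ l, x l ≠ 0 := fun l => (hS2 l _ (hx1 l)).1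
  have hxx' : ∀ l, x l = g * x' l := fun l => hx'1 l (Finset.mem_univ l)
  have hg0 : g ≠ 0 := by
    intro h
    have := hxx' 0
    rw [h, zero_mul] at this
    exact hx0 0 this
  have hx'0 : ∀ l, x' l ≠ 0 := by
    intro l h
    have := hxx' l
    rw [h, mul_zero] at this
    exact hx0 l this
  have hcop : ∀ g' : ℤ, (∀ l, g' ∣ x' l) → IsUnit g' := by
    intro g' hg'
    have h1 : g' ∣ univ.gcd x' := Finset.dvd_gcd fun l _ => hg' l
    rw [hx'2] at h1
    exact isUnit_of_dvd_one h1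
  obtain ⟨l0, hl0⟩ := Finite.exists_max fun l => |x' l|
  have hsum : ∃ y : ℤ, ∑ l, x' l = M * y := by
    have h1 := hS3 x hx1 g fun l => ⟨x' l, hxx' l⟩
    rw [Finset.sum_congr rfl fun l _ => hxx' l, ← Finset.mul_sum] at h1
    exact (mul_dvd_mul_iff_left hg0).1 h1
  obtain ⟨y, hy⟩ := hsum
  have hxR : ∀ l, ∃ A : ℕ, x' l ∣ (R : ℤ) ^ A := by
    intro l
    obtain ⟨A, hA⟩ := (hS2 l _ (hx1 l)).2.1
    exact ⟨A, (Dvd.intro_left g (hxx' l).symm).trans hA⟩
  have hlcx : lc f (fun l => (x l : K)) = fun j => (g : K) * lc f (fun l => (x' l : K)) j := by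
    rw [← lc_mul]
    congr 1
    funext l
    rw [hxx' l]
    push_cast
    rfl
  set P : Fin (n + 1) → K := lc f (fun l => (x' l : K)) with hP
  have hPne : ∀ i, ∑ j, L i j * P j ≠ 0 := by
    intro i h
    apply hx3 i
    rw [hlcx]
    have : ∀ j, L i j * ((g : K) * P j) = (g : K) * (L i j * P j) := fun j => by ring
    rw [Finset.sum_congr rfl fun j _ => this j, ← Finset.mul_sum, h, mul_zero]
  have hPG : MvPolynomial.eval (fun j => algebraMap K Ω (P j)) G ≠ 0 := by
    intro h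
    apply hx2
    rw [hlcx]
    simp only [map_mul]
    rw [eval_homog hGδ, h, mul_zero]
  obtain ⟨hfin, hup, hlow⟩ := hC x' R M y l0 hR hM hMR hxR hcop (hx'0 l0) hl0 hy hPne
  set h := logHeight P with hh
  -- the height of the integers
  have hN : Real.log |(x' l0 : ℝ)| ≤ (E : ℝ) ^ (m + 1) := by
    refine le_trans ?_ (hS2 l0 _ (hx1 l0)).2.2
    refine Real.log_le_log (abs_pos.2 (by exact_mod_cast hx'0 l0)) ?_
    have h1 : |x' l0| ≤ |x l0| := by
      rw [hxx' l0, abs_mul]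
      have : 1 ≤ |g| := Int.one_le_abs hg0
      nlinarith [abs_nonneg (x' l0)]
    exact_mod_cast h1
  have hXX : X ≤ (E : ℝ) ^ (m + 1) := by
    rw [hX, div_le_iff₀ (by linarith)]
    have h4 : (0 : ℝ) < (E : ℝ) ^ m := by positivity
    have h5 : (E : ℝ) ^ (m + 1) = (E : ℝ) ^ m * E := pow_succ _ _
    rw [h5]
    have h6 : (E : ℝ) ^ m * 1 ≤ (E : ℝ) ^ m * E * Real.log E := by
      rw [mul_assoc]
      refine mul_le_mul_of_nonneg_left ?_ h4.le
      nlinarith
    linarith
  have hhup : h ≤ 2 * D * (E : ℝ) ^ (m + 1) := by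
    have h4 : D * Real.log |(x' l0 : ℝ)| ≤ D * (E : ℝ) ^ (m + 1) :=
      mul_le_mul_of_nonneg_left hN (by linarith)
    have h5 : C ≤ (E : ℝ) ^ (m + 1) := hE2.trans hXX
    have h6 : 1 * (E : ℝ) ^ (m + 1) ≤ D * (E : ℝ) ^ (m + 1) :=
      mul_le_mul_of_nonneg_right hD1' (by positivity)
    linarith
  have hgain' : D * (c1 * X) ≤ D * (Real.log M - Real.log R) :=
    mul_le_mul_of_nonneg_left hgain (by linarith)
  rw [div_le_iff₀ (by positivity)] at hE1 hE3
  have hhB : B' ≤ h := by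
    have h4 := hlow ∅ (by simp)
    rw [Finset.sum_empty, zero_add] at h4
    have h5 : Q * B' ≤ Q * h := by nlinarith
    exact le_of_mul_le_mul_left h5 (by linarith)
  refine ⟨P, hPG, hPne, hfin, (le_max_left _ _).trans hhB, fun T hT => ?_⟩
  have h4 := hlow T hT
  have h5 := err_le m (totalWeight K) E hm hD1 h3 h ((le_max_right _ _).trans hhB) hhup
  have h6 : (1 / (192 * m)) * (h ^ ((m : ℝ) / (m + 1)) / Real.log h) ≤
      (1 / (192 * m)) * (2 * D * X) := mul_le_mul_of_nonneg_left h5 (by positivity)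
  have h7 : (1 / (192 * m)) * (2 * D * X) = (D * (c1 * X)) / 2 := by
    rw [hc1]
    field_simp
    ring
  linarith

end Pool.Agent.X273.Voj
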