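import Pool.Agent.X273.Voj2

set_option autoImplicit false

/-!
One class of smooth numbers.
-/

namespace Pool.Agent.X273.Voj

open Finset Filter

/-- Smooth numbers that are congruent modulo `2 ^ t`. -/
theorem class_data (n : ℕ) (hn : 1 ≤ n) (d : ℕ) :
    ∀ᶠ E : ℕ in atTop, ∃ (P t : ℕ) (A : Finset ℕ), 1 ≤ P ∧ Odd P ∧ d < A.card ∧
      (∀ a ∈ A, a ∣ P ^ E) ∧ (∀ a ∈ A, ∀ b ∈ A, (2 ^ t : ℤ) ∣ (a : ℤ) - b) ∧
      n * (E * Real.log P) ≤ n * (E : ℝ) ^ (n + 1) ∧
      (1 / (48 * n)) * ((E : ℝ) ^ n / Real.log E) ≤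
        n * (t * Real.log 2) - (Real.log P + Real.log 2) := by
  have hn' : (1 : ℝ) ≤ n := by exact_mod_cast hn
  set D : ℕ := max d 1 with hD
  set K0 : ℝ := n * Real.log D + (n + 1) * Real.log 2 with hK0
  have hq0 : qq 0 = 2 := Nat.nth_prime_zero_eq_two
  filter_upwards [primes_many n hn, eventually_ge_atTop 3, tend n hn (48 * n * (K0 + 1)),
    tend n hn (24 * n * (D + 1))] with E hT h3 h4 h5
  obtain ⟨T, hT1, hT2, hT3⟩ := hT
  set k : ℕ := ⌊(E : ℝ) ^ n / (24 * n * Real.log E)⌋₊ with hk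
  set X : ℝ := (E : ℝ) ^ n with hX
  have hE3 : (3 : ℝ) ≤ E := by exact_mod_cast h3
  have hlogE : 1 ≤ Real.log E := by
    rw [Real.le_log_iff_exp_le (by linarith)]
    have := Real.exp_one_lt_d9
    linarith
  have hXpos : 0 < X := by positivity
  have hk1 : (k : ℝ) ≤ X / (24 * n * Real.log E) := Nat.floor_le (by positivity)
  have hk2 : X / (24 * n * Real.log E) - 1 ≤ (k : ℝ) := (Nat.sub_one_lt_floor _).le
  have hkD : D + 1 ≤ k + 1 := by
    have h6 : ((D : ℝ) + 1) ≤ X / (24 * n * Real.log E) := by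
      rw [le_div_iff₀ (by positivity)]
      rw [le_div_iff₀ (by linarith)] at h5
      nlinarith
    have h7 : ((D + 1 : ℕ) : ℝ) ≤ ((k + 1 : ℕ) : ℝ) := by push_cast; linarith
    exact_mod_cast h7
  have hDk : D < E ^ k := by
    have h6 : k < E ^ k := Nat.lt_pow_self (by omega)
    omega
  have hD1 : 1 ≤ D := le_max_right _ _
  set t : ℕ := Nat.log 2 ((E ^ k - 1) / D) with ht
  have hdivpos : (E ^ k - 1) / D ≠ 0 := by
    have : 0 < (E ^ k - 1) / D := Nat.div_pos (by omega) (by omega)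
    omega
  have hNle : 2 ^ t * D ≤ E ^ k - 1 := by
    have h6 : 2 ^ t ≤ (E ^ k - 1) / D := Nat.pow_log_le_self _ hdivpos
    calc 2 ^ t * D ≤ (E ^ k - 1) / D * D := Nat.mul_le_mul_right _ h6
      _ ≤ _ := Nat.div_mul_le_self _ _
  have hNge : E ^ k ≤ D * (2 ^ t * 2) := by
    have h6 : (E ^ k - 1) / D < 2 ^ (t + 1) := Nat.lt_pow_succ_log_self (by norm_num) _
    rw [pow_succ] at h6
    have h7 : E ^ k - 1 < D * ((E ^ k - 1) / D + 1) :=
      Nat.lt_mul_div_succ (E ^ k - 1) (show 0 < D by omega)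
    have h8 : D * ((E ^ k - 1) / D + 1) ≤ D * (2 ^ t * 2) := Nat.mul_le_mul_left _ h6
    have : 0 < E ^ k := by positivity
    omega
  have hNlt : 2 ^ t * d < E ^ T.card := by
    rw [hT3]
    have h7 : 2 ^ t * d ≤ 2 ^ t * D := Nat.mul_le_mul_left _ (le_max_left _ _)
    have : 0 < E ^ k := by positivity
    omega
  have hTp : ∀ p ∈ T, p.Prime := fun p hp => (hT1 p hp).1
  obtain ⟨A, hA1, ⟨r, hr⟩, hA3⟩ := class_exists T hTp E d (2 ^ t) (by positivity) hNlt
  set P : ℕ := ∏ p ∈ T, p with hP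
  have hPpos : 0 < P := Finset.prod_pos fun p hp => (hT1 p hp).1.pos
  have h2T : 2 ∉ T := by
    have := hT2 0 (by omega)
    rwa [hq0] at this
  have hPodd : Odd P := by
    refine Finset.prod_induction _ Odd (fun a b ha hb => ha.mul hb) odd_one fun p hp => ?_
    refine (hTp p hp).odd_of_ne_two ?_
    rintro rfl
    exact h2T hp
  have hlogP : Real.log P ≤ k * (n * Real.log E - 1) := by
    rw [hP]
    push_cast
    rw [Real.log_prod (fun p hp => by exact_mod_cast (hT1 p hp).1.ne_zero)]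
    have h6 : ∀ p ∈ T, Real.log (p : ℝ) ≤ n * Real.log E - 1 := by
      intro p hp
      have h7 : (3 : ℝ) * p ≤ X := by
        rw [hX]
        exact_mod_cast (hT1 p hp).2
      have h8 : (0 : ℝ) < p := by exact_mod_cast (hT1 p hp).1.pos
      have h9 : Real.log (3 * p) ≤ n * Real.log E := by
        rw [← Real.log_pow]
        exact Real.log_le_log (by positivity) h7
      rw [Real.log_mul (by norm_num) h8.ne'] at h9
      have h10 : (1 : ℝ) ≤ Real.log 3 := by
        rw [Real.le_log_iff_exp_le (by norm_num)]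
        have := Real.exp_one_lt_d9
        linarith
      linarith
    calc ∑ p ∈ T, Real.log (p : ℝ) ≤ ∑ p ∈ T, (n * Real.log E - 1) := Finset.sum_le_sum h6
      _ = _ := by rw [Finset.sum_const, nsmul_eq_mul, hT3]
  have ht_ge : k * Real.log E - Real.log D - Real.log 2 ≤ t * Real.log 2 := by
    have h6 : ((E : ℝ) ^ k) ≤ D * ((2 : ℝ) ^ t * 2) := by exact_mod_cast hNge
    have h7 : Real.log ((E : ℝ) ^ k) ≤ Real.log (D * ((2 : ℝ) ^ t * 2)) :=
      Real.log_le_log (by positivity) h6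
    have hD0 : (D : ℝ) ≠ 0 := by exact_mod_cast (by omega : D ≠ 0)
    rw [Real.log_pow, Real.log_mul hD0 (by positivity), Real.log_mul (by positivity) (by norm_num),
      Real.log_pow] at h7
    linarith
  have hkE : n * (k * Real.log E) ≤ X / 24 := by
    have h6 : (k : ℝ) * (24 * n * Real.log E) ≤ X := by
      rwa [le_div_iff₀ (by positivity)] at hk1
    linarith
  refine ⟨P, t, A, hPpos, hPodd, hA1, fun a ha => ?_, fun a ha b hb => ?_, ?_, ?_⟩
  · obtain ⟨e, he, rfl⟩ := hA3 a ha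
    exact pw_dvd T E e he
  · have h6 : ((a : ℤ) : ZMod (2 ^ t)) = ((b : ℤ) : ZMod (2 ^ t)) := by
      push_cast
      rw [hr a ha, hr b hb]
    rw [← sub_eq_zero, ← Int.cast_sub, ZMod.intCast_zmod_eq_zero_iff_dvd] at h6
    push_cast at h6
    exact h6
  · have h8 : Real.log P ≤ X / 24 := by
      have : (0 : ℝ) ≤ k := Nat.cast_nonneg _
      nlinarith
    have h9 : (E : ℝ) ^ (n + 1) = E * X := by rw [hX, pow_succ, mul_comm]
    rw [h9]
    refine mul_le_mul_of_nonneg_left (mul_le_mul_of_nonneg_left ?_ (by linarith)) (by linarith)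
    linarith
  · have h6 : (k : ℝ) - K0 ≤ n * (t * Real.log 2) - (Real.log P + Real.log 2) := by
      have h7 : (n : ℝ) * (k * Real.log E - Real.log D - Real.log 2) ≤ n * (t * Real.log 2) :=
        mul_le_mul_of_nonneg_left ht_ge (by linarith)
      rw [hK0]
      nlinarith
    refine le_trans ?_ h6
    have h7 : X / (24 * n * Real.log E) = 2 * ((1 / (48 * n)) * (X / Real.log E)) := by
      field_simp
      norm_num
    have h8 : K0 + 1 ≤ (1 / (48 * n)) * (X / Real.log E) := by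
      rw [div_mul_eq_mul_div, one_mul, le_div_iff₀ (by positivity)]
      linarith
    linarith

end Pool.Agent.X273.Voj
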