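import Pool.Agent.X273.Voj4

set_option autoImplicit false

/-!
The truncated counting function for `n + 2` hyperplanes and a hypersurface.
-/

namespace Pool.Agent.X273.Voj

open NumberField IsDedekindDomain Height Finset Pool.Agent.W231.V

variable {K : Type*} [Field K] [NumberField K]

/-- `v` meets the divisor `∏ L i * F = 0` at the point `x` -/
def Meets {n e : ℕ} (L : Fin (n + 2) → Fin (n + 1) → K) (F : MvPolynomial (Fin (n + 1)) K)
    (x : Fin (n + 1) → K) (v : HeightOneSpectrum (𝓞 K)) : Prop :=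
  (∃ i, fv v (∑ j, L i j * x j) < (⨆ j, fv v (L i j)) * ⨆ j, fv v (x j)) ∨
    fv v (MvPolynomial.eval x F) < (⨆ s : F.support, fv v (F.coeff s)) * (⨆ j, fv v (x j)) ^ e

lemma fv_lt_of_dvd_pow' (v : HeightOneSpectrum (𝓞 K)) (a : ℤ) (R : ℕ) (Y : ℤ) (A : ℕ)
    (h : a ∣ ((R : ℤ) * Y) ^ A) (hv : fv v (a : K) < 1) :
    fv v ((R : ℕ) : K) < 1 ∨ fv v (Y : K) < 1 := by
  obtain ⟨b, hb⟩ := h
  have h1 : (((R : ℕ) : K) * (Y : K)) ^ A = (a : K) * (b : K) := by
    exact_mod_cast congrArg (Int.cast : ℤ → K) hb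
  by_contra hcon
  push Not at hcon
  have h2 : 1 ≤ fv v (((R : ℕ) : K) * (Y : K)) ^ A := by
    refine one_le_pow₀ ?_
    rw [map_mul]
    exact one_le_mul_of_one_le_of_one_le hcon.1 hcon.2
  rw [← map_pow, h1, map_mul] at h2
  have h3 : fv v (a : K) * fv v (b : K) ≤ fv v (a : K) * 1 :=
    mul_le_mul_of_nonneg_left (fv_int v b) (apply_nonneg _ _)
  linarith

/-- The height of the value of a form. -/
lemma logHeight₁_form {n e : ℕ} (f : Fin (n + 1) → Fin (n + 1) → K)
    (F : MvPolynomial (Fin (n + 1)) K) (hF : F.IsHomogeneous e) :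
    ∃ C : ℝ, ∀ (x : Fin (n + 1) → ℤ) (N : ℝ), 1 ≤ N → (∀ l, |(x l : ℝ)| ≤ N) →
      logHeight₁ (MvPolynomial.eval (lc f (fun l => (x l : K))) F) ≤
        (totalWeight K : ℝ) * (e * Real.log N) + C := by
  classical
  set A : Option (Fin (n + 1)) × Option (Fin (n + 1)) → K := fun p =>
    p.1.elim (p.2.elim 1 fun _ => 0) fun j => p.2.elim 0 fun l => f l j with hA
  set p : Fin 2 → MvPolynomial (Option (Fin (n + 1))) K :=
    ![MvPolynomial.rename some F, MvPolynomial.X none ^ e] with hp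
  have hph : ∀ i, (p i).IsHomogeneous e := by
    intro i
    fin_cases i
    · exact hF.rename_isHomogeneous
    · have h := (MvPolynomial.isHomogeneous_X K (none : Option (Fin (n + 1)))).pow e
      rw [one_mul] at h
      exact h
  set C1 : ℝ := totalWeight K * Real.log (Nat.card (Option (Fin (n + 1)))) + logHeight A with hC1
  refine ⟨Real.log (max (mulHeightBound p) 1) + e * C1, fun x N hN hx => ?_⟩
  set X : Option (Fin (n + 1)) → K := fun o => ((o.elim 1 x : ℤ) : K) with hX
  have h1 := logHeight_linearMap_apply_le A X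
  set Y : Option (Fin (n + 1)) → K := fun j => ∑ i, A (j, i) * X i with hY
  have hYnone : Y none = 1 := by
    simp [hY, hA, hX, Fintype.sum_option]
  have hYsome : ∀ j, Y (some j) = lc f (fun l => (x l : K)) j := by
    intro j
    simp only [hY, hA, hX, Fintype.sum_option, Option.elim, lc]
    simp [mul_comm]
  have h3 : logHeight X ≤ (totalWeight K : ℝ) * Real.log N := by
    refine logHeight_le_of ?_ (by linarith) ?_ ?_
    · intro h
      have := congrFun h none
      simp [hX] at this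
    · intro w i
      rw [hX]
      simp only
      rw [inf_int]
      cases i with
      | none => simpa using hN
      | some l => simpa using hx l
    · intro v i
      exact fv_int v _
  have h4 : logHeight (fun j => (p j).eval Y) ≤
      Real.log (max (mulHeightBound p) 1) + e * logHeight Y := by
    have h5 := mulHeight_eval_le hph Y
    rw [logHeight_eq_log_mulHeight, logHeight_eq_log_mulHeight, ← Real.log_pow,
      ← Real.log_mul (by positivity) (pow_ne_zero _ (mulHeight_pos Y).ne')]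
    exact Real.log_le_log (mulHeight_pos _) h5
  have h6 : (fun j => (p j).eval Y) = ![MvPolynomial.eval (lc f (fun l => (x l : K))) F, 1] := by
    funext j
    fin_cases j
    · simp only [hp, Fin.zero_eta, Matrix.cons_val_zero, MvPolynomial.eval_rename]
      congr 1
      congr 1
      funext j
      exact hYsome j
    · simp [hp, hYnone]
  rw [h6, ← logHeight₁_eq_logHeight] at h4
  have h7 : (e : ℝ) * logHeight Y ≤ e * (totalWeight K * Real.log N + C1) := by
    refine mul_le_mul_of_nonneg_left ?_ (Nat.cast_nonneg _)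
    linarith
  linarith

/-- The estimates for one point. -/
theorem arith' {n e : ℕ} (L : Fin (n + 2) → Fin (n + 1) → K)
    (F : MvPolynomial (Fin (n + 1)) K) (hF : F.IsHomogeneous e)
    (eb : Fin (n + 1) ↪ Fin (n + 2)) (i0 : Fin (n + 2)) (α : Fin (n + 1) → K)
    (f : Fin (n + 1) → Fin (n + 1) → K) (he : ∀ k, eb k ≠ i0) (hα : ∀ l, α l ≠ 0)
    (hf1 : ∀ k l, ∑ j, L (eb k) j * f l j = if k = l then (α k)⁻¹ else 0)
    (hf2 : ∀ l, ∑ j, L i0 j * f l j = 1) :
    ∃ C : ℝ, 0 ≤ C ∧ ∀ (x : Fin (n + 1) → ℤ) (R M : ℕ) (Y : ℤ) (l0 : Fin (n + 1)), 1 ≤ R → 1 ≤ M →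
      Y ≠ 0 → (∀ l, ∃ A : ℕ, x l ∣ ((R : ℤ) * Y) ^ A) → (∃ A : ℕ, ∑ l, x l ∣ ((R : ℤ) * Y) ^ A) →
      (∀ g : ℤ, (∀ l, g ∣ x l) → IsUnit g) → x l0 ≠ 0 → (∀ l, |x l| ≤ |x l0|) →
      M * |Y| ≤ |x l0| → (∀ i, ∑ j, L i j * lc f (fun l => (x l : K)) j ≠ 0) →
      MvPolynomial.eval (lc f (fun l => (x l : K))) F ≠ 0 →
      {v : HeightOneSpectrum (𝓞 K) | Meets (e := e) L F (lc f (fun l => (x l : K))) v}.Finite ∧
      logHeight (lc f (fun l => (x l : K))) ≤ (totalWeight K : ℝ) * Real.log |(x l0 : ℝ)| + C ∧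
      ∀ T : Finset (HeightOneSpectrum (𝓞 K)),
        (∀ v ∈ T, Meets (e := e) L F (lc f (fun l => (x l : K))) v) →
        ∑ v ∈ T, ell v + (totalWeight K : ℝ) * (Real.log M - Real.log R) ≤
          ((e : ℝ) + 1) * logHeight (lc f (fun l => (x l : K))) + C := by
  classical
  have hcov : ∀ i, i = i0 ∨ ∃ k, eb k = i := by
    intro i
    by_contra hcon
    push Not at hcon
    have h1 : (insert i (insert i0 (univ.map eb)) : Finset (Fin (n + 2))).card = n + 3 := by
      rw [card_insert_of_notMem, card_insert_of_notMem, card_map, card_univ, Fintype.card_fin]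
      · intro h
        obtain ⟨k, -, hk⟩ := mem_map.1 h
        exact he k hk
      · intro h
        rcases mem_insert.1 h with h | h
        · exact hcon.1 h
        · obtain ⟨k, -, hk⟩ := mem_map.1 h
          exact hcon.2 k hk
    have h2 := Finset.card_le_univ (insert i (insert i0 (univ.map eb)) : Finset (Fin (n + 2)))
    rw [h1, Fintype.card_fin] at h2
    omega
  -- good primes
  obtain ⟨T1, hT1⟩ := exists_good (K := K) α
  obtain ⟨T2, hT2⟩ := exists_good (K := K) fun p : Fin (n + 1) × Fin (n + 1) => f p.1 p.2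
  obtain ⟨T3, hT3⟩ := exists_good (K := K) fun p : Fin (n + 2) × Fin (n + 1) => L p.1 p.2
  obtain ⟨T4, hT4⟩ := exists_good (K := K) fun s : F.support => F.coeff s
  set T0 := T1 ∪ T2 ∪ T3 ∪ T4 with hT0
  have hg1 : ∀ v ∉ T0, ∀ l, fv v (α l) ≤ 1 := fun v hv l =>
    hT1 v (fun h => hv (by simp [hT0, h])) l
  have hg2 : ∀ v ∉ T0, ∀ l j, fv v (f l j) ≤ 1 := fun v hv l j =>
    hT2 v (fun h => hv (by simp [hT0, h])) (l, j)
  have hg3 : ∀ v ∉ T0, ∀ i j, fv v (L i j) ≤ 1 := fun v hv i j =>
    hT3 v (fun h => hv (by simp [hT0, h])) (i, j)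
  have hg4 : ∀ v ∉ T0, ∀ s : F.support, fv v (F.coeff s) ≤ 1 := fun v hv s =>
    hT4 v (fun h => hv (by simp [hT0, h])) s
  -- constants
  obtain ⟨C3, hC3⟩ := logHeight₁_form f F hF
  set A1 : Fin (n + 1) × Fin (n + 1) → K := fun p => f p.2 p.1 with hA1
  set C2 : ℝ := totalWeight K * Real.log (Nat.card (Fin (n + 1))) + logHeight A1 with hC2
  set A2 : Fin (n + 1) × Fin (n + 1) → K := fun p => α p.1 * L (eb p.1) p.2 with hA2
  set C1 : ℝ := totalWeight K * Real.log (Nat.card (Fin (n + 1))) + logHeight A2 with hC1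
  set C0 : ℝ := ∑ v ∈ T0, ell v + C3 + (e + 1) * C1 with hC0
  refine ⟨|C0| + |C2|, by positivity,
    fun x R M Y l0 hR hM hY hxR hwR hx hl0 hmax hMY hne hFne => ?_⟩
  set z : Fin (n + 1) → K := fun l => (x l : K) with hz
  set P : Fin (n + 1) → K := lc f z with hP
  have hform : ∀ i, ∑ j, L i j * P j = ∑ l, (∑ j, L i j * f l j) * z l := fun i =>
    form_lc f z (L i)
  have hek : ∀ k, ∑ j, L (eb k) j * P j = (α k)⁻¹ * z k := by
    intro k
    rw [hform]
    simp only [hf1]
    simp
  have hi0 : ∑ j, L i0 j * P j = ((∑ l, x l : ℤ) : K) := by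
    rw [hform]
    simp only [hf2, one_mul, hz]
    push_cast
    rfl
  -- the height
  have hN1 : (1 : ℝ) ≤ |(x l0 : ℝ)| := by
    have : 1 ≤ |x l0| := Int.one_le_abs hl0
    exact_mod_cast this
  set N : ℝ := |(x l0 : ℝ)| with hN
  have hup : logHeight P ≤ (totalWeight K : ℝ) * Real.log N + C2 := by
    have h1 := logHeight_linearMap_apply_le A1 z
    have h2 : (fun j => ∑ i, A1 (j, i) * z i) = P := by
      funext j
      simp only [hA1, hP, lc]
      exact Finset.sum_congr rfl fun l _ => mul_comm _ _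
    rw [h2] at h1
    have h3 := logHeight_int_le (K := K) x l0 hl0 hmax
    rw [← hz, ← hN] at h3
    linarith
  have hdown : (totalWeight K : ℝ) * Real.log N ≤ logHeight P + C1 := by
    have h1 := logHeight_linearMap_apply_le A2 P
    have h2 : (fun j => ∑ i, A2 (j, i) * P i) = z := by
      funext k
      simp only [hA2]
      have : ∀ i, α k * L (eb k) i * P i = α k * (L (eb k) i * P i) := fun i => by ring
      rw [Finset.sum_congr rfl fun i _ => this i, ← Finset.mul_sum, hek, ← mul_assoc,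
        mul_inv_cancel₀ (hα k), one_mul]
    rw [h2] at h1
    have h3 := logHeight_ge_of (K := K) x hx l0 hl0
    rw [← hz, ← hN] at h3
    linarith
  -- the bad primes
  have hPle : ∀ v ∉ T0, (⨆ j, fv v (P j)) ≤ 1 := by
    intro v hv
    refine ciSup_le fun j => ?_
    rw [hP, lc]
    refine (IsNonarchimedean.finset_image_add_of_nonempty (f := fv v) (fv_na v)
      (fun l => z l * f l j) (t := univ) univ_nonempty).elim fun l hl => ?_
    refine hl.2.trans ?_
    rw [map_mul]
    exact mul_le_one₀ (fv_int v _) (apply_nonneg _ _) (hg2 v hv l j)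
  have hLle : ∀ v ∉ T0, ∀ i, (⨆ j, fv v (L i j)) ≤ 1 := fun v hv i =>
    ciSup_le fun j => hg3 v hv i j
  have hFle : ∀ v ∉ T0, (⨆ s : F.support, fv v (F.coeff s)) ≤ 1 := fun v hv =>
    Real.iSup_le (fun s => hg4 v hv s) zero_le_one
  have hR0 : ((R : ℕ) : K) ≠ 0 := by exact_mod_cast (by omega : R ≠ 0)
  set u : Fin 3 → K := ![(R : K), (Y : K), MvPolynomial.eval P F] with hu
  have hu0 : ∀ k, u k ≠ 0 := by
    intro k
    fin_cases k
    · exact hR0
    · simpa [hu] using hY
    · exact hFne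
  have hRY : ∀ v, (fv v ((R : ℕ) : K) < 1 ∨ fv v (Y : K) < 1) →
      ∃ k ∈ (univ : Finset (Fin 3)), fv v (u k) < 1 := by
    rintro v (h | h)
    · exact ⟨0, mem_univ _, h⟩
    · exact ⟨1, mem_univ _, h⟩
  have hbad : ∀ v, Meets (e := e) L F P v →
      v ∈ T0 ∨ ∃ k ∈ (univ : Finset (Fin 3)), fv v (u k) < 1 := by
    intro v hv'
    by_cases hv : v ∈ T0
    · exact Or.inl hv
    right
    rcases hv' with ⟨i, hi⟩ | hi
    · have h1 : fv v (∑ j, L i j * P j) < 1 := by
        refine hi.trans_le (mul_le_one₀ (hLle v hv i) ?_ (hPle v hv))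
        exact Real.iSup_nonneg fun j => apply_nonneg _ _
      rcases hcov i with rfl | ⟨k, hk⟩
      · rw [hi0] at h1
        obtain ⟨A, hA⟩ := hwR
        exact hRY v (fv_lt_of_dvd_pow' v _ R Y A hA h1)
      · rw [← hk, hek, map_mul, map_inv₀] at h1
        have h2 : fv v (z k) < 1 := by
          have h3 : 0 < fv v (α k) := AbsoluteValue.pos _ (hα k)
          have h4 : fv v (z k) < fv v (α k) := by
            rw [inv_mul_lt_iff₀ h3, mul_one] at h1
            exact h1
          exact h4.trans_le (hg1 v hv k)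
        obtain ⟨A, hA⟩ := hxR k
        exact hRY v (fv_lt_of_dvd_pow' v (x k) R Y A hA h2)
    · refine ⟨2, mem_univ _, ?_⟩
      refine hi.trans_le (mul_le_one₀ (hFle v hv) ?_ (pow_le_one₀ ?_ (hPle v hv)))
      · exact pow_nonneg (Real.iSup_nonneg fun j => apply_nonneg _ _) _
      · exact Real.iSup_nonneg fun j => apply_nonneg _ _
  refine ⟨?_, ?_, fun T hT => ?_⟩
  · have h1 : {v : HeightOneSpectrum (𝓞 K) | Meets (e := e) L F P v} ⊆
        (T0 : Set (HeightOneSpectrum (𝓞 K))) ∪
        ⋃ k, {v : HeightOneSpectrum (𝓞 K) | fv v (u k) ≠ 1} := by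
      intro v hv
      rcases hbad v hv with h | ⟨k, -, hk⟩
      · exact Or.inl h
      · exact Or.inr (Set.mem_iUnion.2 ⟨k, hk.ne⟩)
    exact ((Finset.finite_toSet T0).union (Set.finite_iUnion fun k =>
      fv_support_finite (hu0 k))).subset h1
  · have := le_abs_self C2
    have := abs_nonneg C0
    linarith
  · have h1 := sum_union_le univ u (fun k _ => hu0 k) T0 T
      fun v hv => hbad v (hT v hv)
    rw [Fin.sum_univ_three] at h1
    simp only [hu, Matrix.cons_val_zero, Matrix.cons_val_one, Matrix.cons_val] at h1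
    have h2 : logHeight₁ ((R : ℕ) : K) = (totalWeight K : ℝ) * Real.log R := logHeight₁_nat hR
    have hM1 : (0 : ℝ) < M := by exact_mod_cast hM
    have hy1 : (1 : ℝ) ≤ |(Y : ℝ)| := by
      have : 1 ≤ |Y| := Int.one_le_abs hY
      exact_mod_cast this
    have h3 : logHeight₁ ((Y : ℤ) : K) ≤ (totalWeight K : ℝ) * (Real.log N - Real.log M) := by
      refine (logHeight₁_int |(Y : ℝ)| hy1 le_rfl).trans ?_
      refine mul_le_mul_of_nonneg_left ?_ (Nat.cast_nonneg _)
      have hMY' : (M : ℝ) * |(Y : ℝ)| ≤ N := by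
        rw [hN]
        exact_mod_cast hMY
      have h5 := Real.log_le_log (by positivity) hMY'
      rw [Real.log_mul hM1.ne' (by positivity)] at h5
      linarith
    have h4 : logHeight₁ (MvPolynomial.eval P F) ≤
        (totalWeight K : ℝ) * (e * Real.log N) + C3 := hC3 x N hN1 fun l => by
      rw [hN]
      exact_mod_cast hmax l
    rw [h2] at h1
    have h6 : ((e : ℝ) + 1) * ((totalWeight K : ℝ) * Real.log N) ≤
        ((e : ℝ) + 1) * (logHeight P + C1) :=
      mul_le_mul_of_nonneg_left hdown (by positivity)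
    have h7 := le_abs_self C0
    have h8 := abs_nonneg C2
    have h9 : C0 = ∑ v ∈ T0, ell v + C3 + (e + 1) * C1 := hC0
    nlinarith

end Pool.Agent.X273.Voj
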