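import Pool.Agent.X273.Voj7
import Pool.Agent.H951R3.U.U2

set_option autoImplicit false

/-!
The points and their Zariski density.
-/

namespace Pool.Agent.X273.Voj

open NumberField IsDedekindDomain Height Finset Pool.Agent.W231.V Pool.Agent.H951R3.U

/-- stick breaking over a field -/
lemma stick' {K : Type*} [Field K] (k : ℕ) (Z M : ℕ → K) (hM : ∀ j < k, M j = Z j + M (j + 1))
    (hMk : M k = Z k) (hne : ∀ j ≤ k, M j ≠ 0) (j : ℕ) (hj : j ≤ k) :
    zc k (fun i => 1 - Z i / M i) (fun i => Z i / M i) (fun _ => 1) j = (M 0)⁻¹ * Z j := by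
  have h1 : ∀ n, n ≤ k → ∏ i ∈ range n, (1 - Z i / M i) = M n / M 0 := by
    intro n hn
    induction n with
    | zero => rw [range_zero, prod_empty, div_self (hne 0 (by omega))]
    | succ n ih =>
      rw [prod_range_succ, ih (by omega)]
      have e1 := hne 0 (by omega)
      have e2 := hne n (by omega)
      have e3 := hM n (by omega)
      have e4 : M (n + 1) = M n - Z n := by rw [e3]; ring
      rw [e4]
      field_simp
  have h0 := hne 0 (by omega)
  unfold zc
  split_ifs with h2 h3
  · rw [h1 j h2.le, prod_const_one, mul_one]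
    have := hne j h2.le
    field_simp
  · subst h3
    rw [h1 j le_rfl, hMk]
    field_simp
  · omega

variable {K : Type*} [Field K] [NumberField K]

lemma lc_smul {n : ℕ} (f : Fin (n + 1) → Fin (n + 1) → K) (g : K) (z : Fin (n + 1) → K) :
    lc f (fun l => g * z l) = fun j => g * lc f z j := by
  funext j
  simp only [lc, Finset.mul_sum, mul_assoc]

/-- Good values -/
def Good {n : ℕ} {Ω : Type*} [Field Ω] [Algebra K Ω] (L : Fin (n + 2) → Fin (n + 1) → K)
    (F : MvPolynomial (Fin (n + 1)) K) (f : Fin (n + 1) → Fin (n + 1) → K)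
    (G : MvPolynomial (Fin (n + 1)) Ω) (z : Fin (n + 1) → K) : Prop :=
  MvPolynomial.eval (fun j => algebraMap K Ω (lc f z j)) G ≠ 0 ∧
    MvPolynomial.eval (lc f z) F ≠ 0 ∧ ∀ i, ∑ j, L i j * lc f z j ≠ 0

lemma good_smul {n e δ : ℕ} {Ω : Type*} [Field Ω] [Algebra K Ω]
    (L : Fin (n + 2) → Fin (n + 1) → K)
    (F : MvPolynomial (Fin (n + 1)) K) (hF : F.IsHomogeneous e)
    (f : Fin (n + 1) → Fin (n + 1) → K)
    (G : MvPolynomial (Fin (n + 1)) Ω) (hG : G.IsHomogeneous δ) (z : Fin (n + 1) → K) (g : K)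
    (hg : g ≠ 0) : Good L F f G (fun l => g * z l) ↔ Good L F f G z := by
  unfold Good
  rw [lc_smul]
  simp only [map_mul]
  rw [eval_scale G hG, eval_scale F hF]
  have h1 : ∀ i, ∑ j, L i j * (g * lc f z j) = g * ∑ j, L i j * lc f z j := by
    intro i
    rw [Finset.mul_sum]
    exact Finset.sum_congr rfl fun j _ => by ring
  simp only [h1]
  have h2 : algebraMap K Ω g ≠ 0 := (map_ne_zero _).2 hg
  constructor
  · rintro ⟨a, b, c⟩
    exact ⟨right_ne_zero_of_mul a, right_ne_zero_of_mul b, fun i => right_ne_zero_of_mul (c i)⟩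
  · rintro ⟨a, b, c⟩
    exact ⟨mul_ne_zero (pow_ne_zero _ h2) a, mul_ne_zero (pow_ne_zero _ hg) b,
      fun i => mul_ne_zero hg (c i)⟩

/-- Schwartz–Zippel for the pulled back form -/
lemma exists_good_point {n e δ : ℕ} (L : Fin (n + 2) → Fin (n + 1) → K)
    (hgp : ∀ I : Finset (Fin (n + 2)), I.card = n + 1 → LinearIndependent K (fun i : I => L i))
    (F : MvPolynomial (Fin (n + 1)) K) (hF : F.IsHomogeneous e) (hF0 : F ≠ 0)
    (eb : Fin (n + 1) ↪ Fin (n + 2)) (i0 : Fin (n + 2)) (α : Fin (n + 1) → K)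
    (f : Fin (n + 1) → Fin (n + 1) → K)
    (hα : ∀ l, α l ≠ 0)
    (hf1 : ∀ k l, ∑ j, L (eb k) j * f l j = if k = l then (α k)⁻¹ else 0)
    (hf3 : ∀ i l, (∀ k, eb k ≠ i) → ∑ j, L i j * f l j ≠ 0)
    {Ω : Type*} [Field Ω] [Algebra K Ω] (G : MvPolynomial (Fin (n + 1)) Ω) (hG : G ≠ 0)
    (hGδ : G.IsHomogeneous δ) :
    ∃ d : ℕ, ∀ (s0 : ℤ) (C : Finset ℤ), s0 ≠ 0 → (∀ c ∈ C, c ≠ 0) → d < C.card →
      ∃ c : ℕ → ℤ, (∀ i, c i ∈ C) ∧
        Good L F f G (fun l => ((zc n (fun i => c i - s0) (fun _ => s0) c l : ℤ) : K)) := by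
  classical
  have hchar : CharZero Ω := charZero_of_injective_algebraMap (algebraMap K Ω).injective
  -- the pulled back form
  set S : Fin (n + 1) → MvPolynomial (Fin (n + 1)) Ω := fun j => ∑ l,
    MvPolynomial.C (algebraMap K Ω (f l j)) * MvPolynomial.X l with hS
  set Ft : MvPolynomial (Fin (n + 1)) Ω := MvPolynomial.bind₁ S G *
    MvPolynomial.bind₁ S (MvPolynomial.map (algebraMap K Ω) F) *
    ∏ i, lf Ω (fun l => ∑ j, L i j * f l j) with hFt
  have hbind : ∀ (H : MvPolynomial (Fin (n + 1)) Ω) (z : Fin (n + 1) → K),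
      MvPolynomial.eval (fun l => algebraMap K Ω (z l)) (MvPolynomial.bind₁ S H) =
      MvPolynomial.eval (fun j => algebraMap K Ω (lc f z j)) H := by
    intro H z
    rw [← MvPolynomial.coe_aeval_eq_eval, ← MvPolynomial.coe_aeval_eq_eval]
    simp only [RingHom.coe_coe]
    rw [MvPolynomial.aeval_bind₁]
    congr 2
    funext j
    simp only [hS, map_sum, map_mul, MvPolynomial.aeval_C, MvPolynomial.aeval_X, lc,
      Algebra.algebraMap_self, RingHom.id_apply]
    exact Finset.sum_congr rfl fun l _ => mul_comm _ _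
  have hmap : ∀ w : Fin (n + 1) → K, MvPolynomial.eval (fun j => algebraMap K Ω (w j))
      (MvPolynomial.map (algebraMap K Ω) F) = algebraMap K Ω (MvPolynomial.eval w F) := by
    intro w
    have h1 := MvPolynomial.aeval_algebraMap_apply (B := Ω) w F
    rw [MvPolynomial.eval_map, ← MvPolynomial.coe_aeval_eq_eval w, RingHom.coe_coe, ← h1,
      MvPolynomial.aeval_def]
    rfl
  have hev : ∀ z : Fin (n + 1) → K, MvPolynomial.eval (fun l => algebraMap K Ω (z l)) Ft ≠ 0 ↔
      Good L F f G z := by
    intro z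
    rw [hFt, map_mul, map_mul, map_prod, hbind, hbind, hmap]
    have h1 : ∏ i, MvPolynomial.eval (fun l => algebraMap K Ω (z l))
        (lf Ω (fun l => ∑ j, L i j * f l j)) = algebraMap K Ω (∏ i, ∑ j, L i j * lc f z j) := by
      rw [map_prod]
      refine Finset.prod_congr rfl fun i _ => ?_
      rw [lf_eval, form_lc]
    rw [h1]
    unfold Good
    constructor
    · intro h
      have a := left_ne_zero_of_mul h
      have c := right_ne_zero_of_mul h
      refine ⟨left_ne_zero_of_mul a, ?_, fun i => ?_⟩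
      · exact (map_ne_zero (algebraMap K Ω)).1 (right_ne_zero_of_mul a)
      · exact Finset.prod_ne_zero_iff.1 ((map_ne_zero (algebraMap K Ω)).1 c) i (Finset.mem_univ i)
    · rintro ⟨a, b, c⟩
      exact mul_ne_zero (mul_ne_zero a ((map_ne_zero (algebraMap K Ω)).2 b))
        ((map_ne_zero (algebraMap K Ω)).2 (Finset.prod_ne_zero_iff.2 fun i _ => c i))
  -- a good point
  set G' : MvPolynomial (Fin (n + 1)) Ω := G * MvPolynomial.map (algebraMap K Ω) F with hG'
  have hG'0 : G' ≠ 0 := mul_ne_zero hG fun h => hF0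
    (MvPolynomial.map_injective (algebraMap K Ω) (algebraMap K Ω).injective (by simpa using h))
  set zl : Fin (n + 1) → Fin (n + 1) → K := fun l j => α l * L (eb l) j with hzl
  have hzf : ∀ l k, ∑ j, zl l j * f k j = if l = k then 1 else 0 := by
    intro l k
    have h1 : ∀ j, zl l j * f k j = α l * (L (eb l) j * f k j) := fun j => by rw [hzl]; ring
    rw [Finset.sum_congr rfl fun j _ => h1 j, ← Finset.mul_sum, hf1]
    split_ifs
    · exact mul_inv_cancel₀ (hα l)
    · exact mul_zero _
  set tl : Fin (n + 1) → Fin (n + 1) → K := fun m j => ∑ l ∈ univ.filter (fun l => m ≤ l), zl l j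
    with htl
  obtain ⟨p, hp1, hp2⟩ := exists_point (K := K) G' hG'0 univ
    (fun k : Fin (n + 2) ⊕ Fin (n + 1) => Sum.elim L tl k) (by
      rintro (i | m) -
      · by_cases hi : ∃ k, eb k = i
        · obtain ⟨k, rfl⟩ := hi
          refine ⟨f k, ?_⟩
          simp only [Sum.elim_inl]
          rw [hf1, if_pos rfl]
          exact inv_ne_zero (hα k)
        · push Not at hi
          exact ⟨f 0, hf3 i 0 hi⟩
      · refine ⟨f (Fin.last n), ?_⟩
        simp only [Sum.elim_inr, htl]
        simp only [Finset.sum_mul]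
        rw [Finset.sum_comm]
        rw [Finset.sum_congr rfl fun l _ => hzf l (Fin.last n)]
        rw [Finset.sum_ite_eq', if_pos (by simp [Fin.le_last])]
        exact one_ne_zero)
  set z : Fin (n + 1) → K := fun l => ∑ j, zl l j * p j with hz
  have hzp : lc f z = p := by
    have h1 : lc f z - p = 0 := by
      refine gp_zero L hgp (univ.map eb) (by simp) _ fun i hi => ?_
      obtain ⟨k, _, rfl⟩ := mem_map.1 hi
      have h2 : ∑ j, L (eb k) j * (lc f z - p) j =
          ∑ j, L (eb k) j * lc f z j - ∑ j, L (eb k) j * p j := by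
        rw [← Finset.sum_sub_distrib]
        exact Finset.sum_congr rfl fun j _ => by rw [Pi.sub_apply]; ring
      rw [h2, form_lc]
      simp only [hf1]
      simp only [ite_mul, zero_mul, Finset.sum_ite_eq, Finset.mem_univ, if_true]
      have h3 : z k = α k * ∑ j, L (eb k) j * p j := by
        simp only [hz, hzl, Finset.mul_sum, mul_assoc]
      rw [h3, ← mul_assoc, inv_mul_cancel₀ (hα k), one_mul, sub_self]
    exact sub_eq_zero.1 h1
  have hgoodz : Good L F f G z := by
    refine ⟨?_, ?_, fun i => ?_⟩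
    · rw [hzp]
      intro h0
      apply hp1
      rw [hG', map_mul, h0, zero_mul]
    · rw [hzp]
      intro h0
      apply hp1
      rw [hG', map_mul, hmap, h0, map_zero, mul_zero]
    · rw [hzp]
      exact hp2 (Sum.inl i) (mem_univ _)
  -- tails
  set Z : ℕ → K := fun j => if h : j < n + 1 then z ⟨j, h⟩ else 0 with hZ
  set Mt : ℕ → K := fun j => if h : j < n + 1 then
    ∑ l ∈ univ.filter (fun l : Fin (n + 1) => (⟨j, h⟩ : Fin (n + 1)) ≤ l), z l else 0 with hMt
  have hMne : ∀ j ≤ n, Mt j ≠ 0 := by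
    intro j hj
    have h1 := hp2 (Sum.inr ⟨j, by omega⟩) (mem_univ _)
    simp only [Sum.elim_inr, htl] at h1
    simp only [Finset.sum_mul] at h1
    rw [Finset.sum_comm] at h1
    have h2 : Mt j = ∑ l ∈ univ.filter
        (fun l : Fin (n + 1) => (⟨j, by omega⟩ : Fin (n + 1)) ≤ l), ∑ x, zl l x * p x := by
      simp only [hMt]
      rw [dif_pos (by omega)]
    rw [h2]
    exact h1
  have hMrec : ∀ j < n, Mt j = Z j + Mt (j + 1) := by
    intro j hj
    simp only [hMt, hZ]
    rw [dif_pos (by omega), dif_pos (by omega), dif_pos (by omega)]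
    rw [← Finset.sum_insert]
    · refine Finset.sum_congr ?_ fun _ _ => rfl
      ext l
      simp only [mem_filter, mem_univ, true_and, mem_insert, Fin.le_def, Fin.ext_iff]
      omega
    · simp only [mem_filter, mem_univ, true_and, Fin.le_def]
      omega
  have hMn : Mt n = Z n := by
    simp only [hMt, hZ]
    rw [dif_pos (by omega), dif_pos (by omega)]
    rw [Finset.sum_eq_single_of_mem (⟨n, by omega⟩ : Fin (n + 1)) (by simp)]
    intro l hl hne
    simp only [mem_filter, mem_univ, true_and, Fin.le_def] at hl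
    exact absurd (Fin.ext (by simp only; omega)) hne
  -- the polynomial in `n` variables
  set V : ℕ → MvPolynomial (Fin n) Ω := fun i => if h : i < n then MvPolynomial.X ⟨i, h⟩ else 0
    with hV
  set H : MvPolynomial (Fin n) Ω := MvPolynomial.aeval
    (fun j : Fin (n + 1) => zc n (fun i => 1 - V i) V (fun _ => 1) j) Ft with hH
  have hevH : ∀ x : ℕ → K, MvPolynomial.eval (fun i : Fin n => algebraMap K Ω (x i)) H =
      MvPolynomial.eval (fun j : Fin (n + 1) =>
        algebraMap K Ω (zc n (fun i => 1 - x i) x (fun _ => 1) j)) Ft := by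
    intro x
    rw [hH, MvPolynomial.aeval_def, MvPolynomial.hom_eval₂, ← MvPolynomial.eval₂_id]
    have e1 : (MvPolynomial.eval (fun i : Fin n => algebraMap K Ω (x i))).comp
        (algebraMap Ω (MvPolynomial (Fin n) Ω)) = RingHom.id Ω := by
      ext; simp
    rw [e1]
    congr 1
    funext j
    rw [zc_map, zc_map]
    refine zc_congr n ?_ ?_ ?_ j
    · intro i hi
      simp [hV, hi]
    · intro i hi
      simp [hV, hi]
    · intro i hi
      simp
  have hH0 : H ≠ 0 := by
    intro h0
    have h1 := hevH fun i => Z i / Mt i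
    rw [h0, map_zero] at h1
    refine (hev _).2 ?_ h1.symm
    have h2 : (fun j : Fin (n + 1) => zc n (fun i => 1 - Z i / Mt i) (fun i => Z i / Mt i)
        (fun _ => 1) j) = fun l : Fin (n + 1) => (Mt 0)⁻¹ * z l := by
      funext l
      rw [stick' n Z Mt hMrec hMn hMne l (by omega)]
      congr 1
      simp only [hZ]
      rw [dif_pos l.2]
    rw [h2]
    exact (good_smul L F hF f G hGδ z _ (inv_ne_zero (hMne 0 (by omega)))).2 hgoodz
  refine ⟨H.totalDegree, fun s0 C hs0 hC hcard => ?_⟩
  by_contra hcon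
  push Not at hcon
  apply hH0
  have hs0K : ((s0 : ℤ) : K) ≠ 0 := by exact_mod_cast hs0
  have hinjT : Set.InjOn (fun c : ℤ => algebraMap K Ω ((s0 : K) / (c : K))) (C : Set ℤ) := by
    intro c hc c' hc' h
    simp only at h
    have h1 := (algebraMap K Ω).injective h
    have hc0 : ((c : ℤ) : K) ≠ 0 := by exact_mod_cast hC c hc
    have hc0' : ((c' : ℤ) : K) ≠ 0 := by exact_mod_cast hC c' hc'
    rw [div_eq_div_iff hc0 hc0'] at h1
    have h2 := mul_left_cancel₀ hs0K h1
    have h3 : c' = c := by exact_mod_cast h2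
    exact h3.symm
  refine MvPolynomial.eq_zero_of_eval_zero_at_prod_finset H
    (fun _ => C.image fun c : ℤ => algebraMap K Ω ((s0 : K) / (c : K))) (fun l => ?_) fun y hy => ?_
  · rw [Finset.card_image_of_injOn hinjT]
    exact (MvPolynomial.degreeOf_le_totalDegree H l).trans_lt hcard
  · choose c' hc' hcy using fun l => Finset.mem_image.1 (hy l)
    obtain ⟨c0, hc0⟩ : C.Nonempty := Finset.card_pos.1 (by omega)
    set c : ℕ → ℤ := fun i => if h : i < n then c' ⟨i, h⟩ else c0 with hc
    have hcC : ∀ i, c i ∈ C := by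
      intro i
      simp only [hc]
      split_ifs with h
      · exact hc' _
      · exact hc0
    have hyx : y = fun i : Fin n => algebraMap K Ω ((fun i : ℕ => (s0 : K) / (c i : K)) i) := by
      funext l
      rw [← hcy l]
      simp only [hc]
      rw [dif_pos l.2]
    rw [hyx, hevH (fun i : ℕ => (s0 : K) / (c i : K))]
    by_contra hne
    apply hcon c hcC
    have hgood := (hev _).1 hne
    have hck : ∀ i, ((c i : ℤ) : K) ≠ 0 := fun i => by exact_mod_cast hC _ (hcC i)
    have h2 : (fun l : Fin (n + 1) => ((zc n (fun i => c i - s0) (fun _ => s0) c l : ℤ) : K)) =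
        fun l : Fin (n + 1) => (∏ i ∈ range n, (c i : K)) * zc n (fun i => 1 - (s0 : K) / (c i : K))
          (fun i => (s0 : K) / (c i : K)) (fun _ => 1) l := by
      funext l
      rw [← zc_scale, ← eq_intCast (Int.castRingHom K), zc_map]
      refine zc_congr n ?_ ?_ ?_ l
      · intro i hi
        have := hck i
        simp only [eq_intCast, Int.cast_sub]
        field_simp
      · intro i hi
        have := hck i
        simp only [eq_intCast]
        field_simp
      · intro i hi
        simp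
    rw [h2]
    exact (good_smul L F hF f G hGδ _ _ (Finset.prod_ne_zero_iff.2 fun i _ => hck i)).2 hgood

end Pool.Agent.X273.Voj
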