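import Pool.Agent.X273.Voj8
import Pool.Agent.X273.Voj6
import Pool.Agent.X273.Voj5

set_option autoImplicit false

/-!
The lower bound for the error term, `n + 2` hyperplanes and a hypersurface.
-/

namespace Pool.Agent.X273.Voj

open NumberField IsDedekindDomain Height Finset Pool.Agent.W231.V Pool.Agent.H951R3.U Filter

lemma zc_abs (n : ℕ) (a b c : ℕ → ℤ) (W : ℤ) (hW : 0 ≤ W) (ha : ∀ i, |a i| ≤ W)
    (hb : ∀ i, |b i| ≤ W) (hc : ∀ i, |c i| ≤ W) (j : ℕ) : |zc n a b c j| ≤ W ^ n := by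
  have hprod : ∀ (s : Finset ℕ) (u : ℕ → ℤ), (∀ i, |u i| ≤ W) → |∏ i ∈ s, u i| ≤ W ^ s.card := by
    intro s u hu
    rw [Finset.abs_prod, ← Finset.prod_const]
    exact Finset.prod_le_prod (fun i _ => abs_nonneg _) fun i _ => hu i
  unfold zc
  split_ifs with h1 h2
  · rw [abs_mul, abs_mul]
    have e1 := hprod (range j) a ha
    have e2 := hprod (Ico (j + 1) n) c hc
    rw [Finset.card_range] at e1
    rw [Nat.card_Ico] at e2
    have e3 : W ^ n = W ^ j * W * W ^ (n - (j + 1)) := by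
      rw [← pow_succ, ← pow_add]
      congr 1
      omega
    rw [e3]
    have e4 : |∏ i ∈ range j, a i| * |b j| ≤ W ^ j * W :=
      mul_le_mul e1 (hb j) (abs_nonneg _) (by positivity)
    exact mul_le_mul e4 e2 (abs_nonneg _) (by positivity)
  · have e1 := hprod (range n) a ha
    rwa [Finset.card_range] at e1
  · have e1 := hprod (range n) c hc
    rw [Finset.card_range] at e1
    rwa [abs_neg]

/-- composed of the primes of `B` -/
def Sm (B a : ℤ) : Prop := ∃ A : ℕ, a ∣ B ^ A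

lemma Sm.mul {B a b : ℤ} (ha : Sm B a) (hb : Sm B b) : Sm B (a * b) := by
  obtain ⟨A, hA⟩ := ha
  obtain ⟨A', hA'⟩ := hb
  exact ⟨A + A', by rw [pow_add]; exact mul_dvd_mul hA hA'⟩

lemma Sm.prod {B : ℤ} {s : Finset ℕ} {u : ℕ → ℤ} (h : ∀ i ∈ s, Sm B (u i)) :
    Sm B (∏ i ∈ s, u i) :=
  Finset.prod_induction _ (Sm B) (fun _ _ => Sm.mul) ⟨0, by simp⟩ h

lemma Sm.of_dvd {B a b : ℤ} (hb : Sm B b) (h : a ∣ b) : Sm B a := by
  obtain ⟨A, hA⟩ := hb
  exact ⟨A, h.trans hA⟩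

lemma Sm.trans {B B' a : ℤ} (h : Sm B a) (h' : Sm B' B) : Sm B' a := by
  obtain ⟨A, hA⟩ := h
  obtain ⟨A', hA'⟩ := h'
  refine ⟨A' * A, hA.trans ?_⟩
  rw [pow_mul]
  exact pow_dvd_pow_of_dvd hA' _

lemma Sm.zc {B : ℤ} {n : ℕ} {a b c : ℕ → ℤ} (ha : ∀ i < n, Sm B (a i)) (hb : ∀ i < n, Sm B (b i))
    (hc : ∀ i < n, Sm B (c i)) (j : ℕ) (hj : j ≤ n) : Sm B (zc n a b c j) := by
  unfold Pool.Agent.H951R3.U.zc
  split_ifs with h1 h2
  · refine ((Sm.prod fun i hi => ha i ?_).mul (hb j h1)).mul (Sm.prod fun i hi => hc i ?_)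
    · have := mem_range.1 hi; omega
    · exact (mem_Ico.1 hi).2
  · exact Sm.prod fun i hi => ha i (mem_range.1 hi)
  · omega

variable {K : Type*} [Field K] [NumberField K]

theorem core' {n e : ℕ} (hn : 1 ≤ n) (L : Fin (n + 2) → Fin (n + 1) → K)
    (hgp : ∀ I : Finset (Fin (n + 2)), I.card = n + 1 → LinearIndependent K (fun i : I => L i))
    (F : MvPolynomial (Fin (n + 1)) K) (hF : F.IsHomogeneous e) (hF0 : F ≠ 0)
    {Ω : Type*} [Field Ω] [Algebra K Ω]
    (G : MvPolynomial (Fin (n + 1)) Ω) (hG : G ≠ 0) {δ : ℕ} (hGδ : G.IsHomogeneous δ) (B : ℝ) :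
    ∃ x : Fin (n + 1) → K, MvPolynomial.eval (fun j => algebraMap K Ω (x j)) G ≠ 0 ∧
      MvPolynomial.eval x F ≠ 0 ∧ (∀ i, ∑ j, L i j * x j ≠ 0) ∧
      {v : HeightOneSpectrum (𝓞 K) | Meets (e := e) L F x v}.Finite ∧ B ≤ logHeight x ∧
      ∀ T : Finset (HeightOneSpectrum (𝓞 K)), (∀ v ∈ T, Meets (e := e) L F x v) →
        ∑ v ∈ T, ell v + (1 / (192 * (n : ℝ) ^ 2)) *
          (logHeight x ^ ((n : ℝ) / (n + 1)) / Real.log (logHeight x)) ≤
          ((e : ℝ) + 1) * logHeight x := by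
  classical
  obtain ⟨eb, i0, α, f, he, hα, hf1, hf2, hf3⟩ := setup L hgp (by rw [Fintype.card_fin])
  obtain ⟨C, hC0, hC⟩ := arith' L F hF eb i0 α f he hα hf1 hf2
  obtain ⟨d, hd⟩ := exists_good_point L hgp F hF hF0 eb i0 α f hα hf1 hf3 G hG hGδ
  have hn' : (1 : ℝ) ≤ n := by exact_mod_cast hn
  have hD1 : 1 ≤ totalWeight K := totalWeight_pos K
  have hD1' : (1 : ℝ) ≤ (totalWeight K : ℝ) := by exact_mod_cast hD1
  set D : ℝ := (totalWeight K : ℝ) with hD
  set c1 : ℝ := 1 / (48 * n) with hc1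
  have hc1pos : 0 < c1 := by positivity
  set Q : ℝ := (e : ℝ) + 1 with hQ
  have hQ1 : 1 ≤ Q := by
    have : (0 : ℝ) ≤ e := Nat.cast_nonneg _
    linarith
  set B' : ℝ := max B (Real.exp 2) with hB'
  have hB'0 : 0 < B' := (Real.exp_pos 2).trans_le (le_max_right _ _)
  obtain ⟨E, hdata, h3, hE1, hE2, hE3⟩ := ((class_data n hn (d + 1)).and
    ((eventually_ge_atTop 3).and ((tend n hn (2 * C / (D * c1))).and ((tend n hn C).and
      (tend n hn ((Q * B' + C) / (D * c1))))))).exists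
  obtain ⟨P, t, A, hP, hPodd, hAcard, hA1, hA2, hAlog, hgain⟩ := hdata
  set X : ℝ := (E : ℝ) ^ n / Real.log E with hX
  have hE3' : (3 : ℝ) ≤ E := by exact_mod_cast h3
  have hlogE : 1 ≤ Real.log E := by
    rw [Real.le_log_iff_exp_le (by linarith)]
    have := Real.exp_one_lt_d9
    linarith
  -- the integers
  obtain ⟨a0, ha0⟩ : A.Nonempty := Finset.card_pos.1 (by omega)
  have hPE : 0 < P ^ E := by positivity
  have hApos : ∀ a ∈ A, a ≠ 0 := by
    rintro a ha rfl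
    have := hA1 0 ha
    rw [zero_dvd_iff] at this
    omega
  set S : Finset ℤ := (A.erase a0).image fun a : ℕ => (a : ℤ) with hS
  have hScard : d < S.card := by
    rw [hS, Finset.card_image_of_injective _ Nat.cast_injective, Finset.card_erase_of_mem ha0]
    omega
  obtain ⟨c, hcS, hgood⟩ := hd (a0 : ℤ) S (by exact_mod_cast hApos a0 ha0) (by
    intro c hc
    obtain ⟨a, ha, rfl⟩ := Finset.mem_image.1 hc
    exact_mod_cast hApos a (Finset.mem_of_mem_erase ha)) hScard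
  have hcA : ∀ i, ∃ a ∈ A, a ≠ a0 ∧ c i = (a : ℤ) := by
    intro i
    obtain ⟨a, ha, h⟩ := Finset.mem_image.1 (hcS i)
    exact ⟨a, Finset.mem_of_mem_erase ha, Finset.ne_of_mem_erase ha, h.symm⟩
  set s0 : ℤ := (a0 : ℤ) with hs0
  have hc0 : ∀ i, c i ≠ 0 := by
    intro i
    obtain ⟨a, ha, -, h⟩ := hcA i
    rw [h]
    exact_mod_cast hApos a ha
  have hs00 : s0 ≠ 0 := by
    rw [hs0]
    exact_mod_cast hApos a0 ha0
  have hcs : ∀ i, c i - s0 ≠ 0 := by
    intro i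
    obtain ⟨a, ha, hne, h⟩ := hcA i
    rw [h, hs0, sub_ne_zero]
    exact_mod_cast hne
  have hcdvd : ∀ i, (2 ^ t : ℤ) ∣ c i - s0 := by
    intro i
    obtain ⟨a, ha, -, h⟩ := hcA i
    rw [h]
    exact hA2 a ha a0 ha0
  choose y hy using hcdvd
  set x : Fin (n + 1) → ℤ := fun l => zc n (fun i => c i - s0) (fun _ => s0) c l with hx
  set Y' : ℤ := ∏ i ∈ range n, y i with hY'
  set M : ℕ := 2 ^ (t * n) with hM
  set R : ℕ := 2 * P with hR
  have hM1 : 1 ≤ M := Nat.one_le_two_pow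
  have hR1 : 1 ≤ R := by omega
  have hxlast : x (Fin.last n) = M * Y' := by
    have h1 : x (Fin.last n) = ∏ i ∈ range n, (c i - s0) := by
      simp only [hx, Fin.val_last]
      unfold Pool.Agent.H951R3.U.zc
      rw [if_neg (lt_irrefl n), if_pos rfl]
    rw [h1, Finset.prod_congr rfl fun i _ => hy i, Finset.prod_mul_distrib, Finset.prod_const,
      Finset.card_range, hM]
    push_cast
    rw [pow_mul]
  have hxsum : ∑ l, x l = ∏ i ∈ range n, c i := by
    have h1 := zc_sum n (fun i => c i - s0) (fun _ => s0) c fun i => by ring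
    rw [Finset.sum_range_succ] at h1
    have h2 : zc n (fun i => c i - s0) (fun _ => s0) c (n + 1) = -∏ i ∈ range n, c i := by
      unfold Pool.Agent.H951R3.U.zc
      rw [if_neg (by omega), if_neg (by omega)]
    rw [h2, ← Fin.sum_univ_eq_sum_range] at h1
    linarith
  have hx0 : ∀ l, x l ≠ 0 := by
    intro l
    simp only [hx]
    unfold Pool.Agent.H951R3.U.zc
    split_ifs with h1 h2
    · exact mul_ne_zero (mul_ne_zero (Finset.prod_ne_zero_iff.2 fun i _ => hcs i) hs00)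
        (Finset.prod_ne_zero_iff.2 fun i _ => hc0 i)
    · exact Finset.prod_ne_zero_iff.2 fun i _ => hcs i
    · exact neg_ne_zero.2 (Finset.prod_ne_zero_iff.2 fun i _ => hc0 i)
  have hcP : ∀ i, c i ∣ (P : ℤ) ^ E := by
    intro i
    obtain ⟨a, ha, -, h⟩ := hcA i
    rw [h]
    exact_mod_cast hA1 a ha
  have hsP : s0 ∣ (P : ℤ) ^ E := by
    rw [hs0]
    exact_mod_cast hA1 a0 ha0
  -- divide by the gcd
  obtain ⟨x', hx'1, hx'2⟩ := Finset.extract_gcd (s := (univ : Finset (Fin (n + 1)))) x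
    Finset.univ_nonempty
  set g : ℤ := univ.gcd x with hg
  have hxx' : ∀ l, x l = g * x' l := fun l => hx'1 l (Finset.mem_univ l)
  have hg0 : g ≠ 0 := by
    intro h
    have := hxx' 0
    rw [h, zero_mul] at this
    exact hx0 0 this
  have hx'0 : ∀ l, x' l ≠ 0 := by
    intro l h
    have := hxx' l
    rw [h, mul_zero] at this
    exact hx0 l this
  have hcop : ∀ g' : ℤ, (∀ l, g' ∣ x' l) → IsUnit g' := by
    intro g' hg'
    have h1 : g' ∣ univ.gcd x' := Finset.dvd_gcd fun l _ => hg' l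
    rw [hx'2] at h1
    exact isUnit_of_dvd_one h1
  have hsum' : g * ∑ l, x' l = ∏ i ∈ range n, c i := by
    rw [← hxsum, Finset.mul_sum]
    exact Finset.sum_congr rfl fun l _ => (hxx' l).symm
  have hgP : Sm (P : ℤ) g := by
    have h1 : Sm (P : ℤ) (∏ i ∈ range n, c i) := Sm.prod fun i _ => ⟨E, hcP i⟩
    exact h1.of_dvd ⟨_, hsum'.symm⟩
  have hgM : IsCoprime g (M : ℤ) := by
    obtain ⟨A', hA'⟩ := hgP
    refine IsCoprime.of_isCoprime_of_dvd_left ?_ hA'
    rw [hM]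
    push_cast
    refine IsCoprime.pow ?_
    have h2 : Nat.Coprime P 2 := hPodd.coprime_two_right
    exact_mod_cast Nat.isCoprime_iff_coprime.2 h2
  obtain ⟨Y, hY⟩ : g ∣ Y' := by
    have h1 : g ∣ (M : ℤ) * Y' := by
      rw [← hxlast]
      exact ⟨_, hxx' _⟩
    exact hgM.dvd_of_dvd_mul_left h1
  have hx'last : x' (Fin.last n) = M * Y := by
    have h1 := hxx' (Fin.last n)
    rw [hxlast, hY] at h1
    have h2 : g * ((M : ℤ) * Y) = g * x' (Fin.last n) := by rw [← h1]; ring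
    exact (mul_left_cancel₀ hg0 h2).symm
  have hY0 : Y ≠ 0 := by
    rintro rfl
    apply hx'0 (Fin.last n)
    rw [hx'last, mul_zero]
  -- smoothness
  have hRdvd : Sm ((R : ℤ) * Y) (P : ℤ) := ⟨1, by rw [hR]; push_cast; exact ⟨2 * Y, by ring⟩⟩
  have h2dvd : Sm ((R : ℤ) * Y) 2 := ⟨1, by rw [hR]; push_cast; exact ⟨P * Y, by ring⟩⟩
  have hYdvd : Sm ((R : ℤ) * Y) Y := ⟨1, by rw [pow_one]; exact Dvd.intro_left _ rfl⟩
  have hY'Sm : Sm ((R : ℤ) * Y) Y' := by
    rw [hY]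
    exact (hgP.trans hRdvd).mul hYdvd
  have hcSm : ∀ i < n, Sm ((R : ℤ) * Y) (c i) := fun i _ =>
    Sm.trans (B := (P : ℤ)) ⟨E, hcP i⟩ hRdvd
  have hsSm : ∀ i < n, Sm ((R : ℤ) * Y) ((fun _ : ℕ => s0) i) := fun i _ =>
    Sm.trans (B := (P : ℤ)) ⟨E, hsP⟩ hRdvd
  have hcsSm : ∀ i < n, Sm ((R : ℤ) * Y) (c i - s0) := by
    intro i hi
    rw [hy i]
    refine Sm.mul (Sm.trans (B := 2) ⟨t, dvd_rfl⟩ h2dvd) (hY'Sm.of_dvd ?_)
    exact Finset.dvd_prod_of_mem y (Finset.mem_range.2 hi)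
  have hxSm : ∀ l, Sm ((R : ℤ) * Y) (x' l) := by
    intro l
    have h1 : Sm ((R : ℤ) * Y) (x l) := Sm.zc hcsSm hsSm hcSm l (by omega)
    exact h1.of_dvd (Dvd.intro_left g (hxx' l).symm)
  have hwSm : Sm ((R : ℤ) * Y) (∑ l, x' l) := by
    have h1 : Sm ((R : ℤ) * Y) (∏ i ∈ range n, c i) :=
      Sm.prod fun i hi => hcSm i (Finset.mem_range.1 hi)
    exact h1.of_dvd (Dvd.intro_left g hsum')
  obtain ⟨l0, hl0⟩ := Finite.exists_max fun l => |x' l|
  have hMY : (M : ℤ) * |Y| ≤ |x' l0| := by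
    have h1 := hl0 (Fin.last n)
    rw [hx'last, abs_mul, Nat.abs_cast] at h1
    exact h1
  have hlcx : (fun l => (x l : K)) = fun l => (g : K) * (x' l : K) := by
    funext l
    rw [hxx' l]
    push_cast
    rfl
  have hgood' : Good L F f G (fun l => (x' l : K)) := by
    have h1 : Good L F f G (fun l => (x l : K)) := hgood
    rw [hlcx] at h1
    exact (good_smul L F hF f G hGδ _ _ (by exact_mod_cast hg0)).1 h1
  set Pt : Fin (n + 1) → K := lc f (fun l => (x' l : K)) with hPt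
  obtain ⟨hPG, hPF, hPL⟩ := hgood'
  obtain ⟨hfin, hup, hlow⟩ := hC x' R M Y l0 hR1 hM1 hY0 hxSm hwSm hcop (hx'0 l0) hl0 hMY hPL hPF
  set h := logHeight Pt with hh
  -- the height of the integers
  have hN : Real.log |(x' l0 : ℝ)| ≤ n * (E : ℝ) ^ (n + 1) := by
    refine le_trans ?_ hAlog
    have h1 : |x' l0| ≤ |x l0| := by
      rw [hxx' l0, abs_mul]
      have : 1 ≤ |g| := Int.one_le_abs hg0
      nlinarith [abs_nonneg (x' l0)]
    have hW : ∀ a : ℤ, a ∣ (P : ℤ) ^ E → |a| ≤ (P : ℤ) ^ E := fun a ha =>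
      Int.le_of_dvd (by positivity) ((abs_dvd _ _).2 ha)
    have hcpos : ∀ i, 0 ≤ c i := by
      intro i
      obtain ⟨a, ha, -, h⟩ := hcA i
      rw [h]
      positivity
    have h2 : |x l0| ≤ ((P : ℤ) ^ E) ^ n := by
      refine zc_abs n _ _ _ _ (by positivity) (fun i => ?_) (fun i => hW _ hsP)
        (fun i => hW _ (hcP i)) _
      have h3 := hW _ (hcP i)
      have h4 := hW _ hsP
      rw [abs_of_nonneg (hcpos i)] at h3
      rw [abs_of_nonneg (by rw [hs0]; positivity)] at h4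
      rw [abs_le]
      have h5 : 0 ≤ s0 := by rw [hs0]; positivity
      constructor <;> linarith [hcpos i]
    have h3 : |(x' l0 : ℝ)| ≤ ((P : ℝ) ^ E) ^ n := by exact_mod_cast h1.trans h2
    have h4 := Real.log_le_log (abs_pos.2 (by exact_mod_cast hx'0 l0)) h3
    rw [Real.log_pow, Real.log_pow] at h4
    exact h4
  have hXX : X ≤ (E : ℝ) ^ (n + 1) := by
    rw [hX, div_le_iff₀ (by linarith)]
    have h4 : (0 : ℝ) < (E : ℝ) ^ n := by positivity
    have h5 : (E : ℝ) ^ (n + 1) = (E : ℝ) ^ n * E := pow_succ _ _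
    rw [h5]
    have h6 : (E : ℝ) ^ n * 1 ≤ (E : ℝ) ^ n * E * Real.log E := by
      rw [mul_assoc]
      refine mul_le_mul_of_nonneg_left ?_ h4.le
      nlinarith
    linarith
  have hhup : h ≤ 2 * ((totalWeight K * n : ℕ) : ℝ) * (E : ℝ) ^ (n + 1) := by
    have h4 : D * Real.log |(x' l0 : ℝ)| ≤ D * (n * (E : ℝ) ^ (n + 1)) :=
      mul_le_mul_of_nonneg_left hN (by linarith)
    have h5 : C ≤ (E : ℝ) ^ (n + 1) := hE2.trans hXX
    have h6 : 1 * (E : ℝ) ^ (n + 1) ≤ (D * n) * (E : ℝ) ^ (n + 1) := by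
      refine mul_le_mul_of_nonneg_right ?_ (by positivity)
      nlinarith
    push_cast
    rw [← hD]
    nlinarith
  have hlogMR : Real.log M - Real.log R = n * (t * Real.log 2) - (Real.log P + Real.log 2) := by
    have hP0 : (P : ℝ) ≠ 0 := by exact_mod_cast (by omega : P ≠ 0)
    rw [hM, hR]
    push_cast
    rw [Real.log_pow, Real.log_mul (by norm_num) hP0]
    push_cast
    ring
  rw [hlogMR] at hlow
  have hgain' : D * (c1 * X) ≤ D * (n * (t * Real.log 2) - (Real.log P + Real.log 2)) :=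
    mul_le_mul_of_nonneg_left hgain (by linarith)
  rw [div_le_iff₀ (by positivity)] at hE1 hE3
  have hhB : B' ≤ h := by
    have h4 := hlow ∅ (by simp)
    rw [Finset.sum_empty, zero_add] at h4
    have h5 : Q * B' ≤ Q * h := by nlinarith
    exact le_of_mul_le_mul_left h5 (by linarith)
  refine ⟨Pt, hPG, hPF, hPL, hfin, (le_max_left _ _).trans hhB, fun T hT => ?_⟩
  have h4 := hlow T hT
  have h5 := err_le n (totalWeight K * n) E hn (Nat.mul_pos hD1 hn) h3 h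
    ((le_max_right _ _).trans hhB) hhup
  have h6 : (1 / (192 * (n : ℝ) ^ 2)) * (h ^ ((n : ℝ) / (n + 1)) / Real.log h) ≤
      (1 / (192 * (n : ℝ) ^ 2)) * (2 * ((totalWeight K * n : ℕ) : ℝ) * X) :=
    mul_le_mul_of_nonneg_left h5 (by positivity)
  have h7 : (1 / (192 * (n : ℝ) ^ 2)) * (2 * ((totalWeight K * n : ℕ) : ℝ) * X) =
      (D * (c1 * X)) / 2 := by
    rw [hc1]
    push_cast
    rw [← hD]
    field_simp
    ring
  linarith

end Pool.Agent.X273.Voj
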